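import Pool.Agent.Lib_helper15.LSPF.PG2

set_option autoImplicit false

namespace Pool.Agent.LSPP

open Pool.Agent.LSP (tau sg1 CC Gs Adm)
open Pool.Agent.LSPO (hyp cl KK rho b1 GOK)
open Pool.Agent.FG61 (mu phi cc)
open MeasureTheory Filter Topology

theorem pg_large {A B κ : ℝ} (h0 : 0 < κ) : ∃ X₀ : ℝ, ∀ X : ℝ, X₀ ≤ X →
    1 ≤ X ∧ 1 ≤ Real.log X ∧ B ≤ X ^ (1 / 2 : ℝ) ∧ A * Real.log X ^ 3 ≤ X ^ κ := by
  have e0 : ∀ᶠ X : ℝ in atTop, 1 ≤ X := eventually_ge_atTop 1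
  have e1 : ∀ᶠ X : ℝ in atTop, 1 ≤ Real.log X := Real.tendsto_log_atTop.eventually_ge_atTop 1
  have e3 : ∀ᶠ X : ℝ in atTop, B ≤ X ^ (1 / 2 : ℝ) :=
    (tendsto_rpow_atTop (by norm_num)).eventually_ge_atTop B
  have e5 : ∀ᶠ X : ℝ in atTop, A * Real.log X ^ 3 ≤ X ^ κ := by
    have h := isLittleO_log_rpow_rpow_atTop (3 : ℝ) h0
    have h2 := h.bound (show (0 : ℝ) < 1 / (|A| + 1) by positivity)
    filter_upwards [h2, eventually_ge_atTop 1] with X h3 h4
    have h5 : 0 ≤ Real.log X := Real.log_nonneg h4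
    rw [Real.norm_of_nonneg (Real.rpow_nonneg h5 _), Real.norm_of_nonneg
      (Real.rpow_nonneg (by linarith) _)] at h3
    have h6 : Real.log X ^ (3 : ℝ) = Real.log X ^ 3 := by
      rw [← Real.rpow_natCast]
      norm_num
    rw [h6] at h3
    have h7 : 0 ≤ X ^ κ := Real.rpow_nonneg (by linarith) _
    calc A * Real.log X ^ 3 ≤ (|A| + 1) * Real.log X ^ 3 := by
          apply mul_le_mul_of_nonneg_right _ (by positivity)
          linarith [le_abs_self A]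
      _ ≤ (|A| + 1) * (1 / (|A| + 1) * X ^ κ) := by gcongr
      _ = X ^ κ := by field_simp
  obtain ⟨X₀, hX⟩ := eventually_atTop.1 (e0.and (e1.and (e3.and e5)))
  exact ⟨X₀, fun X h => hX X h⟩

/-- `pgP (2+U+1/om) + pgB/om` for the powers of `X` -/
theorem pg_W {U c₀ X κ : ℝ} (hU : 1 ≤ U) (hc : 1 ≤ c₀) (hX : 1 ≤ X) (h0 : 0 < κ) :
    pgP U c₀ (X ^ (-(3 * κ))) (X ^ (-(4 * κ))) * (2 + U + 1 / X ^ (-(4 * κ))) +
      pgB U c₀ (X ^ (-(3 * κ))) (X ^ (-(4 * κ))) / X ^ (-(4 * κ)) ≤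
      c₀ * (70 + 2 * U) * (4 + U) * X ^ (16 * κ) := by
  have hX0 : 0 < X := by linarith
  set Y := X ^ κ with hY
  have hY1 : 1 ≤ Y := Real.one_le_rpow hX h0.le
  have e3 : 1 / X ^ (-(3 * κ)) = Y ^ 3 := by
    rw [Real.rpow_neg hX0.le, one_div, inv_inv, hY, ← Real.rpow_natCast, ← Real.rpow_mul hX0.le]
    congr 1; push_cast; ring
  have e4 : 1 / X ^ (-(4 * κ)) = Y ^ 4 := by
    rw [Real.rpow_neg hX0.le, one_div, inv_inv, hY, ← Real.rpow_natCast, ← Real.rpow_mul hX0.le]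
    congr 1; push_cast; ring
  have e16 : X ^ (16 * κ) = Y ^ 16 := by
    rw [hY, ← Real.rpow_natCast, ← Real.rpow_mul hX0.le]
    congr 1; push_cast; ring
  have p3 : Y ^ 3 ≤ Y ^ 4 := pow_le_pow_right₀ hY1 (by norm_num)
  have p4 : 1 ≤ Y ^ 4 := one_le_pow₀ hY1
  have p8 : Y ^ 8 ≤ Y ^ 12 := pow_le_pow_right₀ hY1 (by norm_num)
  have p8' : Y ^ 8 ≤ Y ^ 16 := pow_le_pow_right₀ hY1 (by norm_num)
  have hB : pgB U c₀ (X ^ (-(3 * κ))) (X ^ (-(4 * κ))) ≤ c₀ * (6 + 2 * U) * Y ^ 4 := by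
    unfold pgB
    rw [e3, e4]
    have : 4 + 2 * U + Y ^ 3 + Y ^ 4 ≤ (6 + 2 * U) * Y ^ 4 := by nlinarith
    calc c₀ * (4 + 2 * U + Y ^ 3 + Y ^ 4) ≤ c₀ * ((6 + 2 * U) * Y ^ 4) := by gcongr
      _ = c₀ * (6 + 2 * U) * Y ^ 4 := by ring
  have hBo : pgB U c₀ (X ^ (-(3 * κ))) (X ^ (-(4 * κ))) / X ^ (-(4 * κ)) ≤
      c₀ * (6 + 2 * U) * Y ^ 8 := by
    rw [div_eq_mul_one_div, e4]
    calc pgB U c₀ (X ^ (-(3 * κ))) (X ^ (-(4 * κ))) * Y ^ 4 ≤ c₀ * (6 + 2 * U) * Y ^ 4 * Y ^ 4 := by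
          gcongr
      _ = c₀ * (6 + 2 * U) * Y ^ 8 := by ring
  have hP : pgP U c₀ (X ^ (-(3 * κ))) (X ^ (-(4 * κ))) ≤ c₀ * (70 + 2 * U) * Y ^ 12 := by
    unfold pgP
    have f1 : 2 / X ^ (-(3 * κ)) + 2 / X ^ (-(4 * κ)) ≤ 4 * Y ^ 4 := by
      have g1 : 2 / X ^ (-(3 * κ)) = 2 * Y ^ 3 := by rw [← e3]; ring
      have g2 : 2 / X ^ (-(4 * κ)) = 2 * Y ^ 4 := by rw [← e4]; ring
      rw [g1, g2]; linarith
    have f2 : 0 ≤ 2 / X ^ (-(3 * κ)) + 2 / X ^ (-(4 * κ)) := by positivity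
    calc c₀ * (2 / X ^ (-(3 * κ)) + 2 / X ^ (-(4 * κ))) ^ 3 +
          pgB U c₀ (X ^ (-(3 * κ))) (X ^ (-(4 * κ))) / X ^ (-(4 * κ))
        ≤ c₀ * (4 * Y ^ 4) ^ 3 + c₀ * (6 + 2 * U) * Y ^ 8 := by
          apply add_le_add _ hBo
          gcongr
      _ ≤ c₀ * (4 * Y ^ 4) ^ 3 + c₀ * (6 + 2 * U) * Y ^ 12 := by gcongr
      _ = c₀ * (70 + 2 * U) * Y ^ 12 := by ring
  rw [e4, e16]
  have f4 : 2 + U + Y ^ 4 ≤ (3 + U) * Y ^ 4 := by nlinarith
  calc pgP U c₀ (X ^ (-(3 * κ))) (X ^ (-(4 * κ))) * (2 + U + Y ^ 4) +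
        pgB U c₀ (X ^ (-(3 * κ))) (X ^ (-(4 * κ))) / X ^ (-(4 * κ))
      ≤ c₀ * (70 + 2 * U) * Y ^ 12 * ((3 + U) * Y ^ 4) + c₀ * (6 + 2 * U) * Y ^ 8 := by
        apply add_le_add _ hBo
        apply mul_le_mul hP f4 (by positivity) (by positivity)
    _ ≤ c₀ * (70 + 2 * U) * Y ^ 12 * ((3 + U) * Y ^ 4) + c₀ * (6 + 2 * U) * Y ^ 16 := by gcongr
    _ ≤ c₀ * (70 + 2 * U) * Y ^ 12 * ((3 + U) * Y ^ 4) + c₀ * (70 + 2 * U) * Y ^ 16 := by
        gcongr; norm_num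
    _ = c₀ * (70 + 2 * U) * (4 + U) * Y ^ 16 := by ring

/-- `M5` is Lipschitz in the centre -/
theorem pg_lip {G : ℝ → ℝ} {U c₀ : ℝ} (hG : GOK G U c₀) {κ : ℝ} (h0 : 0 < κ) (h1 : κ ≤ 1 / 1000) :
    ∃ X₀ : ℝ, ∀ X : ℝ, X₀ ≤ X → ∀ (Q : ℕ) (C : ℕ → ℝ), CK κ X Q C → ∀ S : Finset ℤ, 0 ∉ S →
    ∀ s t : ℝ, 1 ≤ s → 1 ≤ t →
      |M5 C G Q S ⌊X ^ (6 * κ)⌋₊ (X ^ (-(4 * κ))) (t * X) -
        M5 C G Q S ⌊X ^ (6 * κ)⌋₊ (X ^ (-(4 * κ))) (s * X)| ≤ X ^ (20 * κ) * |t - s| := by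
  obtain ⟨Cτ, hC1, hCτ⟩ := tau_le (ε := κ / 1000) (by positivity)
  have hU := hG.one_le
  have hc := hG.one_le'
  -- the constant
  set A : ℝ := 4 * Real.pi * (4 * (2 * U * Cτ)) * (128 * (Cτ * Cτ)) *
    (c₀ * (70 + 2 * U) * (4 + U)) * U with hA
  obtain ⟨X₀, hX₀⟩ := pg_large (A := A) (B := U) h0
  refine ⟨X₀, fun X hX Q C hck S hS s t hs ht => ?_⟩
  obtain ⟨hX1, hl1, hUX, hAX⟩ := hX₀ X hX
  have hX0 : 0 < X := by linarith
  set R := ⌊X ^ (6 * κ)⌋₊ with hR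
  set om := X ^ (-(4 * κ)) with hom
  set u₀ := X ^ (-(3 * κ)) with hu₀d
  have hom0 : 0 < om := Real.rpow_pos_of_pos hX0 _
  have hu₀0 : 0 < u₀ := Real.rpow_pos_of_pos hX0 _
  set L := Real.log X with hL
  -- logs
  have hlogR : Real.log R ≤ L := by
    rcases Nat.eq_zero_or_pos R with h | h
    · rw [h]; simp; linarith
    · have e1 : (R : ℝ) ≤ X ^ (6 * κ) := Nat.floor_le (by positivity)
      have e2 : Real.log R ≤ Real.log (X ^ (6 * κ)) :=
        Real.log_le_log (by exact_mod_cast h) e1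
      rw [Real.log_rpow hX0] at e2
      have : 6 * κ * Real.log X ≤ 1 * Real.log X := by
        apply mul_le_mul_of_nonneg_right _ (by linarith)
        linarith
      linarith
  have hlogR0 : 0 ≤ Real.log R := Real.log_natCast_nonneg R
  have hQ2 : (Q : ℝ) ≤ X ^ (1 + 3 * κ) :=
    hck.size.trans (Real.rpow_le_rpow_of_exponent_le hX1 (by linarith))
  have hQ3 : (Q : ℝ) ≤ X ^ (3 / 2 : ℝ) :=
    hQ2.trans (Real.rpow_le_rpow_of_exponent_le hX1 (by linarith))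
  have hlogn : ∀ n : ℕ, 1 ≤ n → n ≤ Q → Real.log n ≤ 2 * L := by
    intro n hn hnQ
    have e1 : (n : ℝ) ≤ X ^ (2 : ℝ) := by
      have : (n : ℝ) ≤ Q := by exact_mod_cast hnQ
      exact this.trans (hQ3.trans (Real.rpow_le_rpow_of_exponent_le hX1 (by norm_num)))
    have e2 := Real.log_le_log (by exact_mod_cast hn) e1
    rwa [Real.log_rpow hX0] at e2
  have hlogQ : Real.log Q ≤ 2 * L := by
    rcases Nat.eq_zero_or_pos Q with h | h
    · rw [h]; simp; linarith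
    · exact hlogn Q h le_rfl
  -- tau
  have hτ : ∀ m : ℕ, (m : ℝ) ≤ X ^ (2 : ℝ) → tau m ≤ Cτ * X ^ (κ / 500) := by
    intro m hm
    refine (hCτ m).trans ?_
    apply mul_le_mul_of_nonneg_left _ (by linarith)
    calc (m : ℝ) ^ (κ / 1000) ≤ (X ^ (2 : ℝ)) ^ (κ / 1000) :=
          Real.rpow_le_rpow (Nat.cast_nonneg _) hm (by positivity)
      _ = X ^ (κ / 500) := by
          rw [← Real.rpow_mul hX0.le]; congr 1; ring
  have hτ0 : ∀ m : ℕ, 0 ≤ tau m := fun m => by unfold tau; positivity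
  have hUQX : U * Q / X ≤ X ^ (2 : ℝ) := by
    rw [div_le_iff₀ hX0]
    calc U * Q ≤ X ^ (1 / 2 : ℝ) * X ^ (3 / 2 : ℝ) := by gcongr
      _ = X ^ (2 : ℝ) := by rw [← Real.rpow_add hX0]; norm_num
      _ ≤ X ^ (2 : ℝ) * X := by
          have : 0 ≤ X ^ (2 : ℝ) := by positivity
          exact le_mul_of_one_le_right this hX1
  set W := c₀ * (70 + 2 * U) * (4 + U) * X ^ (16 * κ) with hW
  have hW0 : 0 ≤ W := by positivity
  have hW' := pg_W (U := U) (c₀ := c₀) hU hc hX1 h0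
  -- the term
  have hterm : ∀ n ∈ Finset.Icc 1 Q, ∀ g ∈ S,
      |pgT G R om n g (t * X) - pgT G R om n g (s * X)| ≤
      if |(g : ℝ)| ≤ U * Q / X then
        (W * (128 * L ^ 2 * ((Cτ * X ^ (κ / 500)) * (Cτ * X ^ (κ / 500))))) * U * |t - s| else 0 := by
    intro n hn g hg
    rw [Finset.mem_Icc] at hn
    have hn0 : (0 : ℝ) < n := by exact_mod_cast hn.1
    have hg0 : g ≠ 0 := fun h => hS (h ▸ hg)
    have hg1 : 1 ≤ |(g : ℝ)| := by
      have : (1 : ℤ) ≤ |g| := Int.one_le_abs hg0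
      exact_mod_cast this
    have hnQ : (n : ℝ) ≤ Q := by exact_mod_cast hn.2
    have hu : u₀ ≤ |(g : ℝ)| * X / n := by
      rw [le_div_iff₀ hn0]
      calc u₀ * n ≤ X ^ (-(3 * κ)) * X ^ (1 + 3 * κ) := by
            rw [hu₀d]
            apply mul_le_mul_of_nonneg_left (hnQ.trans hQ2) (by positivity)
        _ = X := by rw [← Real.rpow_add hX0]; simp
        _ ≤ |(g : ℝ)| * X := by nlinarith
    refine (pg_term_lip hG hu₀0 hom0 hX0 hn.1 hg0 hu hs ht).trans ?_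
    by_cases h : |(g : ℝ)| ≤ U * n / X
    · have h2 : |(g : ℝ)| ≤ U * Q / X := by
        refine h.trans ?_
        gcongr
      rw [if_pos h, if_pos h2]
      have e1 := pg_ab (R := R) hn.1 hg0
      have e2 : |pga R n g| + |pgb R n g| ≤
          128 * L ^ 2 * ((Cτ * X ^ (κ / 500)) * (Cτ * X ^ (κ / 500))) := by
        refine e1.trans ?_
        have f1 : 1 + Real.log R ≤ 2 * L := by linarith
        have f2 : 1 + Real.log n + Real.log R ≤ 4 * L := by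
          have := hlogn n hn.1 hn.2
          linarith
        have f3 : tau n ≤ Cτ * X ^ (κ / 500) := hτ n (hnQ.trans (hQ3.trans
          (Real.rpow_le_rpow_of_exponent_le hX1 (by norm_num))))
        have f4 : tau g.natAbs ≤ Cτ * X ^ (κ / 500) := by
          apply hτ
          rw [Nat.cast_natAbs, Int.cast_abs]
          exact h2.trans hUQX
        have f5 : 0 ≤ Real.log n := Real.log_natCast_nonneg n
        calc 16 * (1 + Real.log R) * (1 + Real.log n + Real.log R) * (tau n * tau g.natAbs)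
            ≤ 16 * (2 * L) * (4 * L) * ((Cτ * X ^ (κ / 500)) * (Cτ * X ^ (κ / 500))) := by
              have := hτ0 n
              have := hτ0 g.natAbs
              gcongr
          _ = 128 * L ^ 2 * ((Cτ * X ^ (κ / 500)) * (Cτ * X ^ (κ / 500))) := by ring
      have e3 : 0 ≤ |pga R n g| + |pgb R n g| := by positivity
      apply mul_le_mul_of_nonneg_right _ (abs_nonneg _)
      apply mul_le_mul_of_nonneg_right _ (by linarith)
      exact mul_le_mul hW' e2 e3 hW0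
    · rw [if_neg h]
      split_ifs
      · positivity
      · exact le_rfl
  -- sum up
  have hM : M5 C G Q S R om (t * X) - M5 C G Q S R om (s * X) =
      4 * Real.pi * ∑ n ∈ Finset.Icc 1 Q, C n * ∑ g ∈ S, tau g.natAbs *
        (pgT G R om n g (t * X) - pgT G R om n g (s * X)) := by
    unfold M5 pgT
    rw [← mul_sub, ← Finset.sum_sub_distrib]
    congr 1
    refine Finset.sum_congr rfl fun n _ => ?_
    rw [← mul_sub, ← Finset.sum_sub_distrib]
    congr 1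
    refine Finset.sum_congr rfl fun g _ => ?_
    ring
  rw [hM, abs_mul, abs_of_pos (show 0 < 4 * Real.pi by positivity)]
  set T := Cτ * X ^ (κ / 500) with hT
  have hT0 : 0 ≤ T := by positivity
  set V := (W * (128 * L ^ 2 * (T * T))) * U * |t - s| with hV
  have hV0 : 0 ≤ V := by positivity
  have hL0 : 0 ≤ L := by linarith
  have hinner : ∀ n ∈ Finset.Icc 1 Q, |∑ g ∈ S, tau g.natAbs *
      (pgT G R om n g (t * X) - pgT G R om n g (s * X))| ≤ 2 * (U * Q / X) * (T * V) := by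
    intro n hn
    refine (Finset.abs_sum_le_sum_abs _ _).trans ?_
    calc ∑ g ∈ S, |tau g.natAbs * (pgT G R om n g (t * X) - pgT G R om n g (s * X))|
        ≤ ∑ g ∈ S, if |(g : ℝ)| ≤ U * Q / X then T * V else 0 := by
          refine Finset.sum_le_sum fun g hg => ?_
          rw [abs_mul, abs_of_nonneg (hτ0 _)]
          have e1 := hterm n hn g hg
          split_ifs at e1 ⊢ with h
          · apply mul_le_mul _ e1 (abs_nonneg _) hT0
            apply hτ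
            rw [Nat.cast_natAbs, Int.cast_abs]
            exact h.trans hUQX
          · have : |pgT G R om n g (t * X) - pgT G R om n g (s * X)| = 0 :=
              le_antisymm e1 (abs_nonneg _)
            rw [this, mul_zero]
      _ = ((S.filter (fun g : ℤ => |(g : ℝ)| ≤ U * Q / X)).card : ℝ) * (T * V) := by
          rw [← Finset.sum_filter, Finset.sum_const, nsmul_eq_mul]
      _ ≤ 2 * (U * Q / X) * (T * V) := by
          apply mul_le_mul_of_nonneg_right (pg_card S hS (by positivity)) (by positivity)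
  have hsum : |∑ n ∈ Finset.Icc 1 Q, C n * ∑ g ∈ S, tau g.natAbs *
      (pgT G R om n g (t * X) - pgT G R om n g (s * X))| ≤
      X ^ (κ / 100) * (4 * L) * (2 * (U * Q / X) * (T * V)) := by
    refine (Finset.abs_sum_le_sum_abs _ _).trans ?_
    calc ∑ n ∈ Finset.Icc 1 Q, |C n * ∑ g ∈ S, tau g.natAbs *
          (pgT G R om n g (t * X) - pgT G R om n g (s * X))|
        ≤ ∑ n ∈ Finset.Icc 1 Q, (X ^ (κ / 100) * (2 * (U * Q / X) * (T * V))) * (1 / (n : ℝ)) := by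
          refine Finset.sum_le_sum fun n hn => ?_
          rw [abs_mul]
          have e1 := hck.bdd n (Finset.mem_Icc.mp hn).1
          calc |C n| * |∑ g ∈ S, tau g.natAbs *
                (pgT G R om n g (t * X) - pgT G R om n g (s * X))|
              ≤ (X ^ (κ / 100) / n) * (2 * (U * Q / X) * (T * V)) :=
                mul_le_mul e1 (hinner n hn) (abs_nonneg _) (by positivity)
            _ = _ := by ring
      _ = (X ^ (κ / 100) * (2 * (U * Q / X) * (T * V))) * ∑ n ∈ Finset.Icc 1 Q, 1 / (n : ℝ) := by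
          rw [Finset.mul_sum]
      _ ≤ (X ^ (κ / 100) * (2 * (U * Q / X) * (T * V))) * (4 * L) := by
          apply mul_le_mul_of_nonneg_left _ (by positivity)
          refine (pg_harm Q).trans ?_
          linarith
      _ = X ^ (κ / 100) * (4 * L) * (2 * (U * Q / X) * (T * V)) := by ring
  have hQX : (Q : ℝ) / X ≤ X ^ (101 / 50 * κ) := by
    rw [div_le_iff₀ hX0]
    refine hck.size.trans (le_of_eq ?_)
    rw [add_comm, Real.rpow_add hX0, Real.rpow_one]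
  calc 4 * Real.pi * |∑ n ∈ Finset.Icc 1 Q, C n * ∑ g ∈ S, tau g.natAbs *
        (pgT G R om n g (t * X) - pgT G R om n g (s * X))|
      ≤ 4 * Real.pi * (X ^ (κ / 100) * (4 * L) * (2 * (U * Q / X) * (T * V))) := by gcongr
    _ = 4 * Real.pi * (X ^ (κ / 100) * (4 * L) * (2 * U * (Q / X) * (T * V))) := by ring
    _ ≤ 4 * Real.pi * (X ^ (κ / 100) * (4 * L) * (2 * U * X ^ (101 / 50 * κ) * (T * V))) := by
        gcongr
    _ = A * L ^ 3 * (X ^ (κ / 100) * X ^ (101 / 50 * κ) * X ^ (κ / 500) * X ^ (κ / 500) *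
        X ^ (κ / 500) * X ^ (16 * κ)) * |t - s| := by
        rw [hA, hV, hT, hW]; ring
    _ ≤ X ^ κ * X ^ (19 * κ) * |t - s| := by
        apply mul_le_mul_of_nonneg_right _ (abs_nonneg _)
        apply mul_le_mul hAX _ (by positivity) (by positivity)
        rw [← Real.rpow_add hX0, ← Real.rpow_add hX0, ← Real.rpow_add hX0, ← Real.rpow_add hX0,
          ← Real.rpow_add hX0]
        apply Real.rpow_le_rpow_of_exponent_le hX1
        linarith
    _ = X ^ (20 * κ) * |t - s| := by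
        rw [← Real.rpow_add hX0]; congr 2; ring

end Pool.Agent.LSPP
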