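import Pool.Agent.Lib_helper15.LSP.DefsP

set_option autoImplicit false

namespace Pool.Agent.LSPP

open Pool.Agent.LSP (tau sg1 CC Gs Adm)
open Pool.Agent.LSPO (hyp cl KK rho b1 GOK)
open Pool.Agent.FG61 (mu phi cc)
open MeasureTheory Filter Topology

theorem mea_cont {G : ℝ → ℝ} {U c₀ : ℝ} (hG : GOK G U c₀) (u : ℝ) (h0 : u ≠ 0) (h1 : u ≠ 1) :
    ContinuousAt G u := by
  have h1' : 1 - u ≠ 0 := sub_ne_zero.mpr (Ne.symm h1)
  rw [ContinuousAt, tendsto_iff_norm_sub_tendsto_zero]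
  have hlim : Tendsto (fun v : ℝ => c₀ * |v - u| *
      (|v|⁻¹ + |1 - v|⁻¹ + |u|⁻¹ + |1 - u|⁻¹) ^ 3) (𝓝 u) (𝓝 0) := by
    have hc : ContinuousAt (fun v : ℝ => c₀ * |v - u| *
        (|v|⁻¹ + |1 - v|⁻¹ + |u|⁻¹ + |1 - u|⁻¹) ^ 3) u := by
      apply ContinuousAt.mul
      · fun_prop
      · apply ContinuousAt.pow
        apply ContinuousAt.add _ continuousAt_const
        apply ContinuousAt.add _ continuousAt_const
        apply ContinuousAt.add
        · exact ContinuousAt.inv₀ (by fun_prop) (by simpa using h0)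
        · exact ContinuousAt.inv₀ (by fun_prop) (by simpa using h1')
    have := hc.tendsto
    simpa using this
  refine squeeze_zero' (Eventually.of_forall fun v => norm_nonneg _) ?_ hlim
  have e0 : ∀ᶠ v in 𝓝 u, v ≠ 0 := eventually_ne_nhds h0
  have e1 : ∀ᶠ v in 𝓝 u, v ≠ 1 := eventually_ne_nhds h1
  filter_upwards [e0, e1] with v hv0 hv1
  exact hG.lip v u hv0 hv1 h0 h1

theorem go_meas_pr {G : ℝ → ℝ} {U c₀ : ℝ} (hG : GOK G U c₀) : Measurable G := by
  refine measurable_of_measurable_on_compl_finite {0, 1} (Set.toFinite _) ?_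
  apply Continuous.measurable
  rw [← continuousOn_iff_continuous_domRestrict]
  intro u hu
  simp only [Set.mem_compl_iff, Set.mem_insert_iff, Set.mem_singleton_iff, not_or] at hu
  exact (mea_cont hG u hu.1 hu.2).continuousWithinAt

alias go_meas := go_meas_pr

end Pool.Agent.LSPP
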