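import Pool.Agent.Lib_helper15.LSP.DefsP
import Pool.Agent.Lib_helper15.LSPF.MEA

set_option autoImplicit false

namespace Pool.Agent.LSPP

open Pool.Agent.LSP (tau sg1 CC Gs Adm)
open Pool.Agent.LSPO (hyp cl KK rho b1 GOK)
open Pool.Agent.FG61 (mu phi cc)
open MeasureTheory Filter Topology

theorem avp_zero_pr {G : ℝ → ℝ} {U c₀ : ℝ} (hG : GOK G U c₀) (n : ℕ) (g : ℤ) (X : ℝ) (hn : 1 ≤ n)
    (hX : 0 < X) (h : U < |(g : ℝ)| * X / n) (t : ℝ) (ht : 1 ≤ t) :
    G ((g : ℝ) * (t * X) / n) = 0 := by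
  apply hG.supp
  refine h.trans_le ?_
  have hn0 : (0 : ℝ) < n := by exact_mod_cast hn
  rw [abs_div, abs_mul, abs_of_pos hn0, abs_of_pos (by positivity : (0 : ℝ) < t * X)]
  refine div_le_div_of_nonneg_right ?_ hn0.le
  refine mul_le_mul_of_nonneg_left ?_ (abs_nonneg _)
  nlinarith

/-- the dominating function -/
noncomputable def avpq (v : ℝ) : ℝ := |v| ^ (-(1 / 4) : ℝ)

theorem avpq_nonneg (v : ℝ) : 0 ≤ avpq v := Real.rpow_nonneg (abs_nonneg v) _

theorem avpq_meas : Measurable avpq := by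
  unfold avpq
  exact (measurable_norm : Measurable fun v : ℝ => ‖v‖).pow_const _

theorem avpq_int (a b : ℝ) : IntervalIntegrable avpq volume a b := by
  have h1 : IntervalIntegrable (fun x : ℝ => 2 * x ^ (-(1 / 4) : ℝ)) volume a b :=
    (intervalIntegral.intervalIntegrable_rpow' (by norm_num)).const_mul 2
  refine h1.mono_fun avpq_meas.aestronglyMeasurable (Filter.Eventually.of_forall fun x => ?_)
  show ‖avpq x‖ ≤ ‖2 * x ^ (-(1 / 4) : ℝ)‖
  rw [Real.norm_of_nonneg (avpq_nonneg x)]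
  rw [Real.norm_eq_abs, abs_mul, abs_of_pos (by norm_num : (0 : ℝ) < 2)]
  unfold avpq
  rcases le_or_gt 0 x with hx | hx
  · rw [abs_of_nonneg hx, abs_of_nonneg (Real.rpow_nonneg hx _)]
    have := Real.rpow_nonneg hx (-(1 / 4) : ℝ)
    linarith
  · rw [Real.rpow_def_of_neg hx, Real.rpow_def_of_pos (abs_pos.2 hx.ne), abs_mul,
      abs_of_pos (Real.exp_pos _), Real.log_abs]
    have hc : (1 / 2 : ℝ) ≤ |Real.cos (-(1 / 4) * Real.pi)| := by
      have : Real.cos (-(1 / 4) * Real.pi) = Real.sqrt 2 / 2 := by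
        rw [show (-(1 / 4) * Real.pi : ℝ) = -(Real.pi / 4) by ring, Real.cos_neg,
          Real.cos_pi_div_four]
      rw [this, abs_of_nonneg (by positivity)]
      have : (1 : ℝ) ≤ Real.sqrt 2 := by
        rw [show (1 : ℝ) = Real.sqrt 1 by simp]
        exact Real.sqrt_le_sqrt (by norm_num)
      linarith
    have he := Real.exp_pos (Real.log x * (-(1 / 4)))
    nlinarith

theorem avpq_val {a : ℝ} (ha : 0 ≤ a) : ∫ v in (-a)..a, avpq v = 8 / 3 * a ^ (3 / 4 : ℝ) := by
  have h0 : ∫ v in (0 : ℝ)..a, avpq v = 4 / 3 * a ^ (3 / 4 : ℝ) := by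
    have h1 : ∫ v in (0 : ℝ)..a, avpq v = ∫ v in (0 : ℝ)..a, v ^ (-(1 / 4) : ℝ) := by
      refine intervalIntegral.integral_congr fun v hv => ?_
      rw [Set.uIcc_of_le ha] at hv
      simp only [avpq, abs_of_nonneg hv.1]
    rw [h1, integral_rpow (Or.inl (by norm_num))]
    rw [show (-(1 / 4) + 1 : ℝ) = 3 / 4 by norm_num, Real.zero_rpow (by norm_num)]
    ring
  have h2 : ∫ v in (-a)..0, avpq v = 4 / 3 * a ^ (3 / 4 : ℝ) := by
    have h3 := intervalIntegral.integral_comp_neg (a := 0) (b := a) avpq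
    rw [neg_zero] at h3
    rw [← h3, ← h0]
    refine intervalIntegral.integral_congr fun v _ => ?_
    simp only [avpq, abs_neg]
  rw [← intervalIntegral.integral_add_adjacent_intervals (avpq_int (-a) 0) (avpq_int 0 a), h0, h2]
  ring

/-- the cut dominating function -/
noncomputable def avph (a v : ℝ) : ℝ := (Set.Ioc (-a) a).indicator avpq v

theorem avph_nonneg (a v : ℝ) : 0 ≤ avph a v :=
  Set.indicator_nonneg (fun x _ => avpq_nonneg x) v

theorem avph_int {a : ℝ} (ha : 0 ≤ a) : Integrable (avph a) := by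
  have h := avpq_int (-a) a
  rw [intervalIntegrable_iff_integrableOn_Ioc_of_le (by linarith)] at h
  exact (integrable_indicator_iff measurableSet_Ioc).2 h

theorem avph_val {a : ℝ} (ha : 0 ≤ a) : ∫ v, avph a v = 8 / 3 * a ^ (3 / 4 : ℝ) := by
  have h := avpq_val ha
  rw [intervalIntegral.integral_of_le (by linarith)] at h
  rw [← h]
  exact integral_indicator measurableSet_Ioc

theorem avph_comp_int {a : ℝ} (ha : 0 ≤ a) {β : ℝ} (hβ : β ≠ 0) :
    IntervalIntegrable (fun t => avph a (1 - β * t)) volume 1 2 := by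
  have h1 : IntervalIntegrable (avph a) volume (1 - β * 1) (1 - β * 2) :=
    (avph_int ha).intervalIntegrable
  have h2 := (h1.comp_sub_left 1)
  have h3 := h2.comp_mul_left (c := β)
  simpa [hβ] using h3

theorem avpq_comp_int {β : ℝ} (hβ : β ≠ 0) :
    IntervalIntegrable (fun t => avpq (1 - β * t)) volume 1 2 := by
  have h1 : IntervalIntegrable avpq volume (1 - β * 1) (1 - β * 2) := avpq_int _ _
  have h2 := (h1.comp_sub_left 1)
  have h3 := h2.comp_mul_left (c := β)
  simpa [hβ] using h3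

theorem avph_comp_le {om : ℝ} (h0 : 0 < om) (h1 : om ≤ 1 / 4) {β : ℝ} (hβ : β ≠ 0) :
    ∫ t in (1 : ℝ)..2, avph (2 * om) (1 - β * t) ≤ 32 / 3 * (2 * om) ^ (3 / 4 : ℝ) := by
  have hR : 0 ≤ 32 / 3 * (2 * om) ^ (3 / 4 : ℝ) := by positivity
  by_cases hb : 1 / 4 ≤ β ∧ β ≤ 3 / 2
  · rw [intervalIntegral.integral_comp_sub_mul (avph (2 * om)) hβ 1]
    have h2 : ∫ x in (1 - β * 2)..(1 - β * 1), avph (2 * om) x ≤ ∫ x, avph (2 * om) x := by
      rw [intervalIntegral.integral_of_le (by linarith [hb.1])]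
      exact setIntegral_le_integral (avph_int (by linarith))
        (Filter.Eventually.of_forall fun x => avph_nonneg _ x)
    rw [avph_val (by linarith)] at h2
    have h3 : β⁻¹ ≤ 4 := by
      rw [inv_le_comm₀ (by linarith [hb.1]) (by norm_num)]
      linarith [hb.1]
    have h4 : 0 ≤ ∫ x in (1 - β * 2)..(1 - β * 1), avph (2 * om) x :=
      intervalIntegral.integral_nonneg (by linarith [hb.1]) fun x _ => avph_nonneg _ x
    rw [smul_eq_mul]
    calc β⁻¹ * ∫ x in (1 - β * 2)..(1 - β * 1), avph (2 * om) x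
        ≤ 4 * (8 / 3 * (2 * om) ^ (3 / 4 : ℝ)) := by
          refine mul_le_mul h3 h2 h4 (by norm_num)
      _ = 32 / 3 * (2 * om) ^ (3 / 4 : ℝ) := by ring
  · have hz : ∫ t in (1 : ℝ)..2, avph (2 * om) (1 - β * t) = 0 := by
      have : ∫ t in (1 : ℝ)..2, avph (2 * om) (1 - β * t) = ∫ t in (1 : ℝ)..2, (0 : ℝ) := by
        refine intervalIntegral.integral_congr_ae (Filter.Eventually.of_forall fun t ht => ?_)
        rw [Set.uIoc_of_le (by norm_num)] at ht
        unfold avph
        refine Set.indicator_of_notMem ?_ _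
        rintro ⟨h5, h6⟩
        apply hb
        constructor
        · by_contra hc
          push Not at hc
          have : β * t ≤ 1 / 2 := by
            rcases le_or_gt β 0 with hβ0 | hβ0
            · nlinarith [ht.1, ht.2]
            · nlinarith [ht.1, ht.2]
          have h7 : β * t < 1 / 2 := by
            rcases le_or_gt β 0 with hβ0 | hβ0
            · nlinarith [ht.1, ht.2]
            · nlinarith [ht.1, ht.2]
          linarith
        · by_contra hc
          push Not at hc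
          have : 3 / 2 < β * t := by nlinarith [ht.1, ht.2]
          linarith
      rw [this]; simp
    rw [hz]; exact hR

theorem avp_th_meas : Measurable th := by
  unfold th
  refine Measurable.ite ?_ (by fun_prop) measurable_const
  exact (measurableSet_le measurable_const measurable_id).inter
    (measurableSet_le measurable_id measurable_const)

theorem avp_th_bd (s : ℝ) : |th s| ≤ 1 := by
  unfold th
  split_ifs with h
  · have h1 : 0 ≤ 1 - s := by linarith [h.2]
    have h2 : 1 - s ≤ 1 := by linarith [h.1]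
    have h3 : 0 ≤ 2 * s - 1 := by linarith [h.1]
    have h4 : 2 * s - 1 ≤ 1 := by linarith [h.2]
    rw [abs_of_nonneg (by positivity)]
    exact mul_le_one₀ (pow_le_one₀ h1 h2) (by positivity) (pow_le_one₀ h3 h4)
  · simp

theorem avp_log_bd {y Y : ℝ} (hy : 0 < y) (hY : 1 ≤ Y) (hyY : y ≤ Y) :
    |Real.log y| ≤ 8 * Y ^ (1 / 4 : ℝ) * y ^ (-(1 / 8) : ℝ) := by
  have hY0 : 0 < Y := by linarith
  rcases le_or_gt y 1 with h | h
  · have h1 : |Real.log y| = Real.log (y⁻¹) := by
      rw [Real.log_inv, abs_of_nonpos (Real.log_nonpos hy.le h)]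
    have h2 := Real.log_le_rpow_div (inv_nonneg.2 hy.le) (show (0 : ℝ) < 1 / 8 by norm_num)
    have h3 : (y⁻¹) ^ (1 / 8 : ℝ) = y ^ (-(1 / 8) : ℝ) := by
      rw [Real.inv_rpow hy.le, ← Real.rpow_neg hy.le]
    rw [h3] at h2
    have h4 : 1 ≤ Y ^ (1 / 4 : ℝ) := Real.one_le_rpow hY (by norm_num)
    have h5 : 0 < y ^ (-(1 / 8) : ℝ) := Real.rpow_pos_of_pos hy _
    rw [h1]
    calc Real.log y⁻¹ ≤ y ^ (-(1 / 8) : ℝ) / (1 / 8) := h2
      _ = 8 * 1 * y ^ (-(1 / 8) : ℝ) := by ring
      _ ≤ 8 * Y ^ (1 / 4 : ℝ) * y ^ (-(1 / 8) : ℝ) := by gcongr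
  · have h1 : |Real.log y| = Real.log y := abs_of_nonneg (Real.log_nonneg h.le)
    have h2 := Real.log_le_rpow_div hy.le (show (0 : ℝ) < 1 / 8 by norm_num)
    have h3 : y ^ (1 / 8 : ℝ) = y ^ (1 / 4 : ℝ) * y ^ (-(1 / 8) : ℝ) := by
      rw [← Real.rpow_add hy]; norm_num
    rw [h1]
    calc Real.log y ≤ y ^ (1 / 8 : ℝ) / (1 / 8) := h2
      _ = 8 * y ^ (1 / 4 : ℝ) * y ^ (-(1 / 8) : ℝ) := by rw [h3]; ring
      _ ≤ 8 * Y ^ (1 / 4 : ℝ) * y ^ (-(1 / 8) : ℝ) := by
          have h5 : 0 < y ^ (-(1 / 8) : ℝ) := Real.rpow_pos_of_pos hy _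
          have := Real.rpow_le_rpow hy.le hyY (show (0 : ℝ) ≤ 1 / 4 by norm_num)
          gcongr

theorem avp_q_ge {y Y : ℝ} (hy : 0 < y) (hY : 1 ≤ Y) (hyY : y ≤ Y) :
    1 ≤ Y ^ (1 / 4 : ℝ) * y ^ (-(1 / 8) : ℝ) := by
  have h1 : Y ^ (-(1 / 8) : ℝ) ≤ y ^ (-(1 / 8) : ℝ) :=
    Real.rpow_le_rpow_of_nonpos hy hyY (by norm_num)
  have hY0 : 0 < Y := by linarith
  calc (1 : ℝ) ≤ Y ^ (1 / 8 : ℝ) := Real.one_le_rpow hY (by norm_num)
    _ = Y ^ (1 / 4 : ℝ) * Y ^ (-(1 / 8) : ℝ) := by rw [← Real.rpow_add hY0]; norm_num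
    _ ≤ _ := by gcongr

theorem avp_sq {y : ℝ} (hy : 0 < y) :
    y ^ (-(1 / 8) : ℝ) * y ^ (-(1 / 8) : ℝ) = y ^ (-(1 / 4) : ℝ) := by
  rw [← Real.rpow_add hy]; norm_num

/-- integrability of a function with logarithmic singularities -/
theorem avp_intble {β : ℝ} (hβ : β ≠ 0) {F : ℝ → ℝ} (hF : Measurable F) {M : ℝ}
    (hM : ∀ t, 1 ≤ t → t ≤ 2 → β * t ≠ 1 → |F t| ≤ M * avpq (1 - β * t)) :
    IntervalIntegrable (fun t => F t * (th (1 / t) / t)) volume 1 2 := by
  have h1 : IntervalIntegrable (fun t => M * avpq (1 - β * t)) volume 1 2 :=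
    (avpq_comp_int hβ).const_mul M
  have hmeas : Measurable (fun t => F t * (th (1 / t) / t)) := by
    refine hF.mul ((avp_th_meas.comp ?_).div measurable_id)
    exact measurable_const.div measurable_id
  refine h1.mono_fun hmeas.aestronglyMeasurable ?_
  rw [Filter.EventuallyLE, ae_restrict_iff' measurableSet_uIoc]
  have hne : ∀ᵐ t : ℝ, t ≠ β⁻¹ := by
    rw [ae_iff]; simp
  filter_upwards [hne] with t ht ht2
  rw [Set.uIoc_of_le (by norm_num)] at ht2
  have hbt : β * t ≠ 1 := by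
    intro h
    apply ht
    field_simp
    linarith
  have h2 := hM t ht2.1.le ht2.2 hbt
  rw [Real.norm_eq_abs, Real.norm_eq_abs, abs_mul]
  have h3 : |th (1 / t) / t| ≤ 1 := by
    rw [abs_div, div_le_one (by rw [abs_of_pos (by linarith [ht2.1])]; linarith [ht2.1])]
    refine (avp_th_bd _).trans ?_
    rw [abs_of_pos (by linarith [ht2.1])]; linarith [ht2.1]
  calc |F t| * |th (1 / t) / t| ≤ |F t| * 1 := by gcongr
    _ ≤ M * avpq (1 - β * t) := by rw [mul_one]; exact h2
    _ ≤ |M * avpq (1 - β * t)| := le_abs_self _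

theorem avp_G_bd {G : ℝ → ℝ} {U c₀ : ℝ} (hG : GOK G U c₀) {β : ℝ} (hβ : β ≠ 0) (a : ℝ) :
    ∃ M : ℝ, ∀ t, 1 ≤ t → t ≤ 2 → β * t ≠ 1 →
      |G (β * t)| * (|a| + |Real.log (|1 - β * t|)|) ≤ M * avpq (1 - β * t) ∧
      |G (β * t)| ≤ M * avpq (1 - β * t) := by
  set Y : ℝ := 1 + 2 * |β| with hYd
  have hβ0 : 0 < |β| := abs_pos.2 hβ
  have hY : 1 ≤ Y := by rw [hYd]; linarith
  set A : ℝ := c₀ * (1 + (|Real.log (|β|)| + Real.log 2)) with hA
  have hc : 1 ≤ c₀ := hG.one_le'
  have hl2 : 0 ≤ Real.log 2 := Real.log_nonneg (by norm_num)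
  have hA0 : 0 ≤ A := by rw [hA]; positivity
  have hA1 : c₀ ≤ A := by
    rw [hA]
    have : 0 ≤ |Real.log (|β|)| := abs_nonneg _
    nlinarith
  set P : ℝ := Y ^ (1 / 4 : ℝ) with hP
  have hP0 : 1 ≤ P := Real.one_le_rpow hY (by norm_num)
  refine ⟨A * (9 * P) * ((|a| + 1) * (8 * P + P)), fun t h1 h2 h3 => ?_⟩
  set y : ℝ := |1 - β * t| with hy
  have hy0 : 0 < y := abs_pos.2 (sub_ne_zero.2 (Ne.symm h3))
  have hyY : y ≤ Y := by
    rw [hy, hYd]
    calc |1 - β * t| ≤ |(1 : ℝ)| + |β * t| := abs_sub _ _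
      _ = 1 + |β| * t := by rw [abs_one, abs_mul, abs_of_pos (by linarith : (0 : ℝ) < t)]
      _ ≤ 1 + 2 * |β| := by nlinarith
  set z : ℝ := y ^ (-(1 / 8) : ℝ) with hz
  have hz0 : 0 < z := Real.rpow_pos_of_pos hy0 _
  have hlog := avp_log_bd hy0 hY hyY
  have hone := avp_q_ge hy0 hY hyY
  have hu0 : β * t ≠ 0 := mul_ne_zero hβ (by linarith)
  have hGb := hG.bd (β * t) hu0 h3
  have hlu : |Real.log (|β * t|)| ≤ |Real.log (|β|)| + Real.log 2 := by
    rw [abs_mul, Real.log_mul hβ0.ne' (by rw [abs_of_pos (by linarith : (0 : ℝ) < t)]; linarith),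
      abs_of_pos (by linarith : (0 : ℝ) < t)]
    refine (abs_add_le _ _).trans ?_
    have : |Real.log t| ≤ Real.log 2 := by
      rw [abs_of_nonneg (Real.log_nonneg h1)]
      exact Real.log_le_log (by linarith) h2
    linarith
  have hq : avpq (1 - β * t) = z * z := by
    unfold avpq
    rw [← hy, hz, avp_sq hy0]
  have h4 : |G (β * t)| ≤ A * (9 * P) * z := by
    calc |G (β * t)| ≤ c₀ * (1 + |Real.log (|β * t|)| + |Real.log y|) := hGb
      _ ≤ c₀ * (1 + (|Real.log (|β|)| + Real.log 2) + 8 * P * z) := by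
          have : (0 : ℝ) ≤ c₀ := by linarith
          gcongr
      _ = A + c₀ * (8 * P * z) := by rw [hA]; ring
      _ ≤ A * (P * z) + A * (8 * P * z) := by
          have h5 : A ≤ A * (P * z) := by nlinarith
          have h6 : c₀ * (8 * P * z) ≤ A * (8 * P * z) := by
            have : 0 ≤ 8 * P * z := by positivity
            nlinarith
          linarith
      _ = A * (9 * P) * z := by ring
  have h7 : |a| + |Real.log y| ≤ (|a| + 1) * (8 * P + P) * z := by
    have h8 : |a| ≤ |a| * (P * z) := by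
      have := abs_nonneg a
      nlinarith
    have h9 : (|a| + 1) * (8 * P + P) * z = |a| * (P * z) + |a| * (8 * P * z) + 9 * (P * z) := by
      ring
    rw [h9]
    have h10 : 0 ≤ |a| * (8 * P * z) := by positivity
    have h11 : 0 ≤ P * z := by positivity
    linarith
  have h12 : 1 ≤ (|a| + 1) * (8 * P + P) * z := by
    have h13 : 0 ≤ |a| := abs_nonneg a
    have h14 : (|a| + 1) * (8 * P + P) * z = 9 * (|a| * (P * z)) + 9 * (P * z) := by ring
    rw [h14]
    have : 0 ≤ |a| * (P * z) := by positivity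
    linarith
  rw [hq]
  have hB0 : 0 ≤ A * (9 * P) * z := by positivity
  constructor
  · calc |G (β * t)| * (|a| + |Real.log y|) ≤
          (A * (9 * P) * z) * ((|a| + 1) * (8 * P + P) * z) :=
          mul_le_mul h4 h7 (by positivity) hB0
      _ = A * (9 * P) * ((|a| + 1) * (8 * P + P)) * (z * z) := by ring
  · calc |G (β * t)| ≤ (A * (9 * P) * z) * 1 := by rw [mul_one]; exact h4
      _ ≤ (A * (9 * P) * z) * ((|a| + 1) * (8 * P + P) * z) :=
          mul_le_mul_of_nonneg_left h12 hB0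
      _ = A * (9 * P) * ((|a| + 1) * (8 * P + P)) * (z * z) := by ring

theorem avp_cl_bd (om u : ℝ) : 0 ≤ cl om u ∧ cl om u ≤ 1 := by
  unfold Pool.Agent.LSPO.cl
  exact ⟨le_max_left _ _, max_le (by norm_num) (min_le_left _ _)⟩

theorem avp_cl_one {om u : ℝ} (h0 : 0 < om) (h : 2 * om ≤ |1 - u|) : cl om u = 1 := by
  unfold Pool.Agent.LSPO.cl
  have : 1 ≤ |1 - u| / om - 1 := by
    rw [le_sub_iff_add_le, le_div_iff₀ h0]; linarith
  rw [min_eq_left this]; exact max_eq_right (by norm_num)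

theorem avp_cl_meas (om : ℝ) : Measurable (cl om) := by
  unfold Pool.Agent.LSPO.cl
  refine measurable_const.max (measurable_const.min ?_)
  refine Measurable.sub ?_ measurable_const
  refine Measurable.div ?_ measurable_const
  exact (measurable_norm.comp (measurable_const.sub measurable_id) :
    Measurable (fun u : ℝ => ‖1 - u‖))

theorem avp_pr {G : ℝ → ℝ} {U c₀ : ℝ} (hG : GOK G U c₀) : ∃ K : ℝ, 1 ≤ K ∧ ∀ (n c : ℕ) (g : ℤ)
    (X om : ℝ), 1 ≤ n → 1 ≤ c → g ≠ 0 → 0 < X → 0 < om → om ≤ 1 / 4 →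
    |av (fun t => KK G om ((g : ℝ) * (t * X) / n) *
        (Real.log |(n : ℝ) - g * (t * X)| / 2 + ga - Real.log c)) -
      ((Real.log n / 2 + ga - Real.log c) * av (fun t => G ((g : ℝ) * (t * X) / n)) +
        av (fun t => G1 G ((g : ℝ) * (t * X) / n)))| ≤
      K * om ^ (3 / 4 : ℝ) * (1 + Real.log n + Real.log c) := by
  have hc0 : 1 ≤ c₀ := hG.one_le'
  refine ⟨5000 * c₀, by linarith, ?_⟩
  intro n c g X om hn hc hg hX ho ho4
  have hn0 : (0 : ℝ) < n := by exact_mod_cast hn
  have hgr : (g : ℝ) ≠ 0 := by exact_mod_cast hg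
  set β : ℝ := (g : ℝ) * X / n with hβd
  have hβ : β ≠ 0 := by
    rw [hβd]; exact div_ne_zero (mul_ne_zero hgr hX.ne') hn0.ne'
  have hu : ∀ t : ℝ, (g : ℝ) * (t * X) / n = β * t := fun t => by rw [hβd]; ring
  set A : ℝ := Real.log n / 2 + ga - Real.log c with hA
  set F1 : ℝ → ℝ := fun t => KK G om (β * t) *
    (Real.log |(n : ℝ) - g * (t * X)| / 2 + ga - Real.log c) with hF1
  have e1 : (fun t => KK G om ((g : ℝ) * (t * X) / n) *
        (Real.log |(n : ℝ) - g * (t * X)| / 2 + ga - Real.log c)) = F1 := by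
    funext t; rw [hF1]; simp only [hu]
  have e2 : (fun t => G ((g : ℝ) * (t * X) / n)) = fun t => G (β * t) := by
    funext t; rw [hu]
  have e3 : (fun t => G1 G ((g : ℝ) * (t * X) / n)) = fun t => G1 G (β * t) := by
    funext t; rw [hu]
  rw [e1, e2, e3]
  have hGm : Measurable G := go_meas hG
  have hlin : Measurable (fun t : ℝ => β * t) := measurable_const.mul measurable_id
  have habs : ∀ f : ℝ → ℝ, Measurable f → Measurable (fun t => |f t|) := fun f hf =>
    (measurable_norm.comp hf : Measurable fun t => ‖f t‖)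
  -- the pointwise identity for `F1`
  have hF1v : ∀ t : ℝ, β * t ≠ 1 → F1 t = G (β * t) * cl om (β * t) *
      (A + Real.log |1 - β * t| / 2) := by
    intro t ht
    rw [hF1]
    simp only [Pool.Agent.LSPO.KK]
    have h1 : (n : ℝ) - g * (t * X) = n * (1 - β * t) := by
      rw [hβd]; field_simp
    rw [h1, abs_mul, abs_of_pos hn0, Real.log_mul hn0.ne'
      (abs_pos.2 (sub_ne_zero.2 (Ne.symm ht))).ne', hA]
    ring
  obtain ⟨M, hM⟩ := avp_G_bd hG hβ A
  have hM0 : 0 ≤ M := by
    have h3 : ∃ t : ℝ, 1 ≤ t ∧ t ≤ 2 ∧ β * t ≠ 1 := by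
      by_cases h : β * 1 = 1
      · refine ⟨2, by norm_num, le_rfl, ?_⟩
        intro h2; rw [mul_one] at h; rw [h] at h2; norm_num at h2
      · exact ⟨1, le_rfl, by norm_num, h⟩
    obtain ⟨t, h1, h2, h3⟩ := h3
    have h4 := (hM t h1 h2 h3).2
    have h5 : 0 < avpq (1 - β * t) := by
      unfold avpq
      exact Real.rpow_pos_of_pos (abs_pos.2 (sub_ne_zero.2 (Ne.symm h3))) _
    by_contra hc'
    push Not at hc'
    have := abs_nonneg (G (β * t))
    nlinarith
  have i1 : IntervalIntegrable (fun t => F1 t * (th (1 / t) / t)) volume 1 2 := by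
    refine avp_intble hβ ?_ (M := M) ?_
    · rw [hF1]
      simp only [Pool.Agent.LSPO.KK]
      refine ((hGm.comp hlin).mul ((avp_cl_meas om).comp hlin)).mul ?_
      refine Measurable.sub (Measurable.add (Measurable.div (Real.measurable_log.comp
        (habs _ ?_)) measurable_const) measurable_const) measurable_const
      fun_prop
    · intro t h1 h2 h3
      rw [hF1v t h3, abs_mul, abs_mul]
      obtain ⟨hc1, hc2⟩ := avp_cl_bd om (β * t)
      refine le_trans ?_ (hM t h1 h2 h3).1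
      have h5 : |A + Real.log |1 - β * t| / 2| ≤ |A| + |Real.log (|1 - β * t|)| := by
        refine (abs_add_le _ _).trans ?_
        rw [abs_div, abs_of_pos (by norm_num : (0 : ℝ) < 2)]
        have := abs_nonneg (Real.log |1 - β * t|)
        linarith
      rw [abs_of_nonneg hc1]
      calc |G (β * t)| * cl om (β * t) * |A + Real.log |1 - β * t| / 2|
          ≤ |G (β * t)| * 1 * (|A| + |Real.log (|1 - β * t|)|) := by gcongr
        _ = _ := by ring
  have i2 : IntervalIntegrable (fun t => G (β * t) * (th (1 / t) / t)) volume 1 2 :=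
    avp_intble hβ (hGm.comp hlin) (M := M) fun t h1 h2 h3 => (hM t h1 h2 h3).2
  have i3 : IntervalIntegrable (fun t => G1 G (β * t) * (th (1 / t) / t)) volume 1 2 := by
    refine avp_intble hβ ?_ (M := M) ?_
    · unfold G1
      refine Measurable.div (Measurable.mul (hGm.comp hlin) (Real.measurable_log.comp
        (habs _ ?_))) measurable_const
      fun_prop
    · intro t h1 h2 h3
      refine le_trans ?_ (hM t h1 h2 h3).1
      unfold G1
      rw [abs_div, abs_mul, abs_of_pos (by norm_num : (0 : ℝ) < 2)]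
      have h5 := abs_nonneg (G (β * t))
      have h6 := abs_nonneg (Real.log |1 - β * t|)
      have h7 := abs_nonneg A
      have h8 : 0 ≤ |G (β * t)| * |Real.log (|1 - β * t|)| := by positivity
      have h9 : 0 ≤ |G (β * t)| * |A| := by positivity
      nlinarith
  -- the difference as one integral
  set E : ℝ → ℝ := fun t => F1 t * (th (1 / t) / t) - (A * (G (β * t) * (th (1 / t) / t)) +
    G1 G (β * t) * (th (1 / t) / t)) with hE
  have hdiff : av F1 - (A * av (fun t => G (β * t)) + av (fun t => G1 G (β * t))) =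
      ∫ t in (1 : ℝ)..2, E t := by
    unfold av
    rw [hE, intervalIntegral.integral_sub i1 ((i2.const_mul A).add i3),
      intervalIntegral.integral_add (i2.const_mul A) i3, intervalIntegral.integral_const_mul]
  rw [hdiff]
  have iE : IntervalIntegrable E volume 1 2 := i1.sub ((i2.const_mul A).add i3)
  set K₁ : ℝ := 100 * c₀ * (1 + |A|) with hK₁
  have hK₁0 : 0 ≤ K₁ := by positivity
  have hEb : ∀ t, 1 ≤ t → t ≤ 2 → β * t ≠ 1 → |E t| ≤ K₁ * avph (2 * om) (1 - β * t) := by
    intro t h1 h2 h3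
    have hv : E t = G (β * t) * (cl om (β * t) - 1) * (A + Real.log |1 - β * t| / 2) *
        (th (1 / t) / t) := by
      rw [hE]
      simp only
      rw [hF1v t h3]
      unfold G1
      ring
    by_cases hfar : 2 * om ≤ |1 - β * t|
    · rw [hv, avp_cl_one ho hfar, sub_self, mul_zero, zero_mul, zero_mul, abs_zero]
      exact mul_nonneg hK₁0 (avph_nonneg _ _)
    · push Not at hfar
      have hmem : (1 - β * t) ∈ Set.Ioc (-(2 * om)) (2 * om) := by
        rw [abs_lt] at hfar
        exact ⟨hfar.1, hfar.2.le⟩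
      have hh : avph (2 * om) (1 - β * t) = avpq (1 - β * t) := by
        unfold avph
        exact Set.indicator_of_mem hmem _
      rw [hh, hv]
      set y : ℝ := |1 - β * t| with hy
      have hy0 : 0 < y := abs_pos.2 (sub_ne_zero.2 (Ne.symm h3))
      have hy1 : y < 1 / 2 := by linarith
      have hbt := abs_lt.1 hy1
      have hlu : |Real.log (|β * t|)| ≤ 1 := by
        have hb0 : 1 / 2 < β * t := by linarith [hbt.2]
        have hb1 : β * t < 3 / 2 := by linarith [hbt.1]
        rw [abs_of_pos (by linarith : (0 : ℝ) < β * t), abs_le]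
        constructor
        · have h5 : Real.log (1 / 2) ≤ Real.log (β * t) := Real.log_le_log (by norm_num) hb0.le
          have h6 : Real.log (1 / 2) = -Real.log 2 := by rw [one_div, Real.log_inv]
          have h7 := Real.log_two_lt_d9
          linarith
        · have h5 := Real.log_le_sub_one_of_pos (by linarith : (0 : ℝ) < β * t)
          linarith
      have hu0 : β * t ≠ 0 := mul_ne_zero hβ (by linarith)
      have hGb := hG.bd (β * t) hu0 h3
      set z : ℝ := y ^ (-(1 / 8) : ℝ) with hz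
      have hz0 : 0 < z := Real.rpow_pos_of_pos hy0 _
      have hlog := avp_log_bd hy0 (le_refl (1 : ℝ)) (by linarith)
      have hone := avp_q_ge hy0 (le_refl (1 : ℝ)) (by linarith)
      rw [Real.one_rpow, mul_one] at hlog
      rw [Real.one_rpow, one_mul] at hone
      rw [← hz] at hlog hone
      have hq : avpq (1 - β * t) = z * z := by
        unfold avpq
        rw [← hy, hz, avp_sq hy0]
      rw [hq]
      have hG2 : |G (β * t)| ≤ c₀ * (10 * z) := by
        refine hGb.trans ?_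
        rw [← hy]
        have : (0 : ℝ) ≤ c₀ := by linarith
        refine mul_le_mul_of_nonneg_left ?_ this
        linarith
      have hcl : |cl om (β * t) - 1| ≤ 1 := by
        obtain ⟨hc1, hc2⟩ := avp_cl_bd om (β * t)
        rw [abs_le]; constructor <;> linarith
      have hAl : |A + Real.log y / 2| ≤ (1 + |A|) * (10 * z) := by
        refine (abs_add_le _ _).trans ?_
        rw [abs_div, abs_of_pos (by norm_num : (0 : ℝ) < 2)]
        have h5 : |A| ≤ |A| * (10 * z) := by
          have := abs_nonneg A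
          nlinarith
        nlinarith
      have hth : |th (1 / t) / t| ≤ 1 := by
        rw [abs_div, div_le_one (by rw [abs_of_pos (by linarith)]; linarith)]
        refine (avp_th_bd _).trans ?_
        rw [abs_of_pos (by linarith)]; linarith
      rw [abs_mul, abs_mul, abs_mul]
      calc |G (β * t)| * |cl om (β * t) - 1| * |A + Real.log y / 2| * |th (1 / t) / t|
          ≤ (c₀ * (10 * z)) * 1 * ((1 + |A|) * (10 * z)) * 1 := by gcongr
        _ = K₁ * (z * z) := by rw [hK₁]; ring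
  have hint2 : IntervalIntegrable (fun t => K₁ * avph (2 * om) (1 - β * t)) volume 1 2 :=
    (avph_comp_int (by linarith) hβ).const_mul K₁
  have h5 : |∫ t in (1 : ℝ)..2, E t| ≤ ∫ t in (1 : ℝ)..2, K₁ * avph (2 * om) (1 - β * t) := by
    have h6 := intervalIntegral.norm_integral_le_of_norm_le (f := E)
      (g := fun t => K₁ * avph (2 * om) (1 - β * t)) (by norm_num : (1 : ℝ) ≤ 2) (μ := volume) ?_ hint2
    · rw [Real.norm_eq_abs] at h6
      exact h6
    · have hne : ∀ᵐ t : ℝ, t ≠ β⁻¹ := by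
        rw [ae_iff]; simp
      filter_upwards [hne] with t ht ht2
      rw [Real.norm_eq_abs]
      refine hEb t ht2.1.le ht2.2 ?_
      intro h
      apply ht
      field_simp
      linarith
  refine h5.trans ?_
  rw [intervalIntegral.integral_const_mul]
  have h7 := avph_comp_le ho ho4 hβ
  have h8 : (2 * om) ^ (3 / 4 : ℝ) ≤ 2 * om ^ (3 / 4 : ℝ) := by
    rw [Real.mul_rpow (by norm_num) ho.le]
    have h9 : (2 : ℝ) ^ (3 / 4 : ℝ) ≤ 2 := by
      calc (2 : ℝ) ^ (3 / 4 : ℝ) ≤ (2 : ℝ) ^ (1 : ℝ) :=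
            Real.rpow_le_rpow_of_exponent_le (by norm_num) (by norm_num)
        _ = 2 := Real.rpow_one 2
    exact mul_le_mul_of_nonneg_right h9 (by positivity)
  have hln : 0 ≤ Real.log (n : ℝ) := Real.log_natCast_nonneg n
  have hlc : 0 ≤ Real.log (c : ℝ) := Real.log_natCast_nonneg c
  have hga : |ga| ≤ 1 := by
    have h9 := Real.one_half_lt_eulerMascheroniConstant
    have h10 := Real.eulerMascheroniConstant_lt_two_thirds
    rw [abs_le]; constructor <;> linarith
  have hAb : 1 + |A| ≤ 2 * (1 + Real.log n + Real.log c) := by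
    have : |A| ≤ Real.log n / 2 + |ga| + Real.log c := by
      rw [hA]
      refine (abs_sub _ _).trans ?_
      rw [abs_of_nonneg hlc]
      refine add_le_add_left ((abs_add_le _ _).trans ?_) _
      rw [abs_of_nonneg (by positivity : 0 ≤ Real.log (n : ℝ) / 2)]
    linarith
  have hom : 0 ≤ om ^ (3 / 4 : ℝ) := by positivity
  calc K₁ * ∫ t in (1 : ℝ)..2, avph (2 * om) (1 - β * t)
      ≤ K₁ * (32 / 3 * (2 * om ^ (3 / 4 : ℝ))) := by
        refine mul_le_mul_of_nonneg_left (h7.trans ?_) hK₁0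
        linarith
    _ = 100 * c₀ * (64 / 3) * om ^ (3 / 4 : ℝ) * (1 + |A|) := by rw [hK₁]; ring
    _ ≤ 100 * c₀ * (64 / 3) * om ^ (3 / 4 : ℝ) * (2 * (1 + Real.log n + Real.log c)) := by
        gcongr
    _ ≤ 5000 * c₀ * om ^ (3 / 4 : ℝ) * (1 + Real.log n + Real.log c) := by
        have h11 : 0 ≤ c₀ * om ^ (3 / 4 : ℝ) * (1 + Real.log n + Real.log c) := by positivity
        nlinarith

alias avp := avp_pr
alias avp_zero := avp_zero_pr

end Pool.Agent.LSPP
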