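import Pool.Agent.Lib_helper15.LSP.DefsP

set_option autoImplicit false

namespace Pool.Agent.LSPP

open Pool.Agent.LSP (tau sg1 CC Gs Adm)
open Pool.Agent.LSPO (hyp cl KK rho b1 GOK)
open Pool.Agent.FG61 (mu phi cc)
open MeasureTheory Filter Topology

theorem gcs_prod (S : Finset ℕ) : (∀ p ∈ S, 2 ≤ p) →
    ∏ p ∈ S, p ≤ (S.card + 1) * ∏ p ∈ S, (p - 1) ∧ ∀ p, (∀ q ∈ S, q < p) → 2 ≤ p → S.card + 2 ≤ p := by
  induction S using Finset.induction_on_max with
  | empty => intro _; simp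
  | insert p S hlt ih =>
    intro h2
    have hp2 : 2 ≤ p := h2 p (Finset.mem_insert_self _ _)
    obtain ⟨ih1, ih2⟩ := ih (fun q hq => h2 q (Finset.mem_insert_of_mem hq))
    have hpS : p ∉ S := fun h => lt_irrefl _ (hlt p h)
    have hcard : S.card + 2 ≤ p := ih2 p hlt hp2
    rw [Finset.prod_insert hpS, Finset.prod_insert hpS, Finset.card_insert_of_notMem hpS]
    constructor
    · obtain ⟨k, hk⟩ : ∃ k, p = k + 1 := ⟨p - 1, by omega⟩
      rw [hk, Nat.add_sub_cancel]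
      rw [hk] at hcard
      calc (k + 1) * ∏ p ∈ S, p ≤ (k + 1) * ((S.card + 1) * ∏ p ∈ S, (p - 1)) :=
            Nat.mul_le_mul_left _ ih1
        _ = ((k + 1) * (S.card + 1)) * ∏ p ∈ S, (p - 1) := by ring
        _ ≤ ((S.card + 1 + 1) * k) * ∏ p ∈ S, (p - 1) := by
            apply Nat.mul_le_mul_right
            nlinarith
        _ = _ := by ring
    · intro q hq _
      have h3 : p < q := hq p (Finset.mem_insert_self _ _)
      omega

theorem gcs_phi {c : ℕ} (hc : 1 ≤ c) :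
    (c : ℝ) ≤ phi c * (1 + Real.log c / Real.log 2) := by
  have h1 := Nat.totient_mul_prod_primeFactors c
  have h2 := (gcs_prod c.primeFactors (fun p hp => (Nat.prime_of_mem_primeFactors hp).two_le)).1
  have h3 : 0 < ∏ p ∈ c.primeFactors, (p - 1) := by
    apply Finset.prod_pos
    intro p hp
    have := (Nat.prime_of_mem_primeFactors hp).two_le
    omega
  have h4 : c ≤ Nat.totient c * (c.primeFactors.card + 1) := by
    have h5 : c * ∏ p ∈ c.primeFactors, (p - 1) ≤
        (Nat.totient c * (c.primeFactors.card + 1)) * ∏ p ∈ c.primeFactors, (p - 1) := by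
      rw [← h1, mul_assoc]
      exact Nat.mul_le_mul_left _ h2
    exact Nat.le_of_mul_le_mul_right h5 h3
  have h6 : 2 ^ c.primeFactors.card ≤ c := by
    calc 2 ^ c.primeFactors.card = ∏ p ∈ c.primeFactors, 2 := by rw [Finset.prod_const]
      _ ≤ ∏ p ∈ c.primeFactors, p := Finset.prod_le_prod' (fun p hp =>
          (Nat.prime_of_mem_primeFactors hp).two_le)
      _ ≤ c := Nat.le_of_dvd (by omega) (Nat.prod_primeFactors_dvd c)
  have h7 : (c.primeFactors.card : ℝ) * Real.log 2 ≤ Real.log c := by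
    rw [← Real.log_pow]
    apply Real.log_le_log (by positivity)
    exact_mod_cast h6
  have h8 : (c.primeFactors.card : ℝ) ≤ Real.log c / Real.log 2 := by
    rw [le_div_iff₀ (Real.log_pos (by norm_num))]
    exact h7
  calc (c : ℝ) ≤ (Nat.totient c : ℝ) * (c.primeFactors.card + 1) := by exact_mod_cast h4
    _ ≤ phi c * (1 + Real.log c / Real.log 2) := by
      apply mul_le_mul_of_nonneg_left (by linarith) (Nat.cast_nonneg _)

theorem gcs_inv {c m : ℕ} (hc : 1 ≤ c) (hm : c ≤ m) :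
    1 / ((c : ℝ) * phi c) ≤ 2 * (1 + Real.log m) / (c : ℝ) ^ 2 := by
  have hc0 : (0 : ℝ) < c := by exact_mod_cast hc
  have hphi : (0 : ℝ) < phi c := by exact_mod_cast Nat.totient_pos.2 hc
  have hlog : Real.log c ≤ Real.log m := Real.log_le_log hc0 (by exact_mod_cast hm)
  have hlc : 0 ≤ Real.log c := Real.log_nonneg (by exact_mod_cast hc)
  have h1 := gcs_phi hc
  have h2 : Real.log c / Real.log 2 ≤ 2 * Real.log c := by
    rw [div_le_iff₀ (Real.log_pos (by norm_num))]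
    nlinarith [Real.log_two_gt_d9]
  rw [div_le_div_iff₀ (by positivity) (by positivity)]
  have h3 : (c : ℝ) ≤ phi c * (2 * (1 + Real.log m)) := by
    apply h1.trans
    apply mul_le_mul_of_nonneg_left (by linarith) hphi.le
  nlinarith

theorem gcs_cc {c n : ℕ} (hn : 1 ≤ n) :
    |cc c n| ≤ ∑ a ∈ n.divisors, if a ∣ c then (a : ℝ) else 0 := by
  unfold cc
  have h1 : (Nat.gcd c n).divisors = n.divisors.filter (fun a => a ∣ c) := by
    ext a
    simp only [Nat.mem_divisors, Finset.mem_filter, Nat.dvd_gcd_iff]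
    constructor
    · rintro ⟨⟨h1, h2⟩, _⟩
      exact ⟨⟨h2, by omega⟩, h1⟩
    · rintro ⟨⟨h1, _⟩, h2⟩
      exact ⟨⟨h2, h1⟩, (Nat.gcd_pos_of_pos_right _ (by omega)).ne'⟩
  rw [h1, ← Finset.sum_filter]
  refine (Finset.abs_sum_le_sum_abs _ _).trans (Finset.sum_le_sum fun d _ => ?_)
  rw [abs_mul, Nat.abs_cast]
  have h2 : |mu (c / d)| ≤ 1 := by
    unfold mu
    have := ArithmeticFunction.abs_moebius_le_one (n := c / d)
    exact_mod_cast this
  calc (d : ℝ) * |mu (c / d)| ≤ d * 1 := mul_le_mul_of_nonneg_left h2 (Nat.cast_nonneg _)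
    _ = d := mul_one _

/-- the tail of `∑ 1/k²` -/
theorem gcs_sq (k₀ K : ℕ) (h : 1 ≤ k₀) :
    ∑ k ∈ Finset.Icc k₀ K, 1 / (k : ℝ) ^ 2 ≤ 2 / (k₀ : ℝ) := by
  have key : ∀ K : ℕ, k₀ ≤ K →
      ∑ k ∈ Finset.Icc k₀ K, 1 / (k : ℝ) ^ 2 ≤ 2 / (k₀ : ℝ) - 1 / (K : ℝ) := by
    intro K hK
    induction K, hK using Nat.le_induction with
    | base =>
      rw [Finset.Icc_self, Finset.sum_singleton]
      have hk : (1 : ℝ) ≤ k₀ := by exact_mod_cast h
      have : 1 / (k₀ : ℝ) ^ 2 ≤ 1 / (k₀ : ℝ) := by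
        apply one_div_le_one_div_of_le (by positivity)
        nlinarith
      have e : (2 : ℝ) / k₀ = 1 / k₀ + 1 / k₀ := by ring
      linarith
    | succ n hn ih =>
      rw [Finset.sum_Icc_succ_top (by omega)]
      have hn' : (0 : ℝ) < n := by exact_mod_cast (by omega : 0 < n)
      have h1 : 1 / (((n + 1 : ℕ) : ℝ)) ^ 2 ≤ 1 / (n : ℝ) - 1 / ((n + 1 : ℕ) : ℝ) := by
        push_cast
        rw [div_sub_div _ _ (by positivity) (by positivity), div_le_div_iff₀ (by positivity)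
          (by positivity)]
        nlinarith
      linarith
  rcases le_or_gt k₀ K with hK | hK
  · have h1 := key K hK
    have h2 : (0 : ℝ) ≤ 1 / K := by positivity
    linarith
  · rw [Finset.Icc_eq_empty (by omega), Finset.sum_empty]
    positivity

/-- multiples of `l` above `R` -/
theorem gcs_mult (l R m : ℕ) (hl : 1 ≤ l) :
    ∑ c ∈ Finset.Ioc R m, (if l ∣ c then 1 / (c : ℝ) ^ 2 else 0) ≤
      1 / (l : ℝ) ^ 2 * (2 / ((R / l + 1 : ℕ) : ℝ)) := by
  have hl0 : (l : ℝ) ≠ 0 := by exact_mod_cast (by omega : l ≠ 0)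
  have h1 : ∑ c ∈ Finset.Ioc R m, (if l ∣ c then 1 / (c : ℝ) ^ 2 else 0) ≤
      ∑ k ∈ Finset.Icc (R / l + 1) m, 1 / (l : ℝ) ^ 2 * (1 / (k : ℝ) ^ 2) := by
    rw [← Finset.sum_filter]
    have h2 : ∑ c ∈ (Finset.Ioc R m).filter (fun c => l ∣ c), 1 / (c : ℝ) ^ 2 =
        ∑ k ∈ ((Finset.Ioc R m).filter (fun c => l ∣ c)).image (fun c => c / l),
          1 / (l : ℝ) ^ 2 * (1 / (k : ℝ) ^ 2) := by
      rw [Finset.sum_image]
      · apply Finset.sum_congr rfl
        intro c hc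
        rw [Finset.mem_filter] at hc
        obtain ⟨k, hk⟩ := hc.2
        rw [hk, Nat.mul_div_cancel_left _ (by omega)]
        push_cast
        rw [mul_pow, one_div_mul_one_div]
      · intro c hc c' hc' h
        simp only [Finset.coe_filter, Set.mem_ofPred_eq] at hc hc'
        obtain ⟨k, hk⟩ := hc.2
        obtain ⟨k', hk'⟩ := hc'.2
        simp only at h
        rw [hk, hk', Nat.mul_div_cancel_left _ (by omega),
          Nat.mul_div_cancel_left _ (by omega)] at h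
        rw [hk, hk', h]
    rw [h2]
    apply Finset.sum_le_sum_of_subset_of_nonneg
    · intro k hk
      rw [Finset.mem_image] at hk
      obtain ⟨c, hc, hck⟩ := hk
      rw [Finset.mem_filter, Finset.mem_Ioc] at hc
      rw [Finset.mem_Icc, ← hck]
      constructor
      · obtain ⟨k', hk'⟩ := hc.2
        rw [hk', Nat.mul_div_cancel_left _ (by omega)]
        have h3 : R < l * k' := by rw [← hk']; exact hc.1.1
        exact Nat.div_lt_of_lt_mul h3
      · exact (Nat.div_le_self _ _).trans hc.1.2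
    · intro k _ _
      positivity
  refine h1.trans ?_
  rw [← Finset.mul_sum]
  exact mul_le_mul_of_nonneg_left (gcs_sq _ _ (Nat.le_add_left 1 _)) (by positivity)

/-- the general bound -/
theorem gcs_gen {n g m : ℕ} (hn : 1 ≤ n) (hg : 1 ≤ g) (S : Finset ℕ)
    (hS : ∀ c ∈ S, 1 ≤ c ∧ c ≤ m) (D : ℝ)
    (hD : ∀ a b : ℕ, a ∣ n → b ∣ g → (a : ℝ) * b *
      ∑ c ∈ S, (if Nat.lcm a b ∣ c then 1 / (c : ℝ) ^ 2 else 0) ≤ D) :
    ∑ c ∈ S, |cc c n * cc c g| / (c * phi c) ≤ 2 * (1 + Real.log m) * (tau n * tau g * D) := by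
  have hlog : 0 ≤ 1 + Real.log m := by
    have := Real.log_natCast_nonneg m
    linarith
  have h1 : ∀ c ∈ S, |cc c n * cc c g| / (c * phi c) ≤ 2 * (1 + Real.log m) *
      ∑ a ∈ n.divisors, ∑ b ∈ g.divisors,
        (a : ℝ) * b * (if Nat.lcm a b ∣ c then 1 / (c : ℝ) ^ 2 else 0) := by
    intro c hc
    obtain ⟨hc1, hcm⟩ := hS c hc
    have h2 := gcs_inv hc1 hcm
    have h3 := gcs_cc (c := c) hn
    have h4 := gcs_cc (c := c) hg
    rw [abs_mul, div_eq_mul_one_div]
    have h5 : ∑ a ∈ n.divisors, ∑ b ∈ g.divisors,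
        (a : ℝ) * b * (if Nat.lcm a b ∣ c then 1 / (c : ℝ) ^ 2 else 0) =
        (∑ a ∈ n.divisors, if a ∣ c then (a : ℝ) else 0) *
          (∑ b ∈ g.divisors, if b ∣ c then (b : ℝ) else 0) * (1 / (c : ℝ) ^ 2) := by
      rw [Finset.sum_mul_sum, Finset.sum_mul]
      apply Finset.sum_congr rfl
      intro a _
      rw [Finset.sum_mul]
      apply Finset.sum_congr rfl
      intro b _
      by_cases ha : a ∣ c
      · by_cases hb : b ∣ c
        · rw [if_pos ha, if_pos hb, if_pos (Nat.lcm_dvd ha hb)]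
        · rw [if_neg hb, if_neg (fun h => hb ((Nat.dvd_lcm_right a b).trans h))]
          ring
      · rw [if_neg ha, if_neg (fun h => ha ((Nat.dvd_lcm_left a b).trans h))]
        ring
    rw [h5]
    calc |cc c n| * |cc c g| * (1 / (c * phi c)) ≤
        ((∑ a ∈ n.divisors, if a ∣ c then (a : ℝ) else 0) *
          (∑ b ∈ g.divisors, if b ∣ c then (b : ℝ) else 0)) *
          (2 * (1 + Real.log m) / (c : ℝ) ^ 2) := by
          apply mul_le_mul _ h2 (by positivity) _
          · apply mul_le_mul h3 h4 (abs_nonneg _) ((abs_nonneg _).trans h3)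
          · exact mul_nonneg ((abs_nonneg _).trans h3) ((abs_nonneg _).trans h4)
      _ = _ := by ring
  refine (Finset.sum_le_sum h1).trans ?_
  rw [← Finset.mul_sum]
  apply mul_le_mul_of_nonneg_left _ (by positivity)
  rw [Finset.sum_comm]
  have h6 : ∀ a ∈ n.divisors, ∑ c ∈ S, ∑ b ∈ g.divisors,
      (a : ℝ) * b * (if Nat.lcm a b ∣ c then 1 / (c : ℝ) ^ 2 else 0) ≤ tau g * D := by
    intro a ha
    rw [Finset.sum_comm]
    have h7 : ∀ b ∈ g.divisors, ∑ c ∈ S,
        (a : ℝ) * b * (if Nat.lcm a b ∣ c then 1 / (c : ℝ) ^ 2 else 0) ≤ D := by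
      intro b hb
      rw [← Finset.mul_sum]
      exact hD a b (Nat.dvd_of_mem_divisors ha) (Nat.dvd_of_mem_divisors hb)
    refine (Finset.sum_le_sum h7).trans ?_
    rw [Finset.sum_const, nsmul_eq_mul]
    rfl
  refine (Finset.sum_le_sum h6).trans ?_
  rw [Finset.sum_const, nsmul_eq_mul, mul_assoc]
  rfl

theorem gcs_lcm (a b : ℕ) :
    (a : ℝ) * b = (Nat.gcd a b : ℝ) * (Nat.lcm a b : ℝ) := by
  exact_mod_cast (Nat.gcd_mul_lcm a b).symm

theorem gcs_all_pr {n g m : ℕ} (hn : 1 ≤ n) (hg : 1 ≤ g) :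
    ∑ c ∈ Finset.Icc 1 m, |cc c n * cc c g| / (c * phi c) ≤
      8 * (1 + Real.log m) * tau n * tau g := by
  have hlog : 0 ≤ 1 + Real.log m := by
    have := Real.log_natCast_nonneg m
    linarith
  have h := gcs_gen hn hg (Finset.Icc 1 m) (fun c hc => Finset.mem_Icc.1 hc) 2 (by
    intro a b ha hb
    have ha1 : 1 ≤ a := Nat.pos_of_dvd_of_pos ha hn
    have hb1 : 1 ≤ b := Nat.pos_of_dvd_of_pos hb hg
    have hl1 : 1 ≤ Nat.lcm a b := Nat.lcm_pos ha1 hb1
    have hl0 : (0 : ℝ) < (Nat.lcm a b : ℝ) := by exact_mod_cast hl1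
    have h2 := gcs_mult (Nat.lcm a b) 0 m hl1
    have h3 : Finset.Ioc 0 m = Finset.Icc 1 m := by
      ext x; simp only [Finset.mem_Ioc, Finset.mem_Icc]; omega
    rw [h3, Nat.zero_div] at h2
    have h4 : (Nat.gcd a b : ℝ) ≤ (Nat.lcm a b : ℝ) := by
      have := Nat.le_of_dvd hl1 ((Nat.gcd_dvd_left a b).trans (Nat.dvd_lcm_left a b))
      exact_mod_cast this
    rw [gcs_lcm a b]
    calc (Nat.gcd a b : ℝ) * (Nat.lcm a b : ℝ) * _ ≤
        (Nat.lcm a b : ℝ) * (Nat.lcm a b : ℝ) *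
          (1 / (Nat.lcm a b : ℝ) ^ 2 * (2 / ((0 + 1 : ℕ) : ℝ))) := by
          apply mul_le_mul (mul_le_mul_of_nonneg_right h4 hl0.le) h2 _ (by positivity)
          apply Finset.sum_nonneg
          intro c _
          split_ifs <;> positivity
      _ = 2 := by
          push_cast
          field_simp)
  have ht : 0 ≤ tau n * tau g := by unfold tau; positivity
  calc _ ≤ _ := h
    _ ≤ _ := by nlinarith [mul_nonneg hlog ht]

theorem gcs_tail_pr {n g m R : ℕ} (hn : 1 ≤ n) (hg : 1 ≤ g) (hR : 1 ≤ R) :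
    ∑ c ∈ Finset.Ioc R m, |cc c n * cc c g| / (c * phi c) ≤
      8 * (1 + Real.log m) * tau n * tau g * g / R := by
  have hlog : 0 ≤ 1 + Real.log m := by
    have := Real.log_natCast_nonneg m
    linarith
  have hR0 : (0 : ℝ) < R := by exact_mod_cast hR
  have h := gcs_gen (m := m) hn hg (Finset.Ioc R m) (fun c hc => by
    rw [Finset.mem_Ioc] at hc; omega) (2 * g / R) (by
    intro a b ha hb
    have ha1 : 1 ≤ a := Nat.pos_of_dvd_of_pos ha hn
    have hb1 : 1 ≤ b := Nat.pos_of_dvd_of_pos hb hg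
    have hl1 : 1 ≤ Nat.lcm a b := Nat.lcm_pos ha1 hb1
    have hl0 : (0 : ℝ) < (Nat.lcm a b : ℝ) := by exact_mod_cast hl1
    have h2 := gcs_mult (Nat.lcm a b) R m hl1
    have h4 : (Nat.gcd a b : ℝ) ≤ (g : ℝ) := by
      have := Nat.le_of_dvd hg ((Nat.gcd_dvd_right a b).trans hb)
      exact_mod_cast this
    have h5 : 2 / ((R / Nat.lcm a b + 1 : ℕ) : ℝ) ≤ 2 * (Nat.lcm a b : ℝ) / R := by
      rw [div_le_div_iff₀ (by positivity) hR0]
      have h6 : R < Nat.lcm a b * (R / Nat.lcm a b + 1) := Nat.lt_mul_div_succ R hl1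
      have h7 : (R : ℝ) ≤ (Nat.lcm a b : ℝ) * ((R / Nat.lcm a b + 1 : ℕ) : ℝ) := by
        exact_mod_cast h6.le
      linarith
    rw [gcs_lcm a b]
    calc (Nat.gcd a b : ℝ) * (Nat.lcm a b : ℝ) * _ ≤
        (g : ℝ) * (Nat.lcm a b : ℝ) *
          (1 / (Nat.lcm a b : ℝ) ^ 2 * (2 * (Nat.lcm a b : ℝ) / R)) := by
          apply mul_le_mul (mul_le_mul_of_nonneg_right h4 hl0.le) _ _ (by positivity)
          · exact h2.trans (mul_le_mul_of_nonneg_left h5 (by positivity))
          · apply Finset.sum_nonneg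
            intro c _
            split_ifs <;> positivity
      _ = 2 * g / R := by
          field_simp)
  have ht : 0 ≤ tau n * tau g := by unfold tau; positivity
  calc _ ≤ _ := h
    _ = 4 * ((1 + Real.log m) * (tau n * tau g) * (g / R)) := by ring
    _ ≤ 8 * ((1 + Real.log m) * (tau n * tau g) * (g / R)) := by
      have : 0 ≤ (1 + Real.log m) * (tau n * tau g) * (g / R) := by positivity
      linarith
    _ = _ := by ring

alias gcs_all := gcs_all_pr
alias gcs_tail := gcs_tail_pr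

end Pool.Agent.LSPP
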