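import Pool.Agent.Lib_helper15.LSP.DefsP
import Pool.Agent.Lib_helper73.Var.Conv
import Pool.Agent.Lib_helper61.FG.DivB

set_option autoImplicit false

namespace Pool.Agent.LSPP

open Pool.Agent.LSP (tau sg1 CC Gs Adm)
open Pool.Agent.LSPO (hyp cl KK rho b1 GOK)
open Pool.Agent.FG61 (mu phi cc)
open MeasureTheory Filter Topology

theorem tau_le_pr {ε : ℝ} (hε : 0 < ε) : ∃ C : ℝ, 1 ≤ C ∧ ∀ n : ℕ, tau n ≤ C * (n : ℝ) ^ ε := by
  obtain ⟨C, hC, h⟩ := Pool.Agent.FG61.divisor_bound hε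
  refine ⟨max C 1, le_max_right _ _, fun n => ?_⟩
  rcases Nat.eq_zero_or_pos n with rfl | hn
  · have : tau 0 = 0 := by simp [Pool.Agent.LSP.tau]
    rw [this]
    positivity
  · refine (h n hn).trans ?_
    exact mul_le_mul_of_nonneg_right (le_max_left _ _) (by positivity)

theorem tau_blk_nn (n : ℕ) : 0 ≤ tau n := Nat.cast_nonneg _

theorem tau_blk_ps (k R : ℕ) : ∑ c ∈ Finset.Icc 1 R, tau c ^ k / (c : ℝ) ≤
    (1 + Real.log R) ^ (2 ^ k) := by
  have hl : 0 ≤ 1 + Real.log (R : ℝ) := by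
    have := Real.log_natCast_nonneg R; linarith
  induction k with
  | zero =>
    simp only [pow_zero, pow_one]
    exact Pool.Agent.Var73.sum_inv_le R
  | succ k ih =>
    have h1 : ∀ w ∈ Finset.Icc 1 R, tau w ^ (k + 1) / (w : ℝ) ≤
        ∑ d ∈ w.divisors, (tau d ^ k / (d : ℝ)) * (tau (w / d) ^ k / ((w / d : ℕ) : ℝ)) := by
      intro w hw
      rw [Finset.mem_Icc] at hw
      have hcount : tau w ^ (k + 1) / (w : ℝ) = ∑ d ∈ w.divisors, tau w ^ k / (w : ℝ) := by
        rw [Finset.sum_const, nsmul_eq_mul, pow_succ]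
        unfold Pool.Agent.LSP.tau
        ring
      rw [hcount]
      refine Finset.sum_le_sum fun d hd => ?_
      have hd' := Nat.mem_divisors.1 hd
      have h2 := Pool.Agent.Var73.card_div_mul d (w / d)
      rw [Nat.mul_div_cancel' hd'.1] at h2
      have h3 : tau w ≤ tau d * tau (w / d) := by
        unfold Pool.Agent.LSP.tau
        exact_mod_cast h2
      have h4 : (w : ℝ) = (d : ℝ) * ((w / d : ℕ) : ℝ) := by
        exact_mod_cast (Nat.mul_div_cancel' hd'.1).symm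
      rw [div_mul_div_comm, ← h4, ← mul_pow]
      have hw0 : (0 : ℝ) < w := by exact_mod_cast (by omega : 0 < w)
      exact div_le_div_of_nonneg_right (pow_le_pow_left₀ (tau_blk_nn w) h3 k) hw0.le
    refine (Finset.sum_le_sum h1).trans ?_
    rw [Pool.Agent.Var73.sum_divisors_swap R
      (fun d l => (tau d ^ k / (d : ℝ)) * (tau l ^ k / (l : ℝ)))]
    have h2 : ∀ d ∈ Finset.Icc 1 R, ∑ l ∈ Finset.Icc 1 (R / d),
        (tau d ^ k / (d : ℝ)) * (tau l ^ k / (l : ℝ)) ≤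
        (tau d ^ k / (d : ℝ)) * (1 + Real.log R) ^ (2 ^ k) := by
      intro d _
      rw [← Finset.mul_sum]
      refine mul_le_mul_of_nonneg_left ?_
        (div_nonneg (pow_nonneg (tau_blk_nn d) k) (Nat.cast_nonneg d))
      refine le_trans ?_ ih
      refine Finset.sum_le_sum_of_subset_of_nonneg
        (Finset.Icc_subset_Icc_right (Nat.div_le_self R d)) fun l _ _ => ?_
      exact div_nonneg (pow_nonneg (tau_blk_nn l) k) (Nat.cast_nonneg l)
    refine (Finset.sum_le_sum h2).trans ?_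
    rw [← Finset.sum_mul]
    have : (1 + Real.log (R : ℝ)) ^ (2 ^ (k + 1)) =
        (1 + Real.log (R : ℝ)) ^ (2 ^ k) * (1 + Real.log (R : ℝ)) ^ (2 ^ k) := by
      rw [← pow_add]; congr 1; ring
    rw [this]
    exact mul_le_mul_of_nonneg_right ih (by positivity)

theorem tau_sum_pr (k : ℕ) : ∃ (K : ℝ) (j : ℕ), 1 ≤ K ∧ ∀ R : ℕ, 1 ≤ R →
    ∑ c ∈ Finset.Icc 1 R, tau c ^ k / phi c ≤ K * (1 + Real.log R) ^ j := by
  refine ⟨2, 2 ^ k + 1, by norm_num, fun R hR => ?_⟩
  have hlR : 0 ≤ Real.log (R : ℝ) := Real.log_natCast_nonneg R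
  have h1 : ∀ c ∈ Finset.Icc 1 R, tau c ^ k / phi c ≤
      (2 * (1 + Real.log R)) * (tau c ^ k / (c : ℝ)) := by
    intro c hc
    rw [Finset.mem_Icc] at hc
    have h2 := Pool.Agent.Var35.totient_ge c hc.1
    have hc0 : (0 : ℝ) < c := by exact_mod_cast (by omega : 0 < c)
    have hphi : (0 : ℝ) < (Nat.totient c : ℝ) := by
      exact_mod_cast Nat.totient_pos.2 (by omega)
    have hlog : Real.log (c : ℝ) ≤ Real.log R := Real.log_le_log hc0 (by exact_mod_cast hc.2)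
    have hlc : 0 ≤ Real.log (c : ℝ) := Real.log_natCast_nonneg c
    have h3 : (c : ℝ) ≤ (2 * (1 + Real.log R)) * (Nat.totient c : ℝ) :=
      h2.trans (mul_le_mul_of_nonneg_right (by linarith) hphi.le)
    have ht : 0 ≤ tau c ^ k := pow_nonneg (tau_blk_nn c) k
    rw [div_le_iff₀ hphi]
    have h4 : tau c ^ k = tau c ^ k / (c : ℝ) * c := by field_simp
    calc tau c ^ k = tau c ^ k / (c : ℝ) * c := h4
      _ ≤ tau c ^ k / (c : ℝ) * ((2 * (1 + Real.log R)) * (Nat.totient c : ℝ)) :=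
          mul_le_mul_of_nonneg_left h3 (by positivity)
      _ = 2 * (1 + Real.log R) * (tau c ^ k / (c : ℝ)) * (Nat.totient c : ℝ) := by ring
  refine (Finset.sum_le_sum h1).trans ?_
  rw [← Finset.mul_sum]
  calc 2 * (1 + Real.log R) * ∑ c ∈ Finset.Icc 1 R, tau c ^ k / (c : ℝ)
      ≤ 2 * (1 + Real.log R) * (1 + Real.log R) ^ (2 ^ k) :=
        mul_le_mul_of_nonneg_left (tau_blk_ps k R) (by positivity)
    _ = 2 * (1 + Real.log R) ^ (2 ^ k + 1) := by ring

alias tau_le := tau_le_pr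
alias tau_sum := tau_sum_pr

end Pool.Agent.LSPP
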