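import Pool.Agent.Lib_helper15.LSP.DefsP
import Pool.Agent.Lib_helper15.LSPF.AVP
import Pool.Agent.Lib_helper15.LSPF.GCS
import Pool.Agent.Lib_helper15.LSPF.TAU
import Pool.Agent.Lib_helper15.LSPF.MEA

/-!
# LSP part P, block AVG: the average over the centre (helper6)
-/

set_option autoImplicit false

namespace Pool.Agent.LSPP

open Pool.Agent.LSP (tau sg1 CC Gs Adm)
open Pool.Agent.LSPO (hyp cl KK rho b1 GOK)
open Pool.Agent.FG61 (mu phi cc)
open MeasureTheory Filter Topology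

theorem avg_th_meas : Measurable th := by
  unfold th
  refine Measurable.ite ?_ ?_ measurable_const
  · exact (measurableSet_Ici (a := (1 / 2 : ℝ))).inter (measurableSet_Iic (a := (1 : ℝ)))
  · fun_prop

theorem avg_th_le (s : ℝ) : |th s| ≤ 1 := by
  unfold th
  split_ifs with h
  · obtain ⟨h1, h2⟩ := h
    have e1 : 0 ≤ (1 - s) := by linarith
    have e2 : 0 ≤ (2 * s - 1) := by linarith
    rw [abs_of_nonneg (by positivity)]
    have f1 : (1 - s) ^ 3 ≤ 1 := pow_le_one₀ e1 (by linarith)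
    have f2 : (2 * s - 1) ^ 3 ≤ 1 := pow_le_one₀ e2 (by linarith)
    calc (1 - s) ^ 3 * (2 * s - 1) ^ 3 ≤ 1 * 1 := mul_le_mul f1 f2 (by positivity) (by norm_num)
      _ = 1 := by norm_num
  · simp

theorem avg_w_meas : Measurable (fun t : ℝ => th (1 / t) / t) :=
  (avg_th_meas.comp (by fun_prop)).div measurable_id

theorem avg_w_le {t : ℝ} (ht : 1 ≤ t) : |th (1 / t) / t| ≤ 1 := by
  rw [abs_div, abs_of_pos (by linarith : 0 < t)]
  exact div_le_one_of_le₀ ((avg_th_le _).trans ht) (by linarith)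

theorem avg_log_le {a b x : ℝ} (ha : 0 < a) (h1 : a ≤ x) (h2 : x ≤ b) :
    |Real.log x| ≤ |Real.log a| + |Real.log b| := by
  have e1 := Real.log_le_log ha h1
  have e2 := Real.log_le_log (lt_of_lt_of_le ha h1) h2
  rw [abs_le]
  constructor
  · have := neg_abs_le (Real.log a)
    have := abs_nonneg (Real.log b)
    linarith
  · have := le_abs_self (Real.log b)
    have := abs_nonneg (Real.log a)
    linarith

theorem avg_term_int {G : ℝ → ℝ} {U c₀ : ℝ} (hG : GOK G U c₀) {n c : ℕ} {g : ℤ} {om X : ℝ}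
    (hn : 1 ≤ n) (hg : g ≠ 0) (ho : 0 < om) (hX : 0 < X) :
    IntervalIntegrable (fun t : ℝ => KK G om ((g : ℝ) * (t * X) / n) *
        (Real.log |(n : ℝ) - g * (t * X)| / 2 + ga - Real.log c) * (th (1 / t) / t))
      volume 1 2 := by
  have hn0 : (0 : ℝ) < n := by exact_mod_cast hn
  have hg1 : (1 : ℝ) ≤ |(g : ℝ)| := by
    rw [← Int.cast_abs]; exact_mod_cast Int.one_le_abs hg
  obtain ⟨B, hB⟩ : ∃ B, B = 2 * |(g : ℝ)| * X / n := ⟨_, rfl⟩
  have hB0 : 0 < B := by rw [hB]; positivity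
  obtain ⟨A1, hA1⟩ : ∃ A1, A1 = |Real.log (X / n)| + |Real.log B| := ⟨_, rfl⟩
  obtain ⟨A2, hA2⟩ : ∃ A2, A2 = |Real.log om| + |Real.log (1 + B)| := ⟨_, rfl⟩
  have hA10 : 0 ≤ A1 := by rw [hA1]; positivity
  have hA20 : 0 ≤ A2 := by rw [hA2]; positivity
  have hc0 : 0 ≤ c₀ := by have := hG.one_le'; linarith
  rw [intervalIntegrable_iff_integrableOn_Ioc_of_le (by norm_num)]
  refine Measure.integrableOn_of_bounded
    (M := c₀ * (1 + A1 + A2) * ((|Real.log n| + A2) / 2 + |ga| + |Real.log c|)) (by simp) ?_ ?_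
  · refine Measurable.aestronglyMeasurable ?_
    have h1 := go_meas hG
    have h2 := avg_w_meas
    have h3 : Measurable (fun t : ℝ => (g : ℝ) * (t * X) / n) := by fun_prop
    have h4 : Measurable (cl om) := by unfold cl; fun_prop
    have h5 : Measurable (fun t : ℝ => KK G om ((g : ℝ) * (t * X) / n)) := by
      unfold KK
      exact (h1.comp h3).mul (h4.comp h3)
    refine (h5.mul ?_).mul h2
    fun_prop
  · refine (ae_restrict_iff' measurableSet_Ioc).mpr (Eventually.of_forall fun t ht => ?_)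
    obtain ⟨u, hu⟩ : ∃ u, u = (g : ℝ) * (t * X) / n := ⟨_, rfl⟩
    rw [Real.norm_eq_abs, ← hu]
    by_cases hcl : cl om u = 0
    · unfold KK
      rw [hcl]
      simp only [mul_zero, zero_mul, abs_zero]
      positivity
    have h1u : om < |1 - u| := by
      by_contra hc
      push Not at hc
      apply hcl
      unfold cl
      refine max_eq_left ?_
      refine (min_le_right _ _).trans ?_
      have : |1 - u| / om ≤ 1 := div_le_one_of_le₀ hc ho.le
      linarith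
    have hcl1 : |cl om u| ≤ 1 := by
      unfold cl
      rw [abs_of_nonneg (le_max_left _ _)]
      exact max_le (by norm_num) (min_le_left _ _)
    have habs : |u| = |(g : ℝ)| * (t * X) / n := by
      rw [hu, abs_div, abs_mul, abs_of_pos hn0, abs_of_pos (mul_pos (by linarith [ht.1]) hX)]
    have hu1 : X / n ≤ |u| := by
      rw [habs]
      refine div_le_div_of_nonneg_right ?_ hn0.le
      have e1 : 1 * X ≤ t * X := mul_le_mul_of_nonneg_right ht.1.le hX.le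
      calc X = 1 * (1 * X) := by ring
        _ ≤ |(g : ℝ)| * (t * X) := mul_le_mul hg1 e1 (by linarith) (by linarith)
    have hu2 : |u| ≤ B := by
      rw [habs, hB]
      refine div_le_div_of_nonneg_right ?_ hn0.le
      have e1 : t * X ≤ 2 * X := mul_le_mul_of_nonneg_right ht.2 hX.le
      calc |(g : ℝ)| * (t * X) ≤ |(g : ℝ)| * (2 * X) := mul_le_mul_of_nonneg_left e1 (by linarith)
        _ = _ := by ring
    have hupos : 0 < |u| := lt_of_lt_of_le (by positivity) hu1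
    have hu0 : u ≠ 0 := abs_pos.mp hupos
    have hune : u ≠ 1 := by
      intro h
      rw [h] at h1u
      simp at h1u
      linarith
    have h1u2 : |1 - u| ≤ 1 + B := by
      have := abs_sub (1 : ℝ) u
      rw [abs_one] at this
      linarith
    have hL1 : |Real.log (|u|)| ≤ A1 := by
      rw [hA1]; exact avg_log_le (by positivity) hu1 hu2
    have hL2 : |Real.log (|1 - u|)| ≤ A2 := by
      rw [hA2]; exact avg_log_le ho h1u.le h1u2
    have hGu : |G u| ≤ c₀ * (1 + A1 + A2) := by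
      refine (hG.bd u hu0 hune).trans (mul_le_mul_of_nonneg_left ?_ hc0)
      linarith
    have hlog : Real.log |(n : ℝ) - g * (t * X)| = Real.log n + Real.log |1 - u| := by
      have e1 : (n : ℝ) - g * (t * X) = n * (1 - u) := by
        rw [hu]; field_simp
      rw [e1, abs_mul, abs_of_pos hn0, Real.log_mul hn0.ne' (by
        have : 0 < |1 - u| := lt_trans ho h1u
        exact this.ne')]
    rw [hlog, abs_mul, abs_mul]
    unfold KK
    rw [abs_mul]
    have e3 : |(Real.log n + Real.log |1 - u|) / 2 + ga - Real.log c| ≤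
        (|Real.log n| + A2) / 2 + |ga| + |Real.log c| := by
      refine (abs_sub _ _).trans ?_
      refine add_le_add ((abs_add_le _ _).trans (add_le_add ?_ le_rfl)) le_rfl
      rw [abs_div, abs_two]
      refine div_le_div_of_nonneg_right ?_ (by norm_num)
      exact (abs_add_le _ _).trans (add_le_add le_rfl hL2)
    calc |G u| * |cl om u| * |(Real.log n + Real.log |1 - u|) / 2 + ga - Real.log c| *
          |th (1 / t) / t|
        ≤ (c₀ * (1 + A1 + A2)) * 1 * ((|Real.log n| + A2) / 2 + |ga| + |Real.log c|) * 1 := by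
          gcongr
          exact avg_w_le ht.1.le
      _ = _ := by ring

/-- the coefficients -/
noncomputable def avg_co (C : ℕ → ℝ) (n c : ℕ) (g : ℤ) : ℝ :=
  4 * Real.pi * C n * tau g.natAbs * (cc c n * cc c g.natAbs / (c * phi c))

theorem avg_M5 (C : ℕ → ℝ) (G : ℝ → ℝ) (Q : ℕ) (S : Finset ℤ) (R : ℕ) (om X t : ℝ) :
    M5 C G Q S R om (t * X) * (th (1 / t) / t) =
      ∑ n ∈ Finset.Icc 1 Q, ∑ g ∈ S, ∑ c ∈ Finset.Icc 1 R, avg_co C n c g *
        (KK G om ((g : ℝ) * (t * X) / n) *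
          (Real.log |(n : ℝ) - g * (t * X)| / 2 + ga - Real.log c) * (th (1 / t) / t)) := by
  unfold M5 avg_co
  simp only [Finset.mul_sum, Finset.sum_mul]
  refine Finset.sum_congr rfl fun n _ => Finset.sum_congr rfl fun g _ =>
    Finset.sum_congr rfl fun c _ => ?_
  ring

theorem avg_M6 (C : ℕ → ℝ) (G : ℝ → ℝ) (Q : ℕ) (S : Finset ℤ) (R : ℕ) (X : ℝ) :
    M6 C G Q S R X =
      ∑ n ∈ Finset.Icc 1 Q, ∑ g ∈ S, ∑ c ∈ Finset.Icc 1 R, avg_co C n c g *
        ((Real.log n / 2 + ga - Real.log c) * av (fun t => G ((g : ℝ) * (t * X) / n)) +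
          av (fun t => G1 G ((g : ℝ) * (t * X) / n))) := by
  unfold M6 avg_co
  rw [Finset.mul_sum]
  refine Finset.sum_congr rfl fun n _ => ?_
  rw [Finset.sum_comm, Finset.mul_sum, Finset.mul_sum]
  refine Finset.sum_congr rfl fun c _ => ?_
  rw [Finset.mul_sum, ← Finset.sum_add_distrib, Finset.mul_sum, Finset.mul_sum, Finset.mul_sum]
  refine Finset.sum_congr rfl fun g _ => ?_
  ring

theorem avg_isum {ι : Type} (s : Finset ι) (f : ι → ℝ → ℝ) {a b : ℝ}
    (h : ∀ i ∈ s, IntervalIntegrable (f i) volume a b) :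
    IntervalIntegrable (fun x => ∑ i ∈ s, f i x) volume a b := by
  have h1 := IntervalIntegrable.sum s h
  have h2 : (∑ i ∈ s, f i) = fun x => ∑ i ∈ s, f i x := by
    ext x; simp
  rwa [h2] at h1

theorem avg_term_int' {G : ℝ → ℝ} {U c₀ : ℝ} (hG : GOK G U c₀) (C : ℕ → ℝ) {n c : ℕ} {g : ℤ}
    {om X : ℝ} (hn : 1 ≤ n) (ho : 0 < om) (hX : 0 < X) :
    IntervalIntegrable (fun t : ℝ => avg_co C n c g * (KK G om ((g : ℝ) * (t * X) / n) *
        (Real.log |(n : ℝ) - g * (t * X)| / 2 + ga - Real.log c) * (th (1 / t) / t)))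
      volume 1 2 := by
  by_cases hg : g = 0
  · subst hg
    have : avg_co C n c 0 = 0 := by
      unfold avg_co tau
      simp
    rw [this]
    simp
  · exact (avg_term_int hG hn hg ho hX).const_mul _

theorem avg_int_pr {G : ℝ → ℝ} {U c₀ : ℝ} (hG : GOK G U c₀) (C : ℕ → ℝ) (Q : ℕ) (S : Finset ℤ)
    (R : ℕ) {om X : ℝ} (ho : 0 < om) (hX : 0 < X) :
    IntervalIntegrable (fun t => M5 C G Q S R om (t * X) * (th (1 / t) / t)) volume 1 2 := by
  simp only [avg_M5]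
  exact avg_isum _ _ fun n hn => avg_isum _ _ fun g _ => avg_isum _ _ fun c _ =>
    avg_term_int' hG C (Finset.mem_Icc.mp hn).1 ho hX

/-- the difference for one triple -/
noncomputable def avg_D (G : ℝ → ℝ) (om X : ℝ) (n c : ℕ) (g : ℤ) : ℝ :=
  av (fun t => KK G om ((g : ℝ) * (t * X) / n) *
        (Real.log |(n : ℝ) - g * (t * X)| / 2 + ga - Real.log c)) -
      ((Real.log n / 2 + ga - Real.log c) * av (fun t => G ((g : ℝ) * (t * X) / n)) +
        av (fun t => G1 G ((g : ℝ) * (t * X) / n)))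

theorem avg_diff {G : ℝ → ℝ} {U c₀ : ℝ} (hG : GOK G U c₀) (C : ℕ → ℝ) (Q : ℕ) (S : Finset ℤ)
    (R : ℕ) {om X : ℝ} (ho : 0 < om) (hX : 0 < X) :
    av (fun t => M5 C G Q S R om (t * X)) - M6 C G Q S R X =
      ∑ n ∈ Finset.Icc 1 Q, ∑ g ∈ S, ∑ c ∈ Finset.Icc 1 R, avg_co C n c g * avg_D G om X n c g := by
  have h1 : av (fun t => M5 C G Q S R om (t * X)) =
      ∑ n ∈ Finset.Icc 1 Q, ∑ g ∈ S, ∑ c ∈ Finset.Icc 1 R, avg_co C n c g *
        av (fun t => KK G om ((g : ℝ) * (t * X) / n) *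
        (Real.log |(n : ℝ) - g * (t * X)| / 2 + ga - Real.log c)) := by
    unfold av
    simp only [avg_M5]
    rw [intervalIntegral.integral_finsetSum fun n hn => avg_isum _ _ fun g _ =>
      avg_isum _ _ fun c _ => avg_term_int' hG C (Finset.mem_Icc.mp hn).1 ho hX]
    refine Finset.sum_congr rfl fun n hn => ?_
    rw [intervalIntegral.integral_finsetSum fun g _ =>
      avg_isum _ _ fun c _ => avg_term_int' hG C (Finset.mem_Icc.mp hn).1 ho hX]
    refine Finset.sum_congr rfl fun g _ => ?_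
    rw [intervalIntegral.integral_finsetSum fun c _ =>
      avg_term_int' hG C (Finset.mem_Icc.mp hn).1 ho hX]
    refine Finset.sum_congr rfl fun c _ => ?_
    rw [intervalIntegral.integral_const_mul]
  rw [h1, avg_M6, ← Finset.sum_sub_distrib]
  refine Finset.sum_congr rfl fun n _ => ?_
  rw [← Finset.sum_sub_distrib]
  refine Finset.sum_congr rfl fun g _ => ?_
  rw [← Finset.sum_sub_distrib]
  refine Finset.sum_congr rfl fun c _ => ?_
  unfold avg_D
  ring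

theorem avg_D_zero {G : ℝ → ℝ} {U c₀ : ℝ} (hG : GOK G U c₀) (n c : ℕ) (g : ℤ)
    {om X : ℝ} (hn : 1 ≤ n) (hX : 0 < X) (h : U < |(g : ℝ)| * X / n) :
    avg_D G om X n c g = 0 := by
  have hz := avp_zero hG n g X hn hX h
  have e1 : av (fun t => KK G om ((g : ℝ) * (t * X) / n) *
        (Real.log |(n : ℝ) - g * (t * X)| / 2 + ga - Real.log c)) = 0 := by
    unfold av
    rw [intervalIntegral.integral_congr (g := fun _ => (0 : ℝ))]
    · simp
    · intro t ht
      rw [Set.uIcc_of_le (by norm_num)] at ht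
      simp only [KK, hz t ht.1, zero_mul]
  have e2 : av (fun t => G ((g : ℝ) * (t * X) / n)) = 0 := by
    unfold av
    rw [intervalIntegral.integral_congr (g := fun _ => (0 : ℝ))]
    · simp
    · intro t ht
      rw [Set.uIcc_of_le (by norm_num)] at ht
      simp only [hz t ht.1, zero_mul]
  have e3 : av (fun t => G1 G ((g : ℝ) * (t * X) / n)) = 0 := by
    unfold av
    rw [intervalIntegral.integral_congr (g := fun _ => (0 : ℝ))]
    · simp
    · intro t ht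
      rw [Set.uIcc_of_le (by norm_num)] at ht
      simp only [G1, hz t ht.1, zero_mul, zero_div]
  unfold avg_D
  rw [e1, e2, e3]
  ring

theorem avg_card (S : Finset ℤ) (hS : 0 ∉ S) {T : ℝ} (hT : 0 ≤ T) :
    ((S.filter (fun g : ℤ => |(g : ℝ)| ≤ T)).card : ℝ) ≤ 2 * T := by
  have h1 : S.filter (fun g : ℤ => |(g : ℝ)| ≤ T) ⊆
      (Finset.Icc (-(⌊T⌋₊ : ℤ)) (⌊T⌋₊ : ℤ)).erase 0 := by
    intro g hg
    rw [Finset.mem_filter] at hg
    rw [Finset.mem_erase, Finset.mem_Icc]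
    refine ⟨fun h => hS (h ▸ hg.1), ?_⟩
    have h2 : (g.natAbs : ℝ) ≤ T := by
      rw [Nat.cast_natAbs, Int.cast_abs]; exact hg.2
    have h3 : g.natAbs ≤ ⌊T⌋₊ := Nat.le_floor h2
    omega
  have h2 := Finset.card_le_card h1
  rw [Finset.card_erase_of_mem (by rw [Finset.mem_Icc]; omega), Int.card_Icc] at h2
  have h3 : (S.filter (fun g : ℤ => |(g : ℝ)| ≤ T)).card ≤ 2 * ⌊T⌋₊ := by omega
  have h4 : ((S.filter (fun g : ℤ => |(g : ℝ)| ≤ T)).card : ℝ) ≤ 2 * (⌊T⌋₊ : ℝ) := by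
    exact_mod_cast h3
  have h5 : (⌊T⌋₊ : ℝ) ≤ T := Nat.floor_le hT
  linarith

theorem avg_harm (Q : ℕ) : ∑ n ∈ Finset.Icc 1 Q, 1 / (n : ℝ) ≤ 1 + Real.log Q := by
  have h := harmonic_le_one_add_log Q
  rw [harmonic_eq_sum_Icc] at h
  push_cast at h
  simpa [one_div] using h

/-- the sum over `n`, `g`, `c` -/
theorem avg_bound {G : ℝ → ℝ} {U c₀ : ℝ} (hG : GOK G U c₀) {K ε C1 : ℝ} (hK1 : 1 ≤ K)
    (hK : ∀ (n c : ℕ) (g : ℤ) (X om : ℝ), 1 ≤ n → 1 ≤ c → g ≠ 0 → 0 < X → 0 < om → om ≤ 1 / 4 →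
      |avg_D G om X n c g| ≤ K * om ^ (3 / 4 : ℝ) * (1 + Real.log n + Real.log c))
    (hε : 0 < ε) (hC1 : 1 ≤ C1) (hτ : ∀ n : ℕ, tau n ≤ C1 * (n : ℝ) ^ ε)
    (C : ℕ → ℝ) (Q : ℕ) (S : Finset ℤ) (hS : 0 ∉ S) (R : ℕ) {om X W : ℝ} (ho : 0 < om)
    (ho4 : om ≤ 1 / 4) (hX : 0 < X) (hW : 0 ≤ W) (hC : ∀ n, 1 ≤ n → |C n| ≤ W / n) :
    |∑ n ∈ Finset.Icc 1 Q, ∑ g ∈ S, ∑ c ∈ Finset.Icc 1 R,
        avg_co C n c g * avg_D G om X n c g| ≤
      64 * Real.pi * K * C1 ^ 3 * om ^ (3 / 4 : ℝ) * (1 + Real.log Q + Real.log R) *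
        (1 + Real.log R) * (1 + Real.log Q) * W * (Q : ℝ) ^ ε * ((U * Q / X) ^ ε) ^ 2 *
        (U * Q / X) := by
  have hU := hG.one_le
  obtain ⟨T, hT⟩ : ∃ T, T = U * Q / X := ⟨_, rfl⟩
  have hT0 : 0 ≤ T := by rw [hT]; positivity
  rw [← hT]
  have hlR : 0 ≤ Real.log R := Real.log_natCast_nonneg R
  have hlQ : 0 ≤ Real.log Q := Real.log_natCast_nonneg Q
  obtain ⟨BD, hBD⟩ : ∃ BD, BD = K * om ^ (3 / 4 : ℝ) * (1 + Real.log Q + Real.log R) := ⟨_, rfl⟩
  have hom : 0 ≤ om ^ (3 / 4 : ℝ) := by positivity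
  have hBD0 : 0 ≤ BD := by rw [hBD]; positivity
  obtain ⟨V, hV⟩ : ∃ V, V = 32 * Real.pi * (C1 * (Q : ℝ) ^ ε) * (C1 * T ^ ε) ^ 2 *
    (1 + Real.log R) * BD := ⟨_, rfl⟩
  have hV0 : 0 ≤ V := by rw [hV]; positivity
  have hng : ∀ n ∈ Finset.Icc 1 Q, ∀ g ∈ S,
      |∑ c ∈ Finset.Icc 1 R, avg_co C n c g * avg_D G om X n c g| ≤
        if |(g : ℝ)| ≤ T then |C n| * V else 0 := by
    intro n hn g hg
    rw [Finset.mem_Icc] at hn
    have hn0 : (0 : ℝ) < n := by exact_mod_cast hn.1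
    have hg0 : g ≠ 0 := fun h => hS (h ▸ hg)
    have hg1 : 1 ≤ g.natAbs := Int.natAbs_pos.mpr hg0
    by_cases hgT : |(g : ℝ)| ≤ T
    · rw [if_pos hgT]
      have hga : (g.natAbs : ℝ) ≤ T := by
        rw [Nat.cast_natAbs, Int.cast_abs]; exact hgT
      have h1 : ∀ c ∈ Finset.Icc 1 R, |avg_co C n c g * avg_D G om X n c g| ≤
          4 * Real.pi * |C n| * tau g.natAbs *
            (|cc c n * cc c g.natAbs| / (c * phi c)) * BD := by
        intro c hc
        rw [Finset.mem_Icc] at hc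
        have hc0 : (0 : ℝ) < c := by exact_mod_cast hc.1
        have hph : 0 ≤ phi c := by unfold phi; positivity
        have ht0 : 0 ≤ tau g.natAbs := by unfold tau; positivity
        have e1 : |avg_co C n c g| = 4 * Real.pi * |C n| * tau g.natAbs *
            (|cc c n * cc c g.natAbs| / (c * phi c)) := by
          unfold avg_co
          rw [abs_mul, abs_mul, abs_mul, abs_div, abs_of_nonneg ht0,
            abs_of_nonneg (by positivity : (0 : ℝ) ≤ c * phi c),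
            abs_of_pos (by positivity : (0 : ℝ) < 4 * Real.pi)]
        rw [abs_mul, e1]
        refine mul_le_mul_of_nonneg_left ?_ (by positivity)
        refine (hK n c g X om hn.1 hc.1 hg0 hX ho ho4).trans ?_
        rw [hBD]
        refine mul_le_mul_of_nonneg_left ?_ (by positivity)
        have e2 : Real.log n ≤ Real.log Q := Real.log_le_log hn0 (by exact_mod_cast hn.2)
        have e3 : Real.log c ≤ Real.log R := Real.log_le_log hc0 (by exact_mod_cast hc.2)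
        linarith
      refine (Finset.abs_sum_le_sum_abs _ _).trans ((Finset.sum_le_sum h1).trans ?_)
      rw [← Finset.sum_mul, ← Finset.mul_sum]
      have h2 := gcs_all (n := n) (g := g.natAbs) (m := R) hn.1 hg1
      have ht0 : 0 ≤ tau g.natAbs := by unfold tau; positivity
      have htn0 : 0 ≤ tau n := by unfold tau; positivity
      have h3 : tau n ≤ C1 * (Q : ℝ) ^ ε := by
        refine (hτ n).trans (mul_le_mul_of_nonneg_left ?_ (by linarith))
        exact Real.rpow_le_rpow hn0.le (by exact_mod_cast hn.2) hε.le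
      have h4 : tau g.natAbs ≤ C1 * T ^ ε := by
        refine (hτ g.natAbs).trans (mul_le_mul_of_nonneg_left ?_ (by linarith))
        exact Real.rpow_le_rpow (Nat.cast_nonneg _) hga hε.le
      have hT2 : 0 ≤ C1 * T ^ ε := by positivity
      have hQ2 : 0 ≤ C1 * (Q : ℝ) ^ ε := by positivity
      calc 4 * Real.pi * |C n| * tau g.natAbs *
            (∑ c ∈ Finset.Icc 1 R, |cc c n * cc c g.natAbs| / (c * phi c)) * BD
          ≤ 4 * Real.pi * |C n| * tau g.natAbs *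
            (8 * (1 + Real.log R) * tau n * tau g.natAbs) * BD := by
            gcongr
        _ ≤ 4 * Real.pi * |C n| * (C1 * T ^ ε) *
            (8 * (1 + Real.log R) * (C1 * (Q : ℝ) ^ ε) * (C1 * T ^ ε)) * BD := by
            gcongr
        _ = |C n| * V := by rw [hV]; ring
    · rw [if_neg hgT]
      push Not at hgT
      have hlt : U < |(g : ℝ)| * X / n := by
        rw [lt_div_iff₀ hn0]
        rw [hT, div_lt_iff₀ hX] at hgT
        have : U * n ≤ U * Q := mul_le_mul_of_nonneg_left (by exact_mod_cast hn.2) (by linarith)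
        linarith
      rw [Finset.sum_eq_zero fun c _ => by rw [avg_D_zero hG n c g hn.1 hX hlt, mul_zero]]
      simp
  have hn1 : ∀ n ∈ Finset.Icc 1 Q, |∑ g ∈ S, ∑ c ∈ Finset.Icc 1 R,
      avg_co C n c g * avg_D G om X n c g| ≤ 2 * T * V * W * (1 / n) := by
    intro n hn
    refine (Finset.abs_sum_le_sum_abs _ _).trans ((Finset.sum_le_sum (hng n hn)).trans ?_)
    rw [← Finset.sum_filter, Finset.sum_const, nsmul_eq_mul]
    have h1 := avg_card S hS hT0
    have h2 := hC n (Finset.mem_Icc.mp hn).1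
    have hn0 : (0 : ℝ) < n := by exact_mod_cast (Finset.mem_Icc.mp hn).1
    calc ((S.filter (fun g : ℤ => |(g : ℝ)| ≤ T)).card : ℝ) * (|C n| * V)
        ≤ (2 * T) * ((W / n) * V) := by gcongr
      _ = 2 * T * V * W * (1 / n) := by ring
  refine (Finset.abs_sum_le_sum_abs _ _).trans ((Finset.sum_le_sum hn1).trans ?_)
  rw [← Finset.mul_sum]
  calc 2 * T * V * W * ∑ n ∈ Finset.Icc 1 Q, 1 / (n : ℝ)
      ≤ 2 * T * V * W * (1 + Real.log Q) :=
        mul_le_mul_of_nonneg_left (avg_harm Q) (by positivity)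
    _ = _ := by rw [hV, hBD]; ring

theorem avg_pr {G : ℝ → ℝ} {U c₀ : ℝ} (hG : GOK G U c₀) {κ : ℝ} (h0 : 0 < κ) (h1 : κ ≤ 1 / 1000) :
    ∃ X₀ : ℝ, ∀ X : ℝ, X₀ ≤ X → ∀ (Q : ℕ) (C : ℕ → ℝ), CK κ X Q C → ∀ S : Finset ℤ, 0 ∉ S →
      |av (fun t => M5 C G Q S ⌊X ^ (6 * κ)⌋₊ (X ^ (-(4 * κ))) (t * X)) -
        M6 C G Q S ⌊X ^ (6 * κ)⌋₊ X| ≤ X ^ (-(κ / 2)) := by
  obtain ⟨K, hK1, hK⟩ := avp hG
  obtain ⟨C1, hC1, hτ⟩ := tau_le (ε := κ / 200) (by positivity)
  have hU := hG.one_le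
  obtain ⟨Mc, hMc⟩ : ∃ Mc, Mc = 64 * Real.pi * K * C1 ^ 3 * 24 * (20 / κ) ^ 3 * U ^ 3 := ⟨_, rfl⟩
  have hMc0 : 0 < Mc := by rw [hMc]; positivity
  refine ⟨max (Real.exp 1) (max ((4 : ℝ) ^ (1 / (4 * κ))) (Mc ^ (1 / (3 / 10 * κ)))), ?_⟩
  intro X hX Q C hC S hS
  have hXe : Real.exp 1 ≤ X := (le_max_left _ _).trans hX
  have hX4 : (4 : ℝ) ^ (1 / (4 * κ)) ≤ X := ((le_max_left _ _).trans (le_max_right _ _)).trans hX
  have hXM : Mc ^ (1 / (3 / 10 * κ)) ≤ X := ((le_max_right _ _).trans (le_max_right _ _)).trans hX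
  have hXpos : 0 < X := lt_of_lt_of_le (Real.exp_pos 1) hXe
  have hL1 : 1 ≤ Real.log X := by
    rw [Real.le_log_iff_exp_le hXpos]; exact hXe
  have hX1 : 1 ≤ X := by
    have := Real.add_one_le_exp (1 : ℝ)
    linarith
  have hom4 : X ^ (-(4 * κ)) ≤ 1 / 4 := by
    have e1 : (4 : ℝ) ≤ X ^ (4 * κ) := by
      calc (4 : ℝ) = ((4 : ℝ) ^ (1 / (4 * κ))) ^ (4 * κ) := by
            rw [← Real.rpow_mul (by norm_num), one_div_mul_cancel (by positivity), Real.rpow_one]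
        _ ≤ X ^ (4 * κ) := Real.rpow_le_rpow (by positivity) hX4 (by positivity)
    rw [Real.rpow_neg hXpos.le, ← one_div]
    exact one_div_le_one_div_of_le (by norm_num) e1
  have hMX : Mc ≤ X ^ (3 / 10 * κ) := by
    calc Mc = (Mc ^ (1 / (3 / 10 * κ))) ^ (3 / 10 * κ) := by
          rw [← Real.rpow_mul hMc0.le, one_div_mul_cancel (by positivity), Real.rpow_one]
      _ ≤ X ^ (3 / 10 * κ) := Real.rpow_le_rpow (by positivity) hXM (by positivity)
  have hom : 0 < X ^ (-(4 * κ)) := Real.rpow_pos_of_pos hXpos _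
  rw [avg_diff hG C Q S _ hom hXpos]
  have hb := avg_bound hG hK1 (fun n c g X om a1 a2 a3 a4 a5 a6 => hK n c g X om a1 a2 a3 a4 a5 a6)
    (by positivity : 0 < κ / 200) hC1 hτ C Q S hS ⌊X ^ (6 * κ)⌋₊ hom hom4 hXpos
    (Real.rpow_nonneg hXpos.le (κ / 100)) hC.bdd
  refine hb.trans ?_
  have hQ : (Q : ℝ) ≤ X * X ^ (101 / 50 * κ) := by
    have := hC.size
    rwa [Real.rpow_add hXpos, Real.rpow_one] at this
  have hp4 : X ^ (101 / 50 * κ) ≤ X := by
    calc X ^ (101 / 50 * κ) ≤ X ^ (1 : ℝ) :=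
          Real.rpow_le_rpow_of_exponent_le hX1 (by linarith)
      _ = X := Real.rpow_one X
  have hQ2 : (Q : ℝ) ≤ X ^ (2 : ℝ) := by
    have e1 : X ^ (2 : ℝ) = X * X := by
      rw [show (2 : ℝ) = 1 + 1 by norm_num, Real.rpow_add hXpos, Real.rpow_one]
    rw [e1]
    exact hQ.trans (mul_le_mul_of_nonneg_left hp4 hXpos.le)
  have hlogQ : Real.log Q ≤ 2 * Real.log X := by
    by_cases hQ0 : Q = 0
    · rw [hQ0]; simp; linarith
    · have hQp : (0 : ℝ) < Q := by exact_mod_cast Nat.pos_of_ne_zero hQ0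
      have := Real.log_le_log hQp hQ2
      rwa [Real.log_rpow hXpos] at this
  have hR1 : 1 ≤ ⌊X ^ (6 * κ)⌋₊ := by
    refine Nat.le_floor ?_
    rw [Nat.cast_one]
    exact Real.one_le_rpow hX1 (by positivity)
  have hlogR : Real.log (⌊X ^ (6 * κ)⌋₊ : ℕ) ≤ Real.log X := by
    have e1 : (⌊X ^ (6 * κ)⌋₊ : ℝ) ≤ X ^ (6 * κ) := Nat.floor_le (by positivity)
    have e2 : X ^ (6 * κ) ≤ X := by
      calc X ^ (6 * κ) ≤ X ^ (1 : ℝ) :=
            Real.rpow_le_rpow_of_exponent_le hX1 (by linarith)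
        _ = X := Real.rpow_one X
    exact Real.log_le_log (by exact_mod_cast hR1) (e1.trans e2)
  have hLb : Real.log X ≤ (20 / κ) * X ^ (κ / 20) := by
    have := Real.log_le_rpow_div hXpos.le (by positivity : 0 < κ / 20)
    calc Real.log X ≤ X ^ (κ / 20) / (κ / 20) := this
      _ = (20 / κ) * X ^ (κ / 20) := by field_simp
  have hlR : 0 ≤ Real.log (⌊X ^ (6 * κ)⌋₊ : ℕ) := Real.log_natCast_nonneg _
  have hlQ : 0 ≤ Real.log Q := Real.log_natCast_nonneg Q
  obtain ⟨p2, hp2⟩ : ∃ p2, p2 = X ^ (κ / 20) := ⟨_, rfl⟩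
  obtain ⟨p3, hp3⟩ : ∃ p3, p3 = X ^ (κ / 100) := ⟨_, rfl⟩
  obtain ⟨p4, hp4'⟩ : ∃ p4, p4 = X ^ (101 / 50 * κ) := ⟨_, rfl⟩
  obtain ⟨p1, hp1⟩ : ∃ p1, p1 = X ^ (-(3 * κ)) := ⟨_, rfl⟩
  have hp20 : 0 < p2 := by rw [hp2]; positivity
  have hp30 : 0 < p3 := by rw [hp3]; positivity
  have hp40 : 0 < p4 := by rw [hp4']; positivity
  have hp10 : 0 < p1 := by rw [hp1]; positivity
  have hom34 : (X ^ (-(4 * κ))) ^ (3 / 4 : ℝ) = p1 := by
    rw [hp1, ← Real.rpow_mul hXpos.le]; congr 1; ring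
  have hQe : (Q : ℝ) ^ (κ / 200) ≤ p3 := by
    calc (Q : ℝ) ^ (κ / 200) ≤ (X ^ (2 : ℝ)) ^ (κ / 200) :=
          Real.rpow_le_rpow (Nat.cast_nonneg _) hQ2 (by positivity)
      _ = p3 := by rw [hp3, ← Real.rpow_mul hXpos.le]; congr 1; ring
  have hT : U * Q / X ≤ U * p4 := by
    rw [div_le_iff₀ hXpos, hp4']
    calc U * (Q : ℝ) ≤ U * (X * X ^ (101 / 50 * κ)) :=
          mul_le_mul_of_nonneg_left hQ (by linarith)
      _ = _ := by ring
  have hT0 : 0 ≤ U * Q / X := by positivity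
  have hTe : ((U * Q / X) ^ (κ / 200)) ^ 2 ≤ U ^ 2 * p3 := by
    have e1 : (U * Q / X) ^ (κ / 200) ≤ U * X ^ (κ / 200) := by
      calc (U * Q / X) ^ (κ / 200) ≤ (U * X) ^ (κ / 200) :=
            Real.rpow_le_rpow hT0 (hT.trans (mul_le_mul_of_nonneg_left
              (by rw [hp4']; exact hp4) (by linarith))) (by positivity)
        _ = U ^ (κ / 200) * X ^ (κ / 200) := Real.mul_rpow (by linarith) hXpos.le
        _ ≤ U * X ^ (κ / 200) := by
            refine mul_le_mul_of_nonneg_right ?_ (by positivity)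
            calc U ^ (κ / 200) ≤ U ^ (1 : ℝ) :=
                  Real.rpow_le_rpow_of_exponent_le hU (by linarith)
              _ = U := Real.rpow_one U
    calc ((U * Q / X) ^ (κ / 200)) ^ 2 ≤ (U * X ^ (κ / 200)) ^ 2 :=
          pow_le_pow_left₀ (by positivity) e1 2
      _ = U ^ 2 * (X ^ (κ / 200)) ^ 2 := by ring
      _ = U ^ 2 * p3 := by
          have : (X ^ (κ / 200)) ^ 2 = X ^ (κ / 100) := by
            rw [sq, ← Real.rpow_add hXpos]; congr 1; ring
          rw [hp3, this]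
  have hprod : p1 * p2 ^ 3 * p3 ^ 3 * p4 = X ^ (-(4 / 5 * κ)) := by
    rw [hp1, hp2, hp3, hp4', ← Real.rpow_natCast, ← Real.rpow_natCast, ← Real.rpow_mul hXpos.le,
      ← Real.rpow_mul hXpos.le, ← Real.rpow_add hXpos, ← Real.rpow_add hXpos,
      ← Real.rpow_add hXpos]
    congr 1
    push_cast
    ring
  rw [hom34]
  have hb1 : 1 + Real.log Q + Real.log (⌊X ^ (6 * κ)⌋₊ : ℕ) ≤ 4 * ((20 / κ) * p2) := by
    rw [hp2]; linarith
  have hb2 : 1 + Real.log (⌊X ^ (6 * κ)⌋₊ : ℕ) ≤ 2 * ((20 / κ) * p2) := by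
    rw [hp2]; linarith
  have hb3 : 1 + Real.log Q ≤ 3 * ((20 / κ) * p2) := by
    rw [hp2]; linarith
  have hK0 : 0 ≤ K := by linarith
  have hC10 : 0 ≤ C1 := by linarith
  have hfin : 64 * Real.pi * K * C1 ^ 3 * p1 *
      (1 + Real.log Q + Real.log (⌊X ^ (6 * κ)⌋₊ : ℕ)) *
      (1 + Real.log (⌊X ^ (6 * κ)⌋₊ : ℕ)) * (1 + Real.log Q) * X ^ (κ / 100) *
      (Q : ℝ) ^ (κ / 200) * ((U * Q / X) ^ (κ / 200)) ^ 2 * (U * Q / X) ≤
      Mc * X ^ (-(4 / 5 * κ)) := by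
    rw [← hp3]
    calc 64 * Real.pi * K * C1 ^ 3 * p1 *
      (1 + Real.log Q + Real.log (⌊X ^ (6 * κ)⌋₊ : ℕ)) *
      (1 + Real.log (⌊X ^ (6 * κ)⌋₊ : ℕ)) * (1 + Real.log Q) * p3 *
      (Q : ℝ) ^ (κ / 200) * ((U * Q / X) ^ (κ / 200)) ^ 2 * (U * Q / X)
        ≤ 64 * Real.pi * K * C1 ^ 3 * p1 * (4 * ((20 / κ) * p2)) * (2 * ((20 / κ) * p2)) *
          (3 * ((20 / κ) * p2)) * p3 * p3 * (U ^ 2 * p3) * (U * p4) := by
          gcongr
      _ = Mc * (p1 * p2 ^ 3 * p3 ^ 3 * p4) := by rw [hMc]; ring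
      _ = _ := by rw [hprod]
  refine hfin.trans ?_
  calc Mc * X ^ (-(4 / 5 * κ)) ≤ X ^ (3 / 10 * κ) * X ^ (-(4 / 5 * κ)) :=
        mul_le_mul_of_nonneg_right hMX (by positivity)
    _ = X ^ (-(κ / 2)) := by
        rw [← Real.rpow_add hXpos]; congr 1; ring

alias avg := avg_pr
alias avg_int := avg_int_pr

end Pool.Agent.LSPP
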