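import Pool.Agent.Lib_helper15.LSP.DefsP
import Pool.Agent.Lib_helper15.LSPF.TAU

set_option autoImplicit false

namespace Pool.Agent.LSPP

open Pool.Agent.LSP (tau sg1 CC Gs Adm)
open Pool.Agent.LSPO (hyp cl KK rho b1 GOK)
open Pool.Agent.FG61 (mu phi cc)
open MeasureTheory Filter Topology

theorem ccb_ev {δ C : ℝ} (hδ : 0 < δ) (hC : 0 < C) :
    ∃ X₀ : ℕ, 1 ≤ X₀ ∧ ∀ X : ℕ, X₀ ≤ X → C * (1 + Real.log X) ≤ (X : ℝ) ^ δ := by
  have h1 := (isLittleO_log_rpow_atTop hδ).bound (c := 1 / (2 * C)) (by positivity)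
  have h2 := (tendsto_rpow_atTop hδ).eventually_ge_atTop (2 * C)
  obtain ⟨A, hA⟩ := (h1.and h2).exists_forall_of_atTop
  refine ⟨max 1 ⌈A⌉₊, le_max_left _ _, fun X hX => ?_⟩
  have hX1 : (A : ℝ) ≤ X := (Nat.le_ceil A).trans (by exact_mod_cast (le_max_right _ _).trans hX)
  obtain ⟨h3, h4⟩ := hA X hX1
  have h5 : (0 : ℝ) ≤ (X : ℝ) ^ δ := Real.rpow_nonneg (Nat.cast_nonneg _) _
  rw [Real.norm_eq_abs, Real.norm_eq_abs, abs_of_nonneg h5] at h3
  have h6 : Real.log X ≤ 1 / (2 * C) * (X : ℝ) ^ δ := (le_abs_self _).trans h3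
  have h7 : C * Real.log X ≤ (X : ℝ) ^ δ / 2 := by
    have := mul_le_mul_of_nonneg_left h6 hC.le
    refine this.trans (le_of_eq ?_)
    field_simp
  linarith

theorem ccb_zero {E : ℕ} {x : ℕ → ℝ} (hs : ∀ e, x e ≠ 0 → 1 ≤ e ∧ e ≤ E) {n : ℕ}
    (hn : E ^ 2 < n) : CC E x n = 0 := by
  unfold CC
  apply Finset.sum_eq_zero
  intro j hj
  rw [Finset.mem_Icc] at hj
  have : ∑ p ∈ n.divisorsAntidiagonal, x (j * p.1) * x (j * p.2) / n = 0 := by
    apply Finset.sum_eq_zero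
    intro p hp
    rw [Nat.mem_divisorsAntidiagonal] at hp
    by_contra h
    have h1 : x (j * p.1) ≠ 0 := by
      intro h0; apply h; rw [h0]; simp
    have h2 : x (j * p.2) ≠ 0 := by
      intro h0; apply h; rw [h0]; simp
    have h3 := (hs _ h1).2
    have h4 := (hs _ h2).2
    have h5 : p.1 ≤ E := (Nat.le_mul_of_pos_left _ hj.1).trans h3
    have h6 : p.2 ≤ E := (Nat.le_mul_of_pos_left _ hj.1).trans h4
    have h7 : p.1 * p.2 ≤ E * E := Nat.mul_le_mul h5 h6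
    rw [hp.1] at h7
    have h8 : E ^ 2 = E * E := by ring
    omega
  rw [this, mul_zero]

theorem ccb_harm {E : ℕ} : ∑ j ∈ Finset.Icc 1 E, (1 / (j : ℝ)) ≤ 1 + Real.log E := by
  have h := harmonic_le_one_add_log E
  rw [harmonic_eq_sum_Icc] at h
  push_cast at h
  simpa [one_div] using h

theorem ccb_le {E : ℕ} {x : ℕ → ℝ} {b : ℝ} (hb : ∀ e, |x e| ≤ b) (n : ℕ) :
    |CC E x n| ≤ (1 + Real.log E) * (tau n * (b * b / n)) := by
  have hb0 : 0 ≤ b := (abs_nonneg _).trans (hb 0)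
  have h0 : ∀ j : ℕ, |∑ p ∈ n.divisorsAntidiagonal, x (j * p.1) * x (j * p.2) / n| ≤
      tau n * (b * b / n) := by
    intro j
    refine (Finset.abs_sum_le_sum_abs _ _).trans ?_
    have h1 : ∀ p ∈ n.divisorsAntidiagonal, |x (j * p.1) * x (j * p.2) / n| ≤ b * b / n := by
      intro p _
      rw [abs_div, abs_mul, Nat.abs_cast]
      exact div_le_div_of_nonneg_right (mul_le_mul (hb _) (hb _) (abs_nonneg _) hb0)
        (Nat.cast_nonneg _)
    refine (Finset.sum_le_sum h1).trans (le_of_eq ?_)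
    rw [Finset.sum_const, nsmul_eq_mul]
    unfold tau
    rw [← Nat.map_div_right_divisors, Finset.card_map]
  unfold CC
  refine (Finset.abs_sum_le_sum_abs _ _).trans ?_
  have hT : 0 ≤ tau n * (b * b / n) := (abs_nonneg _).trans (h0 0)
  calc ∑ j ∈ Finset.Icc 1 E, |(1 / (j : ℝ)) *
        ∑ p ∈ n.divisorsAntidiagonal, x (j * p.1) * x (j * p.2) / n|
      ≤ ∑ j ∈ Finset.Icc 1 E, (1 / (j : ℝ)) * (tau n * (b * b / n)) := by
        apply Finset.sum_le_sum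
        intro j _
        rw [abs_mul, abs_of_nonneg (by positivity : (0 : ℝ) ≤ 1 / (j : ℝ))]
        exact mul_le_mul_of_nonneg_left (h0 j) (by positivity)
    _ = (∑ j ∈ Finset.Icc 1 E, (1 / (j : ℝ))) * (tau n * (b * b / n)) := by
        rw [Finset.sum_mul]
    _ ≤ (1 + Real.log E) * (tau n * (b * b / n)) :=
        mul_le_mul_of_nonneg_right ccb_harm hT

theorem ck_of_adm_pr {κ : ℝ} (h0 : 0 < κ) (h1 : κ ≤ 1 / 1000) (B B' : ℕ) : ∃ X₀ : ℕ, ∀ X : ℕ,
    X₀ ≤ X → ∀ (E : ℕ) (x : ℕ → ℝ), Adm κ B B' X E x → CK κ X (E ^ 2) (CC E x) := by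
  obtain ⟨Ct, hCt, hτ⟩ := tau_le (ε := κ / 2000) (by positivity)
  obtain ⟨X₀, hX₀, hev⟩ := ccb_ev (δ := 7 * κ / 1000) (C := Ct) (by positivity) (by linarith)
  refine ⟨X₀, fun X hX E x ha => ?_⟩
  have hX1 : (1 : ℝ) ≤ X := by exact_mod_cast hX₀.trans hX
  have hX0 : (0 : ℝ) < X := by linarith
  have hsz : ((E ^ 2 : ℕ) : ℝ) ≤ (X : ℝ) ^ (1 + 101 / 50 * κ) := by
    push_cast
    have h2 : (X : ℝ) ^ (1 + 101 / 50 * κ) = ((X : ℝ) ^ (1 / 2 + 101 / 100 * κ)) ^ 2 := by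
      rw [← Real.rpow_natCast, ← Real.rpow_mul hX0.le]
      congr 1
      push_cast
      ring
    rw [h2]
    exact pow_le_pow_left₀ (Nat.cast_nonneg _) ha.size 2
  refine ⟨hsz, fun n hn => ?_⟩
  have hn0 : (0 : ℝ) < n := by exact_mod_cast hn
  rcases Nat.lt_or_ge (E ^ 2) n with hlt | hle
  · rw [ccb_zero ha.supp hlt, abs_zero]
    positivity
  · have hE : 1 ≤ E := by
      rcases Nat.eq_zero_or_pos E with h | h
      · rw [h] at hle; simp at hle; omega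
      · exact h
    have hE1 : (1 : ℝ) ≤ E := by exact_mod_cast hE
    have hlE : Real.log E ≤ Real.log X := by
      have h2 : (E : ℝ) ≤ X := by
        refine ha.size.trans ?_
        calc (X : ℝ) ^ (1 / 2 + 101 / 100 * κ) ≤ (X : ℝ) ^ (1 : ℝ) :=
              Real.rpow_le_rpow_of_exponent_le hX1 (by linarith)
          _ = X := Real.rpow_one _
      exact Real.log_le_log (by linarith) h2
    have hlE0 : 0 ≤ Real.log E := Real.log_nonneg hE1
    have hnX : (n : ℝ) ^ (κ / 2000) ≤ (X : ℝ) ^ (κ / 1000) := by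
      have h2 : (n : ℝ) ≤ (X : ℝ) ^ (2 : ℝ) := by
        refine (show (n : ℝ) ≤ ((E ^ 2 : ℕ) : ℝ) by exact_mod_cast hle).trans (hsz.trans ?_)
        exact Real.rpow_le_rpow_of_exponent_le hX1 (by linarith)
      calc (n : ℝ) ^ (κ / 2000) ≤ ((X : ℝ) ^ (2 : ℝ)) ^ (κ / 2000) :=
            Real.rpow_le_rpow hn0.le h2 (by positivity)
        _ = (X : ℝ) ^ (κ / 1000) := by
            rw [← Real.rpow_mul hX0.le]
            congr 1
            ring
    have h3 := ccb_le (E := E) ha.bdd n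
    have h4 : tau n ≤ Ct * (X : ℝ) ^ (κ / 1000) :=
      (hτ n).trans (mul_le_mul_of_nonneg_left hnX (by linarith))
    have h5 := hev X hX
    have hb0 : (0 : ℝ) ≤ (X : ℝ) ^ (κ / 1000) := Real.rpow_nonneg hX0.le _
    have hτ0 : 0 ≤ tau n := Nat.cast_nonneg _
    calc |CC E x n| ≤ (1 + Real.log E) * (tau n * ((X : ℝ) ^ (κ / 1000) * (X : ℝ) ^ (κ / 1000) / n)) := h3
      _ ≤ (1 + Real.log X) * (Ct * (X : ℝ) ^ (κ / 1000) *
            ((X : ℝ) ^ (κ / 1000) * (X : ℝ) ^ (κ / 1000) / n)) := by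
          apply mul_le_mul (by linarith) _ (by positivity) (by linarith)
          exact mul_le_mul_of_nonneg_right h4 (by positivity)
      _ = (Ct * (1 + Real.log X)) * ((X : ℝ) ^ (κ / 1000) *
            ((X : ℝ) ^ (κ / 1000) * (X : ℝ) ^ (κ / 1000))) / n := by ring
      _ ≤ (X : ℝ) ^ (7 * κ / 1000) * ((X : ℝ) ^ (κ / 1000) *
            ((X : ℝ) ^ (κ / 1000) * (X : ℝ) ^ (κ / 1000))) / n := by
          apply div_le_div_of_nonneg_right _ hn0.le
          exact mul_le_mul_of_nonneg_right h5 (by positivity)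
      _ = (X : ℝ) ^ (κ / 100) / n := by
          rw [← Real.rpow_add hX0, ← Real.rpow_add hX0, ← Real.rpow_add hX0]
          congr 2
          ring

alias ck_of_adm := ck_of_adm_pr

end Pool.Agent.LSPP
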