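import Pool.Agent.Lib_helper15.LSP.DefsP

/-!
# Block DLT: the integrated divisor problem by the hyperbola method
-/

set_option autoImplicit false

namespace Pool.Agent.LSPP

open Pool.Agent.LSP (tau sg1 CC Gs Adm)
open Pool.Agent.LSPO (hyp cl KK rho b1 GOK)
open Pool.Agent.FG61 (mu phi cc)
open MeasureTheory Filter Topology

/-! ## the harmonic sum -/

theorem dlt_step_hi (m : ℝ) (hm : 1 ≤ m) :
    Real.log (m + 1) - Real.log m ≤ (1 / m + 1 / (m + 1)) / 2 := by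
  have h0 : 0 < m := by linarith
  have h1 : 0 < (m + 1) / m := by positivity
  have h2 : 0 ≤ Real.log ((m + 1) / m) := Real.log_nonneg (by rw [le_div_iff₀ h0]; linarith)
  have h3 := Real.self_le_sinh_iff.2 h2
  rw [Real.sinh_log h1, Real.log_div (by positivity) h0.ne'] at h3
  refine h3.trans (le_of_eq ?_)
  field_simp
  ring

theorem dlt_step_lo (m : ℝ) (hm : 1 ≤ m) :
    2 / (2 * m + 1) ≤ Real.log (m + 1) - Real.log m := by
  have h0 : 0 < m := by linarith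
  have h1 := Real.le_log_one_add_of_nonneg (x := 1 / m) (by positivity)
  have h2 : 1 + 1 / m = (m + 1) / m := by field_simp
  rw [h2, Real.log_div (by positivity) h0.ne'] at h1
  refine le_trans (le_of_eq ?_) h1
  field_simp
  ring

noncomputable def dlt_u (n : ℕ) : ℝ :=
  (harmonic (n + 1) : ℝ) - Real.log ((n : ℝ) + 1) - 1 / (2 * ((n : ℝ) + 1))

theorem dlt_u_succ (n : ℕ) : dlt_u (n + 1) - dlt_u n =
    (1 / ((n : ℝ) + 1) + 1 / (((n : ℝ) + 1) + 1)) / 2 -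
      (Real.log (((n : ℝ) + 1) + 1) - Real.log ((n : ℝ) + 1)) := by
  unfold dlt_u
  rw [harmonic_succ (n + 1)]
  push_cast
  field_simp
  ring

theorem dlt_u_lim : Tendsto dlt_u atTop (𝓝 ga) := by
  have h1 : Tendsto (fun n : ℕ => (harmonic n : ℝ) - Real.log n) atTop (𝓝 ga) :=
    Real.tendsto_harmonic_sub_log
  have h2 := h1.comp (tendsto_add_atTop_nat 1)
  have h3 : Tendsto (fun n : ℕ => 1 / (2 * ((n : ℝ) + 1))) atTop (𝓝 0) := by
    have := (tendsto_one_div_add_atTop_nhds_zero_nat (𝕜 := ℝ)).const_mul (1 / 2)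
    rw [mul_zero] at this
    refine this.congr (fun n => ?_)
    field_simp
  have h4 := h2.sub h3
  rw [sub_zero] at h4
  refine h4.congr (fun n => ?_)
  simp [dlt_u]

theorem dlt_harm (m : ℕ) (hm : 1 ≤ m) :
    |(harmonic m : ℝ) - Real.log m - ga - 1 / (2 * (m : ℝ))| ≤ 1 / (8 * (m : ℝ) ^ 2) := by
  obtain ⟨n, rfl⟩ : ∃ n, m = n + 1 := ⟨m - 1, by omega⟩
  have hmono : Monotone dlt_u := by
    refine monotone_nat_of_le_succ (fun k => ?_)
    have h1 := dlt_u_succ k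
    have h2 := dlt_step_hi ((k : ℝ) + 1) (by have : (0 : ℝ) ≤ k := k.cast_nonneg; linarith)
    linarith
  have hanti : Antitone (fun k => dlt_u k + 1 / (8 * ((k : ℝ) + 1) ^ 2)) := by
    refine antitone_nat_of_succ_le (fun k => ?_)
    have h1 := dlt_u_succ k
    have hk : (0 : ℝ) ≤ k := k.cast_nonneg
    have h2 := dlt_step_lo ((k : ℝ) + 1) (by linarith)
    set x : ℝ := (k : ℝ) + 1 with hx
    have hx1 : 1 ≤ x := by linarith
    have h3 : (1 / x + 1 / (x + 1)) / 2 - 2 / (2 * x + 1) ≤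
        1 / (8 * x ^ 2) - 1 / (8 * (x + 1) ^ 2) := by
      have h4 : (1 / x + 1 / (x + 1)) / 2 - 2 / (2 * x + 1) =
          1 / (2 * x * (x + 1) * (2 * x + 1)) := by
        field_simp
        ring
      have h5 : 1 / (8 * x ^ 2) - 1 / (8 * (x + 1) ^ 2) =
          (2 * x + 1) / (8 * x ^ 2 * (x + 1) ^ 2) := by
        field_simp
        ring
      rw [h4, h5, div_le_div_iff₀ (by positivity) (by positivity)]
      have h6 : 0 ≤ 2 * x * (x + 1) := by positivity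
      nlinarith [mul_nonneg h6 h6, h6]
    have h7 : ((k + 1 : ℕ) : ℝ) + 1 = x + 1 := by push_cast; rfl
    show dlt_u (k + 1) + 1 / (8 * (((k + 1 : ℕ) : ℝ) + 1) ^ 2) ≤ dlt_u k + 1 / (8 * x ^ 2)
    rw [h7]
    linarith
  have hlim2 : Tendsto (fun k => dlt_u k + 1 / (8 * ((k : ℝ) + 1) ^ 2)) atTop (𝓝 ga) := by
    have h3 : Tendsto (fun k : ℕ => 1 / (8 * ((k : ℝ) + 1) ^ 2)) atTop (𝓝 0) := by
      have h := (tendsto_one_div_add_atTop_nhds_zero_nat (𝕜 := ℝ))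
      have := (h.mul h).const_mul (1 / 8)
      rw [mul_zero, mul_zero] at this
      refine this.congr (fun n => ?_)
      field_simp
    have := dlt_u_lim.add h3
    rwa [add_zero] at this
  have ha := hmono.ge_of_tendsto dlt_u_lim n
  have hb := hanti.le_of_tendsto hlim2 n
  have hc : (harmonic (n + 1) : ℝ) - Real.log ((n + 1 : ℕ) : ℝ) - ga -
      1 / (2 * (((n + 1 : ℕ)) : ℝ)) = dlt_u n - ga := by
    unfold dlt_u
    push_cast
    ring
  rw [hc, abs_le]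
  push_cast
  have : 0 ≤ 1 / (8 * ((n : ℝ) + 1) ^ 2) := by positivity
  constructor <;> linarith

/-! ## the hyperbola -/

theorem dlt_region (V : ℕ) (f : ℕ → ℝ) :
    ∑ n ∈ Finset.Ioc 0 V, tau n * f n =
      ∑ a ∈ Finset.Ioc 0 V, ∑ b ∈ Finset.Ioc 0 V, if a * b ≤ V then f (a * b) else 0 := by
  have h1 : ∀ n ∈ Finset.Ioc 0 V, tau n * f n =
      ∑ a ∈ Finset.Ioc 0 V, ∑ b ∈ Finset.Ioc 0 V, if a * b = n then f n else 0 := by
    intro n hn
    rw [Finset.mem_Ioc] at hn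
    have h2 := Nat.sum_divisorsAntidiagonal (n := n) (fun _ _ => f n)
    have h3 : ∑ i ∈ n.divisors, f n = tau n * f n := by
      rw [Finset.sum_const, nsmul_eq_mul]; rfl
    rw [← h3, ← h2, Nat.divisorsAntidiagonal_eq_prod_filter_of_le hn.1.ne' hn.2,
      Finset.sum_filter, Finset.sum_product]
  rw [Finset.sum_congr rfl h1, Finset.sum_comm]
  refine Finset.sum_congr rfl (fun a ha => ?_)
  rw [Finset.sum_comm]
  refine Finset.sum_congr rfl (fun b hb => ?_)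
  rw [Finset.mem_Ioc] at ha hb
  rw [Finset.sum_ite_eq]
  have : 0 < a * b := Nat.mul_pos ha.1 hb.1
  simp only [Finset.mem_Ioc, this, true_and]

theorem dlt_hyp (V : ℕ) (f : ℕ → ℝ) :
    ∑ n ∈ Finset.Ioc 0 V, tau n * f n =
      2 * (∑ a ∈ Finset.Ioc 0 (Nat.sqrt V), ∑ b ∈ Finset.Ioc 0 (V / a), f (a * b)) -
        ∑ a ∈ Finset.Ioc 0 (Nat.sqrt V), ∑ b ∈ Finset.Ioc 0 (Nat.sqrt V), f (a * b) := by
  set m := Nat.sqrt V with hm
  have hmV : m ≤ V := Nat.sqrt_le_self V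
  have hm2 : m * m ≤ V := Nat.sqrt_le V
  have hm3 : V < (m + 1) * (m + 1) := Nat.lt_succ_sqrt V
  set g : ℕ → ℕ → ℝ := fun a b => if a * b ≤ V then f (a * b) else 0 with hg
  have hsym : ∀ a b, g a b = g b a := by
    intro a b
    simp only [hg, mul_comm a b]
  have hspl : ∀ h : ℕ → ℝ, ∑ i ∈ Finset.Ioc 0 V, h i =
      ∑ i ∈ Finset.Ioc 0 m, h i + ∑ i ∈ Finset.Ioc m V, h i := fun h =>
    (Finset.sum_Ioc_consecutive h (Nat.zero_le m) hmV).symm
  have h0 : ∑ n ∈ Finset.Ioc 0 V, tau n * f n =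
      ∑ a ∈ Finset.Ioc 0 V, ∑ b ∈ Finset.Ioc 0 V, g a b := dlt_region V f
  have hrow : ∀ a ∈ Finset.Ioc 0 m, ∑ b ∈ Finset.Ioc 0 V, g a b =
      ∑ b ∈ Finset.Ioc 0 (V / a), f (a * b) := by
    intro a ha
    rw [Finset.mem_Ioc] at ha
    have h1 : Finset.Ioc 0 (V / a) = (Finset.Ioc 0 V).filter (fun b => a * b ≤ V) := by
      ext b
      simp only [Finset.mem_Ioc, Finset.mem_filter]
      rw [Nat.le_div_iff_mul_le ha.1, mul_comm b a]
      constructor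
      · rintro ⟨h1, h2⟩
        exact ⟨⟨h1, (Nat.le_mul_of_pos_left b ha.1).trans h2⟩, h2⟩
      · rintro ⟨⟨h1, _⟩, h2⟩
        exact ⟨h1, h2⟩
    rw [h1, Finset.sum_filter]
  have hsq : ∑ a ∈ Finset.Ioc 0 m, ∑ b ∈ Finset.Ioc 0 m, g a b =
      ∑ a ∈ Finset.Ioc 0 m, ∑ b ∈ Finset.Ioc 0 m, f (a * b) := by
    refine Finset.sum_congr rfl (fun a ha => Finset.sum_congr rfl (fun b hb => ?_))
    rw [Finset.mem_Ioc] at ha hb
    have : a * b ≤ V := (Nat.mul_le_mul ha.2 hb.2).trans hm2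
    simp only [hg, if_pos this]
  have hzero : ∑ a ∈ Finset.Ioc m V, ∑ b ∈ Finset.Ioc m V, g a b = 0 := by
    refine Finset.sum_eq_zero (fun a ha => Finset.sum_eq_zero (fun b hb => ?_))
    rw [Finset.mem_Ioc] at ha hb
    have : ¬ a * b ≤ V := by
      have := Nat.mul_le_mul (Nat.succ_le_of_lt ha.1) (Nat.succ_le_of_lt hb.1)
      rw [Nat.succ_eq_add_one] at this
      omega
    simp only [hg, if_neg this]
  have h2 : ∑ a ∈ Finset.Ioc m V, ∑ b ∈ Finset.Ioc 0 V, g a b =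
      ∑ a ∈ Finset.Ioc m V, ∑ b ∈ Finset.Ioc 0 m, g a b := by
    rw [Finset.sum_congr rfl (fun a _ => hspl (g a)), Finset.sum_add_distrib, hzero, add_zero]
  have h3 : ∑ a ∈ Finset.Ioc m V, ∑ b ∈ Finset.Ioc 0 m, g a b =
      ∑ b ∈ Finset.Ioc 0 m, ∑ a ∈ Finset.Ioc 0 V, g b a -
        ∑ b ∈ Finset.Ioc 0 m, ∑ a ∈ Finset.Ioc 0 m, g b a := by
    rw [Finset.sum_comm, ← Finset.sum_sub_distrib]
    refine Finset.sum_congr rfl (fun b _ => ?_)
    rw [hspl (g b), add_sub_cancel_left]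
    exact Finset.sum_congr rfl (fun a _ => hsym a b)
  rw [h0, hspl, h2, h3, hsq, Finset.sum_congr rfl hrow]
  ring

theorem dlt_sumid (N : ℕ) : ∑ b ∈ Finset.Ioc 0 N, (b : ℝ) = N * (N + 1) / 2 := by
  induction N with
  | zero => simp
  | succ n ih =>
    rw [Finset.sum_Ioc_succ_top (Nat.zero_le n), ih]
    push_cast
    ring

theorem dlt_harmsum (N : ℕ) : ∑ b ∈ Finset.Ioc 0 N, 1 / (b : ℝ) = (harmonic N : ℝ) := by
  induction N with
  | zero => simp
  | succ n ih =>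
    rw [Finset.sum_Ioc_succ_top (Nat.zero_le n), ih, harmonic_succ]
    push_cast
    rw [one_div]

theorem dlt_row {v : ℝ} (hv : 0 ≤ v) {a : ℕ} (ha : 1 ≤ a) :
    |∑ b ∈ Finset.Ioc 0 (⌊v⌋₊ / a), (v - ((a * b : ℕ) : ℝ)) - (v ^ 2 / 2 * (1 / (a : ℝ)) - v / 2)| ≤
      (a : ℝ) / 8 := by
  have ha' : (1 : ℝ) ≤ a := by exact_mod_cast ha
  have ha0 : (0 : ℝ) < a := by linarith
  rw [← Nat.floor_div_natCast]
  set y : ℝ := v / a with hy
  have hy0 : 0 ≤ y := by positivity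
  have hva : v = a * y := by rw [hy]; field_simp
  set N := ⌊y⌋₊ with hN
  have h1 : (N : ℝ) ≤ y := Nat.floor_le hy0
  have h2 : y < N + 1 := Nat.lt_floor_add_one y
  have h3 : ∑ b ∈ Finset.Ioc 0 N, (v - ((a * b : ℕ) : ℝ)) = N * v - a * (N * (N + 1) / 2) := by
    rw [Finset.sum_sub_distrib, Finset.sum_const, nsmul_eq_mul, Nat.card_Ioc, ← dlt_sumid,
      Finset.mul_sum]
    simp
  rw [h3]
  have h4 : (N : ℝ) * v - a * (N * (N + 1) / 2) - (v ^ 2 / 2 * (1 / (a : ℝ)) - v / 2) =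
      a * ((y - N) * (1 - (y - N)) / 2) := by
    rw [hva]
    field_simp
    ring
  rw [h4, abs_mul, abs_of_pos ha0]
  have h5 : |(y - N) * (1 - (y - N)) / 2| ≤ 1 / 8 := by
    rw [abs_le]
    constructor
    · nlinarith [mul_nonneg (sub_nonneg.2 h1) (by linarith : (0 : ℝ) ≤ 1 - (y - N))]
    · nlinarith [sq_nonneg ((y - N) - 1 / 2)]
  calc (a : ℝ) * |(y - N) * (1 - (y - N)) / 2| ≤ a * (1 / 8) := by gcongr
    _ = a / 8 := by ring

theorem dlt_log {M s : ℝ} (hM : 1 ≤ M) (h1 : M ≤ s) (h2 : s < M + 1) :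
    |Real.log M - Real.log s + (s - M) / s| ≤ 1 / (M * s) := by
  have hM0 : 0 < M := by linarith
  have hs0 : 0 < s := by linarith
  have h3 : 0 < M / s := by positivity
  have h4 := Real.log_le_sub_one_of_pos h3
  have h5 := Real.one_sub_inv_le_log_of_pos h3
  rw [Real.log_div hM0.ne' hs0.ne'] at h4 h5
  have h6 : M / s - 1 = -((s - M) / s) := by field_simp; ring
  have h7 : 1 - (M / s)⁻¹ = -((s - M) / s) - (s - M) ^ 2 / (M * s) := by
    field_simp
    ring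
  rw [h6] at h4
  rw [h7] at h5
  have h8 : (s - M) ^ 2 / (M * s) ≤ 1 / (M * s) := by
    gcongr
    nlinarith
  have h9 : 0 ≤ 1 / (M * s) := by positivity
  rw [abs_le]
  constructor <;> linarith

theorem dlt_alg {M s : ℝ} (hM : 1 ≤ M) (h1 : M ≤ s) (h2 : s < M + 1) :
    |s ^ 4 * (-((s - M) / s) + 1 / (2 * M)) - s ^ 2 * M - M ^ 2 * s ^ 2 +
      M ^ 2 * (M + 1) ^ 2 / 4 + 3 / 4 * s ^ 4| ≤ 6 * s ^ 2 := by
  have hM0 : 0 < M := by linarith
  have hs0 : 0 < s := by linarith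
  obtain ⟨f, rfl⟩ : ∃ f, s = M + f := ⟨s - M, by ring⟩
  have hf0 : 0 ≤ f := by linarith
  have hf1 : f < 1 := by linarith
  have h3 : (M + f) ^ 4 * (-((M + f - M) / (M + f)) + 1 / (2 * M)) - (M + f) ^ 2 * M -
      M ^ 2 * (M + f) ^ 2 + M ^ 2 * (M + 1) ^ 2 / 4 + 3 / 4 * (M + f) ^ 4 =
      M ^ 2 * (1 / 4 + f ^ 2 / 2) + 2 * f ^ 2 * M + 2 * f ^ 3 - f ^ 4 / 4 + f ^ 4 / (2 * M) := by
    field_simp
    ring
  rw [h3]
  have e2 : f ^ 2 ≤ 1 := pow_le_one₀ hf0 hf1.le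
  have e3 : f ^ 3 ≤ 1 := pow_le_one₀ hf0 hf1.le
  have e4 : f ^ 4 ≤ 1 := pow_le_one₀ hf0 hf1.le
  have p2 : 0 ≤ f ^ 2 := by positivity
  have p3 : 0 ≤ f ^ 3 := by positivity
  have p4 : 0 ≤ f ^ 4 := by positivity
  have hMM : 1 ≤ M ^ 2 := one_le_pow₀ hM
  have hMM2 : M ≤ M ^ 2 := by nlinarith
  have q4 : f ^ 4 / (2 * M) ≤ 1 := by
    rw [div_le_one (by positivity)]
    linarith
  have q4' : 0 ≤ f ^ 4 / (2 * M) := by positivity
  have hs2 : M ^ 2 ≤ (M + f) ^ 2 := by gcongr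
  have r1 : M ^ 2 * (1 / 4 + f ^ 2 / 2) ≤ M ^ 2 * (3 / 4) := by gcongr; linarith
  have r1' : 0 ≤ M ^ 2 * (1 / 4 + f ^ 2 / 2) := by positivity
  have r2 : 2 * f ^ 2 * M ≤ 2 * 1 * M := by gcongr
  have r2' : 0 ≤ 2 * f ^ 2 * M := by positivity
  rw [abs_le]
  constructor <;> linarith

theorem tau_sum1_pr : ∃ C : ℝ, ∀ v : ℝ, 0 < v →
    |∑ n ∈ Finset.Icc 1 ⌊v⌋₊, tau n * (v - n) -
      (v ^ 2 / 2 * Real.log v + (ga - 3 / 4) * v ^ 2)| ≤ C * v := by
  refine ⟨20, fun v hv => ?_⟩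
  have hg1 := Real.one_half_lt_eulerMascheroniConstant
  have hg2 := Real.eulerMascheroniConstant_lt_two_thirds
  rcases lt_or_ge v 1 with hv1 | hv1
  · have h0 : ⌊v⌋₊ = 0 := Nat.floor_eq_zero.2 hv1
    rw [h0]
    have h1 : Finset.Icc 1 0 = (∅ : Finset ℕ) := rfl
    rw [h1, Finset.sum_empty, zero_sub, abs_neg]
    have h2 := Real.abs_log_mul_self_lt v hv hv1.le
    have h3 : v ^ 2 / 2 * Real.log v + (ga - 3 / 4) * v ^ 2 =
        (Real.log v * v / 2 + (ga - 3 / 4) * v) * v := by ring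
    rw [h3, abs_mul, abs_of_pos hv]
    refine mul_le_mul_of_nonneg_right ?_ hv.le
    rw [abs_lt] at h2
    have h4 : |(ga - 3 / 4) * v| ≤ 1 := by
      rw [abs_mul, abs_of_pos hv]
      have : |ga - 3 / 4| ≤ 1 := by
        rw [abs_le]; constructor <;> linarith
      nlinarith [abs_nonneg (ga - 3 / 4)]
    rw [abs_le] at h4 ⊢
    constructor <;> linarith [h4.1, h4.2, h2.1, h2.2]
  · have hIcc : Finset.Icc 1 ⌊v⌋₊ = Finset.Ioc 0 ⌊v⌋₊ := rfl
    set V := ⌊v⌋₊ with hV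
    have hVv : (V : ℝ) ≤ v := Nat.floor_le hv.le
    have hVv' : v < V + 1 := Nat.lt_floor_add_one v
    set m := Nat.sqrt V with hm
    have hV1 : 1 ≤ V := (Nat.one_le_floor_iff v).2 hv1
    have hm1 : 1 ≤ m := Nat.sqrt_pos.2 hV1
    set s := Real.sqrt v with hs
    have hs0 : 0 < s := Real.sqrt_pos.2 hv
    have hs2 : s ^ 2 = v := Real.sq_sqrt hv.le
    have hM1 : (1 : ℝ) ≤ m := by exact_mod_cast hm1
    have hMs : (m : ℝ) ≤ s := by
      apply Real.le_sqrt_of_sq_le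
      have : m * m ≤ V := Nat.sqrt_le V
      have h' : (m : ℝ) * m ≤ V := by exact_mod_cast this
      nlinarith
    have hsM : s < m + 1 := by
      rw [hs, Real.sqrt_lt' (by positivity)]
      have : V < (m + 1) * (m + 1) := Nat.lt_succ_sqrt V
      have h' : (V : ℝ) + 1 ≤ (m + 1) * (m + 1) := by exact_mod_cast this
      nlinarith
    have hH := dlt_harm m hm1
    have hL := dlt_log hM1 hMs hsM
    have hA := dlt_alg hM1 hMs hsM
    have hhyp := dlt_hyp V (fun n => v - n)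
    rw [hIcc]
    rw [hhyp]
    have hrow : |∑ a ∈ Finset.Ioc 0 m, ∑ b ∈ Finset.Ioc 0 (V / a), (v - ((a * b : ℕ) : ℝ)) -
        (v ^ 2 / 2 * (harmonic m : ℝ) - v / 2 * m)| ≤ v / 8 := by
      have h1 : v ^ 2 / 2 * (harmonic m : ℝ) - v / 2 * m =
          ∑ a ∈ Finset.Ioc 0 m, (v ^ 2 / 2 * (1 / (a : ℝ)) - v / 2) := by
        rw [Finset.sum_sub_distrib, ← Finset.mul_sum, dlt_harmsum, Finset.sum_const,
          nsmul_eq_mul, Nat.card_Ioc, Nat.sub_zero]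
        ring
      rw [h1, ← Finset.sum_sub_distrib]
      refine (Finset.abs_sum_le_sum_abs _ _).trans ?_
      calc ∑ a ∈ Finset.Ioc 0 m, |∑ b ∈ Finset.Ioc 0 (V / a), (v - ((a * b : ℕ) : ℝ)) -
            (v ^ 2 / 2 * (1 / (a : ℝ)) - v / 2)| ≤ ∑ a ∈ Finset.Ioc 0 m, (m : ℝ) / 8 := by
            refine Finset.sum_le_sum (fun a ha => ?_)
            rw [Finset.mem_Ioc] at ha
            refine (dlt_row hv.le ha.1).trans ?_
            have : (a : ℝ) ≤ m := by exact_mod_cast ha.2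
            linarith
        _ = (m : ℝ) * m / 8 := by
            rw [Finset.sum_const, nsmul_eq_mul, Nat.card_Ioc, Nat.sub_zero]
            ring
        _ ≤ v / 8 := by
            have : (m : ℝ) * m ≤ s * s := by gcongr
            nlinarith
    have hsq : ∑ a ∈ Finset.Ioc 0 m, ∑ b ∈ Finset.Ioc 0 m, (v - ((a * b : ℕ) : ℝ)) =
        (m : ℝ) ^ 2 * v - (m : ℝ) ^ 2 * (m + 1) ^ 2 / 4 := by
      have h1 : ∀ a ∈ Finset.Ioc 0 m, ∑ b ∈ Finset.Ioc 0 m, (v - ((a * b : ℕ) : ℝ)) =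
          m * v - a * ((m : ℝ) * (m + 1) / 2) := by
        intro a _
        rw [Finset.sum_sub_distrib, Finset.sum_const, nsmul_eq_mul, Nat.card_Ioc, Nat.sub_zero,
          ← dlt_sumid, Finset.mul_sum]
        push_cast
        rfl
      rw [Finset.sum_congr rfl h1, Finset.sum_sub_distrib, Finset.sum_const, nsmul_eq_mul,
        Nat.card_Ioc, Nat.sub_zero, ← Finset.sum_mul, dlt_sumid]
      ring
    rw [hsq]
    have hlogv : Real.log v = 2 * Real.log s := by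
      rw [← hs2, Real.log_pow]; norm_num
    rw [hlogv]
    have hv2 : v ^ 2 = s ^ 4 := by rw [← hs2]; ring
    set M : ℝ := (m : ℝ) with hMdef
    have hM0 : 0 < M := by linarith
    have hs2M : s ≤ 2 * M := by linarith
    -- errors
    have e1 : |v ^ 2 * ((harmonic m : ℝ) - Real.log M - ga - 1 / (2 * M))| ≤ v := by
      rw [abs_mul, abs_of_nonneg (by positivity)]
      calc v ^ 2 * |(harmonic m : ℝ) - Real.log M - ga - 1 / (2 * M)| ≤
          v ^ 2 * (1 / (8 * M ^ 2)) := by gcongr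
        _ = s ^ 2 * (s ^ 2 / (8 * M ^ 2)) := by rw [hv2]; ring
        _ ≤ s ^ 2 * 1 := by
            gcongr
            rw [div_le_one (by positivity)]
            nlinarith
        _ = v := by rw [mul_one, hs2]
    have e2 : |v ^ 2 * (Real.log M - Real.log s + (s - M) / s)| ≤ 2 * v := by
      rw [abs_mul, abs_of_nonneg (by positivity)]
      calc v ^ 2 * |Real.log M - Real.log s + (s - M) / s| ≤ v ^ 2 * (1 / (M * s)) := by gcongr
        _ = s ^ 2 * (s / M) := by rw [hv2]; field_simp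
        _ ≤ s ^ 2 * 2 := by
            gcongr
            rw [div_le_iff₀ hM0]
            linarith
        _ = 2 * v := by rw [hs2]; ring
    rw [← hv2, hs2] at hA
    set T : ℝ := ∑ a ∈ Finset.Ioc 0 m, ∑ b ∈ Finset.Ioc 0 (V / a), (v - ((a * b : ℕ) : ℝ))
      with hT
    have key : 2 * T - (M ^ 2 * v - M ^ 2 * (M + 1) ^ 2 / 4) -
        (v ^ 2 / 2 * (2 * Real.log s) + (ga - 3 / 4) * v ^ 2) =
        2 * (T - (v ^ 2 / 2 * (harmonic m : ℝ) - v / 2 * M)) +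
        v ^ 2 * ((harmonic m : ℝ) - Real.log M - ga - 1 / (2 * M)) +
        v ^ 2 * (Real.log M - Real.log s + (s - M) / s) +
        (v ^ 2 * (-((s - M) / s) + 1 / (2 * M)) - v * M - M ^ 2 * v +
          M ^ 2 * (M + 1) ^ 2 / 4 + 3 / 4 * v ^ 2) := by ring
    rw [key]
    rw [abs_le] at e1 e2 hA hrow ⊢
    obtain ⟨a1, a2⟩ := e1
    obtain ⟨b1, b2⟩ := e2
    obtain ⟨c1, c2⟩ := hA
    obtain ⟨d1, d2⟩ := hrow
    constructor <;> linarith

alias tau_sum1 := tau_sum1_pr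

end Pool.Agent.LSPP
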