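import Pool.Agent.Lib_helper15.LSP.DefsP
import Pool.Agent.Lib_helper15.LSPF.DLT

/-!
# Block DDO: the smooth sum of the divisor function
-/

set_option autoImplicit false

namespace Pool.Agent.LSPP

open Pool.Agent.LSP (tau sg1 CC Gs Adm)
open Pool.Agent.LSPO (hyp cl KK rho b1 GOK)
open Pool.Agent.FG61 (mu phi cc)
open MeasureTheory Filter Topology

/-! ## the polynomial -/

noncomputable def ddo_p (s : ℝ) : ℝ := (1 - s) ^ 3 * (2 * s - 1) ^ 3
noncomputable def ddo_p1 (s : ℝ) : ℝ := 3 * (1 - s) ^ 2 * (2 * s - 1) ^ 2 * (3 - 4 * s)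
noncomputable def ddo_p2 (s : ℝ) : ℝ := 6 * (1 - s) * (2 * s - 1) * (20 * s ^ 2 - 30 * s + 11)

theorem ddo_h1 (s : ℝ) : HasDerivAt (fun s : ℝ => 1 - s) (-1) s := by
  simpa using (hasDerivAt_id s).const_sub 1

theorem ddo_h2 (s : ℝ) : HasDerivAt (fun s : ℝ => 2 * s - 1) 2 s := by
  simpa using ((hasDerivAt_id s).const_mul 2).sub_const 1

theorem ddo_h3 (s : ℝ) : HasDerivAt (fun s : ℝ => 3 - 4 * s) (-4) s := by
  simpa using ((hasDerivAt_id s).const_mul 4).const_sub 3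

theorem ddo_hp (s : ℝ) : HasDerivAt ddo_p (ddo_p1 s) s := by
  have h := ((ddo_h1 s).fun_pow 3).fun_mul ((ddo_h2 s).fun_pow 3)
  have h' : HasDerivAt (fun s : ℝ => (1 - s) ^ 3 * (2 * s - 1) ^ 3) (ddo_p1 s) s := by
    refine h.congr_deriv ?_
    unfold ddo_p1
    norm_num
    ring
  exact h'

theorem ddo_hp1 (s : ℝ) : HasDerivAt ddo_p1 (ddo_p2 s) s := by
  have h := ((((ddo_h1 s).fun_pow 2).const_mul 3).fun_mul ((ddo_h2 s).fun_pow 2)).fun_mul (ddo_h3 s)
  have h' : HasDerivAt (fun s : ℝ => 3 * (1 - s) ^ 2 * (2 * s - 1) ^ 2 * (3 - 4 * s))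
      (ddo_p2 s) s := by
    refine h.congr_deriv ?_
    unfold ddo_p2
    norm_num
    ring
  exact h'

theorem ddo_cp : Continuous ddo_p := by unfold ddo_p; fun_prop
theorem ddo_cp1 : Continuous ddo_p1 := by unfold ddo_p1; fun_prop
theorem ddo_cp2 : Continuous ddo_p2 := by unfold ddo_p2; fun_prop

theorem ddo_lip {s t : ℝ} (hs0 : 0 ≤ s) (hs1 : s ≤ 1) (ht0 : 0 ≤ t) (ht1 : t ≤ 1) :
    |ddo_p2 s - ddo_p2 t| ≤ 6000 * |s - t| := by
  have h : ddo_p2 s - ddo_p2 t = (-240 * (s ^ 3 + s ^ 2 * t + s * t ^ 2 + t ^ 3) +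
      720 * (s ^ 2 + s * t + t ^ 2) - 792 * (s + t) + 378) * (s - t) := by
    unfold ddo_p2; ring
  rw [h, abs_mul]
  refine mul_le_mul_of_nonneg_right ?_ (abs_nonneg _)
  have a1 : s ^ 2 ≤ 1 := pow_le_one₀ hs0 hs1
  have a2 : t ^ 2 ≤ 1 := pow_le_one₀ ht0 ht1
  have a3 : s ^ 3 ≤ 1 := pow_le_one₀ hs0 hs1
  have a4 : t ^ 3 ≤ 1 := pow_le_one₀ ht0 ht1
  have a5 : s * t ≤ 1 := mul_le_one₀ hs1 ht0 ht1
  have a6 : s ^ 2 * t ≤ 1 := mul_le_one₀ a1 ht0 ht1
  have a7 : s * t ^ 2 ≤ 1 := mul_le_one₀ hs1 (by positivity) a2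
  have b1 : 0 ≤ s ^ 2 := by positivity
  have b2 : 0 ≤ t ^ 2 := by positivity
  have b3 : 0 ≤ s ^ 3 := by positivity
  have b4 : 0 ≤ t ^ 3 := by positivity
  have b5 : 0 ≤ s * t := by positivity
  have b6 : 0 ≤ s ^ 2 * t := by positivity
  have b7 : 0 ≤ s * t ^ 2 := by positivity
  rw [abs_le]
  constructor <;> linarith

/-- the second derivative, extended by zero -/
noncomputable def ddo_q (s : ℝ) : ℝ := ddo_p2 (max (min s 1) (1 / 2))

theorem ddo_cq : Continuous ddo_q := by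
  unfold ddo_q
  exact ddo_cp2.comp (by fun_prop)

theorem ddo_q_lip (s t : ℝ) : |ddo_q s - ddo_q t| ≤ 6000 * |s - t| := by
  unfold ddo_q
  have h1 : |max (min s 1) (1 / 2) - max (min t 1) (1 / 2)| ≤ |min s 1 - min t 1| :=
    abs_max_sub_max_le_abs _ _ _
  have h2 : |min s 1 - min t 1| ≤ |s - t| := by
    refine (abs_min_sub_min_le_max s 1 t 1).trans ?_
    simp
  have hb : ∀ u : ℝ, 0 ≤ max (min u 1) (1 / 2 : ℝ) ∧ max (min u 1) (1 / 2 : ℝ) ≤ 1 := by
    intro u
    exact ⟨le_trans (by norm_num) (le_max_right _ _), max_le (min_le_right _ _) (by norm_num)⟩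
  refine (ddo_lip (hb s).1 (hb s).2 (hb t).1 (hb t).2).trans ?_
  linarith

theorem ddo_q_lo {s : ℝ} (h : s ≤ 1 / 2) : ddo_q s = 0 := by
  unfold ddo_q
  rw [max_eq_right ((min_le_left _ _).trans h)]
  unfold ddo_p2; norm_num

theorem ddo_q_hi {s : ℝ} (h : 1 ≤ s) : ddo_q s = 0 := by
  unfold ddo_q
  rw [min_eq_right h, max_eq_left (by norm_num)]
  unfold ddo_p2; norm_num

theorem ddo_q_mid {s : ℝ} (h : 1 / 2 ≤ s) (h' : s ≤ 1) : ddo_q s = ddo_p2 s := by
  unfold ddo_q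
  rw [min_eq_left h', max_eq_left h]

theorem ddo_q_bd (s : ℝ) : |ddo_q s| ≤ 6000 := by
  have hb : 0 ≤ max (min s 1) (1 / 2 : ℝ) ∧ max (min s 1) (1 / 2 : ℝ) ≤ 1 :=
    ⟨le_trans (by norm_num) (le_max_right _ _), max_le (min_le_right _ _) (by norm_num)⟩
  have h := ddo_lip hb.1 hb.2 (zero_le_one) le_rfl
  have h1 : ddo_p2 1 = 0 := by unfold ddo_p2; norm_num
  rw [h1, sub_zero] at h
  have h2 : |max (min s 1) (1 / 2 : ℝ) - 1| ≤ 1 := by
    rw [abs_le]; constructor <;> linarith [hb.1, hb.2]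
  unfold ddo_q
  linarith

/-! ## integrals -/

theorem ddo_int1 (u a b : ℝ) : ∫ s in a..b, ddo_p2 s * (s - u) =
    (ddo_p1 b * (b - u) - ddo_p b) - (ddo_p1 a * (a - u) - ddo_p a) := by
  have h : ∀ s ∈ Set.uIcc a b, HasDerivAt (fun s => ddo_p1 s * (s - u) - ddo_p s)
      (ddo_p2 s * (s - u)) s := by
    intro s _
    have h1 := ((ddo_hp1 s).fun_mul ((hasDerivAt_id s).sub_const u)).fun_sub (ddo_hp s)
    refine h1.congr_deriv ?_
    simp
  have hc : Continuous (fun s => ddo_p2 s * (s - u)) := ddo_cp2.mul (by fun_prop)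
  rw [intervalIntegral.integral_eq_sub_of_hasDerivAt h (hc.intervalIntegrable _ _)]

theorem ddo_th (u : ℝ) : ∫ s in (1 / 2 : ℝ)..1, ddo_p2 s * max (s - u) 0 = th u := by
  have v1 : ddo_p1 1 = 0 := by unfold ddo_p1; norm_num
  have v2 : ddo_p 1 = 0 := by unfold ddo_p; norm_num
  have v3 : ddo_p1 (1 / 2) = 0 := by unfold ddo_p1; norm_num
  have v4 : ddo_p (1 / 2) = 0 := by unfold ddo_p; norm_num
  rcases lt_or_ge 1 u with hu | hu
  · have h0 : th u = 0 := by unfold th; rw [if_neg]; intro h; linarith [h.2]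
    rw [h0]
    have : ∫ s in (1 / 2 : ℝ)..1, ddo_p2 s * max (s - u) 0 = ∫ s in (1 / 2 : ℝ)..1, (0 : ℝ) := by
      refine intervalIntegral.integral_congr fun s hs => ?_
      rw [Set.uIcc_of_le (by norm_num)] at hs
      rw [max_eq_right (by linarith [hs.2]), mul_zero]
    rw [this]; simp
  rcases le_or_gt (1 / 2) u with hu2 | hu2
  · have h0 : th u = ddo_p u := by unfold th ddo_p; rw [if_pos ⟨hu2, hu⟩]
    have hc : Continuous (fun s => ddo_p2 s * max (s - u) 0) := ddo_cp2.mul (by fun_prop)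
    rw [← intervalIntegral.integral_add_adjacent_intervals (b := u)
      (hc.intervalIntegrable _ _) (hc.intervalIntegrable _ _)]
    have e1 : ∫ s in (1 / 2 : ℝ)..u, ddo_p2 s * max (s - u) 0 = ∫ s in (1 / 2 : ℝ)..u, (0 : ℝ) := by
      refine intervalIntegral.integral_congr fun s hs => ?_
      rw [Set.uIcc_of_le hu2] at hs
      rw [max_eq_right (by linarith [hs.2]), mul_zero]
    have e2 : ∫ s in u..1, ddo_p2 s * max (s - u) 0 = ∫ s in u..1, ddo_p2 s * (s - u) := by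
      refine intervalIntegral.integral_congr fun s hs => ?_
      rw [Set.uIcc_of_le hu] at hs
      rw [max_eq_left (by linarith [hs.1])]
    rw [e1, e2, ddo_int1, v1, v2, h0]
    simp
  · have h0 : th u = 0 := by unfold th; rw [if_neg]; intro h; linarith [h.1]
    have e2 : ∫ s in (1 / 2 : ℝ)..1, ddo_p2 s * max (s - u) 0 =
        ∫ s in (1 / 2 : ℝ)..1, ddo_p2 s * (s - u) := by
      refine intervalIntegral.integral_congr fun s hs => ?_
      rw [Set.uIcc_of_le (by norm_num)] at hs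
      rw [max_eq_left (by linarith [hs.1])]
    rw [e2, ddo_int1, v1, v2, v3, v4, h0]
    simp

theorem ddo_th_mid {s : ℝ} (h : 1 / 2 ≤ s) (h' : s ≤ 1) : th s = ddo_p s := by
  unfold th ddo_p; rw [if_pos ⟨h, h'⟩]

theorem ddo_I1 : ∫ s in (1 / 2 : ℝ)..1, ddo_p2 s * s ^ 2 = 2 * I1 := by
  have e : I1 = ∫ s in (1 / 2 : ℝ)..1, ddo_p s := by
    unfold I1
    refine intervalIntegral.integral_congr fun s hs => ?_
    rw [Set.uIcc_of_le (by norm_num)] at hs
    exact ddo_th_mid hs.1 hs.2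
  have h : ∀ s ∈ Set.uIcc (1 / 2 : ℝ) 1, HasDerivAt
      (fun s => ddo_p1 s * s ^ 2 - 2 * (s * ddo_p s)) (ddo_p2 s * s ^ 2 - 2 * ddo_p s) s := by
    intro s _
    have h1 := ((ddo_hp1 s).fun_mul ((hasDerivAt_id s).fun_pow 2)).fun_sub
      (((hasDerivAt_id s).fun_mul (ddo_hp s)).const_mul 2)
    refine h1.congr_deriv ?_
    simp
    ring
  have hc1 : Continuous (fun s => ddo_p2 s * s ^ 2) := ddo_cp2.mul (by fun_prop)
  have hc2 : Continuous (fun s => 2 * ddo_p s) := continuous_const.mul ddo_cp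
  have h2 := intervalIntegral.integral_eq_sub_of_hasDerivAt h ((hc1.sub hc2).intervalIntegrable _ _)
  rw [intervalIntegral.integral_sub (hc1.intervalIntegrable _ _) (hc2.intervalIntegrable _ _),
    intervalIntegral.integral_const_mul, ← e] at h2
  have v1 : ddo_p1 1 = 0 := by unfold ddo_p1; norm_num
  have v2 : ddo_p 1 = 0 := by unfold ddo_p; norm_num
  have v3 : ddo_p1 (1 / 2) = 0 := by unfold ddo_p1; norm_num
  have v4 : ddo_p (1 / 2) = 0 := by unfold ddo_p; norm_num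
  rw [v1, v2, v3, v4] at h2
  linarith

theorem ddo_I2 : ∫ s in (1 / 2 : ℝ)..1, ddo_p2 s * (s * (s * Real.log s)) =
    2 * I2 + 3 * I1 := by
  have e1 : I1 = ∫ s in (1 / 2 : ℝ)..1, ddo_p s := by
    unfold I1
    refine intervalIntegral.integral_congr fun s hs => ?_
    rw [Set.uIcc_of_le (by norm_num)] at hs
    exact ddo_th_mid hs.1 hs.2
  have e2 : I2 = ∫ s in (1 / 2 : ℝ)..1, ddo_p s * Real.log s := by
    unfold I2
    refine intervalIntegral.integral_congr fun s hs => ?_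
    rw [Set.uIcc_of_le (by norm_num)] at hs
    rw [ddo_th_mid hs.1 hs.2]
  have h : ∀ s ∈ Set.uIcc (1 / 2 : ℝ) 1, HasDerivAt
      (fun s => ddo_p1 s * (s ^ 2 * Real.log s) - ddo_p s * (2 * (s * Real.log s) + s))
      (ddo_p2 s * (s * (s * Real.log s)) - (2 * (ddo_p s * Real.log s) + 3 * ddo_p s)) s := by
    intro s hs
    rw [Set.uIcc_of_le (by norm_num)] at hs
    have hs0 : s ≠ 0 := by linarith [hs.1]
    have l := Real.hasDerivAt_log hs0
    have h1 := ((ddo_hp1 s).fun_mul (((hasDerivAt_id s).fun_pow 2).fun_mul l)).fun_sub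
      ((ddo_hp s).fun_mul ((((hasDerivAt_id s).fun_mul l).const_mul 2).fun_add (hasDerivAt_id s)))
    refine h1.congr_deriv ?_
    simp
    field_simp
    ring
  have hlog : ContinuousOn Real.log (Set.uIcc (1 / 2 : ℝ) 1) := by
    refine Real.continuousOn_log.mono fun s hs => ?_
    rw [Set.uIcc_of_le (by norm_num)] at hs
    simp only [Set.mem_compl_iff, Set.mem_singleton_iff]
    linarith [hs.1]
  have i1 : IntervalIntegrable (fun s => ddo_p2 s * (s * (s * Real.log s))) volume (1 / 2) 1 := by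
    refine ContinuousOn.intervalIntegrable ?_
    exact ddo_cp2.continuousOn.mul (continuousOn_id.mul (continuousOn_id.mul hlog))
  have i2 : IntervalIntegrable (fun s => 2 * (ddo_p s * Real.log s)) volume (1 / 2) 1 := by
    refine ContinuousOn.intervalIntegrable ?_
    exact continuousOn_const.mul (ddo_cp.continuousOn.mul hlog)
  have i3 : IntervalIntegrable (fun s => 3 * ddo_p s) volume (1 / 2) 1 :=
    (continuous_const.mul ddo_cp).intervalIntegrable _ _
  have h2 := intervalIntegral.integral_eq_sub_of_hasDerivAt h (i1.sub (i2.add i3))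
  rw [intervalIntegral.integral_sub i1 (i2.add i3), intervalIntegral.integral_add i2 i3,
    intervalIntegral.integral_const_mul, intervalIntegral.integral_const_mul, ← e1, ← e2] at h2
  have v1 : ddo_p1 1 = 0 := by unfold ddo_p1; norm_num
  have v2 : ddo_p 1 = 0 := by unfold ddo_p; norm_num
  have v3 : ddo_p1 (1 / 2) = 0 := by unfold ddo_p1; norm_num
  have v4 : ddo_p (1 / 2) = 0 := by unfold ddo_p; norm_num
  rw [v1, v2, v3, v4] at h2
  linarith

/-! ## the error function -/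

noncomputable def ddo_E (N : ℕ) (v : ℝ) : ℝ :=
  ∑ g ∈ Finset.Icc 1 N, tau g * max (v - g) 0 -
    (v / 2 * (v * Real.log v) + (ga - 3 / 4) * v ^ 2)

theorem ddo_cE (N : ℕ) : Continuous (ddo_E N) := by
  unfold ddo_E
  refine Continuous.sub ?_ ?_
  · refine continuous_finsetSum _ fun g _ => ?_
    fun_prop
  · refine Continuous.add ?_ (by fun_prop)
    exact (by fun_prop : Continuous fun v : ℝ => v / 2).mul Real.continuous_mul_log

theorem ddo_E_bd {C : ℝ} (hC : ∀ v : ℝ, 0 < v →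
    |∑ n ∈ Finset.Icc 1 ⌊v⌋₊, tau n * (v - n) -
      (v ^ 2 / 2 * Real.log v + (ga - 3 / 4) * v ^ 2)| ≤ C * v) {N : ℕ} {v : ℝ} (hv : 0 < v)
    (hN : v ≤ N) : |ddo_E N v| ≤ C * v := by
  refine le_trans (le_of_eq ?_) (hC v hv)
  unfold ddo_E
  congr 1
  have h1 : ∑ g ∈ Finset.Icc 1 N, tau g * max (v - g) 0 =
      ∑ n ∈ Finset.Icc 1 ⌊v⌋₊, tau n * (v - n) := by
    have hsub : Finset.Icc 1 ⌊v⌋₊ ⊆ Finset.Icc 1 N := by
      refine Finset.Icc_subset_Icc le_rfl ?_
      exact Nat.floor_le_of_le hN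
    rw [← Finset.sum_subset hsub]
    · refine Finset.sum_congr rfl fun g hg => ?_
      rw [Finset.mem_Icc] at hg
      have : (g : ℝ) ≤ v := (Nat.le_floor_iff hv.le).1 hg.2
      rw [max_eq_left (by linarith)]
    · intro g hg hg'
      rw [Finset.mem_Icc] at hg hg'
      have : ⌊v⌋₊ < g := by
        by_contra hh
        exact hg' ⟨hg.1, not_lt.1 hh⟩
      have h3 : v < g := (Nat.floor_lt hv.le).1 this
      rw [max_eq_right (by linarith), mul_zero]
  rw [h1]
  ring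

theorem ddo_DD {N : ℕ} {x : ℝ} (hx : 0 < x) (hN : x ≤ N) :
    DD x = ∑ g ∈ Finset.Icc 1 N, tau g * th (g / x) := by
  unfold DD
  have hsub : Finset.Icc 1 ⌊x⌋₊ ⊆ Finset.Icc 1 N := by
    refine Finset.Icc_subset_Icc le_rfl ?_
    exact Nat.floor_le_of_le hN
  refine Finset.sum_subset hsub ?_
  intro g hg hg'
  rw [Finset.mem_Icc] at hg hg'
  have : ⌊x⌋₊ < g := by
    by_contra hh
    exact hg' ⟨hg.1, not_lt.1 hh⟩
  have h3 : x < g := (Nat.floor_lt hx.le).1 this
  have h4 : th (g / x) = 0 := by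
    unfold th
    rw [if_neg]
    intro h
    have := h.2
    rw [div_le_one hx] at this
    linarith
  rw [h4, mul_zero]

theorem ddo_key {N : ℕ} {x : ℝ} (hx : 0 < x) (hN : x ≤ N) :
    R0 x = 1 / x * ∫ s in (1 / 2 : ℝ)..1, ddo_p2 s * ddo_E N (s * x) := by
  have hlog : ContinuousOn Real.log (Set.uIcc (1 / 2 : ℝ) 1) := by
    refine Real.continuousOn_log.mono fun s hs => ?_
    rw [Set.uIcc_of_le (by norm_num)] at hs
    simp only [Set.mem_compl_iff, Set.mem_singleton_iff]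
    linarith [hs.1]
  have e1 : ∫ s in (1 / 2 : ℝ)..1, ddo_p2 s * ddo_E N (s * x) =
      ∫ s in (1 / 2 : ℝ)..1, ((∑ g ∈ Finset.Icc 1 N, tau g * x * (ddo_p2 s * max (s - g / x) 0)) -
        (x ^ 2 / 2 * (ddo_p2 s * (s * (s * Real.log s))) +
          x ^ 2 * (Real.log x / 2 + ga - 3 / 4) * (ddo_p2 s * s ^ 2))) := by
    refine intervalIntegral.integral_congr fun s hs => ?_
    rw [Set.uIcc_of_le (by norm_num)] at hs
    have hs0 : 0 < s := by linarith [hs.1]
    unfold ddo_E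
    rw [Real.log_mul hs0.ne' hx.ne', mul_sub, Finset.mul_sum]
    have e2 : ∀ g ∈ Finset.Icc 1 N, ddo_p2 s * (tau g * max (s * x - g) 0) =
        tau g * x * (ddo_p2 s * max (s - g / x) 0) := by
      intro g _
      have h1 : s * x - g = x * (s - g / x) := by field_simp
      have h2 : max (s * x - g) 0 = x * max (s - g / x) 0 := by
        rw [h1, mul_max_of_nonneg _ _ hx.le, mul_zero]
      rw [h2]
      ring
    rw [Finset.sum_congr rfl e2]
    ring
  have i1 : ∀ g ∈ Finset.Icc 1 N, IntervalIntegrable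
      (fun s => tau g * x * (ddo_p2 s * max (s - (g : ℝ) / x) 0)) volume (1 / 2) 1 := by
    intro g _
    refine Continuous.intervalIntegrable ?_ _ _
    exact continuous_const.mul (ddo_cp2.mul (by fun_prop))
  have i1' : IntervalIntegrable (fun s => ∑ g ∈ Finset.Icc 1 N,
      tau g * x * (ddo_p2 s * max (s - (g : ℝ) / x) 0)) volume (1 / 2) 1 := by
    refine Continuous.intervalIntegrable ?_ _ _
    refine continuous_finsetSum _ fun g _ => ?_
    exact continuous_const.mul (ddo_cp2.mul (by fun_prop))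
  have i2 : IntervalIntegrable (fun s => x ^ 2 / 2 * (ddo_p2 s * (s * (s * Real.log s))))
      volume (1 / 2) 1 := by
    refine ContinuousOn.intervalIntegrable ?_
    exact continuousOn_const.mul
      (ddo_cp2.continuousOn.mul (continuousOn_id.mul (continuousOn_id.mul hlog)))
  have i3 : IntervalIntegrable (fun s => x ^ 2 * (Real.log x / 2 + ga - 3 / 4) *
      (ddo_p2 s * s ^ 2)) volume (1 / 2) 1 :=
    (continuous_const.mul (ddo_cp2.mul (by fun_prop))).intervalIntegrable _ _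
  rw [e1, intervalIntegral.integral_sub i1' (i2.add i3), intervalIntegral.integral_add i2 i3,
    intervalIntegral.integral_finsetSum i1, intervalIntegral.integral_const_mul,
    intervalIntegral.integral_const_mul, ddo_I1, ddo_I2]
  have e3 : ∀ g ∈ Finset.Icc 1 N, ∫ s in (1 / 2 : ℝ)..1,
      tau g * x * (ddo_p2 s * max (s - (g : ℝ) / x) 0) = tau g * x * th (g / x) := by
    intro g _
    rw [intervalIntegral.integral_const_mul, ddo_th]
  rw [Finset.sum_congr rfl e3]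
  unfold R0
  rw [ddo_DD hx hN]
  have e4 : ∑ g ∈ Finset.Icc 1 N, tau g * x * th (g / x) =
      x * ∑ g ∈ Finset.Icc 1 N, tau g * th (g / x) := by
    rw [Finset.mul_sum]
    refine Finset.sum_congr rfl fun g _ => by ring
  rw [e4]
  field_simp
  ring

theorem ddo_key2 {N : ℕ} {x a b : ℝ} (hx : 0 < x) (hN : x ≤ N) (ha : a ≤ x / 2) (hb : x ≤ b) :
    R0 x = ∫ v in a..b, ddo_q (v / x) / x ^ 2 * ddo_E N v := by
  have hc : Continuous (fun v => ddo_q (v / x) / x ^ 2 * ddo_E N v) := by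
    refine Continuous.mul ?_ (ddo_cE N)
    refine Continuous.div_const ?_ _
    exact ddo_cq.comp (by fun_prop)
  rw [← intervalIntegral.integral_add_adjacent_intervals (b := x)
      (hc.intervalIntegrable _ _) (hc.intervalIntegrable _ _),
    ← intervalIntegral.integral_add_adjacent_intervals (a := a) (b := x / 2)
      (hc.intervalIntegrable _ _) (hc.intervalIntegrable _ _)]
  have e1 : ∫ v in a..(x / 2), ddo_q (v / x) / x ^ 2 * ddo_E N v =
      ∫ v in a..(x / 2), (0 : ℝ) := by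
    refine intervalIntegral.integral_congr fun v hv => ?_
    rw [Set.uIcc_of_le ha] at hv
    rw [ddo_q_lo, zero_div, zero_mul]
    rw [div_le_iff₀ hx]
    linarith [hv.2]
  have e2 : ∫ v in x..b, ddo_q (v / x) / x ^ 2 * ddo_E N v = ∫ v in x..b, (0 : ℝ) := by
    refine intervalIntegral.integral_congr fun v hv => ?_
    rw [Set.uIcc_of_le hb] at hv
    rw [ddo_q_hi, zero_div, zero_mul]
    rw [le_div_iff₀ hx]
    linarith [hv.1]
  have e3 : ∫ s in (1 / 2 : ℝ)..1, ddo_p2 s * ddo_E N (s * x) =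
      ∫ s in (1 / 2 : ℝ)..1, (fun v => ddo_q (v / x) * ddo_E N v) (s * x) := by
    refine intervalIntegral.integral_congr fun s hs => ?_
    rw [Set.uIcc_of_le (by norm_num)] at hs
    show ddo_p2 s * ddo_E N (s * x) = ddo_q (s * x / x) * ddo_E N (s * x)
    rw [mul_div_assoc, div_self hx.ne', mul_one, ddo_q_mid hs.1 hs.2]
  have e4 : ∫ v in (x / 2)..x, ddo_q (v / x) / x ^ 2 * ddo_E N v =
      1 / x ^ 2 * ∫ v in (x / 2)..x, ddo_q (v / x) * ddo_E N v := by
    rw [← intervalIntegral.integral_const_mul]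
    refine intervalIntegral.integral_congr fun v _ => ?_
    ring
  rw [ddo_key hx hN, e3, intervalIntegral.integral_comp_mul_right (fun v => ddo_q (v / x) * ddo_E N v) hx.ne', e1, e2, e4]
  simp only [intervalIntegral.integral_zero, smul_eq_mul, one_mul, zero_add, add_zero]
  have e5 : (1 / 2 : ℝ) * x = x / 2 := by ring
  rw [e5]
  field_simp

/-! ## the bounds -/

theorem ddo_bd1 {C : ℝ} (hC : ∀ v : ℝ, 0 < v →
    |∑ n ∈ Finset.Icc 1 ⌊v⌋₊, tau n * (v - n) -
      (v ^ 2 / 2 * Real.log v + (ga - 3 / 4) * v ^ 2)| ≤ C * v) (hC0 : 0 ≤ C) {x : ℝ}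
    (hx : 0 < x) : |R0 x| ≤ 6000 * C := by
  obtain ⟨N, hN⟩ := exists_nat_ge x
  rw [ddo_key hx hN]
  have h1 : ‖∫ s in (1 / 2 : ℝ)..1, ddo_p2 s * ddo_E N (s * x)‖ ≤
      (6000 * (C * x)) * |1 - 1 / 2| := by
    refine intervalIntegral.norm_integral_le_of_norm_le_const fun s hs => ?_
    rw [Set.uIoc_of_le (by norm_num)] at hs
    have hs0 : 0 < s := by linarith [hs.1]
    have h2 : |ddo_p2 s| ≤ 6000 := by
      rw [← ddo_q_mid hs.1.le hs.2]; exact ddo_q_bd s
    have h3 : s * x ≤ x := by nlinarith [hs.2]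
    have h4 : |ddo_E N (s * x)| ≤ C * (s * x) := ddo_E_bd hC (by positivity) (h3.trans hN)
    rw [Real.norm_eq_abs, abs_mul]
    refine mul_le_mul h2 (h4.trans (mul_le_mul_of_nonneg_left h3 hC0)) (abs_nonneg _) (by norm_num)
  rw [Real.norm_eq_abs] at h1
  rw [abs_mul, abs_of_pos (by positivity : (0 : ℝ) < 1 / x)]
  have h5 : |(1 : ℝ) - 1 / 2| = 1 / 2 := by norm_num
  rw [h5] at h1
  calc 1 / x * |∫ s in (1 / 2 : ℝ)..1, ddo_p2 s * ddo_E N (s * x)|
      ≤ 1 / x * ((6000 * (C * x)) * (1 / 2)) := mul_le_mul_of_nonneg_left h1 (by positivity)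
    _ = 3000 * C := by field_simp; ring
    _ ≤ 6000 * C := by linarith

theorem ddo_bd2 {C : ℝ} (hC : ∀ v : ℝ, 0 < v →
    |∑ n ∈ Finset.Icc 1 ⌊v⌋₊, tau n * (v - n) -
      (v ^ 2 / 2 * Real.log v + (ga - 3 / 4) * v ^ 2)| ≤ C * v) (hC0 : 0 ≤ C) {x₁ x₂ : ℝ}
    (hx : 0 < x₁) (h12 : x₁ ≤ x₂) (h21 : x₂ ≤ 2 * x₁) :
    |R0 x₂ - R0 x₁| ≤ 120000 * C * ((x₂ - x₁) / x₁) := by
  obtain ⟨N, hN⟩ := exists_nat_ge x₂
  have hx2 : 0 < x₂ := by linarith
  have hc : ∀ x : ℝ, Continuous (fun v => ddo_q (v / x) / x ^ 2 * ddo_E N v) := by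
    intro x
    refine Continuous.mul ?_ (ddo_cE N)
    refine Continuous.div_const ?_ _
    exact ddo_cq.comp (by fun_prop)
  rw [ddo_key2 (a := x₁ / 2) (b := x₂) hx (h12.trans hN) le_rfl h12,
    ddo_key2 (a := x₁ / 2) (b := x₂) hx2 hN (by linarith) le_rfl,
    ← intervalIntegral.integral_sub ((hc x₂).intervalIntegrable _ _)
      ((hc x₁).intervalIntegrable _ _)]
  have h1 : ‖∫ v in (x₁ / 2)..x₂, (ddo_q (v / x₂) / x₂ ^ 2 * ddo_E N v -
      ddo_q (v / x₁) / x₁ ^ 2 * ddo_E N v)‖ ≤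
      (30000 * ((x₂ - x₁) / x₁ ^ 3) * (C * (2 * x₁))) * |x₂ - x₁ / 2| := by
    refine intervalIntegral.norm_integral_le_of_norm_le_const fun v hv => ?_
    rw [Set.uIoc_of_le (by linarith)] at hv
    have hv0 : 0 < v := by linarith [hv.1]
    have h4 : |ddo_E N v| ≤ C * (2 * x₁) :=
      (ddo_E_bd hC hv0 (hv.2.trans hN)).trans
        (mul_le_mul_of_nonneg_left (hv.2.trans h21) hC0)
    rw [← sub_mul, Real.norm_eq_abs, abs_mul]
    refine mul_le_mul ?_ h4 (abs_nonneg _) (by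
      have : 0 ≤ x₂ - x₁ := by linarith
      positivity)
    have e1 : ddo_q (v / x₂) / x₂ ^ 2 - ddo_q (v / x₁) / x₁ ^ 2 =
        (ddo_q (v / x₂) - ddo_q (v / x₁)) / x₂ ^ 2 -
          ddo_q (v / x₁) * (1 / x₁ ^ 2 - 1 / x₂ ^ 2) := by ring
    have e2 : |ddo_q (v / x₂) - ddo_q (v / x₁)| ≤ 6000 * (2 * ((x₂ - x₁) / x₁)) := by
      refine (ddo_q_lip _ _).trans ?_
      refine mul_le_mul_of_nonneg_left ?_ (by norm_num)
      have e3 : v / x₂ - v / x₁ = -(v / x₂ * ((x₂ - x₁) / x₁)) := by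
        field_simp; ring
      rw [e3, abs_neg, abs_of_nonneg (by
        have : 0 ≤ x₂ - x₁ := by linarith
        positivity)]
      refine mul_le_mul_of_nonneg_right ?_ (div_nonneg (by linarith) hx.le)
      rw [div_le_iff₀ hx2]
      linarith [hv.2]
    have e4 : 0 ≤ 1 / x₁ ^ 2 - 1 / x₂ ^ 2 := by
      have : 1 / x₂ ^ 2 ≤ 1 / x₁ ^ 2 :=
        one_div_le_one_div_of_le (by positivity) (pow_le_pow_left₀ hx.le h12 2)
      linarith
    have e5 : 1 / x₁ ^ 2 - 1 / x₂ ^ 2 ≤ 3 * ((x₂ - x₁) / x₁ ^ 3) := by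
      have e6 : 1 / x₁ ^ 2 - 1 / x₂ ^ 2 = (x₂ - x₁) / x₁ ^ 3 * ((x₁ + x₂) * x₁ / x₂ ^ 2) := by
        field_simp
        ring
      rw [e6, mul_comm (3 : ℝ)]
      refine mul_le_mul_of_nonneg_left ?_ (div_nonneg (by linarith) (by positivity))
      rw [div_le_iff₀ (by positivity)]
      nlinarith
    rw [e1]
    calc |(ddo_q (v / x₂) - ddo_q (v / x₁)) / x₂ ^ 2 -
          ddo_q (v / x₁) * (1 / x₁ ^ 2 - 1 / x₂ ^ 2)|
        ≤ |(ddo_q (v / x₂) - ddo_q (v / x₁)) / x₂ ^ 2| +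
          |ddo_q (v / x₁) * (1 / x₁ ^ 2 - 1 / x₂ ^ 2)| := abs_sub _ _
      _ ≤ 6000 * (2 * ((x₂ - x₁) / x₁)) / x₁ ^ 2 + 6000 * (3 * ((x₂ - x₁) / x₁ ^ 3)) := by
          refine add_le_add ?_ ?_
          · rw [abs_div, abs_of_pos (by positivity : (0 : ℝ) < x₂ ^ 2)]
            exact div_le_div₀ ((abs_nonneg _).trans e2) e2 (by positivity)
              (pow_le_pow_left₀ hx.le h12 2)
          · rw [abs_mul, abs_of_nonneg e4]
            exact mul_le_mul (ddo_q_bd _) e5 e4 (by norm_num)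
      _ = 30000 * ((x₂ - x₁) / x₁ ^ 3) := by field_simp; ring
  rw [Real.norm_eq_abs] at h1
  refine h1.trans ?_
  have h2 : |x₂ - x₁ / 2| ≤ 2 * x₁ := by
    rw [abs_le]; constructor <;> linarith
  have h3 : 0 ≤ x₂ - x₁ := by linarith
  calc 30000 * ((x₂ - x₁) / x₁ ^ 3) * (C * (2 * x₁)) * |x₂ - x₁ / 2|
      ≤ 30000 * ((x₂ - x₁) / x₁ ^ 3) * (C * (2 * x₁)) * (2 * x₁) :=
        mul_le_mul_of_nonneg_left h2 (by positivity)
    _ = 120000 * C * ((x₂ - x₁) / x₁) := by field_simp; ring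

theorem ddo_small {x : ℝ} (hx : 0 < x) (h1 : x < 1) :
    R0 x = -(x * (I1 * (Real.log x + 2 * ga) + I2)) := by
  unfold R0 DD
  rw [Nat.floor_eq_zero.2 h1]
  simp

theorem ddo_log {x : ℝ} (hx : 0 < x) (h1 : x ≤ 1) : x * |Real.log x| ≤ 2 * Real.sqrt x := by
  have hs : 0 < Real.sqrt x := Real.sqrt_pos.2 hx
  have h2 : |Real.log x| ≤ 2 / Real.sqrt x := by
    rw [abs_of_nonpos (Real.log_nonpos hx.le h1)]
    have h3 := Real.log_le_sub_one_of_pos (x := 1 / Real.sqrt x) (by positivity)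
    rw [Real.log_div one_ne_zero hs.ne', Real.log_one, Real.log_sqrt hx.le] at h3
    have h4 : 2 / Real.sqrt x = 2 * (1 / Real.sqrt x) := by ring
    rw [h4]
    linarith
  calc x * |Real.log x| ≤ x * (2 / Real.sqrt x) := mul_le_mul_of_nonneg_left h2 hx.le
    _ = 2 * Real.sqrt x := by
        have h5 : x = Real.sqrt x * Real.sqrt x := (Real.mul_self_sqrt hx.le).symm
        field_simp
        rw [Real.sq_sqrt hx.le]

theorem ddo_sqrt {x : ℝ} (hx : 0 < x) (h1 : x ≤ 1) : x ≤ Real.sqrt x := by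
  have h2 : Real.sqrt x ≤ 1 := by
    rw [Real.sqrt_le_one]
    exact h1
  nlinarith [Real.mul_self_sqrt hx.le, Real.sqrt_nonneg x]

theorem r0_bd_pr : ∃ K : ℝ, 1 ≤ K ∧ (∀ x : ℝ, 0 < x → |R0 x| ≤ K * min 1 (Real.sqrt x)) ∧
    ∀ x₁ x₂ : ℝ, 0 < x₁ → x₁ ≤ x₂ → x₂ ≤ 2 * x₁ →
      |R0 x₂ - R0 x₁| ≤ K * min 1 (Real.sqrt x₁) * ((x₂ - x₁) / x₁) := by
  obtain ⟨C', hC'⟩ := tau_sum1
  set C : ℝ := |C'| with hCdef
  have hC0 : 0 ≤ C := abs_nonneg _
  have hC : ∀ v : ℝ, 0 < v → |∑ n ∈ Finset.Icc 1 ⌊v⌋₊, tau n * (v - n) -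
      (v ^ 2 / 2 * Real.log v + (ga - 3 / 4) * v ^ 2)| ≤ C * v := by
    intro v hv
    exact (hC' v hv).trans (mul_le_mul_of_nonneg_right (le_abs_self _) hv.le)
  set K0 : ℝ := |I1| * (4 + 2 * |ga|) + |I2| with hK0
  have hK00 : 0 ≤ K0 := by positivity
  refine ⟨1 + 240000 * C + K0, by linarith [mul_nonneg (by norm_num : (0:ℝ) ≤ 240000) hC0], ?_, ?_⟩
  · intro x hx
    rcases lt_or_ge x 1 with h1 | h1
    · have hs := ddo_sqrt hx h1.le
      have hs1 : Real.sqrt x ≤ 1 := by rw [Real.sqrt_le_one]; exact h1.le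
      rw [min_eq_right hs1, ddo_small hx h1, abs_neg, abs_mul, abs_of_pos hx]
      have h2 : |I1 * (Real.log x + 2 * ga) + I2| ≤
          |I1| * (|Real.log x| + 2 * |ga|) + |I2| := by
        refine (abs_add_le _ _).trans (add_le_add_left ?_ _)
        rw [abs_mul]
        refine mul_le_mul_of_nonneg_left ?_ (abs_nonneg _)
        refine (abs_add_le _ _).trans (le_of_eq ?_)
        rw [abs_mul]
        norm_num
      calc x * |I1 * (Real.log x + 2 * ga) + I2|
          ≤ x * (|I1| * (|Real.log x| + 2 * |ga|) + |I2|) := mul_le_mul_of_nonneg_left h2 hx.le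
        _ = |I1| * (x * |Real.log x|) + x * (2 * |I1| * |ga| + |I2|) := by ring
        _ ≤ |I1| * (2 * Real.sqrt x) + Real.sqrt x * (2 * |I1| * |ga| + |I2|) := by
            refine add_le_add (mul_le_mul_of_nonneg_left (ddo_log hx h1.le) (abs_nonneg _)) ?_
            exact mul_le_mul_of_nonneg_right hs (by positivity)
        _ ≤ K0 * Real.sqrt x := by
            have h3 : 0 ≤ |I1| * Real.sqrt x := by positivity
            rw [hK0]
            nlinarith
        _ ≤ (1 + 240000 * C + K0) * Real.sqrt x := by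
            refine mul_le_mul_of_nonneg_right ?_ (Real.sqrt_nonneg _)
            linarith
    · have hs1 : 1 ≤ Real.sqrt x := by rw [Real.one_le_sqrt]; exact h1
      rw [min_eq_left hs1, mul_one]
      have := ddo_bd1 hC hC0 hx
      linarith
  · intro x₁ x₂ hx h12 h21
    have hd : 0 ≤ (x₂ - x₁) / x₁ := div_nonneg (by linarith) hx.le
    rcases lt_or_ge x₁ (1 / 2) with h1 | h1
    · have hx2 : 0 < x₂ := by linarith
      have h2 : x₂ < 1 := by linarith
      have h11 : x₁ ≤ 1 := by linarith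
      have hs := ddo_sqrt hx h11
      have hs1 : Real.sqrt x₁ ≤ 1 := by rw [Real.sqrt_le_one]; exact h11
      rw [min_eq_right hs1, ddo_small hx (by linarith), ddo_small hx2 h2]
      have e1 : -(x₂ * (I1 * (Real.log x₂ + 2 * ga) + I2)) -
          -(x₁ * (I1 * (Real.log x₁ + 2 * ga) + I2)) =
          -(I1 * ((x₂ - x₁) * Real.log x₁ + x₂ * (Real.log x₂ - Real.log x₁)) +
            (x₂ - x₁) * (2 * I1 * ga + I2)) := by ring
      have hd0 : 0 ≤ x₂ - x₁ := by linarith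
      have e2 : 0 ≤ Real.log x₂ - Real.log x₁ := by
        have := Real.log_le_log hx h12
        linarith
      have e3 : Real.log x₂ - Real.log x₁ ≤ (x₂ - x₁) / x₁ := by
        rw [← Real.log_div hx2.ne' hx.ne']
        refine (Real.log_le_sub_one_of_pos (by positivity)).trans (le_of_eq ?_)
        field_simp
      have e4 : |(x₂ - x₁) * Real.log x₁ + x₂ * (Real.log x₂ - Real.log x₁)| ≤
          (x₂ - x₁) * (|Real.log x₁| + 2) := by
        refine (abs_add_le _ _).trans ?_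
        rw [abs_mul, abs_of_nonneg hd0, abs_of_nonneg (mul_nonneg hx2.le e2)]
        have e5 : x₂ * (Real.log x₂ - Real.log x₁) ≤ 2 * x₁ * ((x₂ - x₁) / x₁) :=
          mul_le_mul h21 e3 e2 (by positivity)
        have e6 : 2 * x₁ * ((x₂ - x₁) / x₁) = 2 * (x₂ - x₁) := by field_simp
        rw [e6] at e5
        linarith
      rw [e1, abs_neg]
      calc |I1 * ((x₂ - x₁) * Real.log x₁ + x₂ * (Real.log x₂ - Real.log x₁)) +
            (x₂ - x₁) * (2 * I1 * ga + I2)|
          ≤ |I1| * ((x₂ - x₁) * (|Real.log x₁| + 2)) +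
            (x₂ - x₁) * (2 * |I1| * |ga| + |I2|) := by
            refine (abs_add_le _ _).trans (add_le_add ?_ ?_)
            · rw [abs_mul]
              exact mul_le_mul_of_nonneg_left e4 (abs_nonneg _)
            · rw [abs_mul, abs_of_nonneg hd0]
              refine mul_le_mul_of_nonneg_left ?_ hd0
              refine (abs_add_le _ _).trans (le_of_eq ?_)
              rw [abs_mul, abs_mul]
              norm_num
        _ = ((x₂ - x₁) / x₁) * (|I1| * (x₁ * |Real.log x₁|) +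
            x₁ * (2 * |I1| + 2 * |I1| * |ga| + |I2|)) := by
            field_simp
            ring
        _ ≤ ((x₂ - x₁) / x₁) * (|I1| * (2 * Real.sqrt x₁) +
            Real.sqrt x₁ * (2 * |I1| + 2 * |I1| * |ga| + |I2|)) := by
            refine mul_le_mul_of_nonneg_left ?_ hd
            refine add_le_add (mul_le_mul_of_nonneg_left (ddo_log hx h11) (abs_nonneg _)) ?_
            exact mul_le_mul_of_nonneg_right hs (by positivity)
        _ = K0 * Real.sqrt x₁ * ((x₂ - x₁) / x₁) := by rw [hK0]; ring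
        _ ≤ (1 + 240000 * C + K0) * Real.sqrt x₁ * ((x₂ - x₁) / x₁) := by
            refine mul_le_mul_of_nonneg_right ?_ hd
            refine mul_le_mul_of_nonneg_right ?_ (Real.sqrt_nonneg _)
            linarith
    · have hm : 1 / 2 ≤ min 1 (Real.sqrt x₁) := by
        refine le_min (by norm_num) ?_
        refine Real.le_sqrt_of_sq_le ?_
        linarith
      refine (ddo_bd2 hC hC0 hx h12 h21).trans ?_
      refine mul_le_mul_of_nonneg_right ?_ hd
      nlinarith [mul_nonneg (by norm_num : (0:ℝ) ≤ 240000) hC0]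

alias r0_bd := r0_bd_pr

end Pool.Agent.LSPP
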