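import Pool.Agent.Lib_helper15.LSP.DefsP
import Pool.Agent.Lib_helper15.LSPF.DDO

/-! LSP part P, block DDC: the divisor function times a Ramanujan sum. -/

set_option autoImplicit false

namespace Pool.Agent.LSPP

open Pool.Agent.LSP (tau sg1 CC Gs Adm)
open Pool.Agent.LSPO (hyp cl KK rho b1 GOK)
open Pool.Agent.FG61 (mu phi cc)
open MeasureTheory Filter Topology

theorem ddc_mu_sum {n : ℕ} (hn : 1 ≤ n) : ∑ d ∈ n.divisors, mu d = if n = 1 then 1 else 0 := by
  have h := congrFun (congrArg (fun f : ArithmeticFunction ℝ => (f : ℕ → ℝ))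
    (ArithmeticFunction.coe_moebius_mul_coe_zeta (R := ℝ))) n
  have h' : ((ArithmeticFunction.moebius : ArithmeticFunction ℝ) *
      (ArithmeticFunction.zeta : ArithmeticFunction ℝ)) n = (1 : ArithmeticFunction ℝ) n := h
  rw [ArithmeticFunction.mul_apply, Nat.sum_divisorsAntidiagonal (fun a b =>
    (ArithmeticFunction.moebius : ArithmeticFunction ℝ) a *
      (ArithmeticFunction.zeta : ArithmeticFunction ℝ) b), ArithmeticFunction.one_apply] at h'
  rw [← h']
  refine Finset.sum_congr rfl fun d hd => ?_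
  have hd' := Nat.mem_divisors.mp hd
  have h1 : n / d ≠ 0 := by
    have := Nat.div_pos (Nat.le_of_dvd hn hd'.1) (Nat.pos_of_dvd_of_pos hd'.1 hn)
    omega
  rw [ArithmeticFunction.intCoe_apply, ArithmeticFunction.natCoe_apply,
    ArithmeticFunction.zeta_apply_ne h1]
  simp

/-- the divisors of a product -/
theorem ddc_count {k g : ℕ} (hk : 1 ≤ k) (hg : 1 ≤ g) :
    (k * g).divisors.card = ((k.divisors ×ˢ g.divisors).filter
      (fun p => Nat.Coprime (k / p.1) p.2)).card := by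
  refine Finset.card_nbij' (fun d => (Nat.gcd d k, d / Nat.gcd d k)) (fun p => p.1 * p.2)
    ?_ ?_ ?_ ?_
  · intro d hd
    have hd' := Nat.mem_divisors.mp hd
    have hd0 : 0 < d := Nat.pos_of_dvd_of_pos hd'.1 (Nat.mul_pos hk hg)
    have hu : 0 < Nat.gcd d k := Nat.gcd_pos_of_pos_left _ hd0
    have hcop : Nat.Coprime (d / Nat.gcd d k) (k / Nat.gcd d k) := Nat.coprime_div_gcd_div_gcd hu
    simp only [Finset.coe_filter, Finset.mem_product, Set.mem_ofPred_eq, Nat.mem_divisors]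
    refine ⟨⟨⟨Nat.gcd_dvd_right _ _, by omega⟩, ?_, by omega⟩, hcop.symm⟩
    have h1 : d / Nat.gcd d k ∣ (k / Nat.gcd d k) * g := by
      have h2 : Nat.gcd d k * (d / Nat.gcd d k) ∣ Nat.gcd d k * ((k / Nat.gcd d k) * g) := by
        rw [← mul_assoc, Nat.mul_div_cancel' (Nat.gcd_dvd_left _ _),
          Nat.mul_div_cancel' (Nat.gcd_dvd_right _ _)]
        exact hd'.1
      exact Nat.dvd_of_mul_dvd_mul_left hu h2
    exact hcop.dvd_of_dvd_mul_left h1
  · intro p hp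
    simp only [Finset.coe_filter, Finset.mem_product, Set.mem_ofPred_eq, Nat.mem_divisors] at hp
    obtain ⟨⟨⟨h1, -⟩, h2, -⟩, -⟩ := hp
    simp only [Finset.mem_coe, Nat.mem_divisors]
    exact ⟨Nat.mul_dvd_mul h1 h2, (Nat.mul_pos hk hg).ne'⟩
  · intro d hd
    have hd' := Nat.mem_divisors.mp hd
    exact Nat.mul_div_cancel' (Nat.gcd_dvd_left _ _)
  · intro p hp
    simp only [Finset.coe_filter, Finset.mem_product, Set.mem_ofPred_eq, Nat.mem_divisors] at hp
    obtain ⟨⟨⟨h1, -⟩, h2, -⟩, h3⟩ := hp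
    have hp1 : 0 < p.1 := Nat.pos_of_dvd_of_pos h1 hk
    have h4 : Nat.gcd (p.1 * p.2) k = p.1 := by
      have h5 : k = p.1 * (k / p.1) := (Nat.mul_div_cancel' h1).symm
      have h6 : Nat.gcd (p.1 * p.2) (p.1 * (k / p.1)) = p.1 := by
        rw [Nat.gcd_mul_left]
        have : Nat.gcd p.2 (k / p.1) = 1 := h3.symm
        rw [this, mul_one]
      rwa [← h5] at h6
    show (Nat.gcd (p.1 * p.2) k, p.1 * p.2 / Nat.gcd (p.1 * p.2) k) = p
    rw [h4, Nat.mul_div_cancel_left _ hp1]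

theorem ddc_fil {k j : ℕ} (hk : 1 ≤ k) (hj : j ∣ k) :
    (k.divisors.filter (fun u => j ∣ k / u)) = (k / j).divisors := by
  have hj0 : 0 < j := Nat.pos_of_dvd_of_pos hj hk
  have hkj : 0 < k / j := Nat.div_pos (Nat.le_of_dvd hk hj) hj0
  ext u
  rw [Finset.mem_filter, Nat.mem_divisors, Nat.mem_divisors]
  constructor
  · rintro ⟨⟨h1, -⟩, h2⟩
    refine ⟨?_, hkj.ne'⟩
    have hu : 0 < u := Nat.pos_of_dvd_of_pos h1 hk
    obtain ⟨t, ht⟩ := h2
    have h3 : k = u * (j * t) := by rw [← ht, Nat.mul_div_cancel' h1]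
    refine ⟨t, ?_⟩
    rw [h3]
    rw [show u * (j * t) = j * (u * t) by ring, Nat.mul_div_cancel_left _ hj0]
  · rintro ⟨h1, -⟩
    obtain ⟨t, ht⟩ := h1
    have h3 : k = j * (u * t) := by rw [← ht, Nat.mul_div_cancel' hj]
    have hu : 0 < u := by
      rcases Nat.eq_zero_or_pos u with h | h
      · rw [h] at h3; simp at h3; omega
      · exact h
    refine ⟨⟨⟨j * t, by rw [h3]; ring⟩, by omega⟩, ⟨t, ?_⟩⟩
    rw [h3, show j * (u * t) = u * (j * t) by ring, Nat.mul_div_cancel_left _ hu]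

theorem ddc_tau {k g : ℕ} (hk : 1 ≤ k) (hg : 1 ≤ g) :
    tau (k * g) = ∑ j ∈ (Nat.gcd k g).divisors, mu j * tau (k / j) * tau (g / j) := by
  have hgcd : 0 < Nat.gcd k g := Nat.gcd_pos_of_pos_left _ hk
  have h1 : tau (k * g) = ∑ u ∈ k.divisors, ∑ v ∈ g.divisors,
      ∑ j ∈ (Nat.gcd k g).divisors, if j ∣ k / u ∧ j ∣ g / v then mu j else 0 := by
    unfold tau
    rw [ddc_count hk hg, Finset.card_filter, Finset.sum_product]
    push_cast
    refine Finset.sum_congr rfl fun u hu => ?_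
    rw [← Nat.sum_div_divisors]
    refine Finset.sum_congr rfl fun v hv => ?_
    have hu' := Nat.mem_divisors.mp hu
    have hv' := Nat.mem_divisors.mp hv
    have hku : 0 < k / u := Nat.div_pos (Nat.le_of_dvd hk hu'.1) (Nat.pos_of_dvd_of_pos hu'.1 hk)
    have h2 : (if Nat.Coprime (k / u) (g / v) then (1 : ℝ) else 0) =
        ∑ j ∈ (Nat.gcd (k / u) (g / v)).divisors, mu j :=
      (ddc_mu_sum (Nat.gcd_pos_of_pos_left _ hku)).symm
    have h3 : ((if Nat.Coprime (k / u, g / v).1 (k / u, g / v).2 then (1 : ℝ) else 0)) =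
        ∑ j ∈ (Nat.gcd (k / u) (g / v)).divisors, mu j := h2
    rw [h2, ← Finset.sum_filter]
    refine Finset.sum_congr ?_ fun _ _ => rfl
    ext j
    rw [Finset.mem_filter, Nat.mem_divisors, Nat.mem_divisors, Nat.dvd_gcd_iff, Nat.dvd_gcd_iff]
    constructor
    · rintro ⟨⟨a1, a2⟩, -⟩
      exact ⟨⟨⟨a1.trans (Nat.div_dvd_of_dvd hu'.1), a2.trans (Nat.div_dvd_of_dvd hv'.1)⟩,
        hgcd.ne'⟩, a1, a2⟩
    · rintro ⟨-, a1, a2⟩
      exact ⟨⟨a1, a2⟩, (Nat.gcd_pos_of_pos_left _ hku).ne'⟩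
  rw [h1]
  have h4 : ∀ u ∈ k.divisors, ∑ v ∈ g.divisors,
      ∑ j ∈ (Nat.gcd k g).divisors, (if j ∣ k / u ∧ j ∣ g / v then mu j else 0) =
      ∑ j ∈ (Nat.gcd k g).divisors, (if j ∣ k / u then mu j * tau (g / j) else 0) := by
    intro u _
    rw [Finset.sum_comm]
    refine Finset.sum_congr rfl fun j hj => ?_
    have hj' := Nat.mem_divisors.mp hj
    by_cases hc : j ∣ k / u
    · rw [if_pos hc]
      have : ∀ v ∈ g.divisors, (if j ∣ k / u ∧ j ∣ g / v then mu j else 0) =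
          if j ∣ g / v then mu j else 0 := by
        intro v _
        simp [hc]
      rw [Finset.sum_congr rfl this, ← Finset.sum_filter,
        ddc_fil hg (hj'.1.trans (Nat.gcd_dvd_right _ _)), Finset.sum_const, nsmul_eq_mul]
      unfold tau
      ring
    · rw [if_neg hc]
      refine Finset.sum_eq_zero fun v _ => ?_
      rw [if_neg]
      exact fun h => hc h.1
  rw [Finset.sum_congr rfl h4, Finset.sum_comm]
  refine Finset.sum_congr rfl fun j hj => ?_
  have hj' := Nat.mem_divisors.mp hj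
  rw [← Finset.sum_filter, ddc_fil hk (hj'.1.trans (Nat.gcd_dvd_left _ _)), Finset.sum_const,
    nsmul_eq_mul]
  unfold tau
  ring

/-- reordering -/
theorem ddc_sw {c : ℕ} (hc : 1 ≤ c) (x : ℝ) (F : ℕ → ℕ → ℝ) :
    ∑ g ∈ Finset.Icc 1 ⌊x⌋₊, ∑ k ∈ (Nat.gcd c g).divisors, F k g =
      ∑ k ∈ c.divisors, ∑ g ∈ Finset.Icc 1 ⌊x / k⌋₊, F k (k * g) := by
  have h1 : ∀ g ∈ Finset.Icc 1 ⌊x⌋₊, ∑ k ∈ (Nat.gcd c g).divisors, F k g =
      ∑ k ∈ c.divisors, if k ∣ g then F k g else 0 := by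
    intro g hg
    rw [← Finset.sum_filter]
    refine Finset.sum_congr ?_ fun _ _ => rfl
    ext k
    rw [Finset.mem_filter, Nat.mem_divisors, Nat.mem_divisors, Nat.dvd_gcd_iff]
    constructor
    · rintro ⟨⟨a, b⟩, -⟩
      exact ⟨⟨a, by omega⟩, b⟩
    · rintro ⟨⟨a, -⟩, b⟩
      exact ⟨⟨a, b⟩, (Nat.gcd_pos_of_pos_left _ hc).ne'⟩
  rw [Finset.sum_congr rfl h1, Finset.sum_comm]
  refine Finset.sum_congr rfl fun k hk => ?_
  have hk0 : 0 < k := Nat.pos_of_dvd_of_pos (Nat.mem_divisors.mp hk).1 hc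
  rw [← Finset.sum_filter, Nat.floor_div_natCast]
  refine Finset.sum_nbij' (fun g => g / k) (fun g => k * g) ?_ ?_ ?_ ?_ ?_
  · intro g hg
    rw [Finset.mem_filter, Finset.mem_Icc] at hg
    rw [Finset.mem_Icc]
    exact ⟨Nat.div_pos (Nat.le_of_dvd hg.1.1 hg.2) hk0, Nat.div_le_div_right hg.1.2⟩
  · intro g hg
    rw [Finset.mem_Icc] at hg
    rw [Finset.mem_filter, Finset.mem_Icc]
    refine ⟨⟨Nat.mul_pos hk0 hg.1, ?_⟩, Dvd.intro _ rfl⟩
    rw [mul_comm]
    exact (Nat.le_div_iff_mul_le hk0).mp hg.2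
  · intro g hg
    rw [Finset.mem_filter] at hg
    exact Nat.mul_div_cancel' hg.2
  · intro g _
    exact Nat.mul_div_cancel_left _ hk0
  · intro g hg
    rw [Finset.mem_filter] at hg
    rw [Nat.mul_div_cancel' hg.2]

theorem ddc_dd {c : ℕ} (hc : 1 ≤ c) (x : ℝ) :
    DDc c x = ∑ k ∈ c.divisors, k * mu (c / k) * ∑ j ∈ k.divisors, mu j * tau (k / j) *
      DD (x / (k * j)) := by
  have h1 : DDc c x = ∑ g ∈ Finset.Icc 1 ⌊x⌋₊, ∑ k ∈ (Nat.gcd c g).divisors,
      (k * mu (c / k) * (tau g * th (g / x))) := by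
    unfold DDc cc
    refine Finset.sum_congr rfl fun g _ => ?_
    rw [Finset.mul_sum, Finset.sum_mul]
    refine Finset.sum_congr rfl fun k _ => ?_
    ring
  rw [h1, ddc_sw hc x (fun k g => k * mu (c / k) * (tau g * th (g / x)))]
  refine Finset.sum_congr rfl fun k hk => ?_
  have hk0 : 0 < k := Nat.pos_of_dvd_of_pos (Nat.mem_divisors.mp hk).1 hc
  rw [← Finset.mul_sum]
  congr 1
  have h2 : ∑ g ∈ Finset.Icc 1 ⌊x / k⌋₊, tau (k * g) * th (((k * g : ℕ) : ℝ) / x) =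
      ∑ g ∈ Finset.Icc 1 ⌊x / k⌋₊, ∑ j ∈ (Nat.gcd k g).divisors,
        (mu j * tau (k / j) * (tau (g / j) * th (((k * g : ℕ) : ℝ) / x))) := by
    refine Finset.sum_congr rfl fun g hg => ?_
    rw [Finset.mem_Icc] at hg
    rw [ddc_tau hk0 hg.1, Finset.sum_mul]
    refine Finset.sum_congr rfl fun j _ => ?_
    ring
  rw [h2, ddc_sw hk0 (x / k) (fun j g => mu j * tau (k / j) *
    (tau (g / j) * th (((k * g : ℕ) : ℝ) / x)))]
  refine Finset.sum_congr rfl fun j hj => ?_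
  have hj0 : 0 < j := Nat.pos_of_dvd_of_pos (Nat.mem_divisors.mp hj).1 hk0
  have hk' : (0 : ℝ) < k := by exact_mod_cast hk0
  have hj' : (0 : ℝ) < j := by exact_mod_cast hj0
  rw [← Finset.mul_sum]
  congr 1
  unfold DD
  rw [div_div]
  refine Finset.sum_congr rfl fun g _ => ?_
  rw [Nat.mul_div_cancel_left _ hj0]
  congr 2
  push_cast
  rcases eq_or_ne x 0 with hx | hx
  · rw [hx]; simp
  · field_simp

/-! ### the main term -/

/-- `μ(j)/j` -/
noncomputable def ddc_P : ArithmeticFunction ℝ :=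
  ⟨fun j => mu j / j, by simp⟩

/-- `μ(j) log j/j` -/
noncomputable def ddc_PL : ArithmeticFunction ℝ :=
  ⟨fun j => mu j / j * Real.log j, by simp⟩

/-- `τ(m) log m` -/
noncomputable def ddc_TL : ArithmeticFunction ℝ :=
  ⟨fun m => tau m * Real.log m, by simp⟩

noncomputable def ddc_L : ArithmeticFunction ℝ := ⟨fun m => Real.log m, by simp⟩

noncomputable def ddc_T : ArithmeticFunction ℝ := ⟨fun m => tau m, by simp [tau]⟩

noncomputable def ddc_Z : ArithmeticFunction ℝ := (ArithmeticFunction.zeta : ArithmeticFunction ℝ)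

noncomputable def ddc_M : ArithmeticFunction ℝ :=
  ((ArithmeticFunction.moebius : ArithmeticFunction ℤ) : ArithmeticFunction ℝ)

theorem ddc_MZ : ddc_Z * ddc_M = 1 := ArithmeticFunction.coe_zeta_mul_coe_moebius

theorem ddc_Z_one {n : ℕ} (hn : n ≠ 0) : ddc_Z n = 1 := by
  unfold ddc_Z
  rw [ArithmeticFunction.natCoe_apply, ArithmeticFunction.zeta_apply_ne hn]
  simp

theorem ddc_M_apply (n : ℕ) : ddc_M n = mu n := by
  unfold ddc_M
  rw [ArithmeticFunction.intCoe_apply]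

theorem ddc_mul (f g : ArithmeticFunction ℝ) (n : ℕ) :
    (f * g) n = ∑ d ∈ n.divisors, f d * g (n / d) := by
  rw [ArithmeticFunction.mul_apply, Nat.sum_divisorsAntidiagonal (fun a b => f a * g b)]

theorem ddc_mul' (f g : ArithmeticFunction ℝ) (n : ℕ) :
    (f * g) n = ∑ d ∈ n.divisors, f (n / d) * g d := by
  rw [mul_comm, ddc_mul]
  exact Finset.sum_congr rfl fun d _ => mul_comm _ _

theorem ddc_div_ne {n d : ℕ} (hd : d ∈ n.divisors) : n / d ≠ 0 ∧ d ≠ 0 := by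
  have h := Nat.mem_divisors.mp hd
  have hn : 0 < n := Nat.pos_of_ne_zero h.2
  have hd0 : 0 < d := Nat.pos_of_dvd_of_pos h.1 hn
  exact ⟨(Nat.div_pos (Nat.le_of_dvd hn h.1) hd0).ne', hd0.ne'⟩

theorem ddc_TZ : ddc_T = ddc_Z * ddc_Z := by
  ext n
  rw [ddc_mul]
  have h : ∀ d ∈ n.divisors, ddc_Z d * ddc_Z (n / d) = 1 := by
    intro d hd
    have := ddc_div_ne hd
    rw [ddc_Z_one this.1, ddc_Z_one this.2, one_mul]
  rw [Finset.sum_congr rfl h]
  show tau n = _
  unfold tau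
  simp

theorem ddc_TLL : ddc_TL = 2 * (ddc_L * ddc_Z) := by
  have h0 : ddc_L * ddc_Z + ddc_Z * ddc_L = ddc_TL := by
    ext n
    rw [ArithmeticFunction.add_apply, ddc_mul, ddc_mul, ← Finset.sum_add_distrib]
    have h : ∀ d ∈ n.divisors, ddc_L d * ddc_Z (n / d) + ddc_Z d * ddc_L (n / d) =
        Real.log n := by
      intro d hd
      have h1 := ddc_div_ne hd
      have h2 := (Nat.mem_divisors.mp hd).1
      rw [ddc_Z_one h1.1, ddc_Z_one h1.2, one_mul, mul_one]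
      show Real.log d + Real.log ((n / d : ℕ) : ℝ) = Real.log n
      have h3 : (n : ℝ) = (d : ℝ) * ((n / d : ℕ) : ℝ) := by
        rw [← Nat.cast_mul, Nat.mul_div_cancel' h2]
      rw [h3, Real.log_mul (by exact_mod_cast h1.2) (by exact_mod_cast h1.1)]
    rw [Finset.sum_congr rfl h, Finset.sum_const, nsmul_eq_mul]
    rfl
  rw [← h0]
  ring

theorem ddc_phi {c : ℕ} (hc : 1 ≤ c) : ∑ j ∈ c.divisors, mu j / j = phi c / c := by
  have h1 : ∀ n : ℕ, 0 < n → ∑ i ∈ n.divisors, phi i = (n : ℝ) := by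
    intro n _
    have := Nat.sum_totient n
    rw [← this]
    push_cast
    rw [this]
  have h2 := (ArithmeticFunction.sum_eq_iff_sum_mul_moebius_eq (f := fun n => phi n)
    (g := fun n : ℕ => (n : ℝ))).mp h1 c hc
  rw [Nat.sum_divisorsAntidiagonal (fun a b => ((ArithmeticFunction.moebius a : ℤ) : ℝ) *
    (b : ℝ))] at h2
  have hc' : (c : ℝ) ≠ 0 := by
    have : (0 : ℝ) < c := by exact_mod_cast hc
    exact this.ne'
  rw [eq_div_iff hc', Finset.sum_mul]
  have h3 : phi c = ∑ i ∈ c.divisors, ((ArithmeticFunction.moebius i : ℤ) : ℝ) *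
      ((c / i : ℕ) : ℝ) := h2.symm
  rw [h3]
  refine Finset.sum_congr rfl fun j hj => ?_
  have h4 := ddc_div_ne hj
  have h5 := (Nat.mem_divisors.mp hj).1
  have hj' : (j : ℝ) ≠ 0 := by exact_mod_cast h4.2
  rw [Nat.cast_div h5 hj']
  ring

theorem ddc_PZ {c : ℕ} (hc : 1 ≤ c) : (ddc_P * ddc_Z) c = phi c / c := by
  rw [ddc_mul, ← ddc_phi hc]
  refine Finset.sum_congr rfl fun d hd => ?_
  rw [ddc_Z_one (ddc_div_ne hd).1, mul_one]
  rfl

theorem ddc_s1 {c : ℕ} (hc : 1 ≤ c) :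
    ∑ k ∈ c.divisors, mu (c / k) * ∑ j ∈ k.divisors, mu j / j * tau (k / j) = phi c / c := by
  have h1 : (ddc_M * (ddc_P * ddc_T)) c = phi c / c := by
    rw [ddc_TZ, show ddc_M * (ddc_P * (ddc_Z * ddc_Z)) =
      (ddc_Z * ddc_M) * (ddc_P * ddc_Z) by ring, ddc_MZ, one_mul, ddc_PZ hc]
  rw [← h1, ddc_mul']
  refine Finset.sum_congr rfl fun k _ => ?_
  rw [ddc_M_apply, ddc_mul]
  rfl

theorem ddc_s2 {c : ℕ} (hc : 1 ≤ c) :
    ∑ k ∈ c.divisors, mu (c / k) * ∑ j ∈ k.divisors, mu j / j * tau (k / j) *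
      Real.log ((k : ℝ) * j) = 2 * (phi c / c) * Real.log c := by
  have h1 : (ddc_M * (2 * (ddc_PL * ddc_T) + ddc_P * ddc_TL)) c =
      2 * (phi c / c) * Real.log c := by
    rw [ddc_TZ, ddc_TLL, show ddc_M * (2 * (ddc_PL * (ddc_Z * ddc_Z)) +
      ddc_P * (2 * (ddc_L * ddc_Z))) =
      (ddc_Z * ddc_M) * (2 * (ddc_PL * ddc_Z + ddc_P * ddc_L)) by ring, ddc_MZ, one_mul]
    have h2 : (ddc_PL * ddc_Z + ddc_P * ddc_L) c = phi c / c * Real.log c := by
      rw [ArithmeticFunction.add_apply, ddc_mul, ddc_mul, ← Finset.sum_add_distrib, ← ddc_phi hc,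
        Finset.sum_mul]
      refine Finset.sum_congr rfl fun d hd => ?_
      have h1 := ddc_div_ne hd
      have h2 := (Nat.mem_divisors.mp hd).1
      rw [ddc_Z_one h1.1, mul_one]
      show mu d / d * Real.log d + mu d / d * Real.log ((c / d : ℕ) : ℝ) =
        mu d / d * Real.log c
      have h3 : (c : ℝ) = (d : ℝ) * ((c / d : ℕ) : ℝ) := by
        rw [← Nat.cast_mul, Nat.mul_div_cancel' h2]
      rw [h3, Real.log_mul (by exact_mod_cast h1.2) (by exact_mod_cast h1.1)]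
      ring
    have h3 : (2 * (ddc_PL * ddc_Z + ddc_P * ddc_L) : ArithmeticFunction ℝ) =
        (ddc_PL * ddc_Z + ddc_P * ddc_L) + (ddc_PL * ddc_Z + ddc_P * ddc_L) := two_mul _
    rw [h3, ArithmeticFunction.add_apply, h2]
    ring
  rw [← h1, ddc_mul']
  refine Finset.sum_congr rfl fun k hk => ?_
  rw [ddc_M_apply]
  congr 1
  have h3 : (2 * (ddc_PL * ddc_T) + ddc_P * ddc_TL : ArithmeticFunction ℝ) =
      (ddc_PL * ddc_T) + (ddc_PL * ddc_T) + ddc_P * ddc_TL := by rw [two_mul]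
  rw [h3, ArithmeticFunction.add_apply, ArithmeticFunction.add_apply, ddc_mul, ddc_mul,
    ← Finset.sum_add_distrib, ← Finset.sum_add_distrib]
  refine Finset.sum_congr rfl fun j hj => ?_
  have h1 := ddc_div_ne hj
  have h2 := (Nat.mem_divisors.mp hj).1
  show mu j / j * tau (k / j) * Real.log ((k : ℝ) * j) =
    mu j / j * Real.log j * tau (k / j) + mu j / j * Real.log j * tau (k / j) +
      mu j / j * (tau (k / j) * Real.log ((k / j : ℕ) : ℝ))
  have hj' : (j : ℝ) ≠ 0 := by exact_mod_cast h1.2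
  have hkj : (((k / j : ℕ)) : ℝ) ≠ 0 := by exact_mod_cast h1.1
  have h4 : (k : ℝ) = (j : ℝ) * ((k / j : ℕ) : ℝ) := by
    rw [← Nat.cast_mul, Nat.mul_div_cancel' h2]
  have h5 : Real.log ((k : ℝ) * j) = 2 * Real.log j + Real.log ((k / j : ℕ) : ℝ) := by
    rw [h4, Real.log_mul (mul_ne_zero hj' hkj) hj', Real.log_mul hj' hkj]
    ring
  rw [h5]
  ring

theorem ddc_eq_pr {c : ℕ} (hc : 1 ≤ c) {x : ℝ} (hx : 0 < x) :
    Rc c x = ∑ k ∈ c.divisors, k * mu (c / k) * ∑ j ∈ k.divisors, mu j * tau (k / j) *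
      R0 (x / (k * j)) := by
  have h1 : Mc c x = ∑ k ∈ c.divisors, k * mu (c / k) * ∑ j ∈ k.divisors, mu j * tau (k / j) *
      (x / (k * j) * (I1 * (Real.log (x / (k * j)) + 2 * ga) + I2)) := by
    have h2 : ∀ k ∈ c.divisors, k * mu (c / k) * ∑ j ∈ k.divisors, mu j * tau (k / j) *
        (x / (k * j) * (I1 * (Real.log (x / (k * j)) + 2 * ga) + I2)) =
        x * (I1 * (Real.log x + 2 * ga) + I2) *
          (mu (c / k) * ∑ j ∈ k.divisors, mu j / j * tau (k / j)) -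
        x * I1 * (mu (c / k) * ∑ j ∈ k.divisors, mu j / j * tau (k / j) *
          Real.log ((k : ℝ) * j)) := by
      intro k hk
      have hk0 : (k : ℝ) ≠ 0 := by exact_mod_cast (ddc_div_ne hk).2
      rw [Finset.mul_sum, Finset.mul_sum, Finset.mul_sum, Finset.mul_sum, Finset.mul_sum,
        ← Finset.sum_sub_distrib]
      refine Finset.sum_congr rfl fun j hj => ?_
      have hj0 : (j : ℝ) ≠ 0 := by exact_mod_cast (ddc_div_ne hj).2
      rw [Real.log_div hx.ne' (mul_ne_zero hk0 hj0)]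
      field_simp
      ring
    rw [Finset.sum_congr rfl h2, Finset.sum_sub_distrib, ← Finset.mul_sum, ← Finset.mul_sum,
      ddc_s1 hc, ddc_s2 hc]
    unfold Mc
    ring
  unfold Rc
  rw [ddc_dd hc, h1, ← Finset.sum_sub_distrib]
  refine Finset.sum_congr rfl fun k _ => ?_
  rw [← mul_sub, ← Finset.sum_sub_distrib]
  congr 1
  refine Finset.sum_congr rfl fun j _ => ?_
  unfold R0
  ring

/-! ### bounds -/

theorem ddc_mu_le (n : ℕ) : |mu n| ≤ 1 := by
  have h := ArithmeticFunction.abs_moebius_le_one (n := n)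
  exact_mod_cast h

theorem ddc_tau_nonneg (n : ℕ) : 0 ≤ tau n := by
  unfold tau
  positivity

theorem ddc_tau_mono {a b : ℕ} (hb : b ≠ 0) (h : a ∣ b) : tau a ≤ tau b := by
  unfold tau
  exact_mod_cast Finset.card_le_card (Nat.divisors_subset_of_dvd hb h)

/-- the sum of the coefficients -/
theorem ddc_coef {c : ℕ} (hc : 1 ≤ c) (f : ℕ → ℕ → ℝ) {A : ℝ} (hA : 0 ≤ A)
    (hf : ∀ k ∈ c.divisors, ∀ j ∈ k.divisors, |f k j| ≤ A) :
    |∑ k ∈ c.divisors, k * mu (c / k) * ∑ j ∈ k.divisors, mu j * tau (k / j) * f k j| ≤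
      c * tau c ^ 3 * A := by
  have h1 : ∀ k ∈ c.divisors, |(k : ℝ) * mu (c / k) * ∑ j ∈ k.divisors,
      mu j * tau (k / j) * f k j| ≤ c * (tau c ^ 2 * A) := by
    intro k hk
    have hk' := (Nat.mem_divisors.mp hk).1
    have hkc : (k : ℝ) ≤ c := by exact_mod_cast Nat.le_of_dvd hc hk'
    have h2 : |∑ j ∈ k.divisors, mu j * tau (k / j) * f k j| ≤ tau c ^ 2 * A := by
      have h3 : ∀ j ∈ k.divisors, |mu j * tau (k / j) * f k j| ≤ tau c * A := by
        intro j hj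
        have hj' := (Nat.mem_divisors.mp hj).1
        rw [abs_mul, abs_mul, abs_of_nonneg (ddc_tau_nonneg _)]
        have h4 : tau (k / j) ≤ tau c := ddc_tau_mono (by omega)
          ((Nat.div_dvd_of_dvd hj').trans hk')
        calc |mu j| * tau (k / j) * |f k j| ≤ 1 * tau c * A := by
              refine mul_le_mul (mul_le_mul (ddc_mu_le j) h4 (ddc_tau_nonneg _) zero_le_one)
                (hf k hk j hj) (abs_nonneg _) ?_
              have := ddc_tau_nonneg c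
              linarith
          _ = tau c * A := by ring
      refine (Finset.abs_sum_le_sum_abs _ _).trans ((Finset.sum_le_sum h3).trans ?_)
      rw [Finset.sum_const, nsmul_eq_mul]
      have h5 : (k.divisors.card : ℝ) ≤ tau c := ddc_tau_mono (by omega) hk'
      have h6 : 0 ≤ tau c * A := mul_nonneg (ddc_tau_nonneg c) hA
      calc (k.divisors.card : ℝ) * (tau c * A) ≤ tau c * (tau c * A) :=
            mul_le_mul_of_nonneg_right h5 h6
        _ = tau c ^ 2 * A := by ring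
    rw [abs_mul, abs_mul, abs_of_nonneg (Nat.cast_nonneg k)]
    have h7 : (k : ℝ) * |mu (c / k)| ≤ c * 1 :=
      mul_le_mul hkc (ddc_mu_le _) (abs_nonneg _) (Nat.cast_nonneg c)
    calc (k : ℝ) * |mu (c / k)| * |∑ j ∈ k.divisors, mu j * tau (k / j) * f k j|
        ≤ (c * 1) * (tau c ^ 2 * A) := mul_le_mul h7 h2 (abs_nonneg _) (by positivity)
      _ = c * (tau c ^ 2 * A) := by ring
  refine (Finset.abs_sum_le_sum_abs _ _).trans ((Finset.sum_le_sum h1).trans (le_of_eq ?_))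
  rw [Finset.sum_const, nsmul_eq_mul]
  show tau c * (c * (tau c ^ 2 * A)) = _
  ring

theorem ddc_min {x t : ℝ} (hx : 0 < x) (ht : 1 ≤ t) :
    min 1 (Real.sqrt (x / t)) ≤ min 1 (Real.sqrt x) :=
  min_le_min le_rfl (Real.sqrt_le_sqrt (div_le_self hx.le ht))

theorem rc_bd_pr : ∃ K : ℝ, 1 ≤ K ∧ ∀ c : ℕ, 1 ≤ c →
    (∀ x : ℝ, 0 < x → |Rc c x| ≤ K * c * tau c ^ 3 * min 1 (Real.sqrt x)) ∧
    ∀ x₁ x₂ : ℝ, 0 < x₁ → x₁ ≤ x₂ → x₂ ≤ 2 * x₁ →
      |Rc c x₂ - Rc c x₁| ≤ K * c * tau c ^ 3 * min 1 (Real.sqrt x₁) * ((x₂ - x₁) / x₁) := by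
  obtain ⟨K, hK1, hK2, hK3⟩ := r0_bd
  refine ⟨K, hK1, fun c hc => ⟨fun x hx => ?_, fun x₁ x₂ h1 h2 h3 => ?_⟩⟩
  · rw [ddc_eq_pr hc hx]
    have h := ddc_coef hc (fun k j => R0 (x / ((k : ℝ) * j)))
      (A := K * min 1 (Real.sqrt x)) (by positivity) (fun k hk j hj => ?_)
    · refine h.trans (le_of_eq ?_)
      ring
    · have a1 : (1 : ℝ) ≤ k := by exact_mod_cast Nat.pos_of_ne_zero (ddc_div_ne hk).2
      have a2 : (1 : ℝ) ≤ j := by exact_mod_cast Nat.pos_of_ne_zero (ddc_div_ne hj).2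
      have a3 : (1 : ℝ) ≤ (k : ℝ) * j := by nlinarith
      refine (hK2 _ (by positivity)).trans ?_
      exact mul_le_mul_of_nonneg_left (ddc_min hx a3) (by linarith)
  · have hx2 : 0 < x₂ := lt_of_lt_of_le h1 h2
    rw [ddc_eq_pr hc h1, ddc_eq_pr hc hx2, ← Finset.sum_sub_distrib]
    have e : ∀ k ∈ c.divisors, ((k : ℝ) * mu (c / k) * ∑ j ∈ k.divisors, mu j * tau (k / j) *
        R0 (x₂ / (k * j)) - (k : ℝ) * mu (c / k) * ∑ j ∈ k.divisors, mu j * tau (k / j) *
        R0 (x₁ / (k * j))) = (k : ℝ) * mu (c / k) * ∑ j ∈ k.divisors, mu j * tau (k / j) *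
        (R0 (x₂ / (k * j)) - R0 (x₁ / (k * j))) := by
      intro k _
      rw [← mul_sub, ← Finset.sum_sub_distrib]
      congr 1
      exact Finset.sum_congr rfl fun j _ => by ring
    rw [Finset.sum_congr rfl e]
    have hd : 0 ≤ (x₂ - x₁) / x₁ := div_nonneg (by linarith) h1.le
    have h := ddc_coef hc (fun k j => R0 (x₂ / ((k : ℝ) * j)) - R0 (x₁ / ((k : ℝ) * j)))
      (A := K * min 1 (Real.sqrt x₁) * ((x₂ - x₁) / x₁)) (by positivity) (fun k hk j hj => ?_)
    · refine h.trans (le_of_eq ?_)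
      ring
    · have a1 : (1 : ℝ) ≤ k := by exact_mod_cast Nat.pos_of_ne_zero (ddc_div_ne hk).2
      have a2 : (1 : ℝ) ≤ j := by exact_mod_cast Nat.pos_of_ne_zero (ddc_div_ne hj).2
      have a3 : (1 : ℝ) ≤ (k : ℝ) * j := by nlinarith
      have a4 : (0 : ℝ) < (k : ℝ) * j := by linarith
      refine (hK3 _ _ (by positivity) (div_le_div_of_nonneg_right h2 a4.le) ?_).trans ?_
      · rw [← mul_div_assoc]
        exact div_le_div_of_nonneg_right h3 a4.le
      · have e2 : (x₂ / ((k : ℝ) * j) - x₁ / ((k : ℝ) * j)) / (x₁ / ((k : ℝ) * j)) =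
            (x₂ - x₁) / x₁ := by
          field_simp
        rw [e2]
        refine mul_le_mul_of_nonneg_right ?_ hd
        exact mul_le_mul_of_nonneg_left (ddc_min h1 a3) (by linarith)

/-! ### measurability -/

theorem ddc_th_meas : Measurable th := by
  have h : th = fun s : ℝ => if (1 / 2 ≤ s ∧ s ≤ 1) then (1 - s) ^ 3 * (2 * s - 1) ^ 3 else 0 := by
    funext s
    unfold th
    rfl
  rw [h]
  refine Measurable.ite ?_ (by fun_prop) measurable_const
  exact (measurableSet_le measurable_const measurable_id).inter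
    (measurableSet_le measurable_id measurable_const)

theorem rc_meas_pr (c : ℕ) : Measurable (Rc c) := by
  have h1 : Measurable (DDc c) := by
    have h2 : Measurable (fun p : ℕ × ℝ => ∑ g ∈ Finset.Icc 1 p.1,
        tau g * cc c g * th (g / p.2)) := by
      refine measurable_from_prod_countable_right fun n => ?_
      have h3 : ∀ g : ℕ, Measurable (fun x : ℝ => tau g * cc c g * th (g / x)) := fun g =>
        measurable_const.mul (ddc_th_meas.comp (measurable_const.div measurable_id))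
      exact Finset.measurable_fun_sum (Finset.Icc 1 n) fun g _ => h3 g
    exact h2.comp (Nat.measurable_floor.prodMk measurable_id)
  have h2 : Measurable (Mc c) := by
    unfold Mc
    fun_prop
  exact h1.sub h2

alias ddc_eq := ddc_eq_pr
alias rc_bd := rc_bd_pr
alias rc_meas := rc_meas_pr

end Pool.Agent.LSPP
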