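import Pool.Agent.Lib_helper15.LSP.DefsP

set_option autoImplicit false

namespace Pool.Agent.LSPP

open Pool.Agent.LSP (tau sg1 CC Gs Adm)
open Pool.Agent.LSPO (hyp cl KK rho b1 GOK)
open Pool.Agent.FG61 (mu phi cc)
open MeasureTheory Filter Topology

/-- `d` if `d ∣ n`, and `0` otherwise -/
noncomputable def ram_F (n : ℕ) (hn : 1 ≤ n) : ArithmeticFunction ℝ :=
  ⟨fun d => if d ∣ n then (d : ℝ) else 0, by
    rw [if_neg]
    intro h
    have := Nat.eq_zero_of_zero_dvd h
    omega⟩

theorem ram_F_apply (n : ℕ) (hn : 1 ≤ n) (d : ℕ) :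
    ram_F n hn d = if d ∣ n then (d : ℝ) else 0 := rfl

theorem ram_F_mult (n : ℕ) (hn : 1 ≤ n) : (ram_F n hn).IsMultiplicative := by
  rw [ArithmeticFunction.IsMultiplicative.iff_ne_zero]
  refine ⟨by rw [ram_F_apply]; simp, ?_⟩
  intro a b _ _ hab
  simp only [ram_F_apply]
  by_cases ha : a ∣ n
  · by_cases hb : b ∣ n
    · rw [if_pos ha, if_pos hb, if_pos (hab.mul_dvd_of_dvd_of_dvd ha hb)]
      push_cast
      ring
    · rw [if_neg hb, mul_zero, if_neg]
      intro h
      exact hb ((dvd_mul_left b a).trans h)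
  · rw [if_neg ha, zero_mul, if_neg]
    intro h
    exact ha ((dvd_mul_right a b).trans h)

/-- the Ramanujan sum as an arithmetic function -/
noncomputable def ram_C (n : ℕ) (hn : 1 ≤ n) : ArithmeticFunction ℝ :=
  ram_F n hn * ((ArithmeticFunction.moebius : ArithmeticFunction ℤ) : ArithmeticFunction ℝ)

theorem ram_C_mult (n : ℕ) (hn : 1 ≤ n) : (ram_C n hn).IsMultiplicative :=
  (ram_F_mult n hn).mul ArithmeticFunction.isMultiplicative_moebius.intCast

theorem ram_C_apply (n : ℕ) (hn : 1 ≤ n) {c : ℕ} (hc : 1 ≤ c) : ram_C n hn c = cc c n := by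
  unfold ram_C
  rw [ArithmeticFunction.mul_apply,
    Nat.sum_divisorsAntidiagonal (fun a b => ram_F n hn a *
      ((ArithmeticFunction.moebius : ArithmeticFunction ℤ) : ArithmeticFunction ℝ) b)]
  unfold cc
  have h1 : (Nat.gcd c n).divisors = c.divisors.filter (fun d => d ∣ n) := by
    ext d
    simp only [Nat.mem_divisors, Finset.mem_filter, Nat.dvd_gcd_iff]
    constructor
    · rintro ⟨⟨h1, h2⟩, _⟩
      exact ⟨⟨h1, by omega⟩, h2⟩
    · rintro ⟨⟨h1, _⟩, h2⟩
      refine ⟨⟨h1, h2⟩, ?_⟩
      have := Nat.gcd_pos_of_pos_left n hc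
      omega
  rw [h1, Finset.sum_filter]
  refine Finset.sum_congr rfl ?_
  intro d _
  rw [ram_F_apply]
  by_cases hd : d ∣ n
  · rw [if_pos hd, if_pos hd]
    rfl
  · rw [if_neg hd, if_neg hd, zero_mul]

/-- values at prime powers -/
theorem ram_C_pp (n : ℕ) (hn : 1 ≤ n) {p : ℕ} (hp : p.Prime) (l : ℕ) :
    ram_C n hn (p ^ (l + 1)) = ram_F n hn (p ^ (l + 1)) - ram_F n hn (p ^ l) := by
  unfold ram_C
  rw [ArithmeticFunction.mul_apply, Nat.sum_divisorsAntidiagonal' (fun a b => ram_F n hn a *
      ((ArithmeticFunction.moebius : ArithmeticFunction ℤ) : ArithmeticFunction ℝ) b),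
    Nat.divisors_prime_pow hp, Finset.sum_map]
  rw [Finset.sum_range_succ', Finset.sum_range_succ', Finset.sum_eq_zero]
  · simp only [Function.Embedding.coeFn_mk, pow_zero, pow_one, Nat.div_one, zero_add,
      ArithmeticFunction.intCoe_apply, ArithmeticFunction.moebius_apply_one,
      ArithmeticFunction.moebius_apply_prime hp]
    rw [pow_succ, Nat.mul_div_cancel _ hp.pos]
    push_cast
    ring
  · intro b _
    simp only [Function.Embedding.coeFn_mk, ArithmeticFunction.intCoe_apply]
    rw [ArithmeticFunction.moebius_apply_prime_pow hp (by omega), if_neg (by omega)]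
    simp

/-- Euler's function -/
noncomputable def ram_phi : ArithmeticFunction ℝ := ⟨fun n => phi n, by simp [phi]⟩

theorem ram_phi_apply (n : ℕ) : ram_phi n = phi n := rfl

theorem ram_phi_mult : ram_phi.IsMultiplicative := by
  rw [ArithmeticFunction.IsMultiplicative.iff_ne_zero]
  refine ⟨by rw [ram_phi_apply]; simp [phi], ?_⟩
  intro a b _ _ hab
  simp only [ram_phi_apply, phi]
  rw [Nat.totient_mul hab]
  push_cast
  ring

/-- the left side times `d` -/
noncomputable def ram_L (n : ℕ) (g : ℤ) : ArithmeticFunction ℝ := ⟨fun d => d * rho d n g, by simp⟩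

theorem ram_L_apply (n : ℕ) (g : ℤ) (d : ℕ) : ram_L n g d = d * rho d n g := rfl

theorem ram_L_mult (n : ℕ) (g : ℤ) : (ram_L n g).IsMultiplicative := by
  rw [ArithmeticFunction.IsMultiplicative.iff_ne_zero]
  refine ⟨by rw [ram_L_apply]; simp [rho], ?_⟩
  intro a b ha hb hab
  simp only [ram_L_apply]
  have e1 : ∀ m : ℕ, Nat.gcd (a * b) m = Nat.gcd a m * Nat.gcd b m := by
    intro m
    rw [Nat.gcd_comm, Nat.Coprime.gcd_mul m hab, Nat.gcd_comm m a, Nat.gcd_comm m b]
  unfold rho
  by_cases h1 : Nat.gcd a n = Nat.gcd a g.natAbs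
  · by_cases h2 : Nat.gcd b n = Nat.gcd b g.natAbs
    · rw [if_pos h1, if_pos h2, if_pos (by rw [e1, e1, h1, h2]), e1,
        ← Nat.div_mul_div_comm (Nat.gcd_dvd_left _ _) (Nat.gcd_dvd_left _ _), Nat.totient_mul]
      · push_cast
        ring
      · exact Nat.Coprime.coprime_dvd_left (Nat.div_dvd_of_dvd (Nat.gcd_dvd_left _ _))
          (Nat.Coprime.coprime_dvd_right (Nat.div_dvd_of_dvd (Nat.gcd_dvd_left _ _)) hab)
    · rw [if_neg h2, mul_zero, mul_zero, if_neg, mul_zero]
      intro h
      apply h2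
      have k : ∀ m : ℕ, Nat.gcd b (Nat.gcd (a * b) m) = Nat.gcd b m := by
        intro m
        rw [← Nat.gcd_assoc, Nat.gcd_eq_left (dvd_mul_left b a)]
      rw [← k n, h, k]
  · rw [if_neg h1, mul_zero, zero_mul, if_neg, mul_zero]
    intro h
    apply h1
    have k : ∀ m : ℕ, Nat.gcd a (Nat.gcd (a * b) m) = Nat.gcd a m := by
      intro m
      rw [← Nat.gcd_assoc, Nat.gcd_eq_left (dvd_mul_right a b)]
    rw [← k n, h, k]

/-- the right side times `d` -/
noncomputable def ram_R (n m : ℕ) (hn : 1 ≤ n) (hm : 1 ≤ m) : ArithmeticFunction ℝ :=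
  (((ram_C n hn).pmul (ram_C m hm)).pdiv ram_phi) *
    ((ArithmeticFunction.zeta : ArithmeticFunction ℕ) : ArithmeticFunction ℝ)

theorem ram_R_mult (n m : ℕ) (hn : 1 ≤ n) (hm : 1 ≤ m) : (ram_R n m hn hm).IsMultiplicative :=
  (((ram_C_mult n hn).pmul (ram_C_mult m hm)).pdiv ram_phi_mult).mul
    ArithmeticFunction.isMultiplicative_zeta.natCast

theorem ram_R_apply (n m : ℕ) (hn : 1 ≤ n) (hm : 1 ≤ m) (d : ℕ) :
    ram_R n m hn hm d = ∑ c ∈ d.divisors, cc c n * cc c m / phi c := by
  unfold ram_R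
  rw [ArithmeticFunction.coe_mul_zeta_apply]
  refine Finset.sum_congr rfl ?_
  intro c hc
  have hc1 : 1 ≤ c := Nat.pos_of_mem_divisors hc
  rw [ArithmeticFunction.pdiv_apply, ArithmeticFunction.pmul_apply, ram_C_apply n hn hc1,
    ram_C_apply m hm hc1, ram_phi_apply]

theorem ram_gcd_pp {p : ℕ} (hp : p.Prime) (k : ℕ) {n : ℕ} (hn : n ≠ 0) :
    Nat.gcd (p ^ k) n = p ^ min k (n.factorization p) := by
  obtain ⟨m, hm, he⟩ := (Nat.dvd_prime_pow hp).1 (Nat.gcd_dvd_left (p ^ k) n)
  rw [he]
  congr 1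
  apply le_antisymm
  · refine le_min hm ?_
    rw [← hp.pow_dvd_iff_le_factorization hn, ← he]
    exact Nat.gcd_dvd_right _ _
  · have h1 : p ^ min k (n.factorization p) ∣ Nat.gcd (p ^ k) n := by
      refine Nat.dvd_gcd (pow_dvd_pow p (min_le_left _ _)) ?_
      rw [hp.pow_dvd_iff_le_factorization hn]
      exact min_le_right _ _
    rw [he] at h1
    exact (Nat.pow_dvd_pow_iff_le_right hp.one_lt).1 h1

theorem ram_R_pp (n m : ℕ) (hn : 1 ≤ n) (hm : 1 ≤ m) {p : ℕ} (hp : p.Prime) (k : ℕ) :
    ram_R n m hn hm (p ^ k) =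
      if k ≤ min (n.factorization p) (m.factorization p) then (p : ℝ) ^ k else
        if n.factorization p = m.factorization p then
          (p : ℝ) ^ (n.factorization p + 1) / (p - 1) else 0 := by
  set i := n.factorization p with hi
  set j := m.factorization p with hj
  have hp1 : (1 : ℝ) < p := by exact_mod_cast hp.one_lt
  have hp0 : (0 : ℝ) < p := by linarith
  have hpm : (p : ℝ) - 1 ≠ 0 := by linarith
  have hFn : ∀ l, ram_F n hn (p ^ l) = if l ≤ i then (p : ℝ) ^ l else 0 := by
    intro l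
    rw [ram_F_apply]
    simp only [hp.pow_dvd_iff_le_factorization (show n ≠ 0 by omega), ← hi]
    push_cast
    rfl
  have hFm : ∀ l, ram_F m hm (p ^ l) = if l ≤ j then (p : ℝ) ^ l else 0 := by
    intro l
    rw [ram_F_apply]
    simp only [hp.pow_dvd_iff_le_factorization (show m ≠ 0 by omega), ← hj]
    push_cast
    rfl
  have hphi : ∀ l, ram_phi (p ^ (l + 1)) = (p : ℝ) ^ l * (p - 1) := by
    intro l
    rw [ram_phi_apply, phi, Nat.totient_prime_pow_succ hp]
    push_cast [Nat.cast_sub hp.one_lt.le]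
    ring
  have hstep : ∀ l, ram_R n m hn hm (p ^ (l + 1)) = ram_R n m hn hm (p ^ l) +
      (ram_F n hn (p ^ (l + 1)) - ram_F n hn (p ^ l)) *
        (ram_F m hm (p ^ (l + 1)) - ram_F m hm (p ^ l)) / ((p : ℝ) ^ l * (p - 1)) := by
    intro l
    unfold ram_R
    rw [ArithmeticFunction.coe_mul_zeta_apply, ArithmeticFunction.coe_mul_zeta_apply,
      Nat.divisors_prime_pow hp, Nat.divisors_prime_pow hp, Finset.sum_map, Finset.sum_map,
      Finset.sum_range_succ]
    congr 1
    simp only [Function.Embedding.coeFn_mk]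
    rw [ArithmeticFunction.pdiv_apply, ArithmeticFunction.pmul_apply, ram_C_pp n hn hp,
      ram_C_pp m hm hp, hphi]
  induction k with
  | zero =>
    rw [if_pos (Nat.zero_le _), pow_zero, pow_zero]
    exact (ram_R_mult n m hn hm).map_one
  | succ k ih =>
    rw [hstep, ih, hFn, hFn, hFm, hFm]
    have hpk : (p : ℝ) ^ k ≠ 0 := pow_ne_zero _ hp0.ne'
    by_cases h1 : k + 1 ≤ min i j
    · have h2 := le_min_iff.1 h1
      rw [if_pos h1, if_pos (by omega), if_pos h2.1, if_pos h2.2, if_pos (by omega),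
        if_pos (by omega)]
      field_simp
      ring
    · rw [if_neg h1]
      by_cases h3 : k ≤ min i j
      · have h4 : k = min i j := by omega
        rw [if_pos h3]
        by_cases h5 : i = j
        · have h6 : k = i := by rw [h4, ← h5, min_self]
          rw [if_pos h5, if_neg (by omega), if_pos (by omega), if_neg (by omega),
            if_pos (by omega), h6]
          have hpi : (p : ℝ) ^ i ≠ 0 := pow_ne_zero _ hp0.ne'
          field_simp
          ring
        · rw [if_neg h5]
          rcases lt_or_gt_of_ne h5 with h6 | h6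
          · have h7 : k = i := by rw [h4, min_eq_left h6.le]
            rw [if_neg (by omega), if_pos (by omega), if_pos (by omega), if_pos (by omega), h7]
            have hpi : (p : ℝ) ^ i ≠ 0 := pow_ne_zero _ hp0.ne'
            field_simp
            ring
          · have h7 : k = j := by rw [h4, min_eq_right h6.le]
            rw [if_pos (by omega), if_pos (by omega), if_neg (by omega), if_pos (by omega), h7]
            have hpj : (p : ℝ) ^ j ≠ 0 := pow_ne_zero _ hp0.ne'
            field_simp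
            ring
      · rw [if_neg h3]
        have h4 : i < k ∨ j < k := by
          by_contra h
          push Not at h
          exact h3 (le_min h.1 h.2)
        rcases h4 with h4 | h4
        · rw [if_neg (show ¬ (k + 1 ≤ i) by omega), if_neg (show ¬ (k ≤ i) by omega)]
          simp
        · rw [if_neg (show ¬ (k + 1 ≤ j) by omega), if_neg (show ¬ (k ≤ j) by omega)]
          simp

theorem ram_id_pr {d n : ℕ} {g : ℤ} (hd : 1 ≤ d) (hn : 1 ≤ n) (hg : g ≠ 0) :
    rho d n g = (∑ c ∈ d.divisors, cc c n * cc c g.natAbs / phi c) / d := by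
  have hg1 : 1 ≤ g.natAbs := Nat.one_le_iff_ne_zero.2 (Int.natAbs_ne_zero.2 hg)
  have key : ram_L n g = ram_R n g.natAbs hn hg1 := by
    rw [ArithmeticFunction.IsMultiplicative.eq_iff_eq_on_prime_powers _ (ram_L_mult n g) _
      (ram_R_mult n g.natAbs hn hg1)]
    intro p k hp
    rw [ram_R_pp n g.natAbs hn hg1 hp, ram_L_apply]
    unfold rho
    rw [ram_gcd_pp hp k (show n ≠ 0 by omega), ram_gcd_pp hp k (show g.natAbs ≠ 0 by omega)]
    set i := n.factorization p with hi
    set j := g.natAbs.factorization p with hj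
    have hp1 : (1 : ℝ) < p := by exact_mod_cast hp.one_lt
    have hp0 : (0 : ℝ) < p := by linarith
    have hpm : (p : ℝ) - 1 ≠ 0 := by linarith
    have hinj : ∀ a b : ℕ, p ^ a = p ^ b → a = b := fun a b h => Nat.pow_right_injective hp.two_le h
    by_cases h1 : k ≤ min i j
    · have h2 := le_min_iff.1 h1
      rw [if_pos h1, min_eq_left h2.1, min_eq_left h2.2, if_pos rfl,
        Nat.div_self (pow_pos hp.pos _)]
      simp
    · rw [if_neg h1]
      by_cases h3 : i = j
      · have h4 : i < k := by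
          rw [← h3, min_self] at h1
          omega
        rw [if_pos h3, ← h3, min_eq_right h4.le, if_pos rfl, Nat.pow_div h4.le hp.pos]
        obtain ⟨r, hr⟩ : ∃ r, k = i + (r + 1) := ⟨k - i - 1, by omega⟩
        rw [hr, Nat.add_sub_cancel_left, Nat.totient_prime_pow_succ hp]
        push_cast [Nat.cast_sub hp.one_lt.le]
        have hpr : (p : ℝ) ^ r ≠ 0 := pow_ne_zero _ hp0.ne'
        field_simp
        ring
      · rw [if_neg h3, if_neg, mul_zero]
        intro h
        have := hinj _ _ h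
        omega
  have h1 : ram_L n g d = ram_R n g.natAbs hn hg1 d := by rw [key]
  rw [ram_L_apply, ram_R_apply] at h1
  have hd0 : (d : ℝ) ≠ 0 := by positivity
  rw [← h1]
  field_simp

alias ram_id := ram_id_pr

end Pool.Agent.LSPP
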