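import Pool.Agent.Lib_helper15.LSP.DefsP
import Pool.Agent.Lib_helper15.LSPF.RAM

set_option autoImplicit false

namespace Pool.Agent.LSPP

open Pool.Agent.LSP (tau sg1 CC Gs Adm)
open Pool.Agent.LSPO (hyp cl KK rho b1 GOK)
open Pool.Agent.FG61 (mu phi cc)
open MeasureTheory Filter Topology

theorem dse_hyp {y : ℝ} (hy : 1 / 2 ≤ y) : hyp y = 0 := by
  unfold hyp
  apply max_eq_left
  refine (min_le_right _ _).trans ?_
  linarith

theorem dse_hyp0 {D : ℝ} (hD : 0 < D) {d : ℕ} (hd : 2 * Real.sqrt D < d) :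
    hyp (Real.log d - Real.log D / 2) = 0 := by
  apply dse_hyp
  have hs : 0 < Real.sqrt D := Real.sqrt_pos.mpr hD
  have h1 : Real.log (2 * Real.sqrt D) ≤ Real.log d := Real.log_le_log (by positivity) hd.le
  rw [Real.log_mul (by norm_num) hs.ne', Real.log_sqrt hD.le] at h1
  have h2 := Real.log_two_gt_d9
  linarith

theorem dse_swap (T : ℕ) (f : ℕ → ℕ → ℝ) :
    ∑ c ∈ Finset.Icc 1 T, ∑ l ∈ Finset.Icc 1 (T / c), f c l =
      ∑ d ∈ Finset.Icc 1 T, ∑ c ∈ d.divisors, f c (d / c) := by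
  rw [Finset.sum_sigma', Finset.sum_sigma']
  refine Finset.sum_bij' (fun p _ => ⟨p.1 * p.2, p.1⟩) (fun p _ => ⟨p.2, p.1 / p.2⟩) ?_ ?_ ?_ ?_ ?_
  · rintro ⟨c, l⟩ h
    simp only [Finset.mem_sigma, Finset.mem_Icc, Nat.mem_divisors] at h ⊢
    obtain ⟨⟨h1, h2⟩, h3, h4⟩ := h
    have h5 : c * l ≤ T := by
      have := (Nat.le_div_iff_mul_le (by omega)).mp h4
      rw [mul_comm]; exact this
    have h6 : 1 ≤ c * l := Nat.mul_pos h1 h3
    exact ⟨⟨h6, h5⟩, dvd_mul_right _ _, by omega⟩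
  · rintro ⟨d, c⟩ h
    simp only [Finset.mem_sigma, Finset.mem_Icc, Nat.mem_divisors] at h ⊢
    obtain ⟨⟨h1, h2⟩, h3, h4⟩ := h
    have hc : 1 ≤ c := Nat.pos_of_dvd_of_pos h3 h1
    have hcd : c ≤ d := Nat.le_of_dvd h1 h3
    refine ⟨⟨hc, by omega⟩, (Nat.one_le_div_iff hc).mpr hcd, Nat.div_le_div_right h2⟩
  · rintro ⟨c, l⟩ h
    simp only [Finset.mem_sigma, Finset.mem_Icc] at h
    obtain ⟨⟨h1, h2⟩, h3, h4⟩ := h
    simp only [Sigma.mk.injEq, heq_eq_eq, true_and]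
    exact Nat.mul_div_cancel_left _ h1
  · rintro ⟨d, c⟩ h
    simp only [Finset.mem_sigma, Finset.mem_Icc, Nat.mem_divisors] at h
    obtain ⟨⟨h1, h2⟩, h3, h4⟩ := h
    simp only [Sigma.mk.injEq, heq_eq_eq, and_true]
    exact Nat.mul_div_cancel' h3
  · rintro ⟨c, l⟩ h
    simp only [Finset.mem_sigma, Finset.mem_Icc] at h
    obtain ⟨⟨h1, h2⟩, h3, h4⟩ := h
    simp only
    rw [Nat.mul_div_cancel_left _ h1]

theorem dse_hf {D : ℝ} (hD : 0 < D) {c : ℕ} (hc : 1 ≤ c) :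
    Hf (Real.sqrt D / c) = ∑ l ∈ Finset.Icc 1 (⌊2 * Real.sqrt D⌋₊ / c),
      1 / (l : ℝ) * hyp (Real.log ((c * l : ℕ) : ℝ) - Real.log D / 2) := by
  have hs : 0 < Real.sqrt D := Real.sqrt_pos.mpr hD
  have hc0 : (0 : ℝ) < c := by exact_mod_cast hc
  unfold Hf
  have h1 : ⌊2 * (Real.sqrt D / c)⌋₊ = ⌊2 * Real.sqrt D⌋₊ / c := by
    rw [← Nat.floor_div_natCast]
    congr 1
    ring
  rw [h1]
  apply Finset.sum_congr rfl
  intro l hl
  have hl1 : 1 ≤ l := (Finset.mem_Icc.mp hl).1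
  have hl0 : (0 : ℝ) < l := by exact_mod_cast hl1
  have h2 : Real.log l - Real.log (Real.sqrt D / c) =
      Real.log ((c * l : ℕ) : ℝ) - Real.log D / 2 := by
    rw [Real.log_div hs.ne' hc0.ne', Real.log_sqrt hD.le]
    push_cast
    rw [Real.log_mul hc0.ne' hl0.ne']
    ring
  rw [h2]

theorem dsum_eq_pr {D : ℝ} {n Dl m : ℕ} {g : ℤ} (hn : 1 ≤ n) (hg : g ≠ 0) (hD : 0 < D)
    (hl : 2 * Real.sqrt D ≤ Dl) (hm : 2 * Real.sqrt D ≤ m) :
    ∑ d ∈ Finset.Icc 1 Dl, rho d n g * hyp (Real.log d - Real.log D / 2) =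
      ∑ c ∈ Finset.Icc 1 m, cc c n * cc c g.natAbs / (c * phi c) * Hf (Real.sqrt D / c) := by
  have hs : 0 < Real.sqrt D := Real.sqrt_pos.mpr hD
  set T : ℕ := ⌊2 * Real.sqrt D⌋₊ with hT
  have hTl : T ≤ Dl := Nat.floor_le_of_le hl
  have hTm : T ≤ m := Nat.floor_le_of_le hm
  have e1 : ∑ d ∈ Finset.Icc 1 Dl, rho d n g * hyp (Real.log d - Real.log D / 2) =
      ∑ d ∈ Finset.Icc 1 T, rho d n g * hyp (Real.log d - Real.log D / 2) := by
    symm
    apply Finset.sum_subset (Finset.Icc_subset_Icc_right hTl)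
    intro d hd hd'
    rw [Finset.mem_Icc] at hd hd'
    have h3 : T < d := by omega
    have h4 : 2 * Real.sqrt D < d := Nat.lt_of_floor_lt h3
    rw [dse_hyp0 hD h4, mul_zero]
  have e2 : ∑ c ∈ Finset.Icc 1 m, cc c n * cc c g.natAbs / (c * phi c) * Hf (Real.sqrt D / c) =
      ∑ c ∈ Finset.Icc 1 T, cc c n * cc c g.natAbs / (c * phi c) * Hf (Real.sqrt D / c) := by
    symm
    apply Finset.sum_subset (Finset.Icc_subset_Icc_right hTm)
    intro c hc hc'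
    rw [Finset.mem_Icc] at hc hc'
    have h3 : T < c := by omega
    have h5 : T / c = 0 := Nat.div_eq_of_lt h3
    rw [dse_hf hD hc.1, ← hT, h5]
    simp
  have e3 : ∑ c ∈ Finset.Icc 1 T, cc c n * cc c g.natAbs / (c * phi c) * Hf (Real.sqrt D / c) =
      ∑ c ∈ Finset.Icc 1 T, ∑ l ∈ Finset.Icc 1 (T / c),
        cc c n * cc c g.natAbs / (c * phi c) *
          (1 / (l : ℝ) * hyp (Real.log ((c * l : ℕ) : ℝ) - Real.log D / 2)) := by
    apply Finset.sum_congr rfl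
    intro c hc
    rw [Finset.mem_Icc] at hc
    rw [dse_hf hD hc.1, ← hT, Finset.mul_sum]
  rw [e1, e2, e3, dse_swap T (fun c l => cc c n * cc c g.natAbs / (c * phi c) *
          (1 / (l : ℝ) * hyp (Real.log ((c * l : ℕ) : ℝ) - Real.log D / 2)))]
  apply Finset.sum_congr rfl
  intro d hd
  rw [Finset.mem_Icc] at hd
  rw [ram_id hd.1 hn hg, Finset.sum_div, Finset.sum_mul]
  apply Finset.sum_congr rfl
  intro c hc
  rw [Nat.mem_divisors] at hc
  have hc1 : 1 ≤ c := Nat.pos_of_dvd_of_pos hc.1 hd.1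
  obtain ⟨e, he⟩ := hc.1
  have he1 : 1 ≤ e := by
    rcases Nat.eq_zero_or_pos e with h | h
    · rw [h] at he; omega
    · exact h
  have h6 : d / c = e := by rw [he]; exact Nat.mul_div_cancel_left _ hc1
  have hc0 : (c : ℝ) ≠ 0 := by
    have : (0 : ℝ) < c := by exact_mod_cast hc1
    exact this.ne'
  have he0 : (e : ℝ) ≠ 0 := by
    have : (0 : ℝ) < e := by exact_mod_cast he1
    exact this.ne'
  simp only [h6]
  rw [← he]
  have h7 : (d : ℝ) = c * e := by rw [he]; push_cast; ring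
  rw [h7, div_mul_eq_div_div]
  field_simp

alias dsum_eq := dsum_eq_pr

end Pool.Agent.LSPP
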