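import Pool.Agent.Lib_helper15.LSP.DefsP
import Pool.Agent.Lib_helper15.LSPF.MEA

set_option autoImplicit false

namespace Pool.Agent.LSPP

open Pool.Agent.LSP (tau sg1 CC Gs Adm)
open Pool.Agent.LSPO (hyp cl KK rho b1 GOK)
open Pool.Agent.FG61 (mu phi cc)
open MeasureTheory Filter Topology

theorem gin_log {V u : ℝ} (h0 : u ≠ 0) (hV : |u| ≤ V) :
    |Real.log (|u|)| ≤ (8 + V * V ^ (1 / 8 : ℝ)) * |u| ^ (-(1 / 8) : ℝ) := by
  have hu : 0 < |u| := abs_pos.mpr h0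
  have hV0 : 0 < V := hu.trans_le hV
  have hp : 0 < |u| ^ (-(1 / 8) : ℝ) := Real.rpow_pos_of_pos hu _
  rcases le_total (|u|) 1 with h | h
  · have h1 := (Real.abs_log_mul_self_rpow_lt (|u|) (1 / 8) hu h (by norm_num)).le
    rw [abs_mul, abs_of_pos (Real.rpow_pos_of_pos hu _)] at h1
    have h2 : |u| ^ (1 / 8 : ℝ) * |u| ^ (-(1 / 8) : ℝ) = 1 := by
      rw [← Real.rpow_add hu]; simp
    have h3 : |Real.log (|u|)| ≤ 8 * |u| ^ (-(1 / 8) : ℝ) := by
      calc |Real.log (|u|)| = |Real.log (|u|)| * |u| ^ (1 / 8 : ℝ) * |u| ^ (-(1 / 8) : ℝ) := by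
            rw [mul_assoc, h2, mul_one]
        _ ≤ 1 / (1 / 8) * |u| ^ (-(1 / 8) : ℝ) := mul_le_mul_of_nonneg_right h1 hp.le
        _ = 8 * |u| ^ (-(1 / 8) : ℝ) := by norm_num
    refine h3.trans ?_
    apply mul_le_mul_of_nonneg_right _ hp.le
    have : 0 ≤ V * V ^ (1 / 8 : ℝ) := by positivity
    linarith
  · have h1 : |Real.log (|u|)| ≤ V := by
      rw [abs_of_nonneg (Real.log_nonneg h)]
      exact ((Real.log_le_sub_one_of_pos hu).trans (by linarith)).trans hV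
    have h2 : 1 ≤ V ^ (1 / 8 : ℝ) * |u| ^ (-(1 / 8) : ℝ) := by
      rw [Real.rpow_neg hu.le, ← div_eq_mul_inv, le_div_iff₀ (Real.rpow_pos_of_pos hu _), one_mul]
      exact Real.rpow_le_rpow hu.le hV (by norm_num)
    calc |Real.log (|u|)| ≤ V * 1 := by linarith
      _ ≤ V * (V ^ (1 / 8 : ℝ) * |u| ^ (-(1 / 8) : ℝ)) := by gcongr
      _ ≤ (8 + V * V ^ (1 / 8 : ℝ)) * |u| ^ (-(1 / 8) : ℝ) := by nlinarith

/-- the majorant -/
noncomputable def gin_D (u : ℝ) : ℝ := |u| ^ (-(1 / 2) : ℝ) + |1 - u| ^ (-(1 / 2) : ℝ)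

/-- the pointwise bound for all four functions -/
theorem gin_bd {G : ℝ → ℝ} {U c₀ : ℝ} (hG : GOK G U c₀) : ∃ K : ℝ, 0 ≤ K ∧ ∀ u, u ≠ 0 → u ≠ 1 →
    |u| ≤ U → |G u| ≤ K * gin_D u ∧ |G1 G u| ≤ K * gin_D u ∧ |G u * Real.log (|u|)| ≤ K * gin_D u ∧
      |G1 G u * Real.log (|u|)| ≤ K * gin_D u := by
  have hU := hG.one_le
  have hc := hG.one_le'
  set V : ℝ := 1 + U with hV
  set K₁ : ℝ := 8 + V * V ^ (1 / 8 : ℝ) with hK₁
  have hK₁1 : 1 ≤ K₁ := by
    have : 0 ≤ V * V ^ (1 / 8 : ℝ) := by positivity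
    linarith
  set W : ℝ := V ^ (1 / 8 : ℝ) with hW
  have hW1 : 1 ≤ W := Real.one_le_rpow (by linarith) (by norm_num)
  refine ⟨3 * c₀ * K₁ ^ 3 * W ^ 4, by positivity, fun u h0 h1 hu => ?_⟩
  have h1' : 1 - u ≠ 0 := sub_ne_zero.mpr (Ne.symm h1)
  have hu0 : 0 < |u| := abs_pos.mpr h0
  have hu1 : 0 < |1 - u| := abs_pos.mpr h1'
  have huV : |u| ≤ V := by linarith
  have hu1V : |1 - u| ≤ V := by
    refine (abs_sub _ _).trans ?_
    rw [abs_one]; linarith
  set a : ℝ := |u| ^ (-(1 / 8) : ℝ) with ha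
  set b : ℝ := |1 - u| ^ (-(1 / 8) : ℝ) with hb
  have ha0 : 0 < a := Real.rpow_pos_of_pos hu0 _
  have hb0 : 0 < b := Real.rpow_pos_of_pos hu1 _
  have haW : 1 ≤ W * a := by
    rw [ha, Real.rpow_neg hu0.le, ← div_eq_mul_inv, le_div_iff₀ (Real.rpow_pos_of_pos hu0 _),
      one_mul]
    exact Real.rpow_le_rpow hu0.le huV (by norm_num)
  have hbW : 1 ≤ W * b := by
    rw [hb, Real.rpow_neg hu1.le, ← div_eq_mul_inv, le_div_iff₀ (Real.rpow_pos_of_pos hu1 _),
      one_mul]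
    exact Real.rpow_le_rpow hu1.le hu1V (by norm_num)
  have hla : |Real.log (|u|)| ≤ K₁ * a := gin_log h0 huV
  have hlb : |Real.log (|1 - u|)| ≤ K₁ * b := gin_log h1' hu1V
  have hG0 := hG.bd u h0 h1
  have hWa : 0 < W * a := by positivity
  have hWb : 0 < W * b := by positivity
  -- `|G| ≤ 3 c K₁ (W a) (W b)`
  have hW0 : 0 < W := by linarith
  have haa : a ≤ (W * a) * (W * b) := by
    have e1 : a * 1 ≤ (W * a) * (W * b) := by
      apply mul_le_mul _ hbW (by norm_num) hWa.le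
      nlinarith
    linarith
  have hbb : b ≤ (W * a) * (W * b) := by
    have e1 : 1 * b ≤ (W * a) * (W * b) := by
      apply mul_le_mul haW _ hb0.le hWa.le
      nlinarith
    linarith
  have h11 : 1 ≤ (W * a) * (W * b) := by nlinarith
  set P : ℝ := (W * a) * (W * b) with hP
  have hP0 : 0 < P := by positivity
  have hGb : |G u| ≤ 3 * c₀ * K₁ * P := by
    refine hG0.trans ?_
    have e1 : 1 + |Real.log (|u|)| + |Real.log (|1 - u|)| ≤ K₁ * P + K₁ * P + K₁ * P := by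
      have e2 : 1 ≤ K₁ * P := by nlinarith
      have e3 : K₁ * a ≤ K₁ * P := by gcongr
      have e4 : K₁ * b ≤ K₁ * P := by gcongr
      linarith
    calc c₀ * (1 + |Real.log (|u|)| + |Real.log (|1 - u|)|) ≤ c₀ * (K₁ * P + K₁ * P + K₁ * P) := by
          gcongr
      _ = 3 * c₀ * K₁ * P := by ring
  have hlaP : |Real.log (|u|)| ≤ K₁ * (W * a) := by
    refine hla.trans ?_
    have : a ≤ W * a := by nlinarith
    gcongr
  have hlbP : |Real.log (|1 - u|)| ≤ K₁ * (W * b) := by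
    refine hlb.trans ?_
    have : b ≤ W * b := by nlinarith
    gcongr
  -- `P² ≤ W⁴ D`
  have hP2 : P ^ 2 ≤ W ^ 4 * gin_D u := by
    have e1 : a ^ 4 = |u| ^ (-(1 / 2) : ℝ) := by
      rw [ha, ← Real.rpow_natCast, ← Real.rpow_mul hu0.le]; norm_num
    have e2 : b ^ 4 = |1 - u| ^ (-(1 / 2) : ℝ) := by
      rw [hb, ← Real.rpow_natCast, ← Real.rpow_mul hu1.le]; norm_num
    have e3 : P ^ 2 = W ^ 4 * (a ^ 2 * b ^ 2) := by rw [hP]; ring
    rw [e3, gin_D, ← e1, ← e2]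
    have e4 : a ^ 2 * b ^ 2 ≤ a ^ 4 + b ^ 4 := by
      nlinarith [sq_nonneg (a ^ 2 - b ^ 2), sq_nonneg (a ^ 2), sq_nonneg (b ^ 2)]
    gcongr
  have hfin : ∀ y : ℝ, y ≤ 3 * c₀ * K₁ ^ 3 * P ^ 2 → y ≤ 3 * c₀ * K₁ ^ 3 * W ^ 4 * gin_D u := by
    intro y hy
    calc y ≤ 3 * c₀ * K₁ ^ 3 * P ^ 2 := hy
      _ ≤ 3 * c₀ * K₁ ^ 3 * (W ^ 4 * gin_D u) := by gcongr
      _ = 3 * c₀ * K₁ ^ 3 * W ^ 4 * gin_D u := by ring
  have hK2 : K₁ ≤ K₁ ^ 3 := by nlinarith [mul_nonneg (by linarith : (0:ℝ) ≤ K₁) (by nlinarith : (0:ℝ) ≤ K₁ ^ 2 - 1)]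
  have hK3 : K₁ * K₁ ≤ K₁ ^ 3 := by nlinarith [mul_nonneg (mul_nonneg (by linarith : (0:ℝ) ≤ K₁) (by linarith : (0:ℝ) ≤ K₁)) (by linarith : (0:ℝ) ≤ K₁ - 1)]
  have hPP : P ≤ P ^ 2 := by nlinarith
  have hWaP : W * a ≤ P := by nlinarith
  have hWbP : W * b ≤ P := by nlinarith
  have hG1 : |G1 G u| ≤ 3 * c₀ * K₁ * P * (K₁ * (W * b)) := by
    unfold G1
    rw [abs_div, abs_mul, abs_two]
    have e1 : |G u| * |Real.log (|1 - u|)| ≤ 3 * c₀ * K₁ * P * (K₁ * (W * b)) :=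
      mul_le_mul hGb hlbP (abs_nonneg _) (by positivity)
    have e2 : 0 ≤ |G u| * |Real.log (|1 - u|)| := by positivity
    linarith
  refine ⟨?_, ?_, ?_, ?_⟩
  · apply hfin
    refine hGb.trans ?_
    have e5 : 3 * c₀ * K₁ * P ≤ 3 * c₀ * K₁ ^ 3 * P ^ 2 := by gcongr
    exact e5
  · apply hfin
    refine hG1.trans ?_
    calc 3 * c₀ * K₁ * P * (K₁ * (W * b)) = 3 * c₀ * (K₁ * K₁) * (P * (W * b)) := by ring
      _ ≤ 3 * c₀ * K₁ ^ 3 * (P * P) := by gcongr
      _ = 3 * c₀ * K₁ ^ 3 * P ^ 2 := by ring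
  · apply hfin
    rw [abs_mul]
    calc |G u| * |Real.log (|u|)| ≤ 3 * c₀ * K₁ * P * (K₁ * (W * a)) :=
          mul_le_mul hGb hlaP (abs_nonneg _) (by positivity)
      _ = 3 * c₀ * (K₁ * K₁) * (P * (W * a)) := by ring
      _ ≤ 3 * c₀ * K₁ ^ 3 * (P * P) := by gcongr
      _ = 3 * c₀ * K₁ ^ 3 * P ^ 2 := by ring
  · apply hfin
    rw [abs_mul]
    calc |G1 G u| * |Real.log (|u|)| ≤ 3 * c₀ * K₁ * P * (K₁ * (W * b)) * (K₁ * (W * a)) :=
          mul_le_mul hG1 hlaP (abs_nonneg _) (by positivity)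
      _ = 3 * c₀ * K₁ ^ 3 * (P * ((W * a) * (W * b))) := by ring
      _ = 3 * c₀ * K₁ ^ 3 * P ^ 2 := by rw [← hP]; ring

theorem gin_rpow (V : ℝ) (hV : 0 ≤ V) : IntegrableOn (fun x : ℝ => |x| ^ (-(1 / 2) : ℝ))
    (Set.Icc (-V) V) := by
  have h1 : IntervalIntegrable (fun x : ℝ => |x| ^ (-(1 / 2) : ℝ)) volume 0 V := by
    have := intervalIntegral.intervalIntegrable_rpow' (a := 0) (b := V)
      (r := -(1 / 2)) (by norm_num)
    refine this.congr ?_
    intro x hx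
    rw [Set.uIoc_of_le hV] at hx
    show x ^ (-(1 / 2) : ℝ) = |x| ^ (-(1 / 2) : ℝ)
    rw [abs_of_pos hx.1]
  have h2 : IntervalIntegrable (fun x : ℝ => |x| ^ (-(1 / 2) : ℝ)) volume (-V) 0 := by
    have h3 := (intervalIntegral.intervalIntegrable_rpow' (a := 0) (b := V)
      (r := -(1 / 2)) (by norm_num))
    rw [IntervalIntegrable.iff_comp_neg] at h3
    rw [neg_zero] at h3
    refine (h3.symm).congr ?_
    intro x hx
    rw [Set.uIoc_of_le (by linarith)] at hx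
    show (-x) ^ (-(1 / 2) : ℝ) = |x| ^ (-(1 / 2) : ℝ)
    rw [abs_of_nonpos hx.2]
  have h3 := h2.trans h1
  rwa [intervalIntegrable_iff_integrableOn_Icc_of_le (by linarith)] at h3

theorem gin_D_int (U : ℝ) (hU : 0 ≤ U) : IntegrableOn gin_D (Set.Icc (-U) U) := by
  apply Integrable.add
  · exact gin_rpow U hU
  · have h1 := gin_rpow (1 + U) (by linarith)
    have h2 : IntegrableOn (fun x : ℝ => |1 - x| ^ (-(1 / 2) : ℝ))
        ((fun x => 1 - x) ⁻¹' (Set.Icc (-(1 + U)) (1 + U))) := by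
      have hmp : MeasurePreserving (fun x : ℝ => 1 - x) volume volume :=
        Measure.measurePreserving_sub_left volume 1
      have hme : MeasurableEmbedding (fun x : ℝ => 1 - x) := by
        exact (MeasurableEquiv.subLeft (1 : ℝ)).measurableEmbedding
      exact (hmp.integrableOn_comp_preimage hme).mpr h1
    refine h2.mono_set ?_
    intro x hx
    simp only [Set.mem_preimage, Set.mem_Icc] at hx ⊢
    constructor <;> linarith [hx.1, hx.2]

theorem gin_integrable {F : ℝ → ℝ} {U K : ℝ} (hU : 0 ≤ U) (hm : Measurable F)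
    (hs : ∀ u, U < |u| → F u = 0) (hb : ∀ u, u ≠ 0 → u ≠ 1 → |u| ≤ U → |F u| ≤ K * gin_D u) :
    Integrable F := by
  have h1 : IntegrableOn F (Set.Icc (-U) U) := by
    refine Integrable.mono' ((gin_D_int U hU).const_mul K) hm.aestronglyMeasurable ?_
    rw [ae_restrict_iff' measurableSet_Icc]
    have hf : ∀ᵐ x : ℝ, x ∉ ({0, 1} : Set ℝ) := by
      have : volume ({0, 1} : Set ℝ) = 0 := (Set.toFinite _).measure_zero _
      exact measure_eq_zero_iff_ae_notMem.mp this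
    filter_upwards [hf] with x hx hx2
    simp only [Set.mem_insert_iff, Set.mem_singleton_iff, not_or] at hx
    exact hb x hx.1 hx.2 (abs_le.mpr hx2)
  rw [← integrable_indicator_iff measurableSet_Icc] at h1
  refine h1.congr ?_
  refine Eventually.of_forall fun x => ?_
  by_cases hx : x ∈ Set.Icc (-U) U
  · simp [Set.indicator_of_mem hx]
  · rw [Set.indicator_of_notMem hx]
    rw [Set.mem_Icc, ← abs_le, not_le] at hx
    exact (hs x hx).symm

theorem g1_supp_pr {G : ℝ → ℝ} {U c₀ : ℝ} (hG : GOK G U c₀) (w : ℝ) (hw : U < |w|) :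
    G1 G w = 0 := by
  rw [G1, hG.supp w hw, zero_mul, zero_div]

theorem gin_meas1 {G : ℝ → ℝ} (h : Measurable G) : Measurable (G1 G) := by
  unfold G1
  fun_prop

theorem g_int_pr {G : ℝ → ℝ} {U c₀ : ℝ} (hG : GOK G U c₀) : Integrable G ∧ Integrable (G1 G) ∧
    Integrable (fun w => G w * Real.log |w|) ∧ Integrable (fun w => G1 G w * Real.log |w|) := by
  have hm := go_meas hG
  have hU : 0 ≤ U := by linarith [hG.one_le]
  obtain ⟨K, -, hK⟩ := gin_bd hG
  have hm1 := gin_meas1 hm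
  refine ⟨gin_integrable hU hm hG.supp fun u h0 h1 h2 => (hK u h0 h1 h2).1,
    gin_integrable hU hm1 (g1_supp_pr hG) fun u h0 h1 h2 => (hK u h0 h1 h2).2.1,
    gin_integrable hU (by fun_prop) (fun u hu => by rw [hG.supp u hu, zero_mul])
      fun u h0 h1 h2 => (hK u h0 h1 h2).2.2.1,
    gin_integrable hU (by fun_prop) (fun u hu => by rw [g1_supp_pr hG u hu, zero_mul])
      fun u h0 h1 h2 => (hK u h0 h1 h2).2.2.2⟩

theorem g_vals_pr {G : ℝ → ℝ} {U c₀ : ℝ} (hG : GOK G U c₀) (ha : ∀ u, G (1 - u) = - G u) :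
    ∫ w, G w = 0 ∧ ∫ w, G1 G w = -(kapG G / 2) ∧ ∫ w, G1 G w * Real.log |w| = 0 := by
  refine ⟨?_, ?_, ?_⟩
  · have h1 := integral_sub_left_eq_self G volume (1 : ℝ)
    simp only [ha, integral_neg] at h1
    linarith
  · have h1 := integral_sub_left_eq_self (G1 G) volume (1 : ℝ)
    rw [← h1]
    unfold G1 kapG
    have h2 : ∀ x : ℝ, G (1 - x) * Real.log |1 - (1 - x)| / 2 = -(1 / 2) * (G x * Real.log |x|) := by
      intro x
      rw [ha, sub_sub_cancel]; ring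
    simp only [h2]
    rw [integral_const_mul]
    ring
  · have h1 := integral_sub_left_eq_self (fun w => G1 G w * Real.log |w|) volume (1 : ℝ)
    have h2 : ∀ x : ℝ, G1 G (1 - x) * Real.log |1 - x| = -(G1 G x * Real.log |x|) := by
      intro x
      unfold G1
      rw [ha, sub_sub_cancel]; ring
    simp only [h2, integral_neg] at h1
    linarith

theorem gin_wt_one {G : ℝ → ℝ} {U c₀ : ℝ} (hG : GOK G U c₀) {F : ℝ → ℝ} (hFm : Measurable F)
    (hFi : Integrable F) (hb : ∀ w, w ≠ 0 → |w| ≤ 1 / 2 → |F w| ≤ c₀ * (2 + |Real.log (|w|)|))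
    {L : ℝ} (hL : 1 ≤ L) :
    IntegrableOn (fun w => |F w + F (-w)| * w ^ (1 / (2 * L) - 1)) (Set.Ioi 0) ∧
    ∫ w in Set.Ioi (0 : ℝ), |F w + F (-w)| * w ^ (1 / (2 * L) - 1) ≤
      (48 * c₀ + 4 * ∫ w, |F w|) * L ^ 3 := by
  have hL0 : 0 < L := by linarith
  have hc := hG.one_le'
  have hFn : Integrable (fun w => F (-w)) := hFi.comp_neg
  -- first part
  have hI1 : IntegrableOn (fun w : ℝ => 12 * c₀ * L * w ^ (1 / (4 * L) - 1)) (Set.Ioc 0 (1 / 2)) := by
    have h1 := intervalIntegral.intervalIntegrable_rpow' (a := 0) (b := 1 / 2)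
      (r := 1 / (4 * L) - 1) (by
        have : 0 < 1 / (4 * L) := by positivity
        linarith)
    rw [intervalIntegrable_iff_integrableOn_Ioc_of_le (by norm_num)] at h1
    exact h1.const_mul _
  have hm : Measurable (fun w : ℝ => |F w + F (-w)| * w ^ (1 / (2 * L) - 1)) := by
    fun_prop
  have hb1 : ∀ w ∈ Set.Ioc (0 : ℝ) (1 / 2), |F w + F (-w)| * w ^ (1 / (2 * L) - 1) ≤
      12 * c₀ * L * w ^ (1 / (4 * L) - 1) := by
    intro w hw
    have hw0 := hw.1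
    have hF1 := hb w hw0.ne' (by rw [abs_of_pos hw0]; exact hw.2)
    have hF2 := hb (-w) (neg_ne_zero.mpr hw0.ne') (by rw [abs_neg, abs_of_pos hw0]; exact hw.2)
    rw [abs_neg] at hF2
    rw [abs_of_pos hw0] at hF1 hF2
    have hl : |Real.log w| ≤ 4 * L * w ^ (-(1 / (4 * L))) := by
      have h1 := (Real.abs_log_mul_self_rpow_lt w (1 / (4 * L)) hw0 (by linarith [hw.2])
        (by positivity)).le
      rw [abs_mul, abs_of_pos (Real.rpow_pos_of_pos hw0 _)] at h1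
      have h2 : w ^ (1 / (4 * L)) * w ^ (-(1 / (4 * L))) = 1 := by
        rw [← Real.rpow_add hw0]; simp
      calc |Real.log w| = |Real.log w| * w ^ (1 / (4 * L)) * w ^ (-(1 / (4 * L))) := by
            rw [mul_assoc, h2, mul_one]
        _ ≤ 1 / (1 / (4 * L)) * w ^ (-(1 / (4 * L))) := by
            apply mul_le_mul_of_nonneg_right h1 (Real.rpow_nonneg hw0.le _)
        _ = 4 * L * w ^ (-(1 / (4 * L))) := by rw [one_div_one_div]
    have h1 : 1 ≤ w ^ (-(1 / (4 * L))) := by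
      apply Real.one_le_rpow_of_pos_of_le_one_of_nonpos hw0 (by linarith [hw.2])
      have : 0 < 1 / (4 * L) := by positivity
      linarith
    set q : ℝ := w ^ (-(1 / (4 * L))) with hq
    have hq0 : 0 < q := by linarith
    have h2 : 2 + |Real.log w| ≤ 6 * L * q := by nlinarith
    have h3 : |F w + F (-w)| ≤ 12 * c₀ * L * q := by
      calc |F w + F (-w)| ≤ |F w| + |F (-w)| := abs_add_le _ _
        _ ≤ c₀ * (6 * L * q) + c₀ * (6 * L * q) := by
            apply add_le_add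
            · exact hF1.trans (by gcongr)
            · exact hF2.trans (by gcongr)
        _ = 12 * c₀ * L * q := by ring
    calc |F w + F (-w)| * w ^ (1 / (2 * L) - 1) ≤ 12 * c₀ * L * q * w ^ (1 / (2 * L) - 1) := by
          apply mul_le_mul_of_nonneg_right h3 (Real.rpow_nonneg hw0.le _)
      _ = 12 * c₀ * L * w ^ (1 / (4 * L) - 1) := by
          rw [mul_assoc (12 * c₀ * L), hq, ← Real.rpow_add hw0]
          congr 2
          field_simp
          ring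
  have hA : IntegrableOn (fun w => |F w + F (-w)| * w ^ (1 / (2 * L) - 1)) (Set.Ioc 0 (1 / 2)) := by
    refine Integrable.mono' hI1 hm.aestronglyMeasurable ?_
    rw [ae_restrict_iff' measurableSet_Ioc]
    refine Eventually.of_forall fun w hw => ?_
    rw [Real.norm_eq_abs, abs_of_nonneg (mul_nonneg (abs_nonneg _) (Real.rpow_nonneg hw.1.le _))]
    exact hb1 w hw
  have hAv : ∫ w in Set.Ioc (0 : ℝ) (1 / 2), |F w + F (-w)| * w ^ (1 / (2 * L) - 1) ≤
      48 * c₀ * L ^ 2 := by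
    calc ∫ w in Set.Ioc (0 : ℝ) (1 / 2), |F w + F (-w)| * w ^ (1 / (2 * L) - 1)
        ≤ ∫ w in Set.Ioc (0 : ℝ) (1 / 2), 12 * c₀ * L * w ^ (1 / (4 * L) - 1) :=
          setIntegral_mono_on hA hI1 measurableSet_Ioc hb1
      _ = 12 * c₀ * L * ∫ w in (0 : ℝ)..(1 / 2), w ^ (1 / (4 * L) - 1) := by
          rw [integral_const_mul, intervalIntegral.integral_of_le (by norm_num)]
      _ = 12 * c₀ * L * (((1 / 2 : ℝ) ^ (1 / (4 * L))) * (4 * L)) := by
          have : 0 < 1 / (4 * L) := by positivity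
          rw [integral_rpow (Or.inl (by linarith))]
          rw [sub_add_cancel, Real.zero_rpow this.ne', sub_zero]
          congr 1
          field_simp
      _ ≤ 12 * c₀ * L * (1 * (4 * L)) := by
          have : ((1 / 2 : ℝ) ^ (1 / (4 * L))) ≤ 1 :=
            Real.rpow_le_one (by norm_num) (by norm_num) (by positivity)
          gcongr
      _ = 48 * c₀ * L ^ 2 := by ring
  -- second part
  have hI2 : IntegrableOn (fun w : ℝ => 2 * (|F w| + |F (-w)|)) (Set.Ioi (1 / 2)) :=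
    ((hFi.abs.add hFn.abs).const_mul 2).integrableOn
  have hb2 : ∀ w ∈ Set.Ioi (1 / 2 : ℝ), |F w + F (-w)| * w ^ (1 / (2 * L) - 1) ≤
      2 * (|F w| + |F (-w)|) := by
    intro w hw
    have hw0 : (0 : ℝ) < w := lt_trans (by norm_num) hw
    have h1 : w ^ (1 / (2 * L) - 1) ≤ 2 := by
      have e0 : 1 / (2 * L) ≤ 1 / 2 := by
        apply one_div_le_one_div_of_le (by norm_num); linarith
      have e0' : 0 < 1 / (2 * L) := by positivity
      calc w ^ (1 / (2 * L) - 1) ≤ (1 / 2 : ℝ) ^ (1 / (2 * L) - 1) := by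
            apply Real.rpow_le_rpow_of_nonpos (by norm_num) (le_of_lt hw)
            linarith
        _ ≤ (1 / 2 : ℝ) ^ (-1 : ℝ) := by
            apply Real.rpow_le_rpow_of_exponent_ge (by norm_num) (by norm_num)
            linarith
        _ = 2 := by rw [Real.rpow_neg_one]; norm_num
    calc |F w + F (-w)| * w ^ (1 / (2 * L) - 1) ≤ (|F w| + |F (-w)|) * 2 := by
          apply mul_le_mul (abs_add_le _ _) h1 (Real.rpow_nonneg hw0.le _) (by positivity)
      _ = 2 * (|F w| + |F (-w)|) := by ring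
  have hBi : IntegrableOn (fun w => |F w + F (-w)| * w ^ (1 / (2 * L) - 1)) (Set.Ioi (1 / 2)) := by
    refine Integrable.mono' hI2 hm.aestronglyMeasurable ?_
    rw [ae_restrict_iff' measurableSet_Ioi]
    refine Eventually.of_forall fun w hw => ?_
    have hw0 : (0 : ℝ) < w := lt_trans (by norm_num) hw
    rw [Real.norm_eq_abs, abs_of_nonneg (mul_nonneg (abs_nonneg _) (Real.rpow_nonneg hw0.le _))]
    exact hb2 w hw
  have hBv : ∫ w in Set.Ioi (1 / 2 : ℝ), |F w + F (-w)| * w ^ (1 / (2 * L) - 1) ≤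
      4 * ∫ w, |F w| := by
    calc ∫ w in Set.Ioi (1 / 2 : ℝ), |F w + F (-w)| * w ^ (1 / (2 * L) - 1)
        ≤ ∫ w in Set.Ioi (1 / 2 : ℝ), 2 * (|F w| + |F (-w)|) :=
          setIntegral_mono_on hBi hI2 measurableSet_Ioi hb2
      _ ≤ ∫ w, 2 * (|F w| + |F (-w)|) := by
          apply setIntegral_le_integral ((hFi.abs.add hFn.abs).const_mul 2)
          exact Eventually.of_forall fun w => by
            show 0 ≤ 2 * (|F w| + |F (-w)|)
            positivity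
      _ = 4 * ∫ w, |F w| := by
          rw [integral_const_mul, integral_add hFi.abs hFn.abs]
          have : ∫ w, |F (-w)| = ∫ w, |F w| := integral_neg_eq_self (fun w => |F w|) volume
          rw [this]; ring
  have hun : Set.Ioi (0 : ℝ) = Set.Ioc 0 (1 / 2) ∪ Set.Ioi (1 / 2) := by
    rw [Set.Ioc_union_Ioi_eq_Ioi (by norm_num)]
  have hdis : Disjoint (Set.Ioc (0 : ℝ) (1 / 2)) (Set.Ioi (1 / 2)) := by
    rw [Set.disjoint_left]
    intro x hx hx2
    exact absurd hx.2 (not_le.mpr hx2)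
  have hI0 : 0 ≤ ∫ w, |F w| := integral_nonneg fun w => abs_nonneg _
  refine ⟨by rw [hun]; exact hA.union hBi, ?_⟩
  rw [hun, setIntegral_union hdis measurableSet_Ioi hA hBi]
  have hL2 : L ^ 2 ≤ L ^ 3 := by nlinarith [mul_nonneg (sq_nonneg L) (by linarith : (0:ℝ) ≤ L - 1)]
  have hL3 : 1 ≤ L ^ 3 := one_le_pow₀ hL
  calc (∫ w in Set.Ioc (0 : ℝ) (1 / 2), |F w + F (-w)| * w ^ (1 / (2 * L) - 1)) +
        ∫ w in Set.Ioi (1 / 2 : ℝ), |F w + F (-w)| * w ^ (1 / (2 * L) - 1)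
      ≤ 48 * c₀ * L ^ 2 + 4 * ∫ w, |F w| := add_le_add hAv hBv
    _ ≤ 48 * c₀ * L ^ 3 + (4 * ∫ w, |F w|) * L ^ 3 := by
        apply add_le_add
        · gcongr
        · nlinarith
    _ = (48 * c₀ + 4 * ∫ w, |F w|) * L ^ 3 := by ring

theorem gin_small {w : ℝ} (hw : |w| ≤ 1 / 2) : |Real.log (|1 - w|)| ≤ 1 := by
  rw [abs_le] at hw
  have h1 : 0 < 1 - w := by linarith [hw.2]
  rw [abs_of_pos h1, abs_le]
  constructor
  · have h2 : Real.log (1 / 2) ≤ Real.log (1 - w) :=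
      Real.log_le_log (by norm_num) (by linarith [hw.2])
    have h3 : Real.log (1 / 2) = - Real.log 2 := by
      rw [one_div, Real.log_inv]
    have h4 := Real.log_two_lt_d9
    linarith
  · have h2 := Real.log_le_sub_one_of_pos h1
    linarith [hw.1]

theorem g_wt_pr {G : ℝ → ℝ} {U c₀ : ℝ} (hG : GOK G U c₀) : ∃ K : ℝ, 1 ≤ K ∧ ∀ F : ℝ → ℝ,
    (F = G ∨ F = G1 G) → ∀ L : ℝ, 1 ≤ L →
    IntegrableOn (fun w => |F w + F (-w)| * w ^ (1 / (2 * L) - 1)) (Set.Ioi 0) ∧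
    ∫ w in Set.Ioi (0 : ℝ), |F w + F (-w)| * w ^ (1 / (2 * L) - 1) ≤ K * L ^ 3 := by
  have hm := go_meas hG
  have hc := hG.one_le'
  obtain ⟨hi, hi1, -, -⟩ := g_int_pr hG
  have hb0 : ∀ w, w ≠ 0 → |w| ≤ 1 / 2 → |G w| ≤ c₀ * (2 + |Real.log (|w|)|) := by
    intro w h0 hw
    have h1 : w ≠ 1 := by
      rintro rfl
      norm_num at hw
    refine (hG.bd w h0 h1).trans ?_
    have := gin_small hw
    apply mul_le_mul_of_nonneg_left _ (by linarith)
    linarith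
  have hb1 : ∀ w, w ≠ 0 → |w| ≤ 1 / 2 → |G1 G w| ≤ c₀ * (2 + |Real.log (|w|)|) := by
    intro w h0 hw
    have h2 := hb0 w h0 hw
    have h3 := gin_small hw
    rw [G1, abs_div, abs_mul, abs_two]
    have h4 : |G w| * |Real.log (|1 - w|)| ≤ c₀ * (2 + |Real.log (|w|)|) * 1 :=
      mul_le_mul h2 h3 (abs_nonneg _) (by positivity)
    have h5 : 0 ≤ c₀ * (2 + |Real.log (|w|)|) := by positivity
    linarith
  set K₀ := 48 * c₀ + 4 * ∫ w, |G w| with hK₀
  set K₁ := 48 * c₀ + 4 * ∫ w, |G1 G w| with hK₁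
  have e0 : 0 ≤ ∫ w, |G w| := integral_nonneg fun w => abs_nonneg _
  have e1 : 0 ≤ ∫ w, |G1 G w| := integral_nonneg fun w => abs_nonneg _
  refine ⟨K₀ + K₁, by linarith, fun F hF L hL => ?_⟩
  have hL3 : 0 ≤ L ^ 3 := by positivity
  rcases hF with rfl | rfl
  · obtain ⟨a1, a2⟩ := gin_wt_one hG hm hi hb0 hL
    refine ⟨a1, a2.trans ?_⟩
    apply mul_le_mul_of_nonneg_right _ hL3
    linarith
  · obtain ⟨a1, a2⟩ := gin_wt_one hG (gin_meas1 hm) hi1 hb1 hL
    refine ⟨a1, a2.trans ?_⟩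
    apply mul_le_mul_of_nonneg_right _ hL3
    linarith

alias g_int := g_int_pr
alias g_vals := g_vals_pr
alias g1_supp := g1_supp_pr
alias g_wt := g_wt_pr

end Pool.Agent.LSPP
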