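import Pool.Agent.Lib_helper15.LSP.DefsP

/-!
# LSP part P, block HAR: the truncated harmonic sum
-/

set_option autoImplicit false

namespace Pool.Agent.LSPP

open Pool.Agent.LSP (tau sg1 CC Gs Adm)
open Pool.Agent.LSPO (hyp cl KK rho b1 GOK)
open Pool.Agent.FG61 (mu phi cc)
open MeasureTheory Filter Topology

namespace HAR62

lemma hyp_nonneg (y : ℝ) : 0 ≤ hyp y := le_max_left _ _

lemma hyp_le_one (y : ℝ) : hyp y ≤ 1 := by
  unfold Pool.Agent.LSPO.hyp
  exact max_le (by norm_num) (min_le_left _ _)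

/-- the step function -/
noncomputable def st (y v : ℝ) : ℝ := if v ≤ y then 0 else 1

lemma st_mono (y : ℝ) : Monotone (st y) := by
  intro a b hab
  unfold st
  by_cases h1 : a ≤ y
  · rw [if_pos h1]
    split_ifs <;> norm_num
  · have h2 : ¬ b ≤ y := fun h => h1 (hab.trans h)
    rw [if_neg h1, if_neg h2]

lemma st_int (y a b : ℝ) : IntervalIntegrable (st y) volume a b :=
  (st_mono y).intervalIntegrable

lemma int_st (y : ℝ) : ∫ v in (-(1 / 2) : ℝ)..(1 / 2), st y v = hyp y := by
  rcases le_total y (-(1 / 2)) with h | h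
  · have h1 : ∫ v in (-(1 / 2) : ℝ)..(1 / 2), st y v = ∫ v in (-(1 / 2) : ℝ)..(1 / 2), (1 : ℝ) := by
      apply intervalIntegral.integral_congr_ae
      filter_upwards with v hv
      rw [Set.uIoc_of_le (by norm_num)] at hv
      unfold st
      rw [if_neg (by have := hv.1; linarith)]
    rw [h1]
    unfold Pool.Agent.LSPO.hyp
    rw [min_eq_left (by linarith), max_eq_right (by norm_num)]
    norm_num
  · rcases le_total y (1 / 2) with h' | h'
    · rw [← intervalIntegral.integral_add_adjacent_intervals (st_int y _ y) (st_int y y _)]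
      have h1 : ∫ v in (-(1 / 2) : ℝ)..y, st y v = ∫ v in (-(1 / 2) : ℝ)..y, (0 : ℝ) := by
        apply intervalIntegral.integral_congr_ae
        filter_upwards with v hv
        rw [Set.uIoc_of_le h] at hv
        unfold st
        rw [if_pos hv.2]
      have h2 : ∫ v in y..(1 / 2), st y v = ∫ v in y..(1 / 2), (1 : ℝ) := by
        apply intervalIntegral.integral_congr_ae
        filter_upwards with v hv
        rw [Set.uIoc_of_le h'] at hv
        unfold st
        rw [if_neg (by have := hv.1; linarith)]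
      rw [h1, h2]
      unfold Pool.Agent.LSPO.hyp
      rw [min_eq_right (by linarith), max_eq_right (by linarith)]
      simp
    · have h1 : ∫ v in (-(1 / 2) : ℝ)..(1 / 2), st y v =
          ∫ v in (-(1 / 2) : ℝ)..(1 / 2), (0 : ℝ) := by
        apply intervalIntegral.integral_congr_ae
        filter_upwards with v hv
        rw [Set.uIoc_of_le (by norm_num)] at hv
        unfold st
        rw [if_pos (hv.2.trans h')]
      rw [h1]
      unfold Pool.Agent.LSPO.hyp
      rw [max_eq_left ((min_le_right _ _).trans (by linarith))]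
      simp

lemma exp_half : Real.exp (1 / 2) < 5 / 3 := by
  have h : Real.exp (1 / 2) ^ 2 < (5 / 3) ^ 2 := by
    rw [← Real.exp_nat_mul]
    have := Real.exp_one_lt_d9
    norm_num
    linarith
  exact lt_of_pow_lt_pow_left₀ 2 (by norm_num) h

lemma exp_bd {v : ℝ} (h2 : v ≤ 1 / 2) : Real.exp v < 5 / 3 :=
  (Real.exp_le_exp.mpr h2).trans_lt exp_half

lemma harm_cast (n : ℕ) : ((harmonic n : ℚ) : ℝ) = ∑ i ∈ Finset.Icc 1 n, 1 / (i : ℝ) := by
  rw [harmonic_eq_sum_Icc]
  push_cast
  exact Finset.sum_congr rfl fun i _ => (one_div _).symm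

/-- the sum of the step functions is a harmonic number -/
lemma sum_st {x v : ℝ} (hx : 0 < x) (h2 : v ≤ 1 / 2) :
    ∑ l ∈ Finset.Icc 1 ⌊2 * x⌋₊, 1 / (l : ℝ) * st (Real.log l - Real.log x) v =
      ((harmonic (⌈x * Real.exp v⌉₊ - 1) : ℚ) : ℝ) := by
  have hy : 0 < x * Real.exp v := by positivity
  rw [harm_cast]
  have e1 : ∑ l ∈ Finset.Icc 1 ⌊2 * x⌋₊, 1 / (l : ℝ) * st (Real.log l - Real.log x) v =
      ∑ l ∈ (Finset.Icc 1 ⌊2 * x⌋₊).filter (fun l : ℕ => (l : ℝ) < x * Real.exp v),
        1 / (l : ℝ) := by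
    rw [Finset.sum_filter]
    apply Finset.sum_congr rfl
    intro l hl
    have hl1 : (0 : ℝ) < l := by exact_mod_cast (Finset.mem_Icc.mp hl).1
    unfold st
    have key : (v ≤ Real.log l - Real.log x) ↔ ¬ ((l : ℝ) < x * Real.exp v) := by
      rw [not_lt]
      constructor
      · intro h
        have h3 : Real.log x + v ≤ Real.log l := by linarith
        have h4 := Real.exp_le_exp.mpr h3
        rwa [Real.exp_add, Real.exp_log hx, Real.exp_log hl1] at h4
      · intro h
        have h3 := Real.log_le_log hy h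
        rw [Real.log_mul hx.ne' (Real.exp_pos v).ne', Real.log_exp] at h3
        linarith
    by_cases h : (l : ℝ) < x * Real.exp v
    · rw [if_neg (by rw [key]; exact not_not_intro h), if_pos h, mul_one]
    · rw [if_pos (key.mpr h), if_neg h, mul_zero]
  rw [e1]
  apply Finset.sum_congr _ (fun _ _ => rfl)
  ext l
  simp only [Finset.mem_filter, Finset.mem_Icc]
  constructor
  · rintro ⟨⟨h1, _⟩, h3⟩
    refine ⟨h1, ?_⟩
    have := Nat.lt_ceil.mpr h3
    omega
  · rintro ⟨h1, h3⟩
    have h4 : l < ⌈x * Real.exp v⌉₊ := by omega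
    have h5 := Nat.lt_ceil.mp h4
    refine ⟨⟨h1, ?_⟩, h5⟩
    apply Nat.le_floor
    have h6 := exp_bd h2
    nlinarith [h5, h6, hx]

lemma ga_pos : 0 < ga := by
  have := Real.one_half_lt_eulerMascheroniConstant
  linarith

lemma ga_lt : ga < 2 / 3 := Real.eulerMascheroniConstant_lt_two_thirds

/-- `H(y) = log y + γ + O(1/y)` -/
lemma harm_asymp {y : ℝ} (hy : 1 / 2 < y) :
    |((harmonic (⌈y⌉₊ - 1) : ℚ) : ℝ) - (Real.log y + ga)| ≤ 2 / y := by
  have hy0 : 0 < y := by linarith
  rcases le_or_gt y 1 with h | h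
  · have h1 : ⌈y⌉₊ - 1 = 0 := by
      have : ⌈y⌉₊ ≤ 1 := Nat.ceil_le.mpr (by simpa using h)
      omega
    rw [h1, harmonic_zero]
    have h2 : Real.log y ≤ 0 := Real.log_nonpos hy0.le h
    have h3 : -1 ≤ Real.log y := by
      have h4 : Real.log (1 / 2) ≤ Real.log y := Real.log_le_log (by norm_num) hy.le
      have h5 : Real.log (1 / 2) = - Real.log 2 := by
        rw [one_div, Real.log_inv]
      have := Real.log_two_lt_d9
      linarith
    have h6 : 2 ≤ 2 / y := by
      rw [le_div_iff₀ hy0]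
      linarith
    have := ga_pos
    have := ga_lt
    rw [abs_le]
    constructor
    · push_cast
      linarith
    · push_cast
      linarith
  · set n : ℕ := ⌈y⌉₊ - 1 with hn
    have hc : 2 ≤ ⌈y⌉₊ := Nat.lt_ceil.mpr (by simpa using h)
    have hn1 : 1 ≤ n := by omega
    have hn2 : (n : ℝ) < y := Nat.lt_ceil.mp (by omega)
    have hn3 : y ≤ n + 1 := by
      have h1 : y ≤ (⌈y⌉₊ : ℝ) := Nat.le_ceil y
      have h2 : ⌈y⌉₊ = n + 1 := by omega
      rw [h2] at h1
      push_cast at h1
      exact h1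
    have hn0 : (0 : ℝ) < n := by exact_mod_cast hn1
    have hn1' : (1 : ℝ) ≤ n := by exact_mod_cast hn1
    have ha := Real.eulerMascheroniSeq_lt_eulerMascheroniConstant n
    have hb := Real.eulerMascheroniConstant_lt_eulerMascheroniSeq' n
    unfold Real.eulerMascheroniSeq at ha
    unfold Real.eulerMascheroniSeq' at hb
    rw [if_neg (by omega)] at hb
    have hl1 : Real.log (n + 1) - Real.log y ≤ 1 / y := by
      rw [← Real.log_div (by positivity) hy0.ne']
      have h1 := Real.log_le_sub_one_of_pos (x := ((n : ℝ) + 1) / y) (by positivity)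
      have h2 : ((n : ℝ) + 1) / y - 1 ≤ 1 / y := by
        rw [div_sub_one hy0.ne']
        gcongr
        linarith
      linarith
    have hl2 : Real.log y - Real.log n ≤ 2 / y := by
      rw [← Real.log_div hy0.ne' hn0.ne']
      have h1 := Real.log_le_sub_one_of_pos (x := y / n) (by positivity)
      have h2 : y / n - 1 ≤ 2 / y := by
        rw [div_sub_one hn0.ne', div_le_div_iff₀ hn0 hy0]
        nlinarith
      linarith
    have h3 : 1 / y ≤ 2 / y := by gcongr; norm_num
    rw [abs_le]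
    constructor
    · linarith
    · linarith

end HAR62

open HAR62

theorem hf_nonneg_pr (x : ℝ) : 0 ≤ Hf x := by
  unfold Hf
  exact Finset.sum_nonneg fun l _ => mul_nonneg (by positivity) (hyp_nonneg _)

theorem hf_asymp_pr {x : ℝ} (hx : 1 ≤ x) : |Hf x - (Real.log x + ga)| ≤ 4 / x := by
  have hx0 : 0 < x := by linarith
  set S : ℝ → ℝ := fun v => ∑ l ∈ Finset.Icc 1 ⌊2 * x⌋₊,
    1 / (l : ℝ) * st (Real.log l - Real.log x) v with hS
  have hSi : IntervalIntegrable S volume (-(1 / 2)) (1 / 2) := by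
    apply Monotone.intervalIntegrable
    intro a b hab
    rw [hS]
    exact Finset.sum_le_sum fun l _ => mul_le_mul_of_nonneg_left (st_mono _ hab) (by positivity)
  have e1 : Hf x = ∫ v in (-(1 / 2) : ℝ)..(1 / 2), S v := by
    rw [hS, intervalIntegral.integral_finsetSum (fun l _ => (st_int _ _ _).const_mul _)]
    unfold Hf
    apply Finset.sum_congr rfl
    intro l _
    rw [intervalIntegral.integral_const_mul, int_st]
  have e2 : Real.log x + ga = ∫ v in (-(1 / 2) : ℝ)..(1 / 2), (Real.log x + ga + v) := by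
    rw [intervalIntegral.integral_add (by simp) (by simp)]
    simp
    norm_num
  have hci : IntervalIntegrable (fun v : ℝ => Real.log x + ga + v) volume (-(1 / 2)) (1 / 2) :=
    (continuous_const.add continuous_id).intervalIntegrable _ _
  rw [e1, e2, ← intervalIntegral.integral_sub hSi hci]
  have hb : ∀ v ∈ Set.uIoc (-(1 / 2) : ℝ) (1 / 2), ‖S v - (Real.log x + ga + v)‖ ≤ 4 / x := by
    intro v hv
    rw [Set.uIoc_of_le (by norm_num)] at hv
    have h1 : S v = ((harmonic (⌈x * Real.exp v⌉₊ - 1) : ℚ) : ℝ) := sum_st hx0 hv.2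
    have h5 : 3 / 5 < Real.exp v := by
      have h6 : Real.exp (-(1 / 2)) < Real.exp v := Real.exp_lt_exp.mpr hv.1
      have h7 : 3 / 5 < Real.exp (-(1 / 2)) := by
        rw [Real.exp_neg, lt_inv_comm₀ (by norm_num) (Real.exp_pos _)]
        exact exp_half.trans_le (by norm_num)
      linarith
    have h2 := harm_asymp (y := x * Real.exp v) (by nlinarith)
    rw [Real.log_mul hx0.ne' (Real.exp_pos v).ne', Real.log_exp] at h2
    rw [h1, Real.norm_eq_abs]
    have h3 : Real.log x + ga + v = Real.log x + v + ga := by ring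
    rw [h3]
    refine h2.trans ?_
    rw [div_le_div_iff₀ (by positivity) hx0]
    nlinarith
  have := intervalIntegral.norm_integral_le_of_norm_le_const hb
  rw [Real.norm_eq_abs] at this
  norm_num at this
  norm_num
  exact this

theorem hf_le_pr {x : ℝ} (hx : 1 ≤ x) : Hf x ≤ 4 * (1 + Real.log x) := by
  have h1 : Hf x ≤ ((harmonic ⌊2 * x⌋₊ : ℚ) : ℝ) := by
    rw [harm_cast]
    unfold Hf
    apply Finset.sum_le_sum
    intro l _
    exact mul_le_of_le_one_right (by positivity) (hyp_le_one _)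
  have h2 := harmonic_floor_le_one_add_log (2 * x) (by linarith)
  rw [Real.log_mul (by norm_num) (by linarith)] at h2
  have h3 := Real.log_two_lt_d9
  have h4 := Real.log_nonneg hx
  linarith

theorem hf_zero_pr {x : ℝ} (hx : x ≤ 1 / 2) : Hf x = 0 := by
  unfold Hf
  apply Finset.sum_eq_zero
  intro l hl
  have hl' := Finset.mem_Icc.mp hl
  have h1 : 1 ≤ ⌊2 * x⌋₊ := hl'.1.trans hl'.2
  have h2 : (1 : ℝ) ≤ 2 * x := by
    have := (Nat.one_le_floor_iff (2 * x)).mp h1
    exact this
  have h3 : x = 1 / 2 := by linarith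
  have h4 : ⌊2 * x⌋₊ = 1 := by rw [h3]; norm_num
  have h5 : l = 1 := by omega
  rw [h5, h3]
  have h6 : hyp (Real.log ((1 : ℕ) : ℝ) - Real.log (1 / 2)) = 0 := by
    unfold Pool.Agent.LSPO.hyp
    apply max_eq_left
    refine (min_le_right _ _).trans ?_
    rw [one_div, Real.log_inv]
    have := Real.log_two_gt_d9
    simp
    linarith
  rw [h6, mul_zero]

theorem hf_le'_pr {x : ℝ} (hx : x ≤ 1) : Hf x ≤ 4 := by
  unfold Hf
  have h0 : ⌊2 * x⌋₊ ≤ 2 := by
    apply Nat.floor_le_of_le
    push_cast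
    linarith
  calc ∑ l ∈ Finset.Icc 1 ⌊2 * x⌋₊, 1 / (l : ℝ) * hyp (Real.log l - Real.log x)
      ≤ ∑ l ∈ Finset.Icc 1 ⌊2 * x⌋₊, (1 : ℝ) := by
        apply Finset.sum_le_sum
        intro l hl
        have hl1 : (1 : ℝ) ≤ l := by exact_mod_cast (Finset.mem_Icc.mp hl).1
        have h1 : 1 / (l : ℝ) ≤ 1 := by
          rw [div_le_one (by linarith)]
          exact hl1
        calc 1 / (l : ℝ) * hyp (Real.log l - Real.log x) ≤ 1 * 1 :=
              mul_le_mul h1 (hyp_le_one _) (hyp_nonneg _) (by norm_num)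
          _ = 1 := by norm_num
    _ = (⌊2 * x⌋₊ : ℝ) := by simp
    _ ≤ 4 := by
        have : ((⌊2 * x⌋₊ : ℕ) : ℝ) ≤ 2 := by exact_mod_cast h0
        linarith


alias hf_asymp := hf_asymp_pr
alias hf_nonneg := hf_nonneg_pr
alias hf_le := hf_le_pr
alias hf_zero := hf_zero_pr
alias hf_le' := hf_le'_pr

end Pool.Agent.LSPP
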