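import Pool.Agent.Lib_helper15.LSP.DefsP
import Pool.Agent.Lib_helper15.LSPF.GIN

set_option autoImplicit false

namespace Pool.Agent.LSPP

open Pool.Agent.LSP (tau sg1 CC Gs Adm)
open Pool.Agent.LSPO (hyp cl KK rho b1 GOK)
open Pool.Agent.FG61 (mu phi cc)
open MeasureTheory Filter Topology

theorem pol_fold {H : ℝ → ℝ} (hi : Integrable H) :
    ∫ w in Set.Ioi (0 : ℝ), (H w + H (-w)) = ∫ w : ℝ, H w := by
  have h1 : IntegrableOn (fun w => H (-w)) (Set.Ioi (0 : ℝ)) := hi.comp_neg.integrableOn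
  have h2 : IntegrableOn H (Set.Ioi (0 : ℝ)) := hi.integrableOn
  rw [integral_add h2 h1, integral_comp_neg_Ioi (0 : ℝ) H, neg_zero, add_comm]
  exact intervalIntegral.integral_Iic_add_Ioi hi.integrableOn hi.integrableOn

theorem pol_half {F : ℝ → ℝ} (h1 : Integrable F) (h2 : Integrable (fun w => F w * Real.log |w|))
    (A B : ℝ) : ∫ w in Set.Ioi (0 : ℝ), (F w + F (-w)) * (A + B * Real.log w) =
      A * (∫ w : ℝ, F w) + B * ∫ w : ℝ, F w * Real.log |w| := by
  rw [← pol_fold h1, ← pol_fold h2, ← integral_const_mul, ← integral_const_mul,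
    ← integral_add]
  · refine setIntegral_congr_fun measurableSet_Ioi ?_
    intro w hw
    have hw' : (0 : ℝ) < w := hw
    simp only
    rw [abs_neg, abs_of_pos hw']
    ring
  · exact ((h1.integrableOn).add (h1.comp_neg.integrableOn)).const_mul A
  · exact ((h2.integrableOn).add (h2.comp_neg.integrableOn)).const_mul B

theorem pol_pr {G : ℝ → ℝ} {U c₀ : ℝ} (hG : GOK G U c₀) (ha : ∀ u, G (1 - u) = - G u) {n c : ℕ}
    (hn : 1 ≤ n) (hc : 1 ≤ c) {X : ℝ} (hX : 0 < X) :
    (Real.log n / 2 + ga - Real.log c) *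
        (∫ w in Set.Ioi (0 : ℝ), (G w + G (-w)) * Mc c (n / X * w) / w) +
      (∫ w in Set.Ioi (0 : ℝ), (G1 G w + G1 G (-w)) * Mc c (n / X * w) / w) =
      phi c / c * (n / X) * (kapG G / 2) * (I1 * Real.log X - I2) := by
  obtain ⟨i1, i2, i3, i4⟩ := g_int hG
  obtain ⟨v1, v2, v3⟩ := g_vals hG ha
  have hn0 : (0 : ℝ) < n := by exact_mod_cast hn
  have hy : (0 : ℝ) < n / X := by positivity
  have key : ∀ F : ℝ → ℝ, ∫ w in Set.Ioi (0 : ℝ), (F w + F (-w)) * Mc c (n / X * w) / w =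
      ∫ w in Set.Ioi (0 : ℝ), (F w + F (-w)) *
        (phi c / c * (n / X) * (I1 * (Real.log (n / X) + 2 * ga - 2 * Real.log c) + I2) +
          phi c / c * (n / X) * I1 * Real.log w) := by
    intro F
    refine setIntegral_congr_fun measurableSet_Ioi ?_
    intro w hw
    have hw' : (0 : ℝ) < w := hw
    simp only
    unfold Mc
    rw [Real.log_mul hy.ne' hw'.ne']
    field_simp
    ring
  rw [key G, key (G1 G), pol_half i1 i3, pol_half i2 i4, v1, v2, v3]
  have hk : ∫ w : ℝ, G w * Real.log |w| = kapG G := rfl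
  rw [hk, Real.log_div hn0.ne' hX.ne']
  ring

alias pol := pol_pr

end Pool.Agent.LSPP
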