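import Pool.Agent.Lib_helper15.LSP.DefsP
import Pool.Agent.Lib_helper15.LSPF.DDC
import Pool.Agent.Lib_helper15.LSPF.GIN

/-! Part P, block RRB: the remainder integrals. -/

set_option autoImplicit false

namespace Pool.Agent.LSPP

open Pool.Agent.LSP (tau sg1 CC Gs Adm)
open Pool.Agent.LSPO (hyp cl KK rho b1 GOK)
open Pool.Agent.FG61 (mu phi cc)
open MeasureTheory Filter Topology

theorem rrb_min {x L : ℝ} (hx : 0 < x) (hL : 1 ≤ L) :
    min 1 (Real.sqrt x) ≤ x ^ (1 / (2 * L)) := by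
  have hL0 : 0 < 2 * L := by linarith
  rcases le_total 1 x with h | h
  · exact (min_le_left _ _).trans (Real.one_le_rpow h (by positivity))
  · refine (min_le_right _ _).trans ?_
    rw [Real.sqrt_eq_rpow]
    apply Real.rpow_le_rpow_of_exponent_ge hx h
    rw [div_le_div_iff₀ hL0 (by norm_num : (0 : ℝ) < 2)]
    linarith

theorem rrb_ints {G : ℝ → ℝ} {U c₀ : ℝ} (hG : GOK G U c₀) {F : ℝ → ℝ} (hF : F = G ∨ F = G1 G) :
    Integrable F ∧ Integrable (fun w => F w * Real.log |w|) := by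
  obtain ⟨h1, h2, h3, h4⟩ := g_int hG
  rcases hF with rfl | rfl
  · exact ⟨h1, h3⟩
  · exact ⟨h2, h4⟩

/-- the pointwise bound of the integrand -/
theorem rrb_pt {A : ℝ} {L y w a r : ℝ} (hL : 1 ≤ L) (hy : 0 < y) (hw : 0 < w) (hA : 0 ≤ A)
    (hr : |r| ≤ A * min 1 (Real.sqrt (y * w))) :
    |a * r / w| ≤ A * y ^ (1 / (2 * L)) * (|a| * w ^ (1 / (2 * L) - 1)) := by
  have h1 : |r| ≤ A * (y * w) ^ (1 / (2 * L)) :=
    hr.trans (mul_le_mul_of_nonneg_left (rrb_min (mul_pos hy hw) hL) hA)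
  rw [Real.mul_rpow hy.le hw.le] at h1
  have h2 : w ^ (1 / (2 * L) - 1) = w ^ (1 / (2 * L)) / w := by
    rw [Real.rpow_sub hw, Real.rpow_one]
  rw [abs_div, abs_mul, abs_of_pos hw, h2]
  have h3 : A * y ^ (1 / (2 * L)) * (|a| * (w ^ (1 / (2 * L)) / w)) =
      |a| * (A * (y ^ (1 / (2 * L)) * w ^ (1 / (2 * L)))) / w := by ring
  rw [h3]
  gcongr

theorem rrb_aesm {F : ℝ → ℝ} (h : Integrable F) :
    AEStronglyMeasurable (fun w => F w + F (-w)) (volume.restrict (Set.Ioi (0 : ℝ))) :=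
  ((h.add h.comp_neg).aestronglyMeasurable).restrict

theorem rrb_int {G : ℝ → ℝ} {U c₀ : ℝ} (hG : GOK G U c₀) {F : ℝ → ℝ} (hF : F = G ∨ F = G1 G)
    {c : ℕ} (hc : 1 ≤ c) {y : ℝ} (hy : 0 < y) :
    IntegrableOn (fun w => (F w + F (-w)) * Rc c (y * w) / w) (Set.Ioi 0) := by
  obtain ⟨K, hK, hR⟩ := rc_bd
  obtain ⟨K', hK', hW⟩ := g_wt hG
  have hA : 0 ≤ K * c * tau c ^ 3 := by
    have : 0 ≤ tau c := by unfold tau; positivity
    positivity
  have h1 := (hW F hF 1 le_rfl).1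
  refine Integrable.mono' (h1.const_mul (K * c * tau c ^ 3 * y ^ (1 / (2 * (1 : ℝ))))) ?_ ?_
  · have hm : Measurable (fun w => Rc c (y * w)) := (rc_meas c).comp (measurable_const.mul measurable_id)
    exact ((rrb_aesm (rrb_ints hG hF).1).mul hm.aestronglyMeasurable).mul
      (measurable_inv.aestronglyMeasurable) |>.congr
      (Eventually.of_forall fun w => by simp [div_eq_mul_inv])
  · refine (ae_restrict_iff' measurableSet_Ioi).2 (Eventually.of_forall fun w hw => ?_)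
    rw [Real.norm_eq_abs]
    exact rrb_pt le_rfl hy hw hA ((hR c hc).1 _ (mul_pos hy hw))

theorem rr_split_pr {G : ℝ → ℝ} {U c₀ : ℝ} (hG : GOK G U c₀) {F : ℝ → ℝ} (hF : F = G ∨ F = G1 G)
    {c : ℕ} (hc : 1 ≤ c) {y : ℝ} (hy : 0 < y) :
    ∫ w in Set.Ioi (0 : ℝ), (F w + F (-w)) * DDc c (y * w) / w =
      (∫ w in Set.Ioi (0 : ℝ), (F w + F (-w)) * Mc c (y * w) / w) + RR F c y := by
  obtain ⟨h1, h2⟩ := rrb_ints hG hF
  have hi1 : IntegrableOn (fun w => F w + F (-w)) (Set.Ioi (0 : ℝ)) :=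
    (h1.add h1.comp_neg).integrableOn
  have hi2 : IntegrableOn (fun w => (F w + F (-w)) * Real.log w) (Set.Ioi (0 : ℝ)) := by
    have h3 : Integrable (fun w => F w * Real.log |w| + F (-w) * Real.log |(-w)|) :=
      h2.add h2.comp_neg
    refine h3.integrableOn.congr_fun (fun w _ => ?_) measurableSet_Ioi
    simp only [abs_neg, Real.log_abs]
    ring
  have hM : IntegrableOn (fun w => (F w + F (-w)) * Mc c (y * w) / w) (Set.Ioi (0 : ℝ)) := by
    have h4 : IntegrableOn (fun w => phi c / c * y *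
        (I1 * (Real.log y + 2 * ga - 2 * Real.log c) + I2) * (F w + F (-w)) +
        phi c / c * y * I1 * ((F w + F (-w)) * Real.log w)) (Set.Ioi (0 : ℝ)) :=
      (hi1.const_mul _).add (hi2.const_mul _)
    refine h4.congr_fun (fun w hw => ?_) measurableSet_Ioi
    have hw' : (0 : ℝ) < w := hw
    unfold Mc
    simp only []
    rw [Real.log_mul hy.ne' hw'.ne']
    field_simp
    ring
  unfold RR
  rw [← integral_add hM (rrb_int hG hF hc hy)]
  refine setIntegral_congr_fun measurableSet_Ioi (fun w _ => ?_)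
  simp only [Rc]
  ring

theorem rr_bd_pr {G : ℝ → ℝ} {U c₀ : ℝ} (hG : GOK G U c₀) : ∃ K : ℝ, 1 ≤ K ∧ ∀ F : ℝ → ℝ,
    (F = G ∨ F = G1 G) → ∀ c : ℕ, 1 ≤ c → ∀ L : ℝ, 1 ≤ L →
    (∀ y : ℝ, 0 < y → |RR F c y| ≤ K * c * tau c ^ 3 * L ^ 3 * y ^ (1 / (2 * L))) ∧
    ∀ y₁ y₂ : ℝ, 0 < y₁ → y₁ ≤ y₂ → y₂ ≤ 2 * y₁ →
      |RR F c y₂ - RR F c y₁| ≤
        K * c * tau c ^ 3 * L ^ 3 * y₁ ^ (1 / (2 * L)) * ((y₂ - y₁) / y₁) := by
  obtain ⟨K, hK, hR⟩ := rc_bd
  obtain ⟨K', hK', hW⟩ := g_wt hG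
  refine ⟨K * K', by nlinarith, fun F hF c hc L hL => ?_⟩
  have hT : 0 ≤ tau c := by unfold tau; positivity
  have hA : 0 ≤ K * c * tau c ^ 3 := by positivity
  obtain ⟨hw1, hw2⟩ := hW F hF L hL
  have key : ∀ (f : ℝ → ℝ) (B : ℝ), 0 ≤ B →
      (∀ w, 0 < w → |f w| ≤ B * (|F w + F (-w)| * w ^ (1 / (2 * L) - 1))) →
      |∫ w in Set.Ioi (0 : ℝ), f w| ≤ B * (K' * L ^ 3) := by
    intro f B hB hf
    have h1 : |∫ w in Set.Ioi (0 : ℝ), f w| ≤
        ∫ w in Set.Ioi (0 : ℝ), B * (|F w + F (-w)| * w ^ (1 / (2 * L) - 1)) := by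
      rw [← Real.norm_eq_abs]
      refine norm_integral_le_of_norm_le (hw1.const_mul B) ?_
      refine (ae_restrict_iff' measurableSet_Ioi).2 (Eventually.of_forall fun w hw => ?_)
      rw [Real.norm_eq_abs]
      exact hf w hw
    refine h1.trans ?_
    rw [integral_const_mul]
    exact mul_le_mul_of_nonneg_left hw2 hB
  constructor
  · intro y hy
    have h := key (fun w => (F w + F (-w)) * Rc c (y * w) / w)
      (K * c * tau c ^ 3 * y ^ (1 / (2 * L))) (by positivity)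
      (fun w hw => rrb_pt hL hy hw hA ((hR c hc).1 _ (mul_pos hy hw)))
    unfold RR
    refine h.trans (le_of_eq ?_)
    ring
  · intro y₁ y₂ h1 h12 h2
    have hy2 : 0 < y₂ := h1.trans_le h12
    have hd : 0 ≤ (y₂ - y₁) / y₁ := div_nonneg (by linarith) h1.le
    have h := key (fun w => (F w + F (-w)) * (Rc c (y₂ * w) - Rc c (y₁ * w)) / w)
      (K * c * tau c ^ 3 * ((y₂ - y₁) / y₁) * y₁ ^ (1 / (2 * L))) (by positivity)
      (fun w hw => by
        refine rrb_pt hL h1 hw (by positivity) ?_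
        have h3 := (hR c hc).2 (y₁ * w) (y₂ * w) (mul_pos h1 hw)
          (mul_le_mul_of_nonneg_right h12 hw.le) (by nlinarith)
        refine h3.trans (le_of_eq ?_)
        have h4 : (y₂ * w - y₁ * w) / (y₁ * w) = (y₂ - y₁) / y₁ := by
          have hw' : w ≠ 0 := ne_of_gt hw
          field_simp
        rw [h4]
        ring)
    have h5 : RR F c y₂ - RR F c y₁ =
        ∫ w in Set.Ioi (0 : ℝ), (F w + F (-w)) * (Rc c (y₂ * w) - Rc c (y₁ * w)) / w := by
      unfold RR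
      rw [← integral_sub (rrb_int hG hF hc hy2) (rrb_int hG hF hc h1)]
      refine setIntegral_congr_fun measurableSet_Ioi (fun w _ => ?_)
      ring
    rw [h5]
    refine h.trans (le_of_eq ?_)
    ring

alias rr_split := rr_split_pr
alias rr_bd := rr_bd_pr

end Pool.Agent.LSPP
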