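import Pool.Agent.Lib_helper15.LSP.DefsP

set_option autoImplicit false

namespace Pool.Agent.LSPP

open Pool.Agent.LSP (tau sg1 CC Gs Adm)
open Pool.Agent.LSPO (hyp cl KK rho b1 GOK)
open Pool.Agent.FG61 (mu phi cc)
open MeasureTheory Filter Topology

theorem sia_mu_le (k : ℕ) : |mu k| ≤ 1 := by
  have h := ArithmeticFunction.abs_moebius_le_one (n := k)
  unfold mu
  exact_mod_cast h

theorem sia_sum1 : Summable fun k : ℕ => 1 / ((k : ℝ) + 1) ^ 2 := by
  have := (summable_nat_add_iff 1).mpr (Real.summable_one_div_nat_pow.mpr (by norm_num : 1 < 2))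
  simpa using this

theorem sia_sum : Summable fun k : ℕ => mu (k + 1) / ((k : ℝ) + 1) ^ 2 := by
  refine Summable.of_norm_bounded sia_sum1 fun k => ?_
  rw [norm_div, Real.norm_eq_abs, Real.norm_eq_abs,
    abs_of_pos (by positivity : (0 : ℝ) < ((k : ℝ) + 1) ^ 2)]
  exact div_le_div_of_nonneg_right (sia_mu_le _) (by positivity)

/-- telescoping bound -/
theorem sia_tel (m N : ℕ) : ∑ k ∈ Finset.range (N + 1), 1 / (((k + m : ℕ) : ℝ) + 1) ^ 2 ≤
    2 / ((m : ℝ) + 1) - 1 / ((m : ℝ) + N + 1) := by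
  induction N with
  | zero =>
    rw [Finset.sum_range_one]
    have h : (0 : ℝ) < (m : ℝ) + 1 := by positivity
    push_cast
    rw [zero_add, add_zero, ← sub_div, div_le_div_iff₀ (by positivity) h]
    have : (0 : ℝ) ≤ m := by positivity
    nlinarith
  | succ N ih =>
    rw [Finset.sum_range_succ]
    push_cast at ih ⊢
    have hm : (0 : ℝ) ≤ m := by positivity
    have hN : (0 : ℝ) ≤ N := by positivity
    have h1 : 1 / ((N : ℝ) + 1 + m + 1) ^ 2 ≤ 1 / ((m : ℝ) + N + 1) - 1 / ((m : ℝ) + (N + 1) + 1) := by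
      rw [div_sub_div _ _ (by positivity) (by positivity), div_le_div_iff₀ (by positivity) (by positivity)]
      nlinarith [mul_nonneg hm hN]
    linarith

theorem sia_tail (m : ℕ) : |∑ k ∈ Finset.range m, mu (k + 1) / ((k : ℝ) + 1) ^ 2 -
    ∑' k : ℕ, mu (k + 1) / ((k : ℝ) + 1) ^ 2| ≤ 2 / ((m : ℝ) + 1) := by
  have h := sia_sum.sum_add_tsum_nat_add m
  have h1 : ∑ k ∈ Finset.range m, mu (k + 1) / ((k : ℝ) + 1) ^ 2 -
      ∑' k : ℕ, mu (k + 1) / ((k : ℝ) + 1) ^ 2 =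
      - ∑' k : ℕ, mu (k + m + 1) / (((k + m : ℕ) : ℝ) + 1) ^ 2 := by
    rw [← h]; ring
  rw [h1, abs_neg]
  have hs : Summable fun k : ℕ => 1 / (((k + m : ℕ) : ℝ) + 1) ^ 2 := by
    have := (summable_nat_add_iff m).mpr sia_sum1
    exact this
  have hb : ∀ k : ℕ, ‖mu (k + m + 1) / (((k + m : ℕ) : ℝ) + 1) ^ 2‖ ≤
      1 / (((k + m : ℕ) : ℝ) + 1) ^ 2 := by
    intro k
    rw [norm_div, Real.norm_eq_abs, Real.norm_eq_abs,
      abs_of_pos (by positivity : (0 : ℝ) < (((k + m : ℕ) : ℝ) + 1) ^ 2)]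
    exact div_le_div_of_nonneg_right (sia_mu_le _) (by positivity)
  have h2 := tsum_of_norm_bounded hs.hasSum hb
  rw [Real.norm_eq_abs] at h2
  refine h2.trans ?_
  apply Real.tsum_le_of_sum_range_le
  · intro n; positivity
  · intro n
    rcases n with _ | n
    · simp; positivity
    · refine (sia_tel m n).trans ?_
      have : (0 : ℝ) ≤ 1 / ((m : ℝ) + n + 1) := by positivity
      linarith

theorem sia_inner (R d : ℕ) (hd : 1 ≤ d) :
    ∑ c ∈ (Finset.Icc 1 R).filter (fun c => d ∣ c), (d : ℝ) * mu (c / d) / (c : ℝ) ^ 2 =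
      1 / (d : ℝ) * ∑ k ∈ Finset.range (R / d), mu (k + 1) / ((k : ℝ) + 1) ^ 2 := by
  have h1 : (Finset.Icc 1 R).filter (fun c => d ∣ c) =
      (Finset.range (R / d)).image (fun k => d * (k + 1)) := by
    ext c
    simp only [Finset.mem_filter, Finset.mem_Icc, Finset.mem_image, Finset.mem_range]
    constructor
    · rintro ⟨⟨h1, h2⟩, a, rfl⟩
      rcases a with _ | a
      · simp at h1
      refine ⟨a, ?_, rfl⟩
      exact (Nat.le_div_iff_mul_le hd).mpr (by rw [mul_comm]; exact h2)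
    · rintro ⟨a, h1, rfl⟩
      refine ⟨⟨Nat.mul_pos hd (by omega), ?_⟩, dvd_mul_right d _⟩
      have := (Nat.le_div_iff_mul_le hd).mp (show a + 1 ≤ R / d from h1)
      rwa [mul_comm] at this
  rw [h1, Finset.sum_image, Finset.mul_sum]
  · refine Finset.sum_congr rfl fun k _ => ?_
    rw [Nat.mul_div_cancel_left _ hd]
    have hd0 : (d : ℝ) ≠ 0 := by positivity
    push_cast
    field_simp
  · intro a _ b _ h
    have := Nat.eq_of_mul_eq_mul_left hd h
    omega

theorem ram_sigma_pr : ∃ M : ℝ, ∀ n R : ℕ, 1 ≤ n → 1 ≤ R →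
    |∑ c ∈ Finset.Icc 1 R, cc c n / (c : ℝ) ^ 2 - M * (sg1 n / n)| ≤ 2 * tau n / R := by
  refine ⟨∑' k : ℕ, mu (k + 1) / ((k : ℝ) + 1) ^ 2, fun n R hn hR => ?_⟩
  set M := ∑' k : ℕ, mu (k + 1) / ((k : ℝ) + 1) ^ 2 with hM
  have h1 : ∑ c ∈ Finset.Icc 1 R, cc c n / (c : ℝ) ^ 2 = ∑ d ∈ n.divisors,
      1 / (d : ℝ) * ∑ k ∈ Finset.range (R / d), mu (k + 1) / ((k : ℝ) + 1) ^ 2 := by
    have h2 : ∀ c ∈ Finset.Icc 1 R, cc c n / (c : ℝ) ^ 2 =
        ∑ d ∈ n.divisors, if d ∣ c then (d : ℝ) * mu (c / d) / (c : ℝ) ^ 2 else 0 := by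
      intro c hc
      rw [Finset.mem_Icc] at hc
      have h3 : (Nat.gcd c n).divisors = n.divisors.filter (fun d => d ∣ c) := by
        ext d
        simp only [Nat.mem_divisors, Finset.mem_filter, Nat.dvd_gcd_iff]
        constructor
        · rintro ⟨⟨h, h'⟩, -⟩
          exact ⟨⟨h', by omega⟩, h⟩
        · rintro ⟨⟨h, -⟩, h'⟩
          exact ⟨⟨h', h⟩, (Nat.gcd_pos_of_pos_left _ (by omega)).ne'⟩
      unfold cc
      rw [h3, Finset.sum_div, Finset.sum_filter]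
    rw [Finset.sum_congr rfl h2, Finset.sum_comm]
    refine Finset.sum_congr rfl fun d hd => ?_
    rw [← Finset.sum_filter]
    exact sia_inner R d (Nat.pos_of_mem_divisors hd)
  have h4 : M * (sg1 n / n) = ∑ d ∈ n.divisors, 1 / (d : ℝ) * M := by
    rw [← Finset.sum_mul, mul_comm]
    congr 1
    unfold sg1
    rw [← Nat.sum_div_divisors n (fun d => 1 / (d : ℝ)), Finset.sum_div]
    refine Finset.sum_congr rfl fun d hd => ?_
    have hd' := Nat.dvd_of_mem_divisors hd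
    have hd0 : (d : ℝ) ≠ 0 := by
      have := Nat.pos_of_mem_divisors hd
      positivity
    rw [Nat.cast_div hd' hd0, one_div_div]
  rw [h1, h4, ← Finset.sum_sub_distrib]
  refine (Finset.abs_sum_le_sum_abs _ _).trans ?_
  have h5 : ∀ d ∈ n.divisors, |1 / (d : ℝ) * ∑ k ∈ Finset.range (R / d),
      mu (k + 1) / ((k : ℝ) + 1) ^ 2 - 1 / (d : ℝ) * M| ≤ 2 / R := by
    intro d hd
    have hd1 := Nat.pos_of_mem_divisors hd
    have hd0 : (0 : ℝ) < d := by exact_mod_cast hd1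
    rw [← mul_sub, abs_mul, abs_of_pos (by positivity : (0 : ℝ) < 1 / (d : ℝ))]
    have h6 := sia_tail (R / d)
    calc 1 / (d : ℝ) * _ ≤ 1 / (d : ℝ) * (2 / (((R / d : ℕ) : ℝ) + 1)) :=
          mul_le_mul_of_nonneg_left h6 (by positivity)
      _ = 2 / ((d : ℝ) * (((R / d : ℕ) : ℝ) + 1)) := by field_simp
      _ ≤ 2 / R := by
          apply div_le_div_of_nonneg_left (by norm_num) (by positivity)
          have h7 : R < d * (R / d + 1) := Nat.lt_mul_div_succ R hd1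
          have h8 : (R : ℝ) < d * ((R / d : ℕ) + 1) := by exact_mod_cast h7
          exact h8.le
  refine (Finset.sum_le_sum h5).trans ?_
  rw [Finset.sum_const, nsmul_eq_mul]
  unfold tau
  rw [mul_div_assoc', mul_comm (2 : ℝ)]

alias ram_sigma := ram_sigma_pr

end Pool.Agent.LSPP
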