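import Pool.Agent.Lib_helper15.LSP.DefsP

set_option autoImplicit false

namespace Pool.Agent.LSPP

open Pool.Agent.LSP (tau sg1 CC Gs Adm)
open Pool.Agent.LSPO (hyp cl KK rho b1 GOK)
open Pool.Agent.FG61 (mu phi cc)
open MeasureTheory Filter Topology

/-- the Hecke relation for `σ`, by an explicit bijection -/
theorem sib_hecke (a b : ℕ) (ha : 0 < a) (hb : 0 < b) :
    sg1 a * sg1 b = ∑ j ∈ (Nat.gcd a b).divisors, (j : ℝ) * sg1 (a * b / j ^ 2) := by
  unfold sg1
  rw [Finset.sum_mul_sum, ← Finset.sum_product']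
  simp_rw [Finset.mul_sum]
  rw [Finset.sum_sigma']
  have hab : Nat.gcd a b ≠ 0 := (Nat.gcd_pos_of_pos_left _ ha).ne'
  refine Finset.sum_nbij'
    (fun p => (⟨Nat.gcd (a / p.1) p.2, p.1 * p.2 / Nat.gcd (a / p.1) p.2⟩ : (_ : ℕ) × ℕ))
    (fun q => (Nat.gcd (a / q.1) q.2, q.1 * q.2 / Nat.gcd (a / q.1) q.2)) ?_ ?_ ?_ ?_ ?_
  · rintro ⟨d, e⟩ h
    rw [Finset.mem_product, Nat.mem_divisors, Nat.mem_divisors] at h
    obtain ⟨⟨⟨d', rfl⟩, -⟩, ⟨⟨e', rfl⟩, -⟩⟩ := h
    have hd : 0 < d := by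
      rcases Nat.eq_zero_or_pos d with h | h
      · subst h; simp at ha
      · exact h
    have he : 0 < e := by
      rcases Nat.eq_zero_or_pos e with h | h
      · subst h; simp at hb
      · exact h
    obtain ⟨δ, hδ⟩ := Nat.gcd_dvd_left d' e
    obtain ⟨ε, hε⟩ := Nat.gcd_dvd_right d' e
    have hj : 0 < Nat.gcd d' e := Nat.gcd_pos_of_pos_right _ he
    simp only [Finset.mem_sigma, Nat.mem_divisors, Nat.mul_div_cancel_left _ hd]
    set j := Nat.gcd d' e with hjd
    have h1 : d * e / j = d * ε := by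
      rw [hε, ← mul_assoc, mul_comm d j, mul_assoc, Nat.mul_div_cancel_left _ hj]
    have h2 : d * d' * (e * e') / j ^ 2 = (d * δ) * (ε * e') := by
      have : d * d' * (e * e') = j ^ 2 * ((d * δ) * (ε * e')) := by
        rw [hδ, hε]; ring
      rw [this, Nat.mul_div_cancel_left _ (by positivity)]
    refine ⟨⟨Nat.dvd_gcd ?_ ?_, hab⟩, ?_, ?_⟩
    · exact Dvd.dvd.mul_left (Nat.gcd_dvd_left d' e) d
    · exact Dvd.dvd.mul_right (Nat.gcd_dvd_right d' e) e'
    · rw [h1, h2]
      exact ⟨δ * e', by ring⟩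
    · rw [h2]
      have : 0 < d * d' * (e * e') := Nat.mul_pos ha hb
      intro h0
      have h3 : d * d' * (e * e') = j ^ 2 * ((d * δ) * (ε * e')) := by
        rw [hδ, hε]; ring
      rw [h3, h0] at this
      simp at this
  · rintro ⟨j, m⟩ h
    simp only [Finset.mem_sigma, Nat.mem_divisors] at h
    obtain ⟨⟨hj, -⟩, hm, h0⟩ := h
    obtain ⟨A, rfl⟩ := hj.trans (Nat.gcd_dvd_left a b)
    obtain ⟨B, rfl⟩ := hj.trans (Nat.gcd_dvd_right _ b)
    have hj0 : 0 < j := by
      rcases Nat.eq_zero_or_pos j with h | h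
      · subst h; simp at ha
      · exact h
    have hA0 : 0 < A := by
      rcases Nat.eq_zero_or_pos A with h | h
      · subst h; simp at ha
      · exact h
    have h2 : j * A * (j * B) / j ^ 2 = A * B := by
      have : j * A * (j * B) = j ^ 2 * (A * B) := by ring
      rw [this, Nat.mul_div_cancel_left _ (by positivity)]
    rw [h2] at hm h0
    obtain ⟨δ, hδ⟩ := Nat.gcd_dvd_left A m
    obtain ⟨ε, hε⟩ := Nat.gcd_dvd_right A m
    have hd0 : 0 < Nat.gcd A m := Nat.gcd_pos_of_pos_left _ hA0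
    have hco : Nat.Coprime δ ε := by
      have := Nat.coprime_div_gcd_div_gcd hd0
      rwa [Nat.div_eq_of_eq_mul_right hd0 hδ, Nat.div_eq_of_eq_mul_right hd0 hε] at this
    simp only [Finset.mem_product, Nat.mem_divisors, Nat.mul_div_cancel_left _ hj0]
    set d := Nat.gcd A m with hdd
    have hεB : ε ∣ B := by
      have h3 : d * ε ∣ d * (δ * B) := by
        rw [← mul_assoc, ← hδ, ← hε]; exact hm
      have h4 : ε ∣ δ * B := Nat.dvd_of_mul_dvd_mul_left hd0 h3
      exact hco.symm.dvd_of_dvd_mul_left h4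
    refine ⟨⟨?_, by positivity⟩, ?_, by omega⟩
    · exact Dvd.dvd.mul_left (Nat.gcd_dvd_left A m) j
    · have h5 : j * m / d = j * ε := by
        conv_lhs => rw [hε]
        rw [← mul_assoc, mul_comm j d, mul_assoc, Nat.mul_div_cancel_left _ hd0]
      rw [h5]
      exact Nat.mul_dvd_mul_left j hεB
  · rintro ⟨d, e⟩ h
    rw [Finset.mem_product, Nat.mem_divisors, Nat.mem_divisors] at h
    obtain ⟨⟨⟨d', rfl⟩, -⟩, ⟨⟨e', rfl⟩, -⟩⟩ := h
    have hd : 0 < d := by
      rcases Nat.eq_zero_or_pos d with h | h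
      · subst h; simp at ha
      · exact h
    have he : 0 < e := by
      rcases Nat.eq_zero_or_pos e with h | h
      · subst h; simp at hb
      · exact h
    obtain ⟨δ, hδ⟩ := Nat.gcd_dvd_left d' e
    obtain ⟨ε, hε⟩ := Nat.gcd_dvd_right d' e
    have hj : 0 < Nat.gcd d' e := Nat.gcd_pos_of_pos_right _ he
    have hco : Nat.Coprime δ ε := by
      have := Nat.coprime_div_gcd_div_gcd hj
      rwa [Nat.div_eq_of_eq_mul_right hj hδ, Nat.div_eq_of_eq_mul_right hj hε] at this
    simp only [Nat.mul_div_cancel_left _ hd]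
    set j := Nat.gcd d' e with hjd
    have h1 : d * e / j = d * ε := by
      rw [hε, ← mul_assoc, mul_comm d j, mul_assoc, Nat.mul_div_cancel_left _ hj]
    have h3 : d * d' / j = d * δ := by
      rw [hδ, ← mul_assoc, mul_comm d j, mul_assoc, Nat.mul_div_cancel_left _ hj]
    have h4 : Nat.gcd (d * δ) (d * ε) = d := by
      rw [Nat.gcd_mul_left, hco.gcd_eq_one, mul_one]
    rw [h1, h3, h4]
    have h5 : j * (d * ε) / d = e := by
      rw [mul_comm d ε, ← mul_assoc, Nat.mul_div_cancel _ hd, ← hε]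
    rw [h5]
  · rintro ⟨j, m⟩ h
    simp only [Finset.mem_sigma, Nat.mem_divisors] at h
    obtain ⟨⟨hj, -⟩, hm, h0⟩ := h
    obtain ⟨A, rfl⟩ := hj.trans (Nat.gcd_dvd_left a b)
    obtain ⟨B, rfl⟩ := hj.trans (Nat.gcd_dvd_right _ b)
    have hj0 : 0 < j := by
      rcases Nat.eq_zero_or_pos j with h | h
      · subst h; simp at ha
      · exact h
    have hA0 : 0 < A := by
      rcases Nat.eq_zero_or_pos A with h | h
      · subst h; simp at ha
      · exact h
    obtain ⟨δ, hδ⟩ := Nat.gcd_dvd_left A m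
    obtain ⟨ε, hε⟩ := Nat.gcd_dvd_right A m
    have hd0 : 0 < Nat.gcd A m := Nat.gcd_pos_of_pos_left _ hA0
    have hco : Nat.Coprime δ ε := by
      have := Nat.coprime_div_gcd_div_gcd hd0
      rwa [Nat.div_eq_of_eq_mul_right hd0 hδ, Nat.div_eq_of_eq_mul_right hd0 hε] at this
    simp only [Nat.mul_div_cancel_left _ hj0]
    set d := Nat.gcd A m with hdd
    have h5 : j * m / d = j * ε := by
      conv_lhs => rw [hε]
      rw [← mul_assoc, mul_comm j d, mul_assoc, Nat.mul_div_cancel_left _ hd0]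
    have h6 : j * A / d = j * δ := by
      conv_lhs => rw [hδ]
      rw [← mul_assoc, mul_comm j d, mul_assoc, Nat.mul_div_cancel_left _ hd0]
    have h7 : Nat.gcd (j * δ) (j * ε) = j := by
      rw [Nat.gcd_mul_left, hco.gcd_eq_one, mul_one]
    rw [h5, h6, h7]
    have h8 : d * (j * ε) / j = m := by
      rw [mul_comm j ε, ← mul_assoc, Nat.mul_div_cancel _ hj0, ← hε]
    rw [h8]
  · rintro ⟨d, e⟩ h
    rw [Finset.mem_product, Nat.mem_divisors, Nat.mem_divisors] at h
    obtain ⟨⟨⟨d', rfl⟩, -⟩, ⟨⟨e', rfl⟩, -⟩⟩ := h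
    have hd : 0 < d := by
      rcases Nat.eq_zero_or_pos d with h | h
      · subst h; simp at ha
      · exact h
    simp only [Nat.mul_div_cancel_left _ hd]
    rw [← Nat.cast_mul, ← Nat.cast_mul, Nat.mul_div_cancel' (Dvd.dvd.mul_left (Nat.gcd_dvd_right d' e) d)]

theorem sib_one {E : ℕ} (g : ℕ → ℝ) (hg : ∀ e, E < e → g e = 0) {j : ℕ} (hj : 1 ≤ j) :
    ∑ e ∈ (Finset.Icc 1 E).filter (fun e => j ∣ e), g e = ∑ a ∈ Finset.Icc 1 E, g (j * a) := by
  have h1 : (Finset.Icc 1 E).filter (fun e => j ∣ e) =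
      ((Finset.Icc 1 E).filter (fun a => j * a ≤ E)).image (fun a => j * a) := by
    ext e
    simp only [Finset.mem_filter, Finset.mem_Icc, Finset.mem_image]
    constructor
    · rintro ⟨⟨h1, h2⟩, a, rfl⟩
      refine ⟨a, ⟨⟨?_, ?_⟩, h2⟩, rfl⟩
      · rcases Nat.eq_zero_or_pos a with h | h
        · subst h; simp at h1
        · exact h
      · exact (Nat.le_mul_of_pos_left a hj).trans h2
    · rintro ⟨a, ⟨⟨h1, h2⟩, h3⟩, rfl⟩
      exact ⟨⟨Nat.mul_pos hj h1, h3⟩, dvd_mul_right j a⟩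
  rw [h1, Finset.sum_image]
  · rw [Finset.sum_filter]
    refine Finset.sum_congr rfl fun a _ => ?_
    split_ifs with h
    · rfl
    · rw [hg _ (by omega)]
  · intro a _ b _ h
    exact Nat.eq_of_mul_eq_mul_left hj h

theorem sib_fib {E : ℕ} (F : ℕ × ℕ → ℝ) (hF : ∀ a b, (E < a ∨ E < b) → F (a, b) = 0) :
    ∑ n ∈ Finset.Icc 1 (E ^ 2), ∑ p ∈ n.divisorsAntidiagonal, F p =
      ∑ a ∈ Finset.Icc 1 E, ∑ b ∈ Finset.Icc 1 E, F (a, b) := by
  rw [← Finset.sum_product' (Finset.Icc 1 E) (Finset.Icc 1 E) (fun a b => F (a, b))]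
  rw [← Finset.sum_fiberwise_of_maps_to (s := Finset.Icc 1 E ×ˢ Finset.Icc 1 E)
    (t := Finset.Icc 1 (E ^ 2)) (g := fun p => p.1 * p.2)]
  · refine Finset.sum_congr rfl fun n hn => ?_
    symm
    apply Finset.sum_subset
    · intro p hp
      simp only [Finset.mem_filter, Finset.mem_product, Finset.mem_Icc] at hp
      rw [Nat.mem_divisorsAntidiagonal]
      refine ⟨hp.2, ?_⟩
      have := (Finset.mem_Icc.mp hn).1
      omega
    · rintro ⟨a, b⟩ hp hp'
      rw [Nat.mem_divisorsAntidiagonal] at hp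
      simp only [Finset.mem_filter, Finset.mem_product, Finset.mem_Icc, not_and] at hp'
      apply hF
      by_contra hc
      push Not at hc
      have ha : 1 ≤ a := by
        rcases Nat.eq_zero_or_pos a with h | h
        · subst h; simp at hp; exact absurd hp.1.symm hp.2
        · exact h
      have hb : 1 ≤ b := by
        rcases Nat.eq_zero_or_pos b with h | h
        · subst h; simp at hp; exact absurd hp.1.symm hp.2
        · exact h
      exact hp' ⟨⟨ha, hc.1⟩, hb, hc.2⟩ hp.1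
  · rintro ⟨a, b⟩ hp
    simp only [Finset.mem_product, Finset.mem_Icc] at hp
    simp only [Finset.mem_Icc]
    refine ⟨Nat.mul_pos hp.1.1 hp.2.1, ?_⟩
    rw [sq]
    exact Nat.mul_le_mul hp.1.2 hp.2.2

theorem cc_sigma_pr {E : ℕ} {x : ℕ → ℝ} (hx : ∀ e, x e ≠ 0 → 1 ≤ e ∧ e ≤ E) :
    ∑ n ∈ Finset.Icc 1 (E ^ 2), CC E x n * sg1 n =
      (∑ e ∈ Finset.Icc 1 E, x e * sg1 e / e) ^ 2 := by
  have hx0 : ∀ e, E < e → x e = 0 := by
    intro e he
    by_contra h
    have := (hx e h).2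
    omega
  -- the left side
  have hL : ∑ n ∈ Finset.Icc 1 (E ^ 2), CC E x n * sg1 n =
      ∑ j ∈ Finset.Icc 1 E, ∑ a ∈ Finset.Icc 1 E, ∑ b ∈ Finset.Icc 1 E,
        (1 / (j : ℝ)) * (x (j * a) * x (j * b) / ((a * b : ℕ) : ℝ)) * sg1 (a * b) := by
    have h1 : ∀ n, CC E x n * sg1 n = ∑ j ∈ Finset.Icc 1 E, ∑ p ∈ n.divisorsAntidiagonal,
        (1 / (j : ℝ)) * (x (j * p.1) * x (j * p.2) / ((p.1 * p.2 : ℕ) : ℝ)) * sg1 (p.1 * p.2) := by
      intro n
      unfold CC
      rw [Finset.sum_mul]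
      refine Finset.sum_congr rfl fun j _ => ?_
      rw [Finset.mul_sum, Finset.sum_mul]
      refine Finset.sum_congr rfl fun p hp => ?_
      rw [(Nat.mem_divisorsAntidiagonal.mp hp).1]
    simp_rw [h1]
    rw [Finset.sum_comm]
    refine Finset.sum_congr rfl fun j hj => ?_
    have hj1 := (Finset.mem_Icc.mp hj).1
    rw [sib_fib (E := E) (fun p => (1 / (j : ℝ)) * (x (j * p.1) * x (j * p.2) /
      ((p.1 * p.2 : ℕ) : ℝ)) * sg1 (p.1 * p.2))]
    rintro a b (h | h)
    · have : x (j * a) = 0 := hx0 _ (lt_of_lt_of_le h (Nat.le_mul_of_pos_left a hj1))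
      simp [this]
    · have : x (j * b) = 0 := hx0 _ (lt_of_lt_of_le h (Nat.le_mul_of_pos_left b hj1))
      simp [this]
  rw [hL, sq, Finset.sum_mul_sum]
  -- the right side
  have hR : ∀ e ∈ Finset.Icc 1 E, ∀ f ∈ Finset.Icc 1 E,
      x e * sg1 e / e * (x f * sg1 f / f) = ∑ j ∈ Finset.Icc 1 E,
        if j ∣ e then (if j ∣ f then x e * x f / (e * f) * ((j : ℝ) * sg1 (e * f / j ^ 2)) else 0)
        else 0 := by
    intro e he f hf
    rw [Finset.mem_Icc] at he hf
    have h1 : x e * sg1 e / e * (x f * sg1 f / f) = x e * x f / (e * f) * (sg1 e * sg1 f) := by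
      rw [div_mul_div_comm, div_mul_eq_mul_div]; ring_nf
    rw [h1, sib_hecke e f (by omega) (by omega), Finset.mul_sum]
    have h2 : (Nat.gcd e f).divisors =
        (Finset.Icc 1 E).filter (fun j => j ∣ e ∧ j ∣ f) := by
      ext j
      simp only [Nat.mem_divisors, Finset.mem_filter, Finset.mem_Icc, Nat.dvd_gcd_iff]
      constructor
      · rintro ⟨h, -⟩
        exact ⟨⟨Nat.pos_of_dvd_of_pos h.1 (by omega),
          (Nat.le_of_dvd (by omega) h.1).trans he.2⟩, h⟩
      · rintro ⟨-, h⟩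
        exact ⟨h, (Nat.gcd_pos_of_pos_left _ (by omega)).ne'⟩
    rw [h2, Finset.sum_filter]
    refine Finset.sum_congr rfl fun j _ => ?_
    by_cases h3 : j ∣ e <;> by_cases h4 : j ∣ f <;> simp [h3, h4]
  rw [Finset.sum_congr rfl fun e he => Finset.sum_congr rfl fun f hf => hR e he f hf]
  symm
  calc _ = ∑ j ∈ Finset.Icc 1 E, ∑ e ∈ Finset.Icc 1 E, ∑ f ∈ Finset.Icc 1 E,
        (if j ∣ e then (if j ∣ f then x e * x f / (e * f) * ((j : ℝ) * sg1 (e * f / j ^ 2)) else 0)
        else 0) := by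
        rw [Finset.sum_congr rfl fun e _ => Finset.sum_comm, Finset.sum_comm]
    _ = _ := by
        refine Finset.sum_congr rfl fun j hj => ?_
        have hj1 := (Finset.mem_Icc.mp hj).1
        have hj0 : (j : ℝ) ≠ 0 := by positivity
        have h1 : ∀ e, (∑ f ∈ Finset.Icc 1 E, (if j ∣ e then (if j ∣ f then
            x e * x f / (e * f) * ((j : ℝ) * sg1 (e * f / j ^ 2)) else 0) else 0)) =
            if j ∣ e then (∑ b ∈ Finset.Icc 1 E,
              x e * x (j * b) / (e * ((j * b : ℕ) : ℝ)) * ((j : ℝ) * sg1 (e * (j * b) / j ^ 2)))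
            else 0 := by
          intro e
          split_ifs with h
          · rw [← Finset.sum_filter, sib_one (E := E) (fun f =>
              x e * x f / (e * f) * ((j : ℝ) * sg1 (e * f / j ^ 2))) _ hj1]
            intro f hf
            simp [hx0 f hf]
          · simp
        simp_rw [h1]
        rw [← Finset.sum_filter, sib_one (E := E) (fun e => ∑ b ∈ Finset.Icc 1 E,
              x e * x (j * b) / (e * ((j * b : ℕ) : ℝ)) * ((j : ℝ) * sg1 (e * (j * b) / j ^ 2))) _ hj1]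
        · refine Finset.sum_congr rfl fun a ha => Finset.sum_congr rfl fun b hb => ?_
          have ha1 := (Finset.mem_Icc.mp ha).1
          have hb1 := (Finset.mem_Icc.mp hb).1
          have h2 : j * a * (j * b) / j ^ 2 = a * b := by
            have : j * a * (j * b) = j ^ 2 * (a * b) := by ring
            rw [this, Nat.mul_div_cancel_left _ (by positivity)]
          rw [h2]
          have ha0 : (a : ℝ) ≠ 0 := by positivity
          have hb0 : (b : ℝ) ≠ 0 := by positivity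
          push_cast
          field_simp
        · intro e he
          simp [hx0 e he]

alias cc_sigma := cc_sigma_pr

end Pool.Agent.LSPP
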