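import Pool.Agent.Lib_helper15.LSP.DefsP

/-! LSP part P, block SUB: the substitution. -/

set_option autoImplicit false

namespace Pool.Agent.LSPP

open Pool.Agent.LSP (tau sg1 CC Gs Adm)
open Pool.Agent.LSPO (hyp cl KK rho b1 GOK)
open Pool.Agent.FG61 (mu phi cc)
open MeasureTheory Filter Topology

theorem sub_th_zero {s : ℝ} (h : s ≤ 1 / 2 ∨ 1 ≤ s) : th s = 0 := by
  unfold th
  split_ifs with hc
  · rcases h with h | h
    · have : s = 1 / 2 := le_antisymm h hc.1
      rw [this]; norm_num
    · have : s = 1 := le_antisymm hc.2 h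
      rw [this]; norm_num
  · rfl

theorem sub_th_bd (s : ℝ) : |th s| ≤ 1 := by
  unfold th
  split_ifs with hc
  · obtain ⟨h1, h2⟩ := hc
    have h3 : 0 ≤ 1 - s := by linarith
    have h4 : 1 - s ≤ 1 := by linarith
    have h5 : 0 ≤ 2 * s - 1 := by linarith
    have h6 : 2 * s - 1 ≤ 1 := by linarith
    rw [abs_of_nonneg (by positivity)]
    calc (1 - s) ^ 3 * (2 * s - 1) ^ 3 ≤ 1 * 1 :=
          mul_le_mul (pow_le_one₀ h3 h4) (pow_le_one₀ h5 h6) (by positivity) zero_le_one
      _ = 1 := one_mul 1
  · simp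

theorem sub_th_meas : Measurable th := by
  have h : th = fun s : ℝ => if (1 / 2 ≤ s ∧ s ≤ 1) then (1 - s) ^ 3 * (2 * s - 1) ^ 3 else 0 := by
    funext s
    unfold th
    rfl
  rw [h]
  refine Measurable.ite ?_ (by fun_prop) measurable_const
  exact (measurableSet_le measurable_const measurable_id).inter
    (measurableSet_le measurable_id measurable_const)

/-- the substitution for one term -/
theorem sub_one (F : ℝ → ℝ) {a : ℝ} (ha : 0 < a) :
    av (fun t => F (a * t)) = ∫ w in Set.Ioi (0 : ℝ), F w * th (a / w) / w := by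
  unfold av
  have h1 : ∀ t ∈ Set.uIcc (1 : ℝ) 2, F (a * t) * (th (1 / t) / t) =
      (fun w => F w * th (a / w) / w * a) (a * t) := by
    intro t ht
    rw [Set.uIcc_of_le (by norm_num)] at ht
    have ht0 : t ≠ 0 := by linarith [ht.1]
    show F (a * t) * (th (1 / t) / t) = F (a * t) * th (a / (a * t)) / (a * t) * a
    have e : a / (a * t) = 1 / t := by field_simp
    rw [e]
    field_simp
  rw [intervalIntegral.integral_congr h1,
    intervalIntegral.integral_comp_mul_left (fun w => F w * th (a / w) / w * a) ha.ne',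
    mul_one, intervalIntegral.integral_mul_const, smul_eq_mul]
  have e2 : a⁻¹ * ((∫ w in a..(a * 2), F w * th (a / w) / w) * a) =
      ∫ w in a..(a * 2), F w * th (a / w) / w := by field_simp
  rw [e2, intervalIntegral.integral_of_le (by linarith)]
  symm
  refine setIntegral_eq_of_subset_of_forall_sdiff_eq_zero measurableSet_Ioi ?_ ?_
  · intro w hw
    exact lt_trans ha hw.1
  · intro w hw
    have hw0 : 0 < w := hw.1
    have h3 : th (a / w) = 0 := by
      apply sub_th_zero
      by_cases h4 : a < w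
      · left
        have h5 : a * 2 < w := by
          by_contra hcon
          exact hw.2 ⟨h4, not_lt.mp hcon⟩
        rw [div_le_iff₀ hw0]
        linarith
      · right
        rw [le_div_iff₀ hw0, one_mul]
        exact not_lt.mp h4
    rw [h3, mul_zero, zero_div]

theorem sub_int {F : ℝ → ℝ} (hi : Integrable F) {a : ℝ} (ha : 0 < a) :
    IntegrableOn (fun w => F w * th (a / w) / w) (Set.Ioi 0) := by
  have h1 : ∀ w : ℝ, F w * th (a / w) / w = F w * (th (a / w) / w) := fun w => by ring
  simp_rw [h1]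
  refine Integrable.mul_bdd (c := 1 / a) hi.integrableOn ?_ ?_
  · exact ((sub_th_meas.comp (measurable_const.div measurable_id)).div
      measurable_id).aestronglyMeasurable
  · rw [ae_restrict_iff' measurableSet_Ioi]
    refine ae_of_all _ fun w hw => ?_
    have hw0 : (0 : ℝ) < w := hw
    rw [Real.norm_eq_abs, abs_div, abs_of_pos hw0]
    by_cases h2 : a < w
    · exact div_le_div₀ zero_le_one (sub_th_bd _) ha h2.le
    · have h3 : th (a / w) = 0 := by
        apply sub_th_zero
        right
        rw [le_div_iff₀ hw0, one_mul]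
        exact not_lt.mp h2
      rw [h3, abs_zero, zero_div]
      positivity

/-- pairs of opposite numbers -/
theorem sub_gs (B E : ℕ) (f : ℤ → ℝ) :
    ∑ g ∈ Gs B E, f g = ∑ g ∈ Finset.Icc 1 (B * E ^ 2), (f (g : ℤ) + f (-(g : ℤ))) := by
  set M : ℕ := B * E ^ 2 with hM
  have h1 : Gs B E = (Finset.Icc 1 M).image (fun g : ℕ => (g : ℤ)) ∪
      (Finset.Icc 1 M).image (fun g : ℕ => -(g : ℤ)) := by
    unfold Gs
    ext g
    rw [Finset.mem_erase, Finset.mem_Icc, Finset.mem_union, Finset.mem_image, Finset.mem_image,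
      ← hM]
    constructor
    · rintro ⟨h0, h1, h2⟩
      rcases lt_or_gt_of_ne h0 with h | h
      · right
        refine ⟨(-g).toNat, ?_, ?_⟩
        · rw [Finset.mem_Icc]; omega
        · omega
      · left
        refine ⟨g.toNat, ?_, ?_⟩
        · rw [Finset.mem_Icc]; omega
        · omega
    · rintro (⟨k, hk, rfl⟩ | ⟨k, hk, rfl⟩)
      · rw [Finset.mem_Icc] at hk; omega
      · rw [Finset.mem_Icc] at hk; omega
  have hd : Disjoint ((Finset.Icc 1 M).image (fun g : ℕ => (g : ℤ)))
      ((Finset.Icc 1 M).image (fun g : ℕ => -(g : ℤ))) := by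
    rw [Finset.disjoint_left]
    intro g hg hg'
    rw [Finset.mem_image] at hg hg'
    obtain ⟨k, hk, rfl⟩ := hg
    obtain ⟨l, hl, hkl⟩ := hg'
    rw [Finset.mem_Icc] at hk hl
    omega
  rw [h1, Finset.sum_union hd, Finset.sum_image (by intro a _ b _ h; simpa using h),
    Finset.sum_image (by intro a _ b _ h; simpa using h), ← Finset.sum_add_distrib]

theorem sub_av_pr {F : ℝ → ℝ} {U : ℝ} (hi : Integrable F) (hs : ∀ w, U < |w| → F w = 0)
    {B E n c : ℕ}
    (hB : U ≤ B) (hn : 1 ≤ n) (hE : n ≤ E ^ 2) {X : ℝ} (hX : 1 ≤ X) :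
    ∑ g ∈ Gs B E, tau g.natAbs * cc c g.natAbs * av (fun t => F ((g : ℝ) * (t * X) / n)) =
      ∫ w in Set.Ioi (0 : ℝ), (F w + F (-w)) * DDc c (n / X * w) / w := by
  have hn' : (0 : ℝ) < n := by exact_mod_cast hn
  have hX' : (0 : ℝ) < X := by linarith
  have hi' : Integrable (fun w => F (-w)) := hi.comp_neg
  rw [sub_gs]
  have h1 : ∀ g ∈ Finset.Icc 1 (B * E ^ 2),
      (tau ((g : ℤ)).natAbs * cc c ((g : ℤ)).natAbs *
        av (fun t => F ((((g : ℤ)) : ℝ) * (t * X) / n)) +
      tau (-(g : ℤ)).natAbs * cc c (-(g : ℤ)).natAbs *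
        av (fun t => F (((-(g : ℤ) : ℤ) : ℝ) * (t * X) / n))) =
      ∫ w in Set.Ioi (0 : ℝ), tau g * cc c g * ((F w + F (-w)) * th (g * X / n / w) / w) := by
    intro g hg
    rw [Finset.mem_Icc] at hg
    have hg' : (0 : ℝ) < g := by exact_mod_cast hg.1
    have ha : (0 : ℝ) < g * X / n := by positivity
    rw [Int.natAbs_neg, Int.natAbs_natCast]
    have e1 : (fun t : ℝ => F ((((g : ℤ)) : ℝ) * (t * X) / n)) = fun t => F (g * X / n * t) := by
      funext t
      congr 1
      push_cast
      ring
    have e2 : (fun t : ℝ => F (((-(g : ℤ) : ℤ) : ℝ) * (t * X) / n)) =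
        fun t => (fun w => F (-w)) (g * X / n * t) := by
      funext t
      show F _ = F _
      congr 1
      push_cast
      ring
    rw [e1, e2, sub_one F ha, sub_one (fun w => F (-w)) ha, ← mul_add,
      ← integral_add (sub_int hi ha) (sub_int hi' ha), integral_const_mul]
    congr 1
    refine integral_congr_ae (ae_of_all _ fun w => ?_)
    show F w * th (g * X / n / w) / w + F (-w) * th (g * X / n / w) / w =
      (F w + F (-w)) * th (g * X / n / w) / w
    ring
  rw [Finset.sum_congr rfl h1, ← integral_finsetSum]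
  · refine setIntegral_congr_fun measurableSet_Ioi fun w hw => ?_
    have hw0 : (0 : ℝ) < w := hw
    show ∑ g ∈ Finset.Icc 1 (B * E ^ 2), tau g * cc c g *
      ((F w + F (-w)) * th (g * X / n / w) / w) = (F w + F (-w)) * DDc c (n / X * w) / w
    by_cases hU : w ≤ U
    · have h2 : (F w + F (-w)) * DDc c (n / X * w) / w = ∑ g ∈ Finset.Icc 1 ⌊n / X * w⌋₊,
          tau g * cc c g * ((F w + F (-w)) * th (g * X / n / w) / w) := by
        unfold DDc
        rw [Finset.mul_sum, Finset.sum_div]
        refine Finset.sum_congr rfl fun g _ => ?_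
        have e : (g : ℝ) / (n / X * w) = g * X / n / w := by field_simp
        rw [e]
        ring
      rw [h2]
      symm
      refine Finset.sum_subset ?_ ?_
      · intro g hg
        rw [Finset.mem_Icc] at hg ⊢
        refine ⟨hg.1, ?_⟩
        have h3 : (g : ℝ) ≤ n / X * w := (Nat.le_floor_iff (by positivity)).mp hg.2
        have h4 : (n : ℝ) / X * w ≤ (E : ℝ) ^ 2 * B := by
          have h5 : (n : ℝ) / X ≤ (E : ℝ) ^ 2 := by
            have h6 : (n : ℝ) ≤ (E : ℝ) ^ 2 := by exact_mod_cast hE
            refine (div_le_self hn'.le hX).trans h6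
          exact mul_le_mul h5 (hU.trans hB) hw0.le (by positivity)
        have h7 : (g : ℝ) ≤ ((B * E ^ 2 : ℕ) : ℝ) := by
          push_cast
          linarith
        exact_mod_cast h7
      · intro g hg hg'
        rw [Finset.mem_Icc] at hg hg'
        have h3 : ¬ (g ≤ ⌊n / X * w⌋₊) := fun h => hg' ⟨hg.1, h⟩
        rw [Nat.le_floor_iff (by positivity)] at h3
        have h4 : (n : ℝ) / X * w < g := not_le.mp h3
        have h5 : th (g * X / n / w) = 0 := by
          apply sub_th_zero
          right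
          rw [le_div_iff₀ hw0, one_mul, le_div_iff₀ hn']
          have h6 : (n : ℝ) / X * w * X < g * X := mul_lt_mul_of_pos_right h4 hX'
          have h7 : (n : ℝ) / X * w * X = w * n := by field_simp
          linarith
        rw [h5]
        ring
    · have h2 : F w = 0 := hs w (by rw [abs_of_pos hw0]; exact not_le.mp hU)
      have h3 : F (-w) = 0 := hs (-w) (by rw [abs_neg, abs_of_pos hw0]; exact not_le.mp hU)
      rw [h2, h3, add_zero, zero_mul, zero_div]
      refine Finset.sum_eq_zero fun g _ => ?_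
      simp
  · intro g hg
    rw [Finset.mem_Icc] at hg
    have hg' : (0 : ℝ) < g := by exact_mod_cast hg.1
    have ha : (0 : ℝ) < g * X / n := by positivity
    refine Integrable.const_mul ?_ _
    exact sub_int (F := fun w => F w + F (-w)) (hi.add hi') ha

alias sub_av := sub_av_pr

end Pool.Agent.LSPP
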