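import Pool.Agent.Lib_helper15.LSP.DefsP
import Pool.Agent.Lib_helper15.LSPF.HAR
import Pool.Agent.Lib_helper15.LSPF.DSE
import Pool.Agent.Lib_helper15.LSPF.GCS

/-!
# LSP part P, block TRB: truncation of the sum over the moduli
-/

set_option autoImplicit false

namespace Pool.Agent.LSPP

open Pool.Agent.LSP (tau sg1 CC Gs Adm)
open Pool.Agent.LSPO (hyp cl KK rho b1 GOK)
open Pool.Agent.FG61 (mu phi cc)
open MeasureTheory Filter Topology

namespace TRB62

lemma abs_w (c n g : ℕ) : |cc c n * cc c g / (c * phi c)| = |cc c n * cc c g| / (c * phi c) := by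
  rw [abs_div, abs_of_nonneg (a := (c : ℝ) * phi c) (by positivity)]

lemma tau_nn (n : ℕ) : 0 ≤ tau n := by
  unfold Pool.Agent.LSP.tau
  positivity

end TRB62

open TRB62

theorem trb_pr : ∃ K : ℝ, 1 ≤ K ∧ ∀ {D : ℝ} {n Dl R : ℕ} {g : ℤ}, 1 ≤ n → g ≠ 0 → 1 ≤ D →
    2 * Real.sqrt D ≤ Dl → 1 ≤ R → (R : ℝ) ≤ Real.sqrt D →
    |∑ d ∈ Finset.Icc 1 Dl, rho d n g * hyp (Real.log d - Real.log D / 2) -
      ∑ c ∈ Finset.Icc 1 R, cc c n * cc c g.natAbs / (c * phi c) *
        (Real.log D / 2 + ga - Real.log c)| ≤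
      K * (1 + Real.log D) ^ 2 * tau n * tau g.natAbs * (g.natAbs / R + R / Real.sqrt D) := by
  refine ⟨128, by norm_num, ?_⟩
  intro D n Dl R g hn hg hD hDl hR hRD
  have hD0 : 0 < D := by linarith
  have hs1 : 1 ≤ Real.sqrt D := by
    rw [Real.one_le_sqrt]
    exact hD
  have hs0 : 0 < Real.sqrt D := by linarith
  set m : ℕ := ⌈2 * Real.sqrt D⌉₊ with hm
  have hm1 : 2 * Real.sqrt D ≤ m := Nat.le_ceil _
  have hm2 : (m : ℝ) ≤ 3 * Real.sqrt D := by
    have := (Nat.ceil_lt_add_one (a := 2 * Real.sqrt D) (by positivity)).le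
    linarith
  have hRm : R ≤ m := by
    have : (R : ℝ) ≤ m := by linarith
    exact_mod_cast this
  have hR0 : (0 : ℝ) < R := by exact_mod_cast hR
  have hm0 : (0 : ℝ) < m := by linarith
  have hgn : 1 ≤ g.natAbs := Int.natAbs_pos.mpr hg
  have hlD : 0 ≤ Real.log D := Real.log_nonneg hD
  have hls : Real.log (Real.sqrt D) = Real.log D / 2 := Real.log_sqrt hD0.le
  set L : ℝ := 1 + Real.log D with hL
  have hL1 : 1 ≤ L := by linarith
  set T : ℝ := tau n * tau g.natAbs with hT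
  have hT0 : 0 ≤ T := mul_nonneg (tau_nn _) (tau_nn _)
  set w : ℕ → ℝ := fun c => cc c n * cc c g.natAbs / (c * phi c) with hw
  have hlm : 1 + Real.log m ≤ 3 * L := by
    have h1 : Real.log m ≤ Real.log (3 * Real.sqrt D) := Real.log_le_log hm0 hm2
    rw [Real.log_mul (by norm_num) hs0.ne', hls] at h1
    have h2 : Real.log 3 ≤ 2 := by
      have := Real.log_le_sub_one_of_pos (x := (3 : ℝ)) (by norm_num)
      linarith
    linarith
  have hlR : 1 + Real.log R ≤ L := by
    have h1 : Real.log R ≤ Real.log (Real.sqrt D) := Real.log_le_log hR0 hRD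
    rw [hls] at h1
    linarith
  rw [dsum_eq hn hg hD0 hDl hm1]
  have hsplit : Finset.Icc 1 m = Finset.Icc 1 R ∪ Finset.Ioc R m := by
    ext c
    simp only [Finset.mem_union, Finset.mem_Icc, Finset.mem_Ioc]
    omega
  have hdisj : Disjoint (Finset.Icc 1 R) (Finset.Ioc R m) := by
    rw [Finset.disjoint_left]
    intro c h1 h2
    simp only [Finset.mem_Icc, Finset.mem_Ioc] at h1 h2
    omega
  rw [hsplit, Finset.sum_union hdisj]
  have e1 : ∑ c ∈ Finset.Icc 1 R, cc c n * cc c g.natAbs / (c * phi c) * Hf (Real.sqrt D / c) +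
      ∑ c ∈ Finset.Ioc R m, cc c n * cc c g.natAbs / (c * phi c) * Hf (Real.sqrt D / c) -
      ∑ c ∈ Finset.Icc 1 R, cc c n * cc c g.natAbs / (c * phi c) *
        (Real.log D / 2 + ga - Real.log c) =
      ∑ c ∈ Finset.Icc 1 R, w c * (Hf (Real.sqrt D / c) - (Real.log D / 2 + ga - Real.log c)) +
      ∑ c ∈ Finset.Ioc R m, w c * Hf (Real.sqrt D / c) := by
    simp only [mul_sub, Finset.sum_sub_distrib, hw]
    ring
  rw [e1]
  have b1 : |∑ c ∈ Finset.Icc 1 R, w c *
      (Hf (Real.sqrt D / c) - (Real.log D / 2 + ga - Real.log c))| ≤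
      (∑ c ∈ Finset.Icc 1 R, |w c|) * (4 * (R / Real.sqrt D)) := by
    refine (Finset.abs_sum_le_sum_abs _ _).trans ?_
    rw [Finset.sum_mul]
    apply Finset.sum_le_sum
    intro c hc
    rw [abs_mul]
    apply mul_le_mul_of_nonneg_left _ (abs_nonneg _)
    have hc' := Finset.mem_Icc.mp hc
    have hc0 : (0 : ℝ) < c := by exact_mod_cast hc'.1
    have hcR : (c : ℝ) ≤ R := by exact_mod_cast hc'.2
    have h1 : 1 ≤ Real.sqrt D / c := by
      rw [one_le_div hc0]
      exact hcR.trans hRD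
    have h2 := hf_asymp h1
    rw [Real.log_div hs0.ne' hc0.ne', hls] at h2
    have h3 : Real.log D / 2 - Real.log c + ga = Real.log D / 2 + ga - Real.log c := by ring
    rw [h3] at h2
    refine h2.trans ?_
    have h4 : 4 / (Real.sqrt D / c) = 4 * (c / Real.sqrt D) := by field_simp
    rw [h4]
    gcongr
  have b2 : ∑ c ∈ Finset.Icc 1 R, |w c| ≤ 8 * L * T := by
    have h1 := gcs_all (m := R) hn hgn
    have h2 : ∑ c ∈ Finset.Icc 1 R, |w c| =
        ∑ c ∈ Finset.Icc 1 R, |cc c n * cc c g.natAbs| / (c * phi c) :=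
      Finset.sum_congr rfl fun c _ => abs_w _ _ _
    rw [h2]
    refine h1.trans ?_
    have h3 : 8 * (1 + Real.log R) * tau n * tau g.natAbs = 8 * (1 + Real.log R) * T := by
      rw [hT]; ring
    rw [h3]
    gcongr
  have b3 : |∑ c ∈ Finset.Ioc R m, w c * Hf (Real.sqrt D / c)| ≤
      (∑ c ∈ Finset.Ioc R m, |w c|) * (4 * L) := by
    refine (Finset.abs_sum_le_sum_abs _ _).trans ?_
    rw [Finset.sum_mul]
    apply Finset.sum_le_sum
    intro c hc
    rw [abs_mul]
    apply mul_le_mul_of_nonneg_left _ (abs_nonneg _)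
    have hc' := Finset.mem_Ioc.mp hc
    have hc1 : (1 : ℝ) ≤ c := by
      have : 1 ≤ c := by omega
      exact_mod_cast this
    have hc0 : (0 : ℝ) < c := by linarith
    rw [abs_of_nonneg (hf_nonneg _)]
    rcases le_total (Real.sqrt D / c) 1 with h | h
    · exact (hf_le' h).trans (by linarith)
    · refine (hf_le h).trans ?_
      rw [Real.log_div hs0.ne' hc0.ne', hls]
      have := Real.log_nonneg hc1
      linarith
  have b4 : ∑ c ∈ Finset.Ioc R m, |w c| ≤ 24 * L * T * (g.natAbs / R) := by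
    have h1 := gcs_tail (m := m) hn hgn hR
    have h2 : ∑ c ∈ Finset.Ioc R m, |w c| =
        ∑ c ∈ Finset.Ioc R m, |cc c n * cc c g.natAbs| / (c * phi c) :=
      Finset.sum_congr rfl fun c _ => abs_w _ _ _
    rw [h2]
    refine h1.trans ?_
    have h3 : 8 * (1 + Real.log m) * tau n * tau g.natAbs * g.natAbs / R =
        8 * (1 + Real.log m) * (T * (g.natAbs / R)) := by
      rw [hT]; ring
    have h4 : 24 * L * T * (g.natAbs / R) = 8 * (3 * L) * (T * (g.natAbs / R)) := by ring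
    rw [h3, h4]
    gcongr
  have hA : 0 ≤ (g.natAbs : ℝ) / R := by positivity
  have hB : 0 ≤ (R : ℝ) / Real.sqrt D := by positivity
  calc |∑ c ∈ Finset.Icc 1 R, w c *
          (Hf (Real.sqrt D / c) - (Real.log D / 2 + ga - Real.log c)) +
        ∑ c ∈ Finset.Ioc R m, w c * Hf (Real.sqrt D / c)|
      ≤ (∑ c ∈ Finset.Icc 1 R, |w c|) * (4 * (R / Real.sqrt D)) +
        (∑ c ∈ Finset.Ioc R m, |w c|) * (4 * L) := (abs_add_le _ _).trans (add_le_add b1 b3)
    _ ≤ (8 * L * T) * (4 * (R / Real.sqrt D)) + (24 * L * T * (g.natAbs / R)) * (4 * L) := by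
        gcongr
    _ ≤ 128 * L ^ 2 * T * (g.natAbs / R + R / Real.sqrt D) := by
        have h1 : 0 ≤ T * ((R : ℝ) / Real.sqrt D) := mul_nonneg hT0 hB
        have h2 : 0 ≤ T * ((g.natAbs : ℝ) / R) := mul_nonneg hT0 hA
        have h3 : L ≤ L ^ 2 := by nlinarith
        have h5 : (0 : ℝ) ≤ L ^ 2 := by positivity
        have h4 : (8 * L * T) * (4 * (R / Real.sqrt D)) ≤
            32 * L ^ 2 * (T * ((R : ℝ) / Real.sqrt D)) := by
          calc (8 * L * T) * (4 * (R / Real.sqrt D)) = 32 * L * (T * ((R : ℝ) / Real.sqrt D)) := by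
                ring
            _ ≤ _ := by gcongr
        have h6 : 0 ≤ L ^ 2 * (T * ((R : ℝ) / Real.sqrt D)) := mul_nonneg h5 h1
        have h7 : 0 ≤ L ^ 2 * (T * ((g.natAbs : ℝ) / R)) := mul_nonneg h5 h2
        nlinarith
    _ = 128 * (1 + Real.log D) ^ 2 * tau n * tau g.natAbs * (g.natAbs / R + R / Real.sqrt D) := by
        rw [hT, hL]; ring


alias trb := trb_pr

end Pool.Agent.LSPP
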