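import Pool.Agent.Lib_helper15.LSP.DefsP
import Pool.Agent.Lib_helper15.LSPF.MEA
import Pool.Agent.Lib_helper15.LSPF.RAM
import Pool.Agent.Lib_helper15.LSPF.HAR
import Pool.Agent.Lib_helper15.LSPF.GCS
import Pool.Agent.Lib_helper15.LSPF.TAU
import Pool.Agent.Lib_helper15.LSPF.DLT
import Pool.Agent.Lib_helper15.LSPF.DSE
import Pool.Agent.Lib_helper15.LSPF.TRB
import Pool.Agent.Lib_helper15.LSPF.CCB
import Pool.Agent.Lib_helper15.LSPF.TRA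
import Pool.Agent.Lib_helper15.LSPF.AVP
import Pool.Agent.Lib_helper15.LSPF.AVG
import Pool.Agent.Lib_helper15.LSPF.SUB
import Pool.Agent.Lib_helper15.LSPF.DDO
import Pool.Agent.Lib_helper15.LSPF.DDC
import Pool.Agent.Lib_helper15.LSPF.GIN
import Pool.Agent.Lib_helper15.LSPF.POL
import Pool.Agent.Lib_helper15.LSPF.RRB
import Pool.Agent.Lib_helper15.LSPF.SIA
import Pool.Agent.Lib_helper15.LSPF.SIB
import Pool.Agent.Lib_helper15.LSPF.REM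

set_option autoImplicit false

namespace Pool.Agent.LSPP

open Pool.Agent.LSP (tau sg1 CC Gs Adm)
open Pool.Agent.LSPO (hyp cl KK rho b1 GOK)
open Pool.Agent.FG61 (mu phi cc)
open MeasureTheory Filter Topology

theorem asm_phi {c : ℕ} (hc : 1 ≤ c) : (0 : ℝ) < phi c := by
  have := Nat.totient_pos.mpr (show 0 < c by omega)
  exact_mod_cast this

/-- the exact evaluation of `M6` -/
theorem asm_m6 {G : ℝ → ℝ} {U c₀ : ℝ} (hG : GOK G U c₀) (ha : ∀ u, G (1 - u) = - G u) {B₀ : ℕ}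
    (hB : U ≤ B₀) (C : ℕ → ℝ) (E R : ℕ) {X : ℝ} (hX : 1 ≤ X) :
    M6 C G (E ^ 2) (Gs B₀ E) R X = 4 * Real.pi *
      ((kapG G / 2) * (I1 * Real.log X - I2) / X * ∑ n ∈ Finset.Icc 1 (E ^ 2), (n : ℝ) * C n *
        ∑ c ∈ Finset.Icc 1 R, cc c n / (c : ℝ) ^ 2 + M7 C G (E ^ 2) R X) := by
  have hX0 : 0 < X := by linarith
  obtain ⟨hi, hi1, -, -⟩ := g_int hG
  unfold M6 M7
  rw [Finset.mul_sum, Finset.mul_sum (a := kapG G / 2 * (I1 * Real.log X - I2) / X), mul_add,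
    Finset.mul_sum, Finset.mul_sum, ← Finset.sum_add_distrib]
  refine Finset.sum_congr rfl fun n hn => ?_
  rw [Finset.mem_Icc] at hn
  have key : ∀ c ∈ Finset.Icc 1 R, cc c n / (c * phi c) *
      ((Real.log n / 2 + ga - Real.log c) *
        ∑ g ∈ Gs B₀ E, tau g.natAbs * cc c g.natAbs * av (fun t => G ((g : ℝ) * (t * X) / n)) +
      ∑ g ∈ Gs B₀ E, tau g.natAbs * cc c g.natAbs * av (fun t => G1 G ((g : ℝ) * (t * X) / n))) =
      kapG G / 2 * (I1 * Real.log X - I2) / X * n * (cc c n / (c : ℝ) ^ 2) +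
      cc c n / (c * phi c) *
        ((Real.log n / 2 + ga - Real.log c) * RR G c (n / X) + RR (G1 G) c (n / X)) := by
    intro c hc
    rw [Finset.mem_Icc] at hc
    have hn0 : (0 : ℝ) < n := by exact_mod_cast hn.1
    have hy : 0 < (n : ℝ) / X := div_pos hn0 hX0
    rw [sub_av hi hG.supp hB hn.1 hn.2 hX, sub_av hi1 (g1_supp hG) hB hn.1 hn.2 hX,
      rr_split hG (Or.inl rfl) hc.1 hy, rr_split hG (Or.inr rfl) hc.1 hy]
    have hp := pol hG ha hn.1 hc.1 hX0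
    have e1 : (Real.log n / 2 + ga - Real.log c) *
        ((∫ w in Set.Ioi (0 : ℝ), (G w + G (-w)) * Mc c (n / X * w) / w) + RR G c (n / X)) +
        ((∫ w in Set.Ioi (0 : ℝ), (G1 G w + G1 G (-w)) * Mc c (n / X * w) / w) +
          RR (G1 G) c (n / X)) =
        phi c / c * (n / X) * (kapG G / 2) * (I1 * Real.log X - I2) +
        ((Real.log n / 2 + ga - Real.log c) * RR G c (n / X) + RR (G1 G) c (n / X)) := by
      rw [← hp]; ring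
    rw [e1, mul_add]
    congr 1
    have h1 : (phi c) ≠ 0 := (asm_phi hc.1).ne'
    have h2 : (c : ℝ) ≠ 0 := by exact_mod_cast (show c ≠ 0 by omega)
    field_simp
  rw [Finset.sum_congr rfl key, Finset.sum_add_distrib, ← Finset.mul_sum]
  ring

theorem asm_floor {X κ : ℝ} (hX : 1 ≤ X) (h0 : 0 < κ) :
    X ^ (6 * κ) / 2 ≤ (⌊X ^ (6 * κ)⌋₊ : ℝ) ∧ 1 ≤ ⌊X ^ (6 * κ)⌋₊ := by
  have h1 : 1 ≤ X ^ (6 * κ) := Real.one_le_rpow hX (by positivity)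
  have h2 : 1 ≤ ⌊X ^ (6 * κ)⌋₊ := Nat.le_floor (by simpa using h1)
  have h3 := Nat.lt_floor_add_one (X ^ (6 * κ))
  have h4 : (1 : ℝ) ≤ (⌊X ^ (6 * κ)⌋₊ : ℝ) := by exact_mod_cast h2
  exact ⟨by linarith, h2⟩

/-- the polar part is small -/
theorem asm_polar {κ : ℝ} (h0 : 0 < κ) (h1 : κ ≤ 1 / 1000) : ∃ K : ℝ, 0 ≤ K ∧ ∀ X : ℝ, 1 ≤ X →
    ∀ (E : ℕ) (x : ℕ → ℝ), (∀ e, x e ≠ 0 → 1 ≤ e ∧ e ≤ E) →
    ∑ e ∈ Finset.Icc 1 E, x e * sg1 e / e = 0 → CK κ X (E ^ 2) (CC E x) →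
      |∑ n ∈ Finset.Icc 1 (E ^ 2), (n : ℝ) * CC E x n *
        ∑ c ∈ Finset.Icc 1 ⌊X ^ (6 * κ)⌋₊, cc c n / (c : ℝ) ^ 2| ≤ K * X ^ (1 - κ) := by
  obtain ⟨M, hM⟩ := ram_sigma
  obtain ⟨Cτ, hC1, hCτ⟩ := tau_le (ε := κ / 1000) (by positivity)
  refine ⟨4 * Cτ, by positivity, fun X hX E x hx hz hck => ?_⟩
  have hX0 : 0 < X := by linarith
  obtain ⟨hR, hR1⟩ := asm_floor (κ := κ) hX h0
  set R := ⌊X ^ (6 * κ)⌋₊ with hRdef
  have hR0 : (0 : ℝ) < R := by exact_mod_cast hR1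
  have hzero : ∑ n ∈ Finset.Icc 1 (E ^ 2), (n : ℝ) * CC E x n * (M * (sg1 n / n)) = 0 := by
    have h2 := cc_sigma (E := E) (x := x) hx
    rw [hz] at h2
    have : ∑ n ∈ Finset.Icc 1 (E ^ 2), (n : ℝ) * CC E x n * (M * (sg1 n / n)) =
        M * ∑ n ∈ Finset.Icc 1 (E ^ 2), CC E x n * sg1 n := by
      rw [Finset.mul_sum]
      refine Finset.sum_congr rfl fun n hn => ?_
      rw [Finset.mem_Icc] at hn
      have : (n : ℝ) ≠ 0 := by exact_mod_cast (show n ≠ 0 by omega)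
      field_simp
    rw [this, h2]; simp
  have hdiff : ∑ n ∈ Finset.Icc 1 (E ^ 2), (n : ℝ) * CC E x n *
        ∑ c ∈ Finset.Icc 1 R, cc c n / (c : ℝ) ^ 2 =
      ∑ n ∈ Finset.Icc 1 (E ^ 2), (n : ℝ) * CC E x n *
        (∑ c ∈ Finset.Icc 1 R, cc c n / (c : ℝ) ^ 2 - M * (sg1 n / n)) := by
    simp only [mul_sub, Finset.sum_sub_distrib]
    rw [hzero, sub_zero]
  rw [hdiff]
  have hQ : ((E ^ 2 : ℕ) : ℝ) ≤ X ^ (1 + 101 / 50 * κ) := hck.size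
  have hterm : ∀ n ∈ Finset.Icc 1 (E ^ 2), |(n : ℝ) * CC E x n *
      (∑ c ∈ Finset.Icc 1 R, cc c n / (c : ℝ) ^ 2 - M * (sg1 n / n))| ≤
      X ^ (κ / 100) * (2 * (Cτ * X ^ (κ / 500)) / (X ^ (6 * κ) / 2)) := by
    intro n hn
    rw [Finset.mem_Icc] at hn
    have hn0 : (0 : ℝ) < n := by exact_mod_cast hn.1
    rw [abs_mul, abs_mul, abs_of_pos hn0]
    have hb := hck.bdd n hn.1
    have h3 : (n : ℝ) * |CC E x n| ≤ X ^ (κ / 100) := by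
      rw [le_div_iff₀ hn0] at hb; linarith
    have h4 := hM n R hn.1 hR1
    have hτ : tau n ≤ Cτ * X ^ (κ / 500) := by
      refine (hCτ n).trans ?_
      apply mul_le_mul_of_nonneg_left _ (by linarith)
      have hnQ : (n : ℝ) ≤ X ^ (2 : ℝ) := by
        have e1 : (n : ℝ) ≤ ((E ^ 2 : ℕ) : ℝ) := by exact_mod_cast hn.2
        refine e1.trans (hQ.trans ?_)
        apply Real.rpow_le_rpow_of_exponent_le hX
        linarith
      calc (n : ℝ) ^ (κ / 1000) ≤ (X ^ (2 : ℝ)) ^ (κ / 1000) :=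
            Real.rpow_le_rpow hn0.le hnQ (by positivity)
        _ = X ^ (κ / 500) := by
            rw [← Real.rpow_mul hX0.le]; congr 1; ring
    have h5 : |∑ c ∈ Finset.Icc 1 R, cc c n / (c : ℝ) ^ 2 - M * (sg1 n / n)| ≤
        2 * (Cτ * X ^ (κ / 500)) / (X ^ (6 * κ) / 2) := by
      refine h4.trans ?_
      have hp : 0 < X ^ (6 * κ) / 2 := by positivity
      apply div_le_div₀ _ _ hp hR
      · positivity
      · linarith
    exact mul_le_mul h3 h5 (abs_nonneg _) (by positivity)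
  calc |∑ n ∈ Finset.Icc 1 (E ^ 2), (n : ℝ) * CC E x n *
        (∑ c ∈ Finset.Icc 1 R, cc c n / (c : ℝ) ^ 2 - M * (sg1 n / n))|
      ≤ ∑ n ∈ Finset.Icc 1 (E ^ 2), |(n : ℝ) * CC E x n *
        (∑ c ∈ Finset.Icc 1 R, cc c n / (c : ℝ) ^ 2 - M * (sg1 n / n))| :=
        Finset.abs_sum_le_sum_abs _ _
    _ ≤ ∑ n ∈ Finset.Icc 1 (E ^ 2),
        X ^ (κ / 100) * (2 * (Cτ * X ^ (κ / 500)) / (X ^ (6 * κ) / 2)) :=
        Finset.sum_le_sum hterm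
    _ = ((E ^ 2 : ℕ) : ℝ) * (X ^ (κ / 100) * (2 * (Cτ * X ^ (κ / 500)) / (X ^ (6 * κ) / 2))) := by
        rw [Finset.sum_const, Nat.card_Icc, nsmul_eq_mul]; simp
    _ ≤ X ^ (1 + 101 / 50 * κ) *
        (X ^ (κ / 100) * (2 * (Cτ * X ^ (κ / 500)) / (X ^ (6 * κ) / 2))) := by
        apply mul_le_mul_of_nonneg_right hQ
        positivity
    _ = 4 * Cτ * (X ^ (1 + 101 / 50 * κ) * X ^ (κ / 100) * X ^ (κ / 500) * X ^ (-(6 * κ))) := by
        rw [Real.rpow_neg hX0.le]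
        have : X ^ (6 * κ) ≠ 0 := (Real.rpow_pos_of_pos hX0 _).ne'
        field_simp
        ring
    _ ≤ 4 * Cτ * X ^ (1 - κ) := by
        apply mul_le_mul_of_nonneg_left _ (by positivity)
        rw [← Real.rpow_add hX0, ← Real.rpow_add hX0, ← Real.rpow_add hX0]
        apply Real.rpow_le_rpow_of_exponent_le hX
        nlinarith

theorem asm_av_pos : 0 < ∫ t in (1 : ℝ)..2, th (1 / t) / t := by
  have hcongr : ∀ t ∈ Set.uIcc (1 : ℝ) 2, th (1 / t) / t =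
      (1 - 1 / t) ^ 3 * (2 * (1 / t) - 1) ^ 3 / t := by
    intro t ht
    rw [Set.uIcc_of_le (by norm_num), Set.mem_Icc] at ht
    have h1 : 1 / 2 ≤ 1 / t := by
      apply one_div_le_one_div_of_le (by linarith) ht.2
    have h2 : 1 / t ≤ 1 := by
      rw [div_le_one (by linarith)]; exact ht.1
    rw [th, if_pos ⟨h1, h2⟩]
  rw [intervalIntegral.integral_congr hcongr]
  apply intervalIntegral.intervalIntegral_pos_of_pos_on
  · apply ContinuousOn.intervalIntegrable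
    intro t ht
    rw [Set.uIcc_of_le (by norm_num), Set.mem_Icc] at ht
    have ht0 : t ≠ 0 := by linarith [ht.1]
    apply ContinuousAt.continuousWithinAt
    apply ContinuousAt.div _ continuousAt_id ht0
    apply ContinuousAt.mul
    · apply ContinuousAt.pow
      exact continuousAt_const.sub (continuousAt_const.div continuousAt_id ht0)
    · apply ContinuousAt.pow
      exact (continuousAt_const.mul (continuousAt_const.div continuousAt_id ht0)).sub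
        continuousAt_const
  · intro t ht
    have ht0 : 0 < t := by linarith [ht.1]
    have h1 : 1 / 2 < 1 / t := one_div_lt_one_div_of_lt ht0 ht.2
    have h2 : 1 / t < 1 := by
      rw [div_lt_one ht0]; exact ht.1
    have h3 : 0 < 1 - 1 / t := by linarith
    have h4 : 0 < 2 * (1 / t) - 1 := by linarith
    positivity
  · norm_num

theorem asm_th_nonneg (s : ℝ) : 0 ≤ th s := by
  unfold th
  split_ifs with h
  · have h3 : 0 ≤ 1 - s := by linarith [h.2]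
    have h4 : 0 ≤ 2 * s - 1 := by linarith [h.1]
    positivity
  · exact le_rfl

theorem asm_th_int : IntervalIntegrable (fun t : ℝ => th (1 / t) / t) volume 1 2 := by
  by_contra h
  have := asm_av_pos
  rw [intervalIntegral.integral_undef h] at this
  exact lt_irrefl _ this

/-- `b1` and `M5` -/
theorem asm_b1 {G : ℝ → ℝ} {U c₀ : ℝ} (hG : GOK G U c₀) {B₀ : ℕ} (hB : U ≤ B₀) (B B' : ℕ) {κ : ℝ}
    (h0 : 0 < κ) (h1 : κ ≤ 1 / 1000) : ∃ X₀ : ℕ, ∀ X : ℕ, X₀ ≤ X → ∀ (E : ℕ) (x : ℕ → ℝ),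
    Adm κ B B' X E x → ∀ Z : ℝ, X ≤ Z → Z ≤ 2 * X →
      |b1 (CC E x) G (E ^ 2) (Gs B₀ E) (2 * (B₀ + 1) * E) ((X : ℝ) ^ (-(4 * κ))) Z -
        M5 (CC E x) G (E ^ 2) (Gs B₀ E) ⌊(X : ℝ) ^ (6 * κ)⌋₊ ((X : ℝ) ^ (-(4 * κ))) Z| ≤
        (X : ℝ) ^ (-κ) := by
  obtain ⟨X₂, htra⟩ := tra hG h0 h1
  obtain ⟨X₄, hck⟩ := ck_of_adm h0 h1 B B'
  refine ⟨max ⌈X₂⌉₊ X₄, fun X hX E x hadm Z hZ1 hZ2 => ?_⟩
  have hXb : X₂ ≤ X := by
    have : ⌈X₂⌉₊ ≤ X := le_trans (by simp) hX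
    exact (Nat.le_ceil _).trans (by exact_mod_cast this)
  have hXd : X₄ ≤ X := le_trans (by simp) hX
  have hck' := hck X hXd E x hadm
  have h0S : (0 : ℤ) ∉ Gs B₀ E := by simp [Pool.Agent.LSP.Gs]
  have hDl : 2 * Real.sqrt ((1 + U) * ((E ^ 2 : ℕ) : ℝ)) ≤ ((2 * (B₀ + 1) * E : ℕ) : ℝ) := by
    have hU1 := hG.one_le
    have hB1 : (1 : ℝ) ≤ B₀ := hU1.trans hB
    have h2 : (1 + U) ≤ ((B₀ : ℝ) + 1) ^ 2 := by nlinarith
    have h3 : (1 + U) * ((E ^ 2 : ℕ) : ℝ) ≤ (((B₀ : ℝ) + 1) * (E : ℝ)) ^ 2 := by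
      rw [mul_pow]
      push_cast
      exact mul_le_mul_of_nonneg_right h2 (by positivity)
    have h4 : Real.sqrt ((1 + U) * ((E ^ 2 : ℕ) : ℝ)) ≤ ((B₀ : ℝ) + 1) * (E : ℝ) := by
      refine (Real.sqrt_le_sqrt h3).trans ?_
      rw [Real.sqrt_sq (by positivity)]
    have h5 : ((2 * (B₀ + 1) * E : ℕ) : ℝ) = 2 * (((B₀ : ℝ) + 1) * (E : ℝ)) := by
      push_cast; ring
    rw [h5]
    exact mul_le_mul_of_nonneg_left h4 (by norm_num)
  exact htra X hXb (E ^ 2) (CC E x) hck' (Gs B₀ E) h0S (2 * (B₀ + 1) * E) hDl Z hZ1 hZ2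

/-- the average of `M5` is small -/
theorem asm_av {G : ℝ → ℝ} {U c₀ : ℝ} (hG : GOK G U c₀) (ha : ∀ u, G (1 - u) = - G u) {B₀ : ℕ}
    (hB : U ≤ B₀) (B : ℕ) : ∃ B' : ℕ, ∀ κ : ℝ, 0 < κ → κ ≤ 1 / 1000 → ∀ δ : ℝ, 0 < δ →
    ∃ X₀ : ℕ, ∀ X : ℕ, X₀ ≤ X → ∀ (E : ℕ) (x : ℕ → ℝ), Adm κ B B' X E x →
      |av (fun t => M5 (CC E x) G (E ^ 2) (Gs B₀ E) ⌊(X : ℝ) ^ (6 * κ)⌋₊
        ((X : ℝ) ^ (-(4 * κ))) (t * X))| ≤ δ := by
  obtain ⟨B', hrem⟩ := rem_bd hG B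
  refine ⟨B', fun κ h0 h1 δ hδ => ?_⟩
  obtain ⟨K, X₁, hrem⟩ := hrem κ h0 h1
  obtain ⟨X₃, havg⟩ := avg hG h0 h1
  obtain ⟨X₄, hck⟩ := ck_of_adm h0 h1 B B'
  obtain ⟨Kp, hKp, hpol⟩ := asm_polar h0 h1
  have t0 : Tendsto (fun X : ℕ => (X : ℝ)) atTop atTop := tendsto_natCast_atTop_atTop
  have t1 : Tendsto (fun X : ℝ => X ^ (-κ)) atTop (𝓝 0) := tendsto_rpow_neg_atTop h0
  have t2 : Tendsto (fun X : ℝ => X ^ (-(κ / 2))) atTop (𝓝 0) :=
    tendsto_rpow_neg_atTop (by positivity)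
  have t3 : Tendsto (fun X : ℝ => K / Real.log X) atTop (𝓝 0) :=
    Tendsto.div_atTop tendsto_const_nhds Real.tendsto_log_atTop
  have t4 : Tendsto (fun X : ℝ => Real.log X * X ^ (-κ)) atTop (𝓝 0) := by
    have := (isLittleO_log_rpow_atTop h0).tendsto_div_nhds_zero
    refine this.congr' ?_
    filter_upwards [eventually_gt_atTop (0 : ℝ)] with X hX
    rw [Real.rpow_neg hX.le, div_eq_mul_inv]
  set A : ℝ := |kapG G / 2| with hA
  have t5 : Tendsto (fun X : ℝ => 4 * Real.pi * (A * (|I1| * (Real.log X * X ^ (-κ)) +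
      |I2| * X ^ (-κ)) * Kp + K / Real.log X) + X ^ (-(κ / 2))) atTop (𝓝 0) := by
    have h5 : Tendsto (fun X : ℝ => 4 * Real.pi * (A * (|I1| * (Real.log X * X ^ (-κ)) +
      |I2| * X ^ (-κ)) * Kp + K / Real.log X) + X ^ (-(κ / 2))) atTop
        (𝓝 (4 * Real.pi * (A * (|I1| * 0 + |I2| * 0) * Kp + 0) + 0)) := by
      exact ((((((t4.const_mul _).add (t1.const_mul _)).const_mul _).mul_const _).add t3).const_mul
        _).add t2
    simpa using h5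
  have ev2 : ∀ᶠ X : ℕ in atTop, 4 * Real.pi * (A * (|I1| * (Real.log X * (X : ℝ) ^ (-κ)) +
      |I2| * (X : ℝ) ^ (-κ)) * Kp + K / Real.log X) + (X : ℝ) ^ (-(κ / 2)) < δ :=
    t0.eventually (t5.eventually (gt_mem_nhds hδ))
  obtain ⟨X₅, hX₅⟩ := eventually_atTop.mp ev2
  refine ⟨max (max X₁ (max ⌈X₃⌉₊ X₄)) (max X₅ 3), fun X hX E x hadm => ?_⟩
  have hXa : X₁ ≤ X := le_trans (by simp) hX
  have hXc : X₃ ≤ X := by
    have : ⌈X₃⌉₊ ≤ X := le_trans (by simp) hX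
    exact (Nat.le_ceil _).trans (by exact_mod_cast this)
  have hXd : X₄ ≤ X := le_trans (by simp) hX
  have hXe : X₅ ≤ X := le_trans (by simp) hX
  have hXf : 3 ≤ X := le_trans (by simp) hX
  have hX1 : (1 : ℝ) ≤ X := by exact_mod_cast (by omega : 1 ≤ X)
  have hX0 : (0 : ℝ) < X := by linarith
  have hlogX : 0 ≤ Real.log X := Real.log_nonneg hX1
  have hck' := hck X hXd E x hadm
  have h0S : (0 : ℤ) ∉ Gs B₀ E := by simp [Pool.Agent.LSP.Gs]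
  have h6 := havg X hXc (E ^ 2) (CC E x) hck' (Gs B₀ E) h0S
  have h7 := asm_m6 hG ha hB (CC E x) E ⌊(X : ℝ) ^ (6 * κ)⌋₊ hX1
  have h8 := hpol X hX1 E x hadm.supp hadm.zero hck'
  have h9 := hrem X hXa E x hadm
  have h10 := hX₅ X hXe
  have h11 : |M6 (CC E x) G (E ^ 2) (Gs B₀ E) ⌊(X : ℝ) ^ (6 * κ)⌋₊ X| ≤
      4 * Real.pi * (A * (|I1| * (Real.log X * (X : ℝ) ^ (-κ)) +
      |I2| * (X : ℝ) ^ (-κ)) * Kp + K / Real.log X) := by
    rw [h7, abs_mul, abs_of_pos (show 0 < 4 * Real.pi by positivity)]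
    apply mul_le_mul_of_nonneg_left _ (by positivity)
    refine (abs_add_le _ _).trans (add_le_add ?_ h9)
    rw [abs_mul, abs_div, abs_mul, abs_of_pos hX0]
    have h12 : |I1 * Real.log X - I2| ≤ |I1| * Real.log X + |I2| := by
      refine (abs_sub _ _).trans ?_
      rw [abs_mul, abs_of_nonneg hlogX]
    calc A * |I1 * Real.log X - I2| / X * |∑ n ∈ Finset.Icc 1 (E ^ 2), (n : ℝ) * CC E x n *
          ∑ c ∈ Finset.Icc 1 ⌊(X : ℝ) ^ (6 * κ)⌋₊, cc c n / (c : ℝ) ^ 2|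
        ≤ A * (|I1| * Real.log X + |I2|) / X * (Kp * (X : ℝ) ^ (1 - κ)) := by
          gcongr
      _ = A * (|I1| * (Real.log X * (X : ℝ) ^ (-κ)) + |I2| * (X : ℝ) ^ (-κ)) * Kp := by
          have : (X : ℝ) ^ (1 - κ) = X * (X : ℝ) ^ (-κ) := by
            rw [sub_eq_add_neg, Real.rpow_add hX0, Real.rpow_one]
          rw [this]
          field_simp
  rw [abs_le] at h6 h11 ⊢
  constructor
  · linarith [h6.1, h11.1]
  · linarith [h6.2, h11.2]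

theorem p_main_pr {G : ℝ → ℝ} {U c₀ : ℝ} (hG : GOK G U c₀) (ha : ∀ u, G (1 - u) = - G u) {B₀ : ℕ}
    (hB : U ≤ B₀) (B : ℕ) : ∃ B' : ℕ, ∀ κ : ℝ, 0 < κ → κ ≤ 1 / 1000 → ∀ δ : ℝ, 0 < δ →
    ∃ X₀ : ℕ, ∀ X : ℕ, X₀ ≤ X → ∀ (E : ℕ) (x : ℕ → ℝ), Adm κ B B' X E x →
      ∃ Z : ℝ, X ≤ Z ∧ Z ≤ 2 * X ∧
        b1 (CC E x) G (E ^ 2) (Gs B₀ E) (2 * (B₀ + 1) * E) ((X : ℝ) ^ (-(4 * κ))) Z ≤ δ := by
  obtain ⟨B', hav⟩ := asm_av hG ha hB B
  refine ⟨B', fun κ h0 h1 δ hδ => ?_⟩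
  set c1 : ℝ := ∫ t in (1 : ℝ)..2, th (1 / t) / t with hc1
  have hc1p : 0 < c1 := asm_av_pos
  obtain ⟨X₁, hav⟩ := hav κ h0 h1 (δ / 4 * c1) (by positivity)
  obtain ⟨X₂, hb1⟩ := asm_b1 hG hB B B' h0 h1
  have t0 : Tendsto (fun X : ℕ => (X : ℝ)) atTop atTop := tendsto_natCast_atTop_atTop
  have t1 : Tendsto (fun X : ℝ => X ^ (-κ)) atTop (𝓝 0) := tendsto_rpow_neg_atTop h0
  have ev1 : ∀ᶠ X : ℕ in atTop, (X : ℝ) ^ (-κ) < δ / 2 :=
    t0.eventually (t1.eventually (gt_mem_nhds (show (0 : ℝ) < δ / 2 by positivity)))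
  obtain ⟨X₅, hX₅⟩ := eventually_atTop.mp ev1
  refine ⟨max (max X₁ X₂) (max X₅ 3), fun X hX E x hadm => ?_⟩
  have hXa : X₁ ≤ X := le_trans (by simp) hX
  have hXb : X₂ ≤ X := le_trans (by simp) hX
  have hXe : X₅ ≤ X := le_trans (by simp) hX
  have hXf : 3 ≤ X := le_trans (by simp) hX
  have hX1 : (1 : ℝ) ≤ X := by exact_mod_cast (by omega : 1 ≤ X)
  have hX0 : (0 : ℝ) < X := by linarith
  by_contra hcon
  push Not at hcon
  have hM5 : ∀ t ∈ Set.Icc (1 : ℝ) 2, δ / 2 ≤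
      M5 (CC E x) G (E ^ 2) (Gs B₀ E) ⌊(X : ℝ) ^ (6 * κ)⌋₊ ((X : ℝ) ^ (-(4 * κ))) (t * X) := by
    intro t ht
    have hZ1 : (X : ℝ) ≤ t * X := by nlinarith [ht.1]
    have hZ2 : t * X ≤ 2 * X := by nlinarith [ht.2]
    have h2 := hcon (t * X) hZ1 hZ2
    have h3 := hb1 X hXb E x hadm (t * X) hZ1 hZ2
    have h4 := hX₅ X hXe
    rw [abs_le] at h3
    linarith [h3.2]
  have hint := avg_int hG (CC E x) (E ^ 2) (Gs B₀ E) ⌊(X : ℝ) ^ (6 * κ)⌋₊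
    (om := (X : ℝ) ^ (-(4 * κ))) (X := X) (Real.rpow_pos_of_pos hX0 _) hX0
  have hav2 : δ / 2 * c1 ≤ av (fun t => M5 (CC E x) G (E ^ 2) (Gs B₀ E) ⌊(X : ℝ) ^ (6 * κ)⌋₊
      ((X : ℝ) ^ (-(4 * κ))) (t * X)) := by
    rw [hc1, ← intervalIntegral.integral_const_mul]
    unfold av
    apply intervalIntegral.integral_mono_on (by norm_num) (asm_th_int.const_mul _) hint
    intro t ht
    have : 0 ≤ th (1 / t) / t := div_nonneg (asm_th_nonneg _) (by linarith [ht.1])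
    exact mul_le_mul_of_nonneg_right (hM5 t ht) this
  have h5 := hav X hXa E x hadm
  rw [abs_le] at h5
  have : 0 < δ * c1 := by positivity
  linarith [h5.2]

alias p_main := p_main_pr

end Pool.Agent.LSPP
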