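import Pool.Agent.Lib_helper15.LSPF.PG3
import Pool.Agent.Lib_helper15.LSPF.ASM

set_option autoImplicit false

namespace Pool.Agent.LSPP

open Pool.Agent.LSP (tau sg1 CC Gs Adm)
open Pool.Agent.LSPO (hyp cl KK rho b1 GOK)
open Pool.Agent.FG61 (mu phi cc)
open MeasureTheory Filter Topology

/-- the weight of the `j`-th grid point `1 + j/J` -/
noncomputable def wJ (J j : ℕ) : ℝ :=
  ∫ t in (1 + (j : ℝ) / J)..(1 + ((j + 1 : ℕ) : ℝ) / J), th (1 / t) / t

/-- the total weight -/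
noncomputable def wT : ℝ := ∫ t in (1 : ℝ)..2, th (1 / t) / t

theorem wT_pos : 0 < wT := asm_av_pos

theorem pg_th_le (s : ℝ) : th s ≤ 1 := by
  unfold th
  split_ifs with h
  · have h3 : 0 ≤ 1 - s := by linarith [h.2]
    have h4 : 0 ≤ 2 * s - 1 := by linarith [h.1]
    have h5 : (1 - s) ^ 3 ≤ 1 := pow_le_one₀ h3 (by linarith [h.1])
    have h6 : (2 * s - 1) ^ 3 ≤ 1 := pow_le_one₀ h4 (by linarith [h.2])
    calc (1 - s) ^ 3 * (2 * s - 1) ^ 3 ≤ 1 * 1 := mul_le_mul h5 h6 (by positivity) (by norm_num)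
      _ = 1 := by norm_num
  · exact zero_le_one

theorem pg_pt_le (J j : ℕ) : 1 + (j : ℝ) / J ≤ 1 + ((j + 1 : ℕ) : ℝ) / J := by
  have : (j : ℝ) / J ≤ ((j + 1 : ℕ) : ℝ) / J := by
    apply div_le_div_of_nonneg_right _ (Nat.cast_nonneg _)
    push_cast; linarith
  linarith

theorem pg_pt_one (J j : ℕ) : 1 ≤ 1 + (j : ℝ) / J := by
  have : 0 ≤ (j : ℝ) / J := by positivity
  linarith

theorem pg_w_meas : Measurable (fun t : ℝ => th (1 / t) / t) := by
  have h : Measurable th := by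
    unfold th
    apply Measurable.ite
    · exact (measurableSet_le measurable_const measurable_id).inter
        (measurableSet_le measurable_id measurable_const)
    · fun_prop
    · fun_prop
  exact (h.comp (measurable_const.div measurable_id)).div measurable_id

theorem pg_w_bd {t : ℝ} (ht : 1 ≤ t) : 0 ≤ th (1 / t) / t ∧ th (1 / t) / t ≤ 1 := by
  have h0 : 0 < t := by linarith
  refine ⟨div_nonneg (asm_th_nonneg _) h0.le, ?_⟩
  rw [div_le_one h0]
  exact (pg_th_le _).trans ht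

theorem pg_w_int {a b : ℝ} (ha : 1 ≤ a) (hb : 1 ≤ b) :
    IntervalIntegrable (fun t : ℝ => th (1 / t) / t) volume a b := by
  refine IntervalIntegrable.mono_fun' (g := fun _ => (1 : ℝ)) intervalIntegrable_const
    pg_w_meas.aestronglyMeasurable ?_
  refine (ae_restrict_iff' measurableSet_uIoc).mpr (Eventually.of_forall fun t ht => ?_)
  have h1 : 1 ≤ t := by
    have := ht.1
    have h2 : 1 ≤ min a b := le_min ha hb
    linarith
  show ‖th (1 / t) / t‖ ≤ 1
  rw [Real.norm_eq_abs, abs_of_nonneg (pg_w_bd h1).1]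
  exact (pg_w_bd h1).2

theorem wJ_nonneg (J j : ℕ) : 0 ≤ wJ J j := by
  unfold wJ
  apply intervalIntegral.integral_nonneg (pg_pt_le J j)
  intro t ht
  exact (pg_w_bd ((pg_pt_one J j).trans ht.1)).1

theorem wJ_le {J : ℕ} (hJ : 1 ≤ J) (j : ℕ) : wJ J j ≤ 1 / J := by
  unfold wJ
  have hJ0 : (0 : ℝ) < J := by exact_mod_cast hJ
  calc ∫ t in (1 + (j : ℝ) / J)..(1 + ((j + 1 : ℕ) : ℝ) / J), th (1 / t) / t
      ≤ ∫ t in (1 + (j : ℝ) / J)..(1 + ((j + 1 : ℕ) : ℝ) / J), (1 : ℝ) := by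
        apply intervalIntegral.integral_mono_on (pg_pt_le J j)
          (pg_w_int (pg_pt_one J j) (pg_pt_one J (j + 1))) intervalIntegrable_const
        intro t ht
        exact (pg_w_bd ((pg_pt_one J j).trans ht.1)).2
    _ = 1 / J := by
        rw [intervalIntegral.integral_const, smul_eq_mul, mul_one]
        push_cast
        field_simp
        ring

theorem pg_end {J : ℕ} (hJ : 1 ≤ J) : 1 + ((J : ℕ) : ℝ) / J = 2 := by
  have hJ0 : (0 : ℝ) < J := by exact_mod_cast hJ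
  rw [div_self hJ0.ne']; norm_num

theorem pg_split {J : ℕ} (hJ : 1 ≤ J) {f : ℝ → ℝ}
    (hf : IntervalIntegrable f volume 1 2) :
    ∑ j ∈ Finset.range J, ∫ t in (1 + (j : ℝ) / J)..(1 + ((j + 1 : ℕ) : ℝ) / J), f t =
      ∫ t in (1 : ℝ)..2, f t := by
  have h := intervalIntegral.sum_integral_adjacent_intervals
    (a := fun k : ℕ => 1 + (k : ℝ) / J) (n := J) (f := f) (μ := volume) (fun k hk => ?_)
  · rw [h]
    simp only [Nat.cast_zero, zero_div, add_zero]
    rw [pg_end hJ]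
  · apply hf.mono_set
    have hJ0 : (0 : ℝ) < J := by exact_mod_cast hJ
    rw [Set.uIcc_of_le (pg_pt_le J k), Set.uIcc_of_le (by norm_num)]
    apply Set.Icc_subset_Icc (pg_pt_one J k)
    have : ((k + 1 : ℕ) : ℝ) / J ≤ 1 := by
      rw [div_le_one hJ0]; exact_mod_cast hk
    linarith

theorem wJ_sum {J : ℕ} (hJ : 1 ≤ J) : ∑ j ∈ Finset.range J, wJ J j = wT :=
  pg_split hJ (pg_w_int le_rfl (by norm_num))

/-- the average of the principal part over a fine grid -/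
theorem p_grid {G : ℝ → ℝ} {U c₀ : ℝ} (hG : GOK G U c₀) (ha : ∀ u, G (1 - u) = - G u) {B₀ : ℕ}
    (hB : U ≤ B₀) (B : ℕ) : ∃ B' : ℕ, ∀ κ : ℝ, 0 < κ → κ ≤ 1 / 1000 → ∀ δ : ℝ, 0 < δ →
    ∃ X₀ : ℕ, ∀ X : ℕ, X₀ ≤ X → ∀ (E : ℕ) (x : ℕ → ℝ), Adm κ B B' X E x →
    ∀ J : ℕ, (X : ℝ) ^ (40 * κ) ≤ J →
      |∑ j ∈ Finset.range J, wJ J j * b1 (CC E x) G (E ^ 2) (Gs B₀ E) (2 * (B₀ + 1) * E)
        ((X : ℝ) ^ (-(4 * κ))) (X * (1 + (j : ℝ) / J))| ≤ δ := by
  obtain ⟨B', hav⟩ := asm_av hG ha hB B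
  refine ⟨B', fun κ h0 h1 δ hδ => ?_⟩
  have hT := wT_pos
  obtain ⟨X₁, hav⟩ := hav κ h0 h1 (δ / 2) (by positivity)
  obtain ⟨X₂, hb1⟩ := asm_b1 hG hB B B' h0 h1
  obtain ⟨X₃, hlip⟩ := pg_lip hG h0 h1
  obtain ⟨X₄, hck⟩ := ck_of_adm h0 h1 B B'
  have t0 : Tendsto (fun X : ℕ => (X : ℝ)) atTop atTop := tendsto_natCast_atTop_atTop
  have t1 : Tendsto (fun X : ℝ => X ^ (-κ)) atTop (𝓝 0) := tendsto_rpow_neg_atTop h0
  have ev1 : ∀ᶠ X : ℕ in atTop, (X : ℝ) ^ (-κ) < δ / (4 * wT) :=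
    t0.eventually (t1.eventually (gt_mem_nhds (show (0 : ℝ) < δ / (4 * wT) by positivity)))
  obtain ⟨X₅, hX₅⟩ := eventually_atTop.mp ev1
  refine ⟨max (max (max X₁ X₂) (max ⌈X₃⌉₊ X₄)) (max X₅ 3), fun X hX E x hadm J hJ => ?_⟩
  have hXa : X₁ ≤ X := le_trans (by simp) hX
  have hXb : X₂ ≤ X := le_trans (by simp) hX
  have hXc : X₃ ≤ X := by
    have : ⌈X₃⌉₊ ≤ X := le_trans (by simp) hX
    exact (Nat.le_ceil _).trans (by exact_mod_cast this)
  have hXd : X₄ ≤ X := le_trans (by simp) hX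
  have hXe : X₅ ≤ X := le_trans (by simp) hX
  have hXf : 3 ≤ X := le_trans (by simp) hX
  have hX1 : (1 : ℝ) ≤ X := by exact_mod_cast (by omega : 1 ≤ X)
  have hX0 : (0 : ℝ) < X := by linarith
  have hck' := hck X hXd E x hadm
  have h0S : (0 : ℤ) ∉ Gs B₀ E := by simp [Pool.Agent.LSP.Gs]
  have hJp : (0 : ℝ) < J := (Real.rpow_pos_of_pos hX0 _).trans_le hJ
  have hJ1 : 1 ≤ J := by
    have : 0 < J := by exact_mod_cast hJp
    omega
  set F : ℝ → ℝ := fun t => M5 (CC E x) G (E ^ 2) (Gs B₀ E) ⌊(X : ℝ) ^ (6 * κ)⌋₊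
    ((X : ℝ) ^ (-(4 * κ))) (t * X) with hF
  set b : ℝ → ℝ := fun Z => b1 (CC E x) G (E ^ 2) (Gs B₀ E) (2 * (B₀ + 1) * E)
    ((X : ℝ) ^ (-(4 * κ))) Z with hb
  have hint : IntervalIntegrable (fun t => F t * (th (1 / t) / t)) volume 1 2 :=
    avg_int hG (CC E x) (E ^ 2) (Gs B₀ E) ⌊(X : ℝ) ^ (6 * κ)⌋₊
      (om := (X : ℝ) ^ (-(4 * κ))) (X := X) (Real.rpow_pos_of_pos hX0 _) hX0
  have hL : ∀ s t : ℝ, 1 ≤ s → 1 ≤ t → |F t - F s| ≤ (X : ℝ) ^ (20 * κ) * |t - s| :=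
    hlip X hXc (E ^ 2) (CC E x) hck' (Gs B₀ E) h0S
  set δ' : ℝ := δ / (4 * wT) with hδ'
  -- the value at a grid point against the integral
  have hpt : ∀ j ∈ Finset.range J, |wJ J j * b (X * (1 + (j : ℝ) / J)) -
      ∫ t in (1 + (j : ℝ) / J)..(1 + ((j + 1 : ℕ) : ℝ) / J), F t * (th (1 / t) / t)| ≤
      (δ' + δ') * wJ J j := by
    intro j hj
    rw [Finset.mem_range] at hj
    set a₀ := 1 + (j : ℝ) / J with ha₀
    set a₁ := 1 + ((j + 1 : ℕ) : ℝ) / J with ha₁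
    have h01 : a₀ ≤ a₁ := pg_pt_le J j
    have h1a : 1 ≤ a₀ := pg_pt_one J j
    have ha2 : a₁ ≤ 2 := by
      have : ((j + 1 : ℕ) : ℝ) / J ≤ 1 := by
        rw [div_le_one hJp]; exact_mod_cast hj
      rw [ha₁]; linarith
    have hlen : a₁ - a₀ = 1 / J := by
      rw [ha₁, ha₀]; push_cast; field_simp; ring
    have hw := wJ_nonneg J j
    have e1 : |b (X * a₀) - F a₀| ≤ δ' := by
      have := hb1 X hXb E x hadm (a₀ * X) (by nlinarith) (by nlinarith)
      rw [mul_comm (X : ℝ) a₀]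
      exact this.trans (hX₅ X hXe).le
    have hwi : IntervalIntegrable (fun t : ℝ => th (1 / t) / t) volume a₀ a₁ :=
      pg_w_int h1a (h1a.trans h01)
    have hFi : IntervalIntegrable (fun t => F t * (th (1 / t) / t)) volume a₀ a₁ := by
      apply hint.mono_set
      rw [Set.uIcc_of_le h01, Set.uIcc_of_le (by norm_num)]
      exact Set.Icc_subset_Icc h1a ha2
    have e2 : |wJ J j * F a₀ - ∫ t in a₀..a₁, F t * (th (1 / t) / t)| ≤ δ' * wJ J j := by
      have f1 : wJ J j * F a₀ = ∫ t in a₀..a₁, F a₀ * (th (1 / t) / t) := by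
        rw [intervalIntegral.integral_const_mul, mul_comm]
        rfl
      rw [f1, ← intervalIntegral.integral_sub (hwi.const_mul _) hFi]
      have f2 : ∀ t ∈ Set.Icc a₀ a₁, |F a₀ * (th (1 / t) / t) - F t * (th (1 / t) / t)| ≤
          δ' * (th (1 / t) / t) := by
        intro t ht
        have h1t : 1 ≤ t := h1a.trans ht.1
        obtain ⟨g1, g2⟩ := pg_w_bd h1t
        rw [← sub_mul, abs_mul, abs_of_nonneg g1]
        apply mul_le_mul_of_nonneg_right _ g1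
        rw [abs_sub_comm]
        refine (hL a₀ t h1a h1t).trans ?_
        have g3 : |t - a₀| ≤ 1 / J := by
          rw [abs_of_nonneg (by linarith [ht.1]), ← hlen]
          linarith [ht.2]
        calc (X : ℝ) ^ (20 * κ) * |t - a₀| ≤ (X : ℝ) ^ (20 * κ) * (1 / (X : ℝ) ^ (40 * κ)) := by
              apply mul_le_mul_of_nonneg_left _ (by positivity)
              refine g3.trans ?_
              exact one_div_le_one_div_of_le (by positivity) hJ
          _ = (X : ℝ) ^ (-(20 * κ)) := by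
              rw [one_div, ← Real.rpow_neg hX0.le, ← Real.rpow_add hX0]
              congr 1; ring
          _ ≤ (X : ℝ) ^ (-κ) := by
              apply Real.rpow_le_rpow_of_exponent_le hX1
              linarith
          _ ≤ δ' := (hX₅ X hXe).le
      calc |∫ t in a₀..a₁, (F a₀ * (th (1 / t) / t) - F t * (th (1 / t) / t))|
          ≤ ∫ t in a₀..a₁, |F a₀ * (th (1 / t) / t) - F t * (th (1 / t) / t)| :=
            intervalIntegral.abs_integral_le_integral_abs h01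
        _ ≤ ∫ t in a₀..a₁, δ' * (th (1 / t) / t) := by
            apply intervalIntegral.integral_mono_on h01 _ (hwi.const_mul _) f2
            exact ((hwi.const_mul _).sub hFi).abs
        _ = δ' * wJ J j := by
            rw [intervalIntegral.integral_const_mul]
            rfl
    have e3 : wJ J j * b (X * a₀) - ∫ t in a₀..a₁, F t * (th (1 / t) / t) =
        wJ J j * (b (X * a₀) - F a₀) +
        (wJ J j * F a₀ - ∫ t in a₀..a₁, F t * (th (1 / t) / t)) := by ring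
    rw [e3]
    refine (abs_add_le _ _).trans ?_
    rw [abs_mul, abs_of_nonneg hw]
    have e4 : wJ J j * |b (X * a₀) - F a₀| ≤ wJ J j * δ' := mul_le_mul_of_nonneg_left e1 hw
    linarith
  have hsplit := pg_split hJ1 hint
  have h5 := hav X hXa E x hadm
  have h6 : |∑ j ∈ Finset.range J, wJ J j * b (X * (1 + (j : ℝ) / J)) -
      av F| ≤ δ / 2 := by
    have e1 : av F = ∑ j ∈ Finset.range J,
        ∫ t in (1 + (j : ℝ) / J)..(1 + ((j + 1 : ℕ) : ℝ) / J), F t * (th (1 / t) / t) := by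
      rw [hsplit]; rfl
    rw [e1, ← Finset.sum_sub_distrib]
    refine (Finset.abs_sum_le_sum_abs _ _).trans ((Finset.sum_le_sum hpt).trans ?_)
    rw [← Finset.mul_sum, wJ_sum hJ1, hδ']
    apply le_of_eq
    field_simp
    ring
  rw [abs_le] at h5 h6 ⊢
  constructor
  · linarith [h5.1, h6.1]
  · linarith [h5.2, h6.2]

end Pool.Agent.LSPP
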