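import Pool.Agent.Lib_helper15.LSP.DefsP
import Pool.Agent.Lib_helper15.LSPF.RRB
import Pool.Agent.Lib_helper15.LSPF.TAU
import Pool.Agent.Lib_helper15.LSPF.CCB

/-! LSP, part P, block REM: partial summation. -/

set_option autoImplicit false

namespace Pool.Agent.LSPP

open Pool.Agent.LSP (tau sg1 CC Gs Adm)
open Pool.Agent.LSPO (hyp cl KK rho b1 GOK)
open Pool.Agent.FG61 (mu phi cc)
open MeasureTheory Filter Topology

theorem rem_tau_nonneg (c : ℕ) : 0 ≤ tau c := by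
  unfold tau
  positivity

theorem rem_tau_le (c : ℕ) : tau c ≤ c := by
  unfold tau
  exact_mod_cast Nat.card_divisors_le_self c

theorem rem_cc {c : ℕ} (hc : 1 ≤ c) (n : ℕ) : |cc c n| ≤ (c : ℝ) ^ 2 := by
  unfold cc
  have hg : Nat.gcd c n ≤ c := Nat.gcd_le_left n hc
  calc |∑ d ∈ (Nat.gcd c n).divisors, (d : ℝ) * mu (c / d)|
      ≤ ∑ d ∈ (Nat.gcd c n).divisors, |(d : ℝ) * mu (c / d)| := Finset.abs_sum_le_sum_abs _ _
    _ ≤ ∑ d ∈ (Nat.gcd c n).divisors, (c : ℝ) := by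
        refine Finset.sum_le_sum fun d hd => ?_
        have h1 : d ≤ c := (Nat.divisor_le hd).trans hg
        have h2 : |mu (c / d)| ≤ 1 := by
          unfold mu
          have := ArithmeticFunction.abs_moebius_le_one (n := c / d)
          exact_mod_cast this
        rw [abs_mul, abs_of_nonneg (Nat.cast_nonneg d)]
        calc (d : ℝ) * |mu (c / d)| ≤ (d : ℝ) * 1 := by gcongr
          _ ≤ c := by
            rw [mul_one]
            exact_mod_cast h1
    _ = ((Nat.gcd c n).divisors.card : ℝ) * c := by rw [Finset.sum_const, nsmul_eq_mul]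
    _ ≤ (c : ℝ) * c := by
        have : ((Nat.gcd c n).divisors.card : ℝ) ≤ c := by
          exact_mod_cast (Nat.card_divisors_le_self _).trans hg
        gcongr
    _ = (c : ℝ) ^ 2 := by ring

theorem rem_abel (a V : ℕ → ℝ) {z Q : ℕ} (h : z ≤ Q) :
    ∑ n ∈ Finset.Ioc z Q, a n * V n = (∑ n ∈ Finset.Ioc z Q, a n) * V Q -
      ∑ n ∈ Finset.Ico z Q, (∑ m ∈ Finset.Ioc z n, a m) * (V (n + 1) - V n) := by
  induction Q, h using Nat.le_induction with
  | base => simp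
  | succ Q hQ ih =>
    rw [Finset.sum_Ioc_succ_top hQ, Finset.sum_Ioc_succ_top hQ, Finset.sum_Ico_succ_top hQ, ih]
    ring

theorem rem_harm (Q : ℕ) : ∑ n ∈ Finset.Icc 1 Q, 1 / (n : ℝ) ≤ 1 + Real.log Q := by
  have h := harmonic_le_one_add_log Q
  rw [harmonic_eq_sum_Icc] at h
  push_cast at h
  simpa only [one_div] using h

theorem rem_abel_bd {a V : ℕ → ℝ} {z Q : ℕ} (hz : 1 ≤ z) (h : z ≤ Q) {A M D : ℝ} (hA : 0 ≤ A)
    (hD : 0 ≤ D) (h1 : ∀ n, |∑ m ∈ Finset.Ioc z n, a m| ≤ A) (h2 : |V Q| ≤ M)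
    (h3 : ∀ n, z ≤ n → n < Q → |V (n + 1) - V n| ≤ D / n) :
    |∑ n ∈ Finset.Ioc z Q, a n * V n| ≤ A * (M + D * (1 + Real.log Q)) := by
  rw [rem_abel a V h]
  refine (abs_sub _ _).trans ?_
  have e1 : |(∑ n ∈ Finset.Ioc z Q, a n) * V Q| ≤ A * M := by
    rw [abs_mul]
    exact mul_le_mul (h1 Q) h2 (abs_nonneg _) hA
  have e2 : |∑ n ∈ Finset.Ico z Q, (∑ m ∈ Finset.Ioc z n, a m) * (V (n + 1) - V n)| ≤
      A * (D * (1 + Real.log Q)) := by
    calc |∑ n ∈ Finset.Ico z Q, (∑ m ∈ Finset.Ioc z n, a m) * (V (n + 1) - V n)|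
        ≤ ∑ n ∈ Finset.Ico z Q, |(∑ m ∈ Finset.Ioc z n, a m) * (V (n + 1) - V n)| :=
          Finset.abs_sum_le_sum_abs _ _
      _ ≤ ∑ n ∈ Finset.Ico z Q, A * (D * (1 / (n : ℝ))) := by
          refine Finset.sum_le_sum fun n hn => ?_
          obtain ⟨n1, n2⟩ := Finset.mem_Ico.mp hn
          rw [abs_mul]
          refine mul_le_mul (h1 n) ?_ (abs_nonneg _) hA
          rw [mul_one_div]
          exact h3 n n1 n2
      _ ≤ ∑ n ∈ Finset.Icc 1 Q, A * (D * (1 / (n : ℝ))) := by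
          refine Finset.sum_le_sum_of_subset_of_nonneg ?_ fun n _ _ => by positivity
          intro n hn
          obtain ⟨n1, n2⟩ := Finset.mem_Ico.mp hn
          exact Finset.mem_Icc.mpr ⟨hz.trans n1, n2.le⟩
      _ = A * (D * ∑ n ∈ Finset.Icc 1 Q, 1 / (n : ℝ)) := by
          rw [Finset.mul_sum, Finset.mul_sum]
      _ ≤ A * (D * (1 + Real.log Q)) := by
          gcongr
          exact rem_harm Q
  calc _ ≤ A * M + A * (D * (1 + Real.log Q)) := add_le_add e1 e2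
    _ = _ := by ring

/-- the function that is summed -/
noncomputable def rem_V (G : ℝ → ℝ) (X : ℝ) (c n : ℕ) : ℝ :=
  (Real.log n / 2 + ga - Real.log c) * RR G c (n / X) + RR (G1 G) c (n / X)

theorem rem_V_bd {G : ℝ → ℝ} {X P H : ℝ} {c n : ℕ} {a : ℝ}
    (h1 : |RR G c (n / X)| ≤ P) (h2 : |RR (G1 G) c (n / X)| ≤ P) (h3 : a = 2 * H)
    (h4 : |Real.log n / 2 + ga - Real.log c| ≤ a) (hP : 0 ≤ P) (hH : 1 ≤ H) :
    |rem_V G X c n| ≤ 3 * H * P := by
  unfold rem_V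
  refine (abs_add_le _ _).trans ?_
  rw [abs_mul]
  have : |Real.log n / 2 + ga - Real.log c| * |RR G c (n / X)| ≤ a * P :=
    mul_le_mul h4 h1 (abs_nonneg _) ((abs_nonneg _).trans h4)
  have h5 : P ≤ H * P := le_mul_of_one_le_left hP hH
  subst h3
  linarith

theorem rem_V_diff {G : ℝ → ℝ} {X P H : ℝ} {c n : ℕ} (hn : 1 ≤ n)
    (h1 : |RR G c (((n + 1 : ℕ) : ℝ) / X)| ≤ P)
    (h2 : |RR G c (((n + 1 : ℕ) : ℝ) / X) - RR G c (n / X)| ≤ P / n)
    (h3 : |RR (G1 G) c (((n + 1 : ℕ) : ℝ) / X) - RR (G1 G) c (n / X)| ≤ P / n)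
    (h4 : |Real.log n / 2 + ga - Real.log c| ≤ 2 * H) (hP : 0 ≤ P) (hH : 1 ≤ H) :
    |rem_V G X c (n + 1) - rem_V G X c n| ≤ 4 * H * P / n := by
  have hn0 : (0 : ℝ) < n := by exact_mod_cast hn
  have hl : |(Real.log ((n + 1 : ℕ) : ℝ) - Real.log n) / 2| ≤ 1 / n := by
    have h5 : Real.log ((n + 1 : ℕ) : ℝ) - Real.log n = Real.log (1 + 1 / n) := by
      rw [← Real.log_div (by positivity) hn0.ne']
      congr 1
      push_cast
      field_simp
    have h6 : Real.log (1 + 1 / n) ≤ 1 / n := by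
      have := Real.log_le_sub_one_of_pos (x := 1 + 1 / (n : ℝ)) (by positivity)
      linarith
    have h7 : 0 ≤ Real.log (1 + 1 / (n : ℝ)) := Real.log_nonneg (by
      have : 0 ≤ 1 / (n : ℝ) := by positivity
      linarith)
    rw [h5, abs_of_nonneg (by positivity)]
    linarith
  have e : rem_V G X c (n + 1) - rem_V G X c n =
      (Real.log ((n + 1 : ℕ) : ℝ) - Real.log n) / 2 * RR G c (((n + 1 : ℕ) : ℝ) / X) +
      (Real.log n / 2 + ga - Real.log c) *
        (RR G c (((n + 1 : ℕ) : ℝ) / X) - RR G c (n / X)) +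
      (RR (G1 G) c (((n + 1 : ℕ) : ℝ) / X) - RR (G1 G) c (n / X)) := by
    unfold rem_V
    ring
  rw [e]
  refine (abs_add_three _ _ _).trans ?_
  rw [abs_mul, abs_mul]
  have g1 : |(Real.log ((n + 1 : ℕ) : ℝ) - Real.log n) / 2| * |RR G c (((n + 1 : ℕ) : ℝ) / X)| ≤
      1 / n * P := mul_le_mul hl h1 (abs_nonneg _) (by positivity)
  have g2 : |Real.log n / 2 + ga - Real.log c| *
      |RR G c (((n + 1 : ℕ) : ℝ) / X) - RR G c (n / X)| ≤ 2 * H * (P / n) :=
    mul_le_mul h4 h2 (abs_nonneg _) (by positivity)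
  have g4 : P / n ≤ H * (P / n) := le_mul_of_one_le_left (by positivity) hH
  calc _ ≤ 1 / n * P + 2 * H * (P / n) + P / n := add_le_add (add_le_add g1 g2) h3
    _ = 2 * (P / n) + 2 * H * (P / n) := by ring
    _ ≤ 2 * (H * (P / n)) + 2 * H * (P / n) := by gcongr
    _ = 4 * H * P / n := by ring

/-- the double sum with the sums exchanged -/
theorem rem_M7 (C : ℕ → ℝ) (G : ℝ → ℝ) (Q R : ℕ) (X : ℝ) :
    M7 C G Q R X = ∑ c ∈ Finset.Icc 1 R, 1 / (c * phi c) *
      ∑ n ∈ Finset.Icc 1 Q, C n * cc c n * rem_V G X c n := by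
  unfold M7 rem_V
  simp only [Finset.mul_sum]
  rw [Finset.sum_comm]
  refine Finset.sum_congr rfl fun c _ => Finset.sum_congr rfl fun n _ => ?_
  ring

theorem rem_pow_three {L Y : ℝ} (hY : 1 ≤ Y) (hL : L = Real.log Y) (h0 : 0 ≤ L) :
    L ^ 3 ≤ 8000 * Y ^ (1 / 5 : ℝ) := by
  have h1 : L ≤ 20 * Y ^ (1 / 20 : ℝ) := by
    rw [hL]
    have := Real.log_le_rpow_div (x := Y) (by linarith) (show (0 : ℝ) < 1 / 20 by norm_num)
    linarith
  calc L ^ 3 ≤ (20 * Y ^ (1 / 20 : ℝ)) ^ 3 := by gcongr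
    _ = 8000 * (Y ^ (1 / 20 : ℝ)) ^ 3 := by ring
    _ = 8000 * Y ^ (3 / 20 : ℝ) := by
        rw [← Real.rpow_natCast (Y ^ (1 / 20 : ℝ)) 3, ← Real.rpow_mul (by linarith)]
        norm_num
    _ ≤ 8000 * Y ^ (1 / 5 : ℝ) :=
        mul_le_mul_of_nonneg_left (Real.rpow_le_rpow_of_exponent_le hY (by norm_num))
          (by norm_num)

theorem rem_bd_pr {G : ℝ → ℝ} {U c₀ : ℝ} (hG : GOK G U c₀) (B : ℕ) : ∃ B' : ℕ, ∀ κ : ℝ, 0 < κ →
    κ ≤ 1 / 1000 → ∃ (K : ℝ) (X₀ : ℕ), ∀ X : ℕ, X₀ ≤ X → ∀ (E : ℕ) (x : ℕ → ℝ),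
    Adm κ B B' X E x →
      |M7 (CC E x) G (E ^ 2) ⌊(X : ℝ) ^ (6 * κ)⌋₊ X| ≤ K / Real.log X := by
  obtain ⟨K₂, j, hK₂, hτ⟩ := tau_sum (B + 3)
  obtain ⟨K, hK, hR⟩ := rr_bd hG
  refine ⟨6 + j, fun κ k0 k1 => ?_⟩
  obtain ⟨X₁, hX₁⟩ := ck_of_adm k0 k1 B (6 + j)
  refine ⟨144000 * K + 30 * K * K₂ * 2 ^ j, max X₁ 3, fun X hX E x hA => ?_⟩
  have hck : CK κ X (E ^ 2) (CC E x) := hX₁ X ((le_max_left _ _).trans hX) E x hA
  have hX3 : (3 : ℝ) ≤ X := by exact_mod_cast (le_max_right _ _).trans hX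
  have hX0 : (0 : ℝ) < X := by linarith
  have hX1 : (1 : ℝ) ≤ X := by linarith
  set L : ℝ := Real.log X with hL
  have hL1 : 1 ≤ L := by
    rw [hL, Real.le_log_iff_exp_le hX0]
    exact (Real.exp_one_lt_d9.le.trans (by norm_num)).trans hX3
  have hL0 : 0 < L := by linarith
  set Q : ℕ := E ^ 2 with hQd
  set R : ℕ := ⌊(X : ℝ) ^ (6 * κ)⌋₊ with hRd
  have hRle : (R : ℝ) ≤ (X : ℝ) ^ (6 * κ) := Nat.floor_le (by positivity)
  have hR1 : 1 ≤ R := Nat.le_floor (by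
    rw [Nat.cast_one]
    exact Real.one_le_rpow hX1 (by linarith))
  have ga0 : 0 < ga := by
    have := Real.one_half_lt_eulerMascheroniConstant
    unfold ga
    linarith
  have ga1 : ga < 1 := by
    have := Real.eulerMascheroniConstant_lt_two_thirds
    unfold ga
    linarith
  -- logarithms
  have hlogc : ∀ c ∈ Finset.Icc 1 R, 0 ≤ Real.log c ∧ Real.log c ≤ L / 100 := by
    intro c hc
    obtain ⟨c1, c2⟩ := Finset.mem_Icc.mp hc
    have c1' : (1 : ℝ) ≤ c := by exact_mod_cast c1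
    have c2' : (c : ℝ) ≤ (X : ℝ) ^ (6 * κ) := le_trans (by exact_mod_cast c2) hRle
    refine ⟨Real.log_nonneg c1', ?_⟩
    have h := Real.log_le_log (by linarith) c2'
    rw [Real.log_rpow hX0, ← hL] at h
    have : 6 * κ * L ≤ 1 / 100 * L := by gcongr; linarith
    linarith
  have hlogn : ∀ n : ℕ, 1 ≤ n → n ≤ Q → 0 ≤ Real.log n ∧ Real.log n ≤ 2 * L := by
    intro n n1 n2
    have n1' : (1 : ℝ) ≤ n := by exact_mod_cast n1
    have n2' : (n : ℝ) ≤ (X : ℝ) ^ (1 + 101 / 50 * κ) :=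
      le_trans (by exact_mod_cast n2) hck.size
    refine ⟨Real.log_nonneg n1', ?_⟩
    have h := Real.log_le_log (by linarith) n2'
    rw [Real.log_rpow hX0, ← hL] at h
    have : (1 + 101 / 50 * κ) * L ≤ 2 * L := by gcongr; linarith
    linarith
  have hH : ∀ c ∈ Finset.Icc 1 R, ∀ n : ℕ, 1 ≤ n → n ≤ Q →
      |Real.log n / 2 + ga - Real.log c| ≤ 2 * L := by
    intro c hc n n1 n2
    obtain ⟨a1, a2⟩ := hlogc c hc
    obtain ⟨b1, b2⟩ := hlogn n n1 n2
    rw [abs_le]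
    constructor <;> linarith
  have hP : ∀ c : ℕ, 0 ≤ K * c * tau c ^ 3 := fun c => by
    have := rem_tau_nonneg c
    positivity
  -- the first part
  have hlogz : 1 + Real.log Q ≤ 3 * L := by
    rcases Nat.eq_zero_or_pos Q with h | h
    · rw [h]
      simp only [Nat.cast_zero, Real.log_zero]
      linarith
    · have := (hlogn Q h le_rfl).2
      linarith
  have part1 : ∀ m : ℕ, m ≤ Q → (m : ℝ) ≤ 2 * (X : ℝ) ^ (1 / 2 : ℝ) →
      |∑ c ∈ Finset.Icc 1 R, 1 / (c * phi c) *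
        ∑ n ∈ Finset.Icc 1 m, CC E x n * cc c n * rem_V G X c n| ≤ 144000 * K / L := by
    intro m mQ mX
    have t1 : ∀ c ∈ Finset.Icc 1 R, ∀ n ∈ Finset.Icc 1 m, |CC E x n * cc c n * rem_V G X c n| ≤
        (X : ℝ) ^ (κ / 100) * (c ^ 2 * (3 * L * (K * c ^ 4 * (2 * (X : ℝ) ^ (-(1 / 4) : ℝ))))) *
          (1 / n) := by
      intro c hc n hn
      obtain ⟨c1, c2⟩ := Finset.mem_Icc.mp hc
      obtain ⟨n1, n2⟩ := Finset.mem_Icc.mp hn
      have hn0 : (0 : ℝ) < n := by exact_mod_cast n1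
      have s1 := hck.bdd n n1
      have s2 := rem_cc c1 n
      have hy : (0 : ℝ) < n / X := by positivity
      have s3 : ((n : ℝ) / X) ^ (1 / (2 * 1) : ℝ) ≤ 2 * (X : ℝ) ^ (-(1 / 4) : ℝ) := by
        have q1 : (n : ℝ) / X ≤ 2 * (X : ℝ) ^ (-(1 / 2) : ℝ) := by
          rw [div_le_iff₀ hX0]
          have : 2 * (X : ℝ) ^ (-(1 / 2) : ℝ) * X = 2 * (X : ℝ) ^ (1 / 2 : ℝ) := by
            rw [mul_assoc]
            congr 1
            nth_rewrite 2 [← Real.rpow_one (X : ℝ)]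
            rw [← Real.rpow_add hX0]
            norm_num
          rw [this]
          exact le_trans (by exact_mod_cast n2) mX
        calc ((n : ℝ) / X) ^ (1 / (2 * 1) : ℝ) ≤ (2 * (X : ℝ) ^ (-(1 / 2) : ℝ)) ^ (1 / (2 * 1) : ℝ) :=
              Real.rpow_le_rpow hy.le q1 (by norm_num)
          _ = 2 ^ (1 / (2 * 1) : ℝ) * (X : ℝ) ^ (-(1 / 4) : ℝ) := by
              rw [Real.mul_rpow (by norm_num) (by positivity), ← Real.rpow_mul hX0.le]
              norm_num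
          _ ≤ 2 * (X : ℝ) ^ (-(1 / 4) : ℝ) := by
              gcongr
              calc (2 : ℝ) ^ (1 / (2 * 1) : ℝ) ≤ (2 : ℝ) ^ (1 : ℝ) :=
                    Real.rpow_le_rpow_of_exponent_le (by norm_num) (by norm_num)
                _ = 2 := Real.rpow_one 2
      have c4 : K * c * tau c ^ 3 ≤ K * (c : ℝ) ^ 4 := by
        have := rem_tau_le c
        have h0 := rem_tau_nonneg c
        calc K * c * tau c ^ 3 ≤ K * c * (c : ℝ) ^ 3 := by gcongr
          _ = K * (c : ℝ) ^ 4 := by ring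
      have r1 : ∀ F : ℝ → ℝ, (F = G ∨ F = G1 G) → |RR F c (n / X)| ≤
          K * (c : ℝ) ^ 4 * (2 * (X : ℝ) ^ (-(1 / 4) : ℝ)) := by
        intro F hF
        have := (hR F hF c c1 1 le_rfl).1 (n / X) hy
        refine this.trans ?_
        rw [one_pow, mul_one]
        have h0 := hP c
        gcongr
      have r2 := rem_V_bd (X := (X : ℝ)) (n := n) (H := L) (a := 2 * L) (r1 G (Or.inl rfl))
        (r1 (G1 G) (Or.inr rfl)) rfl (hH c hc n n1 (n2.trans mQ)) (by positivity) hL1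
      rw [abs_mul, abs_mul]
      calc |CC E x n| * |cc c n| * |rem_V G X c n|
          ≤ ((X : ℝ) ^ (κ / 100) / n) * c ^ 2 *
            (3 * L * (K * (c : ℝ) ^ 4 * (2 * (X : ℝ) ^ (-(1 / 4) : ℝ)))) := by
            gcongr
        _ = _ := by ring
    have t2 : ∀ c ∈ Finset.Icc 1 R, |1 / (c * phi c) *
        ∑ n ∈ Finset.Icc 1 m, CC E x n * cc c n * rem_V G X c n| ≤
        18 * K * L ^ 2 * (X : ℝ) ^ (κ / 100) * (X : ℝ) ^ (-(1 / 4) : ℝ) * (R : ℝ) ^ 5 := by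
      intro c hc
      obtain ⟨c1, c2⟩ := Finset.mem_Icc.mp hc
      have c1' : (1 : ℝ) ≤ c := by exact_mod_cast c1
      have c2' : (c : ℝ) ≤ R := by exact_mod_cast c2
      have p1 : (1 : ℝ) ≤ phi c := by
        unfold phi
        exact_mod_cast Nat.totient_pos.mpr c1
      have hlm : ∑ n ∈ Finset.Icc 1 m, 1 / (n : ℝ) ≤ 3 * L := by
        calc ∑ n ∈ Finset.Icc 1 m, 1 / (n : ℝ) ≤ ∑ n ∈ Finset.Icc 1 Q, 1 / (n : ℝ) :=
              Finset.sum_le_sum_of_subset_of_nonneg (Finset.Icc_subset_Icc le_rfl mQ)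
                fun n _ _ => by positivity
          _ ≤ 1 + Real.log Q := rem_harm Q
          _ ≤ 3 * L := hlogz
      rw [abs_mul]
      have u1 : |1 / ((c : ℝ) * phi c)| ≤ 1 / c := by
        rw [abs_of_nonneg (by positivity)]
        apply one_div_le_one_div_of_le (by linarith)
        nlinarith
      have u2 : |∑ n ∈ Finset.Icc 1 m, CC E x n * cc c n * rem_V G X c n| ≤
          (X : ℝ) ^ (κ / 100) * (c ^ 2 * (3 * L * (K * c ^ 4 * (2 * (X : ℝ) ^ (-(1 / 4) : ℝ))))) *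
            (3 * L) := by
        calc _ ≤ ∑ n ∈ Finset.Icc 1 m, |CC E x n * cc c n * rem_V G X c n| :=
              Finset.abs_sum_le_sum_abs _ _
          _ ≤ ∑ n ∈ Finset.Icc 1 m, (X : ℝ) ^ (κ / 100) *
              (c ^ 2 * (3 * L * (K * c ^ 4 * (2 * (X : ℝ) ^ (-(1 / 4) : ℝ))))) * (1 / n) :=
              Finset.sum_le_sum (t1 c hc)
          _ = (X : ℝ) ^ (κ / 100) *
              (c ^ 2 * (3 * L * (K * c ^ 4 * (2 * (X : ℝ) ^ (-(1 / 4) : ℝ))))) *
              ∑ n ∈ Finset.Icc 1 m, 1 / (n : ℝ) := by rw [Finset.mul_sum]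
          _ ≤ _ := by gcongr
      calc _ ≤ 1 / (c : ℝ) * ((X : ℝ) ^ (κ / 100) *
            (c ^ 2 * (3 * L * (K * c ^ 4 * (2 * (X : ℝ) ^ (-(1 / 4) : ℝ))))) * (3 * L)) := by
            gcongr
        _ = 18 * K * L ^ 2 * (X : ℝ) ^ (κ / 100) * (X : ℝ) ^ (-(1 / 4) : ℝ) * (c : ℝ) ^ 5 := by
            have : (c : ℝ) ≠ 0 := by linarith
            field_simp
            ring
        _ ≤ _ := by gcongr
    have t3 : (X : ℝ) ^ (κ / 100) * (X : ℝ) ^ (-(1 / 4) : ℝ) * (R : ℝ) ^ 6 ≤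
        (X : ℝ) ^ (-(1 / 5) : ℝ) := by
      calc (X : ℝ) ^ (κ / 100) * (X : ℝ) ^ (-(1 / 4) : ℝ) * (R : ℝ) ^ 6
          ≤ (X : ℝ) ^ (κ / 100) * (X : ℝ) ^ (-(1 / 4) : ℝ) * ((X : ℝ) ^ (6 * κ)) ^ 6 := by gcongr
        _ = (X : ℝ) ^ (κ / 100 + (-(1 / 4)) + 6 * κ * 6) := by
            rw [← Real.rpow_natCast ((X : ℝ) ^ (6 * κ)) 6, ← Real.rpow_mul hX0.le,
              ← Real.rpow_add hX0, ← Real.rpow_add hX0]
            norm_num
        _ ≤ _ := Real.rpow_le_rpow_of_exponent_le hX1 (by linarith)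
    calc _ ≤ ∑ c ∈ Finset.Icc 1 R, |1 / (c * phi c) *
          ∑ n ∈ Finset.Icc 1 m, CC E x n * cc c n * rem_V G X c n| :=
          Finset.abs_sum_le_sum_abs _ _
      _ ≤ ∑ c ∈ Finset.Icc 1 R,
          18 * K * L ^ 2 * (X : ℝ) ^ (κ / 100) * (X : ℝ) ^ (-(1 / 4) : ℝ) * (R : ℝ) ^ 5 :=
          Finset.sum_le_sum t2
      _ = 18 * K * L ^ 2 * ((X : ℝ) ^ (κ / 100) * (X : ℝ) ^ (-(1 / 4) : ℝ) * (R : ℝ) ^ 6) := by
          rw [Finset.sum_const, Nat.card_Icc, nsmul_eq_mul, Nat.add_sub_cancel]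
          ring
      _ ≤ 18 * K * L ^ 2 * (X : ℝ) ^ (-(1 / 5) : ℝ) := by gcongr
      _ = 18 * K * (L ^ 3 * (X : ℝ) ^ (-(1 / 5) : ℝ)) / L := by
          field_simp
      _ ≤ 18 * K * 8000 / L := by
          gcongr
          calc L ^ 3 * (X : ℝ) ^ (-(1 / 5) : ℝ)
              ≤ 8000 * (X : ℝ) ^ (1 / 5 : ℝ) * (X : ℝ) ^ (-(1 / 5) : ℝ) := by
                gcongr
                exact rem_pow_three hX1 hL hL0.le
            _ = 8000 := by
                rw [mul_assoc, ← Real.rpow_add hX0]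
                norm_num
      _ = 144000 * K / L := by ring
  -- the second part
  have part2 : ∀ z : ℕ, z ≤ Q → (X : ℝ) ^ (1 / 2 : ℝ) ≤ z →
      |∑ c ∈ Finset.Icc 1 R, 1 / (c * phi c) *
        ∑ n ∈ Finset.Ioc z Q, CC E x n * cc c n * rem_V G X c n| ≤
        30 * K * K₂ * 2 ^ j / L := by
    intro z hz hzX
    have hz1 : 1 ≤ z := by
      have : (1 : ℝ) ≤ z := (Real.one_le_rpow hX1 (by norm_num)).trans hzX
      exact_mod_cast this
    have hpow : ∀ n : ℕ, 1 ≤ n → n ≤ Q → ((n : ℝ) / X) ^ (1 / (2 * L)) ≤ 2 := by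
      intro n n1 n2
      have hn0 : (0 : ℝ) < n := by exact_mod_cast n1
      have n2' : (n : ℝ) ≤ (X : ℝ) ^ (1 + 101 / 50 * κ) :=
        le_trans (by exact_mod_cast n2) hck.size
      have q1 : (n : ℝ) / X ≤ (X : ℝ) ^ (101 / 50 * κ) := by
        rw [div_le_iff₀ hX0]
        rwa [add_comm, Real.rpow_add hX0, Real.rpow_one] at n2'
      calc ((n : ℝ) / X) ^ (1 / (2 * L)) ≤ ((X : ℝ) ^ (101 / 50 * κ)) ^ (1 / (2 * L)) :=
            Real.rpow_le_rpow (by positivity) q1 (by positivity)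
        _ = Real.exp (101 / 100 * κ) := by
            rw [← Real.rpow_mul hX0.le, Real.rpow_def_of_pos hX0, ← hL]
            congr 1
            field_simp
            norm_num
        _ ≤ Real.exp (1 / 2) := by
            apply Real.exp_le_exp.mpr
            linarith
        _ ≤ 2 := by
            have h1 := Real.exp_one_lt_d9
            have h2 : Real.exp (1 / 2) * Real.exp (1 / 2) = Real.exp 1 := by
              rw [← Real.exp_add]
              norm_num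
            nlinarith [Real.exp_pos (1 / 2)]
    have t1 : ∀ c ∈ Finset.Icc 1 R, |∑ n ∈ Finset.Ioc z Q, CC E x n * cc c n * rem_V G X c n| ≤
        tau c ^ B / L ^ (6 + j) * (30 * (K * c * tau c ^ 3) * L ^ 5) := by
      intro c hc
      obtain ⟨c1, c2⟩ := Finset.mem_Icc.mp hc
      have c2' : (c : ℝ) ≤ (X : ℝ) ^ (6 * κ) := le_trans (by exact_mod_cast c2) hRle
      have hτ0 := rem_tau_nonneg c
      have hPc := hP c
      have hmob := fun m => hA.mob c z m c1 c2' hzX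
      have rr : ∀ F : ℝ → ℝ, (F = G ∨ F = G1 G) → ∀ n : ℕ, 1 ≤ n → n ≤ Q →
          |RR F c (n / X)| ≤ 2 * ((K * c * tau c ^ 3) * L ^ 3) := by
        intro F hF n n1 n2
        have hn0 : (0 : ℝ) < n := by exact_mod_cast n1
        have := (hR F hF c c1 L hL1).1 (n / X) (by positivity)
        refine this.trans ?_
        have h2 := hpow n n1 n2
        calc K * c * tau c ^ 3 * L ^ 3 * ((n : ℝ) / X) ^ (1 / (2 * L))
            ≤ K * c * tau c ^ 3 * L ^ 3 * 2 := by gcongr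
          _ = _ := by ring
      have rd : ∀ F : ℝ → ℝ, (F = G ∨ F = G1 G) → ∀ n : ℕ, 1 ≤ n → n ≤ Q →
          |RR F c (((n + 1 : ℕ) : ℝ) / X) - RR F c (n / X)| ≤
            2 * ((K * c * tau c ^ 3) * L ^ 3) / n := by
        intro F hF n n1 n2
        have hn0 : (0 : ℝ) < n := by exact_mod_cast n1
        have n1' : (1 : ℝ) ≤ n := by exact_mod_cast n1
        have := (hR F hF c c1 L hL1).2 (n / X) (((n + 1 : ℕ) : ℝ) / X) (by positivity)
          (by gcongr; push_cast; linarith)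
          (by
            rw [← mul_div_assoc]
            gcongr
            push_cast
            linarith)
        refine this.trans ?_
        have h2 := hpow n n1 n2
        have h3 : (((n + 1 : ℕ) : ℝ) / X - n / X) / (n / X) = 1 / n := by
          push_cast
          field_simp
          ring
        rw [h3]
        calc K * c * tau c ^ 3 * L ^ 3 * ((n : ℝ) / X) ^ (1 / (2 * L)) * (1 / n)
            ≤ K * c * tau c ^ 3 * L ^ 3 * 2 * (1 / n) := by gcongr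
          _ = _ := by ring
      have hQ1 : 1 ≤ Q := hz1.trans hz
      have v1 := rem_V_bd (X := (X : ℝ)) (n := Q) (H := L) (a := 2 * L)
        (rr G (Or.inl rfl) Q hQ1 le_rfl) (rr (G1 G) (Or.inr rfl) Q hQ1 le_rfl) rfl
        (hH c hc Q hQ1 le_rfl) (by positivity) hL1
      have v2 : ∀ n, z ≤ n → n < Q → |rem_V G X c (n + 1) - rem_V G X c n| ≤
          4 * L * (2 * ((K * c * tau c ^ 3) * L ^ 3)) / n := by
        intro n h1 h2
        exact rem_V_diff (hz1.trans h1) (rr G (Or.inl rfl) (n + 1) (by omega) (by omega))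
          (rd G (Or.inl rfl) n (hz1.trans h1) h2.le) (rd (G1 G) (Or.inr rfl) n (hz1.trans h1) h2.le)
          (hH c hc n (hz1.trans h1) h2.le) (by positivity) hL1
      have := rem_abel_bd (a := fun n => CC E x n * cc c n) (V := rem_V G X c) hz1 hz
        (A := tau c ^ B / L ^ (6 + j)) (by positivity) (by positivity) hmob v1 v2
      refine this.trans ?_
      have hQ3 := hlogz
      refine mul_le_mul_of_nonneg_left ?_ (by positivity)
      have w : 0 ≤ (K * c * tau c ^ 3) * L ^ 4 := by positivity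
      calc 3 * L * (2 * (K * c * tau c ^ 3 * L ^ 3)) +
            4 * L * (2 * (K * c * tau c ^ 3 * L ^ 3)) * (1 + Real.log Q)
          ≤ 3 * L * (2 * (K * c * tau c ^ 3 * L ^ 3)) +
            4 * L * (2 * (K * c * tau c ^ 3 * L ^ 3)) * (3 * L) := by gcongr
        _ = 6 * (K * c * tau c ^ 3) * L ^ 4 * 1 + 24 * (K * c * tau c ^ 3) * L ^ 5 := by ring
        _ ≤ 6 * (K * c * tau c ^ 3) * L ^ 4 * L + 24 * (K * c * tau c ^ 3) * L ^ 5 := by gcongr
        _ = 30 * (K * c * tau c ^ 3) * L ^ 5 := by ring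
    have hlR : 1 + Real.log R ≤ 2 * L := by
      have := (hlogc R (Finset.mem_Icc.mpr ⟨hR1, le_rfl⟩)).2
      linarith
    have hlR0 : 0 ≤ 1 + Real.log R := by
      have := (hlogc R (Finset.mem_Icc.mpr ⟨hR1, le_rfl⟩)).1
      linarith
    calc _ ≤ ∑ c ∈ Finset.Icc 1 R, |1 / (c * phi c) *
          ∑ n ∈ Finset.Ioc z Q, CC E x n * cc c n * rem_V G X c n| :=
          Finset.abs_sum_le_sum_abs _ _
      _ ≤ ∑ c ∈ Finset.Icc 1 R, 30 * K * L ^ 5 / L ^ (6 + j) * (tau c ^ (B + 3) / phi c) := by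
          refine Finset.sum_le_sum fun c hc => ?_
          obtain ⟨c1, c2⟩ := Finset.mem_Icc.mp hc
          have c1' : (1 : ℝ) ≤ c := by exact_mod_cast c1
          have p1 : (1 : ℝ) ≤ phi c := by
            unfold phi
            exact_mod_cast Nat.totient_pos.mpr c1
          rw [abs_mul, abs_of_nonneg (show (0 : ℝ) ≤ 1 / (c * phi c) by positivity)]
          calc 1 / ((c : ℝ) * phi c) * |∑ n ∈ Finset.Ioc z Q, CC E x n * cc c n * rem_V G X c n|
              ≤ 1 / ((c : ℝ) * phi c) *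
                (tau c ^ B / L ^ (6 + j) * (30 * (K * c * tau c ^ 3) * L ^ 5)) := by
                gcongr
                exact t1 c hc
            _ = _ := by
                have h1 : (c : ℝ) ≠ 0 := by linarith
                have h2 : phi c ≠ 0 := by linarith
                field_simp
                ring
      _ = 30 * K * L ^ 5 / L ^ (6 + j) * ∑ c ∈ Finset.Icc 1 R, tau c ^ (B + 3) / phi c := by
          rw [Finset.mul_sum]
      _ ≤ 30 * K * L ^ 5 / L ^ (6 + j) * (K₂ * (1 + Real.log R) ^ j) := by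
          gcongr
          exact hτ R hR1
      _ ≤ 30 * K * L ^ 5 / L ^ (6 + j) * (K₂ * (2 * L) ^ j) := by
          gcongr
      _ = 30 * K * K₂ * 2 ^ j / L := by
          rw [mul_pow, pow_add]
          field_simp
  rw [rem_M7]
  have fin1 : 144000 * K / L ≤ (144000 * K + 30 * K * K₂ * 2 ^ j) / L := by
    gcongr
    have : 0 ≤ 30 * K * K₂ * 2 ^ j := by positivity
    linarith
  by_cases hz : ⌈(X : ℝ) ^ (1 / 2 : ℝ)⌉₊ ≤ Q
  · set z : ℕ := ⌈(X : ℝ) ^ (1 / 2 : ℝ)⌉₊ with hzd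
    have hzX : (X : ℝ) ^ (1 / 2 : ℝ) ≤ z := Nat.le_ceil _
    have hzX2 : (z : ℝ) ≤ 2 * (X : ℝ) ^ (1 / 2 : ℝ) := by
      have h1 := Nat.ceil_lt_add_one (a := (X : ℝ) ^ (1 / 2 : ℝ)) (by positivity)
      have h2 : (1 : ℝ) ≤ (X : ℝ) ^ (1 / 2 : ℝ) := Real.one_le_rpow hX1 (by norm_num)
      rw [← hzd] at h1
      linarith
    have e : ∀ c : ℕ, ∑ n ∈ Finset.Icc 1 Q, CC E x n * cc c n * rem_V G X c n =
        ∑ n ∈ Finset.Icc 1 z, CC E x n * cc c n * rem_V G X c n +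
        ∑ n ∈ Finset.Ioc z Q, CC E x n * cc c n * rem_V G X c n := by
      intro c
      have hu : Finset.Icc 1 Q = Finset.Icc 1 z ∪ Finset.Ioc z Q := by
        ext n
        simp only [Finset.mem_Icc, Finset.mem_union, Finset.mem_Ioc]
        omega
      rw [hu, Finset.sum_union]
      refine Finset.disjoint_left.mpr fun n h1 h2 => ?_
      have := (Finset.mem_Icc.mp h1).2
      have := (Finset.mem_Ioc.mp h2).1
      omega
    simp only [e, mul_add, Finset.sum_add_distrib]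
    refine (abs_add_le _ _).trans ?_
    have := part1 z hz hzX2
    have := part2 z hz hzX
    calc _ ≤ 144000 * K / L + 30 * K * K₂ * 2 ^ j / L := by linarith
      _ = _ := by ring
  · have hQX : (Q : ℝ) ≤ 2 * (X : ℝ) ^ (1 / 2 : ℝ) := by
      have h1 := Nat.lt_ceil.mp (not_le.mp hz)
      have h2 : (0 : ℝ) ≤ (X : ℝ) ^ (1 / 2 : ℝ) := by positivity
      linarith
    exact (part1 Q le_rfl hQX).trans fin1

alias rem_bd := rem_bd_pr

end Pool.Agent.LSPP
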