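import Pool.Agent.Lib_helper15.LSP.DefsP
import Pool.Agent.Lib_helper15.LSPF.TRB
import Pool.Agent.Lib_helper15.LSPF.TAU

set_option autoImplicit false

namespace Pool.Agent.LSPP

open Pool.Agent.LSP (tau sg1 CC Gs Adm)
open Pool.Agent.LSPO (hyp cl KK rho b1 GOK)
open Pool.Agent.FG61 (mu phi cc)
open MeasureTheory Filter Topology

theorem tra_cl_le (om u : ℝ) : 0 ≤ cl om u ∧ cl om u ≤ 1 := by
  unfold cl
  exact ⟨le_max_left _ _, max_le zero_le_one (min_le_left _ _)⟩

theorem tra_cl_ne {om u : ℝ} (ho : 0 < om) (h : cl om u ≠ 0) : om < |1 - u| := by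
  unfold cl at h
  by_contra hn
  apply h
  apply max_eq_left
  refine (min_le_right _ _).trans ?_
  have : |1 - u| / om ≤ 1 := by
    rw [div_le_one ho]
    exact not_lt.1 hn
  linarith

theorem tra_harm (Q : ℕ) : ∑ n ∈ Finset.Icc 1 Q, 1 / (n : ℝ) ≤ 1 + Real.log Q := by
  have h := harmonic_le_one_add_log Q
  rw [harmonic_eq_sum_Icc] at h
  push_cast at h
  simpa [one_div] using h

/-- the number of nonzero integers up to `V` -/
theorem tra_card (S : Finset ℤ) (h0 : (0 : ℤ) ∉ S) {V : ℝ} (hV : 0 ≤ V) :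
    ((S.filter (fun g : ℤ => |(g : ℝ)| ≤ V)).card : ℝ) ≤ 2 * V := by
  have hsub : S.filter (fun g : ℤ => |(g : ℝ)| ≤ V) ⊆
      (Finset.Icc (-(⌊V⌋₊ : ℤ)) (⌊V⌋₊ : ℤ)).erase 0 := by
    intro g hg
    obtain ⟨h1, h2⟩ := Finset.mem_filter.1 hg
    rw [Finset.mem_erase, Finset.mem_Icc]
    refine ⟨fun h => h0 (h ▸ h1), ?_⟩
    have h3 : ((g.natAbs : ℕ) : ℝ) ≤ V := by
      rw [Nat.cast_natAbs, Int.cast_abs]
      exact h2
    have h4 : g.natAbs ≤ ⌊V⌋₊ := Nat.le_floor h3
    omega
  have h1 := Finset.card_le_card hsub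
  rw [Finset.card_erase_of_mem (by simp), Int.card_Icc] at h1
  have h2 : ((⌊V⌋₊ : ℤ) + 1 - (-(⌊V⌋₊ : ℤ))).toNat - 1 = 2 * ⌊V⌋₊ := by omega
  rw [h2] at h1
  have h3 : ((S.filter (fun g : ℤ => |(g : ℝ)| ≤ V)).card : ℝ) ≤ ((2 * ⌊V⌋₊ : ℕ) : ℝ) := by
    exact_mod_cast h1
  refine h3.trans ?_
  push_cast
  have := Nat.floor_le hV
  linarith

/-- the facts about large `X` -/
theorem tra_large {U A κ : ℝ} (h0 : 0 < κ) (hA : 0 < A) : ∃ X₀ : ℝ, ∀ X : ℝ, X₀ ≤ X →
    1 ≤ Real.log X ∧ 1 + U ≤ X ∧ U ≤ X ^ (1 / 2 : ℝ) ∧ 2 ≤ X ^ (6 * κ) ∧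
      A * Real.log X ^ 4 ≤ X ^ (9 / 10 * κ) := by
  have e1 : ∀ᶠ X : ℝ in atTop, 1 ≤ Real.log X := Real.tendsto_log_atTop.eventually_ge_atTop 1
  have e2 : ∀ᶠ X : ℝ in atTop, 1 + U ≤ X := eventually_ge_atTop _
  have e3 : ∀ᶠ X : ℝ in atTop, U ≤ X ^ (1 / 2 : ℝ) :=
    (tendsto_rpow_atTop (by norm_num)).eventually_ge_atTop U
  have e4 : ∀ᶠ X : ℝ in atTop, 2 ≤ X ^ (6 * κ) :=
    (tendsto_rpow_atTop (by positivity)).eventually_ge_atTop 2
  have e5 : ∀ᶠ X : ℝ in atTop, A * Real.log X ^ 4 ≤ X ^ (9 / 10 * κ) := by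
    have h := isLittleO_log_rpow_rpow_atTop (4 : ℝ) (show (0 : ℝ) < 9 / 10 * κ by positivity)
    have h2 := h.bound (show (0 : ℝ) < 1 / A by positivity)
    filter_upwards [h2, eventually_ge_atTop 1] with X h3 h4
    have h5 : 0 ≤ Real.log X := Real.log_nonneg h4
    rw [Real.norm_of_nonneg (Real.rpow_nonneg h5 _), Real.norm_of_nonneg
      (Real.rpow_nonneg (by linarith) _)] at h3
    have h6 : Real.log X ^ (4 : ℝ) = Real.log X ^ 4 := by
      rw [← Real.rpow_natCast]
      norm_num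
    rw [h6] at h3
    calc A * Real.log X ^ 4 ≤ A * (1 / A * X ^ (9 / 10 * κ)) := by gcongr
      _ = X ^ (9 / 10 * κ) := by field_simp
  obtain ⟨X₀, hX⟩ := eventually_atTop.1 (e1.and (e2.and (e3.and (e4.and e5))))
  exact ⟨X₀, fun X h => hX X h⟩

theorem tra_pr {G : ℝ → ℝ} {U c₀ : ℝ} (hG : GOK G U c₀) {κ : ℝ} (h0 : 0 < κ) (h1 : κ ≤ 1 / 1000) :
    ∃ X₀ : ℝ, ∀ X : ℝ, X₀ ≤ X → ∀ (Q : ℕ) (C : ℕ → ℝ), CK κ X Q C → ∀ S : Finset ℤ, 0 ∉ S →
    ∀ Dl : ℕ, 2 * Real.sqrt ((1 + U) * Q) ≤ Dl → ∀ Z : ℝ, X ≤ Z → Z ≤ 2 * X →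
      |b1 C G Q S Dl (X ^ (-(4 * κ))) Z - M5 C G Q S ⌊X ^ (6 * κ)⌋₊ (X ^ (-(4 * κ))) Z| ≤
        X ^ (-κ) := by
  obtain ⟨K, hK1, hK⟩ := trb
  obtain ⟨Ct, hCt1, hCt⟩ := tau_le (ε := κ / 1000) (by positivity)
  have hU := hG.one_le
  have hc₀ := hG.one_le'
  have hU0 : 0 < U := by linarith
  have hpi := Real.pi_pos
  set A : ℝ := 4 * Real.pi * (3 * (2 * U * (Ct ^ 3 * (3 * c₀) * K * 16 * (3 * U)))) with hAdef
  have hA : 0 < A := by positivity
  obtain ⟨X₀, hX₀⟩ := tra_large (U := U) h0 hA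
  refine ⟨X₀, ?_⟩
  intro X hX Q C hC S hS Dl hDl Z hZ1 hZ2
  obtain ⟨hL1, hUX, hUX2, hX6, hfin⟩ := hX₀ X hX
  set L : ℝ := Real.log X with hLdef
  have hX1 : 1 < X := by
    by_contra h
    have := Real.log_nonpos (x := X) (by linarith) (not_lt.1 h)
    linarith
  have hXp : 0 < X := by linarith
  have hZp : 0 < Z := by linarith
  set om : ℝ := X ^ (-(4 * κ)) with hom
  have hom0 : 0 < om := Real.rpow_pos_of_pos hXp _
  set R : ℕ := ⌊X ^ (6 * κ)⌋₊ with hR
  have hRle : (R : ℝ) ≤ X ^ (6 * κ) := Nat.floor_le (Real.rpow_nonneg hXp.le _)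
  have hRge : X ^ (6 * κ) / 2 ≤ R := by
    have := Nat.lt_floor_add_one (X ^ (6 * κ))
    linarith
  have hR1 : 1 ≤ R := by
    have : (1 : ℝ) ≤ R := by linarith
    exact_mod_cast this
  have hRp : (0 : ℝ) < R := by linarith
  -- the per-pair bound
  set V : ℝ := U * X ^ (101 / 50 * κ) with hV
  have hV0 : 0 < V := mul_pos hU0 (Real.rpow_pos_of_pos hXp _)
  set Tt : ℝ := Ct * X ^ (κ / 500) with hTt
  have hTt0 : 0 < Tt := mul_pos (by linarith) (Real.rpow_pos_of_pos hXp _)
  set T : ℝ := Tt ^ 3 * (3 * c₀ * L) * K * (16 * L ^ 2) * (3 * U * X ^ (-(199 / 50 * κ))) with hT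
  have hT0 : 0 ≤ T := by
    have := Real.rpow_nonneg hXp.le (-(199 / 50 * κ))
    have : 0 ≤ L := by linarith
    positivity
  have hQ2 : (Q : ℝ) ≤ X ^ (2 : ℝ) :=
    hC.size.trans (Real.rpow_le_rpow_of_exponent_le hX1.le (by linarith))
  have hpair : ∀ n ∈ Finset.Icc 1 Q, ∀ g ∈ S, tau g.natAbs * |KK G om ((g : ℝ) * Z / n)| *
      |∑ d ∈ Finset.Icc 1 Dl, rho d n g * hyp (Real.log d - Real.log |(n : ℝ) - g * Z| / 2) -
        ∑ c ∈ Finset.Icc 1 R, cc c n * cc c g.natAbs / (c * phi c) *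
          (Real.log |(n : ℝ) - g * Z| / 2 + ga - Real.log c)| ≤
      if |(g : ℝ)| ≤ V then T else 0 := by
    intro n hn g hg
    have hn1 := (Finset.mem_Icc.1 hn).1
    have hnQ : (n : ℝ) ≤ Q := by exact_mod_cast (Finset.mem_Icc.1 hn).2
    have hnp : (0 : ℝ) < n := by exact_mod_cast hn1
    have hg0 : g ≠ 0 := fun h => hS (h ▸ hg)
    have hga : (1 : ℝ) ≤ |(g : ℝ)| := by
      rw [← Int.cast_abs]
      exact_mod_cast Int.one_le_abs hg0
    have hgn : ((g.natAbs : ℕ) : ℝ) = |(g : ℝ)| := by rw [Nat.cast_natAbs, Int.cast_abs]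
    set u : ℝ := (g : ℝ) * Z / n with hu
    by_cases hKK : KK G om u = 0
    · rw [hKK, abs_zero, mul_zero, zero_mul]
      split_ifs
      · exact hT0
      · exact le_rfl
    have hGu : G u ≠ 0 := fun h => hKK (by unfold KK; rw [h, zero_mul])
    have hcl : cl om u ≠ 0 := fun h => hKK (by unfold KK; rw [h, mul_zero])
    have huU : |u| ≤ U := by
      by_contra h
      exact hGu (hG.supp u (not_le.1 h))
    have hu1 : om < |1 - u| := tra_cl_ne hom0 hcl
    have hua : |u| = |(g : ℝ)| * Z / n := by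
      rw [hu, abs_div, abs_mul, abs_of_pos hZp, abs_of_pos hnp]
    have hu0 : u ≠ 0 := by
      intro h
      rw [h, abs_zero] at hua
      have : 0 < |(g : ℝ)| * Z / n := by positivity
      linarith
    have hune : u ≠ 1 := by
      intro h
      rw [h, sub_self, abs_zero] at hu1
      linarith
    -- sizes
    have hgU : |(g : ℝ)| * Z ≤ U * n := by
      rw [hua, div_le_iff₀ hnp] at huU
      exact huU
    have hnX : X / U ≤ n := by
      rw [div_le_iff₀ hU0]
      nlinarith
    have hgV : |(g : ℝ)| ≤ V := by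
      have h2 : |(g : ℝ)| * X ≤ U * X ^ (1 + 101 / 50 * κ) := by
        calc |(g : ℝ)| * X ≤ |(g : ℝ)| * Z := by gcongr
          _ ≤ U * n := hgU
          _ ≤ U * X ^ (1 + 101 / 50 * κ) := by
            have := hnQ.trans hC.size
            gcongr
      rw [Real.rpow_add hXp, Real.rpow_one] at h2
      rw [hV]
      nlinarith
    rw [if_pos hgV]
    set D : ℝ := |(n : ℝ) - g * Z| with hD
    have hDu : D = n * |1 - u| := by
      have : (n : ℝ) - g * Z = n * (1 - u) := by
        rw [hu]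
        field_simp
      rw [hD, this, abs_mul, abs_of_pos hnp]
    have hDlow : X ^ (1 - 4 * κ) / U ≤ D := by
      rw [hDu]
      have h3 : X / U * om ≤ n * |1 - u| := by
        have : 0 ≤ X / U := by positivity
        gcongr
      have h4 : X / U * om = X ^ (1 - 4 * κ) / U := by
        rw [hom, sub_eq_add_neg, Real.rpow_add hXp, Real.rpow_one]
        ring
      rw [← h4]
      exact h3
    have h1u : |1 - u| ≤ 1 + U := by
      refine (abs_sub _ _).trans ?_
      rw [abs_one]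
      linarith
    have hDup : D ≤ (1 + U) * Q := by
      rw [hDu, mul_comm]
      have : 0 ≤ 1 + U := by linarith
      gcongr
    have hXhalf : X ^ (1 / 2 : ℝ) ≤ X ^ (1 - 16 * κ) :=
      Real.rpow_le_rpow_of_exponent_le hX1.le (by linarith)
    have hD12 : X ^ (12 * κ) ≤ D := by
      refine le_trans ?_ hDlow
      rw [le_div_iff₀ hU0]
      calc X ^ (12 * κ) * U ≤ X ^ (12 * κ) * X ^ (1 - 16 * κ) := by
            have := Real.rpow_nonneg hXp.le (12 * κ)
            exact mul_le_mul_of_nonneg_left (hUX2.trans hXhalf) this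
        _ = X ^ (1 - 4 * κ) := by
            rw [← Real.rpow_add hXp]
            congr 1
            ring
    have hD1 : 1 ≤ D := by
      refine le_trans ?_ hD12
      exact Real.one_le_rpow hX1.le (by positivity)
    have hDp : 0 < D := by linarith
    have hsq : X ^ (6 * κ) ≤ Real.sqrt D := by
      apply Real.le_sqrt_of_sq_le
      rw [← Real.rpow_natCast, ← Real.rpow_mul hXp.le]
      refine le_trans (le_of_eq ?_) hD12
      congr 1
      push_cast
      ring
    have hmain := hK (D := D) (n := n) (Dl := Dl) (R := R) (g := g) hn1 hg0 hD1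
      ((mul_le_mul_of_nonneg_left (Real.sqrt_le_sqrt hDup) (by norm_num)).trans hDl) hR1
      (hRle.trans hsq)
    -- the kernel
    have hlogu : |Real.log (|u|)| ≤ L := by
      rw [abs_le]
      constructor
      · have h2 : X⁻¹ ≤ |u| := by
          rw [hua, le_div_iff₀ hnp]
          calc X⁻¹ * n ≤ X⁻¹ * X ^ (2 : ℝ) := by
                have := hnQ.trans hQ2
                gcongr
            _ = X := by
                rw [show (2 : ℝ) = ((2 : ℕ) : ℝ) by norm_num, Real.rpow_natCast]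
                field_simp
            _ ≤ |(g : ℝ)| * Z := by nlinarith
        have h3 := Real.log_le_log (by positivity) h2
        rwa [Real.log_inv] at h3
      · refine (Real.log_le_log (abs_pos.2 hu0) (huU.trans ?_))
        linarith
    have hlogu1 : |Real.log (|1 - u|)| ≤ L := by
      rw [abs_le]
      constructor
      · have h2 : X ^ (-(4 * κ)) ≤ |1 - u| := hu1.le
        have h3 := Real.log_le_log hom0 h2
        rw [Real.log_rpow hXp, ← hLdef] at h3
        have h4 : -(4 * κ) * L ≥ -L := by nlinarith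
        linarith
      · refine (Real.log_le_log (abs_pos.2 (sub_ne_zero.2 (Ne.symm hune))) (h1u.trans hUX))
    have hKKb : |KK G om u| ≤ 3 * c₀ * L := by
      unfold KK
      rw [abs_mul, abs_of_nonneg (tra_cl_le om u).1]
      have h2 := hG.bd u hu0 hune
      have h3 : c₀ * (1 + |Real.log (|u|)| + |Real.log (|1 - u|)|) ≤ c₀ * (L + L + L) := by
        have : (0 : ℝ) ≤ c₀ := by linarith
        gcongr
      calc |G u| * cl om u ≤ |G u| * 1 :=
            mul_le_mul_of_nonneg_left (tra_cl_le om u).2 (abs_nonneg _)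
        _ ≤ c₀ * (L + L + L) := by
            rw [mul_one]
            exact h2.trans h3
        _ = 3 * c₀ * L := by ring
    -- divisors
    have htn : tau n ≤ Tt := by
      refine (hCt n).trans ?_
      rw [hTt]
      have h2 : (n : ℝ) ^ (κ / 1000) ≤ X ^ (κ / 500) := by
        calc (n : ℝ) ^ (κ / 1000) ≤ (X ^ (2 : ℝ)) ^ (κ / 1000) :=
              Real.rpow_le_rpow hnp.le (hnQ.trans hQ2) (by positivity)
          _ = X ^ (κ / 500) := by
              rw [← Real.rpow_mul hXp.le]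
              congr 1
              ring
      exact mul_le_mul_of_nonneg_left h2 (by linarith)
    have hgX2 : |(g : ℝ)| ≤ X ^ (2 : ℝ) := by
      have h2 : |(g : ℝ)| * X ≤ X * X ^ (2 : ℝ) := by
        calc |(g : ℝ)| * X ≤ |(g : ℝ)| * Z := by gcongr
          _ ≤ U * n := hgU
          _ ≤ X * X ^ (2 : ℝ) := by
              have h3 := hnQ.trans hQ2
              have h4 : U ≤ X := by linarith
              gcongr
      have h3 : |(g : ℝ)| * X ≤ X ^ (2 : ℝ) * X := by linarith
      exact le_of_mul_le_mul_right h3 hXp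
    have htg : tau g.natAbs ≤ Tt := by
      refine (hCt g.natAbs).trans ?_
      rw [hTt, hgn]
      have h2 : |(g : ℝ)| ^ (κ / 1000) ≤ X ^ (κ / 500) := by
        calc |(g : ℝ)| ^ (κ / 1000) ≤ (X ^ (2 : ℝ)) ^ (κ / 1000) :=
              Real.rpow_le_rpow (abs_nonneg _) hgX2 (by positivity)
          _ = X ^ (κ / 500) := by
              rw [← Real.rpow_mul hXp.le]
              congr 1
              ring
      exact mul_le_mul_of_nonneg_left h2 (by linarith)
    have htn0 : 0 ≤ tau n := by unfold tau; positivity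
    have htg0 : 0 ≤ tau g.natAbs := by unfold tau; positivity
    have hL0 : 0 ≤ L := by linarith
    -- logarithm of D
    have hlogD : Real.log D ≤ 3 * L := by
      calc Real.log D ≤ Real.log (X * X ^ (2 : ℝ)) := by
            refine Real.log_le_log hDp (hDup.trans ?_)
            gcongr
        _ = 3 * L := by
            rw [Real.log_mul hXp.ne' (Real.rpow_pos_of_pos hXp _).ne', Real.log_rpow hXp]
            ring
    have hlogD0 : 0 ≤ Real.log D := Real.log_nonneg hD1
    have hlog2 : (1 + Real.log D) ^ 2 ≤ 16 * L ^ 2 := by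
      have : 1 + Real.log D ≤ 4 * L := by linarith
      calc (1 + Real.log D) ^ 2 ≤ (4 * L) ^ 2 := pow_le_pow_left₀ (by linarith) this 2
        _ = 16 * L ^ 2 := by ring
    -- the last factor
    have hlast : ((g.natAbs : ℕ) : ℝ) / R + R / Real.sqrt D ≤ 3 * U * X ^ (-(199 / 50 * κ)) := by
      have h2 : ((g.natAbs : ℕ) : ℝ) / R ≤ 2 * U * X ^ (-(199 / 50 * κ)) := by
        rw [hgn, div_le_iff₀ hRp]
        calc |(g : ℝ)| ≤ V := hgV
          _ = 2 * U * X ^ (-(199 / 50 * κ)) * (X ^ (6 * κ) / 2) := by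
              have : X ^ (-(199 / 50 * κ)) * X ^ (6 * κ) = X ^ (101 / 50 * κ) := by
                rw [← Real.rpow_add hXp]
                congr 1
                ring
              rw [hV, ← this]
              ring
          _ ≤ 2 * U * X ^ (-(199 / 50 * κ)) * R := by
              have := Real.rpow_nonneg hXp.le (-(199 / 50 * κ))
              gcongr
      have h3 : (R : ℝ) / Real.sqrt D ≤ U * X ^ (-(199 / 50 * κ)) := by
        have hsD : 0 < Real.sqrt D := Real.sqrt_pos.2 hDp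
        rw [div_le_iff₀ hsD]
        have h4 : X ^ ((1 - 4 * κ) / 2) / U ≤ Real.sqrt D := by
          apply Real.le_sqrt_of_sq_le
          refine le_trans ?_ hDlow
          rw [div_pow, ← Real.rpow_natCast (X ^ ((1 - 4 * κ) / 2)), ← Real.rpow_mul hXp.le]
          have h5 : (1 - 4 * κ) / 2 * ((2 : ℕ) : ℝ) = 1 - 4 * κ := by
            push_cast
            ring
          rw [h5]
          have h6 := Real.rpow_nonneg hXp.le (1 - 4 * κ)
          exact div_le_div_of_nonneg_left h6 hU0 (by nlinarith)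
        calc (R : ℝ) ≤ X ^ (6 * κ) := hRle
          _ ≤ X ^ (-(199 / 50 * κ)) * X ^ ((1 - 4 * κ) / 2) := by
              rw [← Real.rpow_add hXp]
              exact Real.rpow_le_rpow_of_exponent_le hX1.le (by linarith)
          _ = U * X ^ (-(199 / 50 * κ)) * (X ^ ((1 - 4 * κ) / 2) / U) := by field_simp
          _ ≤ U * X ^ (-(199 / 50 * κ)) * Real.sqrt D := by
              have := Real.rpow_nonneg hXp.le (-(199 / 50 * κ))
              gcongr
      linarith
    have hlast0 : 0 ≤ ((g.natAbs : ℕ) : ℝ) / R + R / Real.sqrt D := by positivity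
    calc tau g.natAbs * |KK G om u| * _ ≤ Tt * (3 * c₀ * L) *
          (K * (1 + Real.log D) ^ 2 * tau n * tau g.natAbs *
            ((g.natAbs : ℕ) / R + R / Real.sqrt D)) := by
          refine mul_le_mul (mul_le_mul htg hKKb (abs_nonneg _) hTt0.le) hmain (abs_nonneg _) ?_
          positivity
      _ ≤ Tt * (3 * c₀ * L) * (K * (16 * L ^ 2) * Tt * Tt * (3 * U * X ^ (-(199 / 50 * κ)))) := by
          have hK0 : 0 ≤ K := by linarith
          gcongr
      _ = T := by
          rw [hT]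
          ring
  -- the sum over g
  have hsumg : ∀ n ∈ Finset.Icc 1 Q, ∑ g ∈ S, tau g.natAbs * |KK G om ((g : ℝ) * Z / n)| *
      |∑ d ∈ Finset.Icc 1 Dl, rho d n g * hyp (Real.log d - Real.log |(n : ℝ) - g * Z| / 2) -
        ∑ c ∈ Finset.Icc 1 R, cc c n * cc c g.natAbs / (c * phi c) *
          (Real.log |(n : ℝ) - g * Z| / 2 + ga - Real.log c)| ≤ 2 * V * T := by
    intro n hn
    refine (Finset.sum_le_sum (fun g hg => hpair n hn g hg)).trans ?_
    rw [← Finset.sum_filter, Finset.sum_const, nsmul_eq_mul]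
    exact mul_le_mul_of_nonneg_right (tra_card S hS hV0.le) hT0
  -- the difference
  have hdiff : b1 C G Q S Dl om Z - M5 C G Q S R om Z = 4 * Real.pi *
      ∑ n ∈ Finset.Icc 1 Q, C n * ∑ g ∈ S, tau g.natAbs * KK G om ((g : ℝ) * Z / n) *
      (∑ d ∈ Finset.Icc 1 Dl, rho d n g * hyp (Real.log d - Real.log |(n : ℝ) - g * Z| / 2) -
        ∑ c ∈ Finset.Icc 1 R, cc c n * cc c g.natAbs / (c * phi c) *
          (Real.log |(n : ℝ) - g * Z| / 2 + ga - Real.log c)) := by
    unfold b1 M5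
    rw [← mul_sub, ← Finset.sum_sub_distrib]
    congr 1
    refine Finset.sum_congr rfl ?_
    intro n _
    rw [← mul_sub, ← Finset.sum_sub_distrib]
    congr 1
    refine Finset.sum_congr rfl ?_
    intro g _
    have : Pool.Agent.LSPO.tau g.natAbs = tau g.natAbs := rfl
    rw [this]
    ring
  have htotal : |b1 C G Q S Dl om Z - M5 C G Q S R om Z| ≤
      4 * Real.pi * ((3 * L) * (X ^ (κ / 100) * (2 * V * T))) := by
    rw [hdiff, abs_mul, abs_of_pos (by positivity)]
    refine mul_le_mul_of_nonneg_left ?_ (by positivity)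
    refine (Finset.abs_sum_le_sum_abs _ _).trans ?_
    have hX100 := Real.rpow_nonneg hXp.le (κ / 100)
    calc ∑ n ∈ Finset.Icc 1 Q, |C n * ∑ g ∈ S, tau g.natAbs * KK G om ((g : ℝ) * Z / n) *
          (∑ d ∈ Finset.Icc 1 Dl, rho d n g * hyp (Real.log d - Real.log |(n : ℝ) - g * Z| / 2) -
            ∑ c ∈ Finset.Icc 1 R, cc c n * cc c g.natAbs / (c * phi c) *
              (Real.log |(n : ℝ) - g * Z| / 2 + ga - Real.log c))| ≤
        ∑ n ∈ Finset.Icc 1 Q, (X ^ (κ / 100) * (2 * V * T)) * (1 / (n : ℝ)) := by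
          refine Finset.sum_le_sum ?_
          intro n hn
          have hn1 := (Finset.mem_Icc.1 hn).1
          have hnp : (0 : ℝ) < n := by exact_mod_cast hn1
          rw [abs_mul]
          have h2 := hC.bdd n hn1
          have h3 : |∑ g ∈ S, tau g.natAbs * KK G om ((g : ℝ) * Z / n) *
              (∑ d ∈ Finset.Icc 1 Dl, rho d n g * hyp (Real.log d -
                Real.log |(n : ℝ) - g * Z| / 2) -
              ∑ c ∈ Finset.Icc 1 R, cc c n * cc c g.natAbs / (c * phi c) *
              (Real.log |(n : ℝ) - g * Z| / 2 + ga - Real.log c))| ≤ 2 * V * T := by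
            refine (Finset.abs_sum_le_sum_abs _ _).trans ?_
            refine le_trans (le_of_eq ?_) (hsumg n hn)
            refine Finset.sum_congr rfl ?_
            intro g _
            have htg0 : 0 ≤ tau g.natAbs := by unfold tau; positivity
            rw [abs_mul, abs_mul, abs_of_nonneg htg0]
          calc |C n| * _ ≤ X ^ (κ / 100) / n * (2 * V * T) :=
                mul_le_mul h2 h3 (abs_nonneg _) (by positivity)
            _ = _ := by ring
      _ ≤ (X ^ (κ / 100) * (2 * V * T)) * (3 * L) := by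
          rw [← Finset.mul_sum]
          refine mul_le_mul_of_nonneg_left ?_ (by positivity)
          refine (tra_harm Q).trans ?_
          rcases Nat.eq_zero_or_pos Q with hQ0 | hQ0
          · rw [hQ0]
            simp
            linarith
          · have hQp : (0 : ℝ) < Q := by exact_mod_cast hQ0
            have := Real.log_le_log hQp hQ2
            rw [Real.log_rpow hXp] at this
            linarith
      _ = _ := by ring
  refine htotal.trans ?_
  have e1 : 4 * Real.pi * ((3 * L) * (X ^ (κ / 100) * (2 * V * T))) =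
      (A * L ^ 4) * (X ^ (κ / 100) * X ^ (101 / 50 * κ) * (X ^ (κ / 500)) ^ 3 *
        X ^ (-(199 / 50 * κ))) := by
    rw [hT, hTt, hV, hAdef]
    ring
  have e2 : X ^ (κ / 100) * X ^ (101 / 50 * κ) * (X ^ (κ / 500)) ^ 3 *
        X ^ (-(199 / 50 * κ)) ≤ X ^ (-(19 / 10 * κ)) := by
    rw [← Real.rpow_natCast (X ^ (κ / 500)), ← Real.rpow_mul hXp.le, ← Real.rpow_add hXp,
      ← Real.rpow_add hXp, ← Real.rpow_add hXp]
    refine Real.rpow_le_rpow_of_exponent_le hX1.le ?_
    push_cast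
    nlinarith
  rw [e1]
  have hL40 : 0 ≤ A * L ^ 4 := by positivity
  calc (A * L ^ 4) * (X ^ (κ / 100) * X ^ (101 / 50 * κ) * (X ^ (κ / 500)) ^ 3 *
        X ^ (-(199 / 50 * κ))) ≤ X ^ (9 / 10 * κ) * X ^ (-(19 / 10 * κ)) := by
        refine mul_le_mul hfin e2 ?_ (Real.rpow_nonneg hXp.le _)
        have a1 := Real.rpow_nonneg hXp.le (κ / 100)
        have a2 := Real.rpow_nonneg hXp.le (101 / 50 * κ)
        have a3 := Real.rpow_nonneg hXp.le (κ / 500)
        have a4 := Real.rpow_nonneg hXp.le (-(199 / 50 * κ))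
        positivity
    _ = X ^ (-κ) := by
        rw [← Real.rpow_add hXp]
        congr 1
        ring

alias tra := tra_pr

end Pool.Agent.LSPP
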