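import Pool.Agent.Lib_helper15.LSP.DefsP

set_option autoImplicit false

namespace Pool.Agent.LSPP

open Pool.Agent.LSP (tau sg1 CC Gs Adm)
open Pool.Agent.LSPO (hyp cl KK rho b1 GOK)
open Pool.Agent.FG61 (mu phi cc)
open MeasureTheory Filter Topology

theorem pg_log {y : ℝ} (hy : 0 < y) : |Real.log y| ≤ y + 1 / y := by
  rw [abs_le]
  constructor
  · have h := Real.log_le_sub_one_of_pos (show 0 < 1 / y by positivity)
    rw [one_div, Real.log_inv] at h
    rw [one_div]
    linarith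
  · have h := Real.log_le_sub_one_of_pos hy
    have : 0 < 1 / y := by positivity
    linarith

theorem pg_log_lip {x y om : ℝ} (ho : 0 < om) (hx : om ≤ x) (hy : om ≤ y) :
    |Real.log x - Real.log y| ≤ |x - y| / om := by
  have hx0 : 0 < x := by linarith
  have hy0 : 0 < y := by linarith
  rw [abs_le]
  constructor
  · have h := Real.log_le_sub_one_of_pos (show 0 < y / x by positivity)
    rw [Real.log_div hy0.ne' hx0.ne'] at h
    have h2 : y / x - 1 ≤ |x - y| / om := by
      have e : y / x - 1 = (y - x) / x := by field_simp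
      rw [e]
      calc (y - x) / x ≤ |x - y| / x := by
            apply div_le_div_of_nonneg_right _ hx0.le
            rw [abs_sub_comm]; exact le_abs_self _
        _ ≤ |x - y| / om := by
            apply div_le_div_of_nonneg_left (abs_nonneg _) ho hx
    linarith
  · have h := Real.log_le_sub_one_of_pos (show 0 < x / y by positivity)
    rw [Real.log_div hx0.ne' hy0.ne'] at h
    have h2 : x / y - 1 ≤ |x - y| / om := by
      have e : x / y - 1 = (x - y) / y := by field_simp
      rw [e]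
      calc (x - y) / y ≤ |x - y| / y := by
            apply div_le_div_of_nonneg_right _ hy0.le
            exact le_abs_self _
        _ ≤ |x - y| / om := by
            apply div_le_div_of_nonneg_left (abs_nonneg _) ho hy
    linarith

/-- the bound for `G` away from `0` and `1` -/
noncomputable def pgB (U c₀ u₀ om : ℝ) : ℝ := c₀ * (4 + 2 * U + 1 / u₀ + 1 / om)

/-- the Lipschitz constant of `KK` -/
noncomputable def pgP (U c₀ u₀ om : ℝ) : ℝ :=
  c₀ * (2 / u₀ + 2 / om) ^ 3 + pgB U c₀ u₀ om / om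

theorem pg_G_bd {G : ℝ → ℝ} {U c₀ : ℝ} (hG : GOK G U c₀) {u₀ om v : ℝ} (hu : 0 < u₀)
    (ho : 0 < om) (h0 : u₀ ≤ |v|) (h1 : om ≤ |1 - v|) : |G v| ≤ pgB U c₀ u₀ om := by
  have hU := hG.one_le
  have hc := hG.one_le'
  have hB : 0 ≤ pgB U c₀ u₀ om := by unfold pgB; positivity
  by_cases hv : U < |v|
  · rw [hG.supp v hv, abs_zero]; exact hB
  · rw [not_lt] at hv
    have hv0 : v ≠ 0 := by
      rintro rfl
      rw [abs_zero] at h0; linarith
    have hv1 : v ≠ 1 := by
      rintro rfl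
      rw [sub_self, abs_zero] at h1; linarith
    have hp0 : 0 < |v| := abs_pos.mpr hv0
    have hp1 : 0 < |1 - v| := by linarith
    refine (hG.bd v hv0 hv1).trans ?_
    unfold pgB
    apply mul_le_mul_of_nonneg_left _ (by linarith)
    have e1 := pg_log hp0
    have e2 := pg_log hp1
    have e3 : 1 / |v| ≤ 1 / u₀ := one_div_le_one_div_of_le hu h0
    have e4 : 1 / |1 - v| ≤ 1 / om := one_div_le_one_div_of_le ho h1
    have e5 : |1 - v| ≤ 1 + |v| := by
      refine (abs_sub _ _).trans ?_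
      rw [abs_one]
    linarith

theorem pg_cl_nonneg (om u : ℝ) : 0 ≤ cl om u := by
  unfold cl; exact le_max_left _ _

theorem pg_cl_le (om u : ℝ) : cl om u ≤ 1 := by
  unfold cl; exact max_le zero_le_one (min_le_left _ _)

theorem pg_cl_zero {om u : ℝ} (ho : 0 < om) (h : |1 - u| ≤ om) : cl om u = 0 := by
  unfold cl
  apply max_eq_left
  refine (min_le_right _ _).trans ?_
  have : |1 - u| / om ≤ 1 := by rw [div_le_one ho]; exact h
  linarith

theorem pg_cl_lip {om : ℝ} (ho : 0 < om) (u v : ℝ) : |cl om u - cl om v| ≤ |u - v| / om := by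
  unfold cl
  have h1 := abs_max_sub_max_le_max (0 : ℝ) (min 1 (|1 - u| / om - 1)) 0
    (min 1 (|1 - v| / om - 1))
  have h2 := abs_min_sub_min_le_max (1 : ℝ) (|1 - u| / om - 1) 1 (|1 - v| / om - 1)
  rw [sub_self, abs_zero] at h1 h2
  rw [max_eq_right (a := (0 : ℝ)) (b := |min 1 (|1 - u| / om - 1) - min 1 (|1 - v| / om - 1)|)
    (abs_nonneg _)] at h1
  rw [max_eq_right (a := (0 : ℝ)) (b := |(|1 - u| / om - 1) - (|1 - v| / om - 1)|)
    (abs_nonneg _)] at h2
  refine h1.trans (h2.trans ?_)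
  have e : |1 - u| / om - 1 - (|1 - v| / om - 1) = (|1 - u| - |1 - v|) / om := by ring
  rw [e, abs_div, abs_of_pos ho]
  apply div_le_div_of_nonneg_right _ ho.le
  refine (abs_abs_sub_abs_le_abs_sub _ _).trans ?_
  rw [show (1 - u) - (1 - v) = v - u by ring, abs_sub_comm]

theorem pg_KK_bd {G : ℝ → ℝ} {U c₀ : ℝ} (hG : GOK G U c₀) {u₀ om v : ℝ} (hu : 0 < u₀)
    (ho : 0 < om) (h0 : u₀ ≤ |v|) : |KK G om v| ≤ pgB U c₀ u₀ om := by
  have hU := hG.one_le
  have hc := hG.one_le'
  have hB : 0 ≤ pgB U c₀ u₀ om := by unfold pgB; positivity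
  unfold KK
  rw [abs_mul, abs_of_nonneg (pg_cl_nonneg _ _)]
  by_cases h1 : |1 - v| ≤ om
  · rw [pg_cl_zero ho h1, mul_zero]; exact hB
  · rw [not_le] at h1
    calc |G v| * cl om v ≤ pgB U c₀ u₀ om * 1 :=
          mul_le_mul (pg_G_bd hG hu ho h0 h1.le) (pg_cl_le _ _) (pg_cl_nonneg _ _) hB
      _ = pgB U c₀ u₀ om := mul_one _

theorem pg_KK_lip {G : ℝ → ℝ} {U c₀ : ℝ} (hG : GOK G U c₀) {u₀ om u v : ℝ} (hu₀ : 0 < u₀)
    (ho : 0 < om) (hu : u₀ ≤ |u|) (hv : u₀ ≤ |v|) :
    |KK G om u - KK G om v| ≤ pgP U c₀ u₀ om * |u - v| := by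
  have hU := hG.one_le
  have hc := hG.one_le'
  have hB : 0 ≤ pgB U c₀ u₀ om := by unfold pgB; positivity
  have hP1 : 0 ≤ c₀ * (2 / u₀ + 2 / om) ^ 3 := by positivity
  -- one of the points is in the cut
  have key : ∀ x y : ℝ, u₀ ≤ |x| → u₀ ≤ |y| → |1 - x| ≤ om → om < |1 - y| →
      |KK G om x - KK G om y| ≤ pgP U c₀ u₀ om * |x - y| := by
    intro x y hx hy h1 h2
    have e1 : KK G om x = 0 := by unfold KK; rw [pg_cl_zero ho h1, mul_zero]
    have e2 := pg_cl_lip ho x y
    rw [pg_cl_zero ho h1, zero_sub, abs_neg, abs_of_nonneg (pg_cl_nonneg _ _)] at e2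
    rw [e1, zero_sub, abs_neg]
    unfold KK
    rw [abs_mul, abs_of_nonneg (pg_cl_nonneg _ _)]
    calc |G y| * cl om y ≤ pgB U c₀ u₀ om * (|x - y| / om) :=
          mul_le_mul (pg_G_bd hG hu₀ ho hy h2.le) e2 (pg_cl_nonneg _ _) hB
      _ = pgB U c₀ u₀ om / om * |x - y| := by ring
      _ ≤ pgP U c₀ u₀ om * |x - y| := by
          apply mul_le_mul_of_nonneg_right _ (abs_nonneg _)
          unfold pgP
          linarith
  rcases le_or_gt (|1 - u|) om with h1 | h1
  · rcases le_or_gt (|1 - v|) om with h2 | h2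
    · have e1 : KK G om u = 0 := by unfold KK; rw [pg_cl_zero ho h1, mul_zero]
      have e2 : KK G om v = 0 := by unfold KK; rw [pg_cl_zero ho h2, mul_zero]
      rw [e1, e2, sub_zero, abs_zero]
      apply mul_nonneg _ (abs_nonneg _)
      unfold pgP
      have : 0 ≤ pgB U c₀ u₀ om / om := by positivity
      linarith
    · exact key u v hu hv h1 h2
  · rcases le_or_gt (|1 - v|) om with h2 | h2
    · rw [abs_sub_comm, abs_sub_comm u v]
      exact key v u hv hu h2 h1
    · have hu0 : u ≠ 0 := by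
        rintro rfl
        rw [abs_zero] at hu; linarith
      have hv0 : v ≠ 0 := by
        rintro rfl
        rw [abs_zero] at hv; linarith
      have hu1 : u ≠ 1 := by
        rintro rfl
        rw [sub_self, abs_zero] at h1; linarith
      have hv1 : v ≠ 1 := by
        rintro rfl
        rw [sub_self, abs_zero] at h2; linarith
      have hl := hG.lip u v hu0 hu1 hv0 hv1
      have e3 : (|u|⁻¹ + |1 - u|⁻¹ + |v|⁻¹ + |1 - v|⁻¹) ≤ 2 / u₀ + 2 / om := by
        have a1 : |u|⁻¹ ≤ u₀⁻¹ := inv_anti₀ hu₀ hu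
        have a2 : |v|⁻¹ ≤ u₀⁻¹ := inv_anti₀ hu₀ hv
        have a3 : |1 - u|⁻¹ ≤ om⁻¹ := inv_anti₀ ho h1.le
        have a4 : |1 - v|⁻¹ ≤ om⁻¹ := inv_anti₀ ho h2.le
        have a5 : 2 / u₀ = u₀⁻¹ + u₀⁻¹ := by ring
        have a6 : 2 / om = om⁻¹ + om⁻¹ := by ring
        linarith
      have e4 : |G u - G v| ≤ c₀ * (2 / u₀ + 2 / om) ^ 3 * |u - v| := by
        calc |G u - G v| ≤ c₀ * |u - v| * (|u|⁻¹ + |1 - u|⁻¹ + |v|⁻¹ + |1 - v|⁻¹) ^ 3 := hl
          _ ≤ c₀ * |u - v| * (2 / u₀ + 2 / om) ^ 3 := by gcongr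
          _ = c₀ * (2 / u₀ + 2 / om) ^ 3 * |u - v| := by ring
      have e5 : KK G om u - KK G om v = (G u - G v) * cl om u + G v * (cl om u - cl om v) := by
        unfold KK; ring
      rw [e5]
      refine (abs_add_le _ _).trans ?_
      rw [abs_mul, abs_mul, abs_of_nonneg (pg_cl_nonneg om u)]
      calc |G u - G v| * cl om u + |G v| * |cl om u - cl om v|
          ≤ c₀ * (2 / u₀ + 2 / om) ^ 3 * |u - v| * 1 + pgB U c₀ u₀ om * (|u - v| / om) := by
            apply add_le_add
            · exact mul_le_mul e4 (pg_cl_le _ _) (pg_cl_nonneg _ _) (by positivity)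
            · exact mul_le_mul (pg_G_bd hG hu₀ ho hv h2.le) (pg_cl_lip ho u v) (abs_nonneg _) hB
        _ = pgP U c₀ u₀ om * |u - v| := by unfold pgP; ring

/-- the Lipschitz constant of `KK u * (a + b log |1-u|)` -/
noncomputable def pgL (U c₀ u₀ om a b : ℝ) : ℝ :=
  pgP U c₀ u₀ om * (|a| + |b| * (1 + U + 1 / om)) + pgB U c₀ u₀ om * |b| / om

theorem pg_h_lip {G : ℝ → ℝ} {U c₀ : ℝ} (hG : GOK G U c₀) {u₀ om u v : ℝ} (a b : ℝ)
    (hu₀ : 0 < u₀) (ho : 0 < om) (hu : u₀ ≤ |u|) (hv : u₀ ≤ |v|) :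
    |KK G om u * (a + b * Real.log (|1 - u|)) - KK G om v * (a + b * Real.log (|1 - v|))| ≤
      pgL U c₀ u₀ om a b * |u - v| := by
  have hU := hG.one_le
  have hc := hG.one_le'
  have hB : 0 ≤ pgB U c₀ u₀ om := by unfold pgB; positivity
  have hP : 0 ≤ pgP U c₀ u₀ om := by unfold pgP; positivity
  have hL : 0 ≤ pgL U c₀ u₀ om a b := by unfold pgL; positivity
  have hKne : ∀ x : ℝ, KK G om x ≠ 0 → om < |1 - x| ∧ |x| ≤ U := by
    intro x hx
    unfold KK at hx
    constructor
    · by_contra h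
      exact hx (by rw [pg_cl_zero ho (not_lt.mp h), mul_zero])
    · by_contra h
      exact hx (by rw [hG.supp x (not_le.mp h), zero_mul])
  have hell : ∀ x : ℝ, KK G om x ≠ 0 →
      |a + b * Real.log (|1 - x|)| ≤ |a| + |b| * (1 + U + 1 / om) := by
    intro x hx
    obtain ⟨h1, h2⟩ := hKne x hx
    have hp : 0 < |1 - x| := by linarith
    have e1 := pg_log hp
    have e2 : 1 / |1 - x| ≤ 1 / om := one_div_le_one_div_of_le ho h1.le
    have e3 : |1 - x| ≤ 1 + U := by
      refine (abs_sub _ _).trans ?_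
      rw [abs_one]; linarith
    refine (abs_add_le _ _).trans ?_
    rw [abs_mul]
    have e4 : |Real.log (|1 - x|)| ≤ 1 + U + 1 / om := by linarith
    gcongr
  have key : ∀ x y : ℝ, u₀ ≤ |x| → u₀ ≤ |y| → KK G om x = 0 → KK G om y ≠ 0 →
      |KK G om x * (a + b * Real.log (|1 - x|)) - KK G om y * (a + b * Real.log (|1 - y|))| ≤
      pgL U c₀ u₀ om a b * |x - y| := by
    intro x y hx hy h1 h2
    have e1 := pg_KK_lip hG hu₀ ho hx hy
    rw [h1, zero_mul, zero_sub, abs_neg, abs_mul]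
    rw [h1, zero_sub, abs_neg] at e1
    calc |KK G om y| * |a + b * Real.log (|1 - y|)|
        ≤ pgP U c₀ u₀ om * |x - y| * (|a| + |b| * (1 + U + 1 / om)) :=
          mul_le_mul e1 (hell y h2) (abs_nonneg _) (by positivity)
      _ = pgP U c₀ u₀ om * (|a| + |b| * (1 + U + 1 / om)) * |x - y| := by ring
      _ ≤ pgL U c₀ u₀ om a b * |x - y| := by
          apply mul_le_mul_of_nonneg_right _ (abs_nonneg _)
          unfold pgL
          have : 0 ≤ pgB U c₀ u₀ om * |b| / om := by positivity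
          linarith
  by_cases h1 : KK G om u = 0
  · by_cases h2 : KK G om v = 0
    · rw [h1, h2, zero_mul, zero_mul, sub_zero, abs_zero]
      positivity
    · exact key u v hu hv h1 h2
  · by_cases h2 : KK G om v = 0
    · rw [abs_sub_comm, abs_sub_comm u v]
      exact key v u hv hu h2 h1
    · have hA := (hKne u h1).1
      have hA' := (hKne v h2).1
      have e1 := pg_KK_lip hG hu₀ ho hu hv
      have e2 := pg_log_lip ho hA.le hA'.le
      have e3 : |(|1 - u|) - (|1 - v|)| ≤ |u - v| := by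
        refine (abs_abs_sub_abs_le_abs_sub _ _).trans ?_
        rw [show (1 - u) - (1 - v) = v - u by ring, abs_sub_comm]
      have e4 : |Real.log (|1 - u|) - Real.log (|1 - v|)| ≤ |u - v| / om :=
        e2.trans (div_le_div_of_nonneg_right e3 ho.le)
      have e5 : KK G om u * (a + b * Real.log (|1 - u|)) - KK G om v * (a + b * Real.log (|1 - v|)) =
          (KK G om u - KK G om v) * (a + b * Real.log (|1 - u|)) +
          KK G om v * (b * (Real.log (|1 - u|) - Real.log (|1 - v|))) := by ring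
      rw [e5]
      refine (abs_add_le _ _).trans ?_
      rw [abs_mul, abs_mul, abs_mul b]
      calc |KK G om u - KK G om v| * |a + b * Real.log (|1 - u|)| +
            |KK G om v| * (|b| * |Real.log (|1 - u|) - Real.log (|1 - v|)|)
          ≤ pgP U c₀ u₀ om * |u - v| * (|a| + |b| * (1 + U + 1 / om)) +
            pgB U c₀ u₀ om * (|b| * (|u - v| / om)) := by
            apply add_le_add
            · exact mul_le_mul e1 (hell u h1) (abs_nonneg _) (by positivity)
            · apply mul_le_mul (pg_KK_bd hG hu₀ ho hv) _ (by positivity) hB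
              gcongr
        _ = pgL U c₀ u₀ om a b * |u - v| := by unfold pgL; ring

end Pool.Agent.LSPP
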