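import Pool.Agent.Lib_helper15.LSPF.GCS
import Pool.Agent.Lib_helper15.LSPF.TAU
import Pool.Agent.Lib_helper15.LSPF.PG1

set_option autoImplicit false

namespace Pool.Agent.LSPP

open Pool.Agent.LSP (tau sg1 CC Gs Adm)
open Pool.Agent.LSPO (hyp cl KK rho b1 GOK)
open Pool.Agent.FG61 (mu phi cc)
open MeasureTheory Filter Topology

theorem pg_card (S : Finset ℤ) (hS : 0 ∉ S) {T : ℝ} (hT : 0 ≤ T) :
    ((S.filter (fun g : ℤ => |(g : ℝ)| ≤ T)).card : ℝ) ≤ 2 * T := by
  have h1 : S.filter (fun g : ℤ => |(g : ℝ)| ≤ T) ⊆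
      (Finset.Icc (-(⌊T⌋₊ : ℤ)) (⌊T⌋₊ : ℤ)).erase 0 := by
    intro g hg
    rw [Finset.mem_filter] at hg
    rw [Finset.mem_erase, Finset.mem_Icc]
    refine ⟨fun h => hS (h ▸ hg.1), ?_⟩
    have h2 : (g.natAbs : ℝ) ≤ T := by
      rw [Nat.cast_natAbs, Int.cast_abs]; exact hg.2
    have h3 : g.natAbs ≤ ⌊T⌋₊ := Nat.le_floor h2
    omega
  have h2 := Finset.card_le_card h1
  rw [Finset.card_erase_of_mem (by rw [Finset.mem_Icc]; omega), Int.card_Icc] at h2
  have h3 : (S.filter (fun g : ℤ => |(g : ℝ)| ≤ T)).card ≤ 2 * ⌊T⌋₊ := by omega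
  have h4 : ((S.filter (fun g : ℤ => |(g : ℝ)| ≤ T)).card : ℝ) ≤ 2 * (⌊T⌋₊ : ℝ) := by
    exact_mod_cast h3
  have h5 : (⌊T⌋₊ : ℝ) ≤ T := Nat.floor_le hT
  linarith

theorem pg_harm (Q : ℕ) : ∑ n ∈ Finset.Icc 1 Q, 1 / (n : ℝ) ≤ 1 + Real.log Q := by
  have h := harmonic_le_one_add_log Q
  rw [harmonic_eq_sum_Icc] at h
  push_cast at h
  simpa [one_div] using h

/-- the term of `M5` -/
noncomputable def pgT (G : ℝ → ℝ) (R : ℕ) (om : ℝ) (n : ℕ) (g : ℤ) (Z : ℝ) : ℝ :=
  KK G om ((g : ℝ) * Z / n) * ∑ c ∈ Finset.Icc 1 R,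
    cc c n * cc c g.natAbs / (c * phi c) * (Real.log |(n : ℝ) - g * Z| / 2 + ga - Real.log c)

noncomputable def pgb (R n : ℕ) (g : ℤ) : ℝ :=
  ∑ c ∈ Finset.Icc 1 R, cc c n * cc c g.natAbs / (c * phi c) / 2

noncomputable def pga (R n : ℕ) (g : ℤ) : ℝ :=
  ∑ c ∈ Finset.Icc 1 R, cc c n * cc c g.natAbs / (c * phi c) * (Real.log n / 2 + ga - Real.log c)

theorem pgT_eq (G : ℝ → ℝ) (R : ℕ) {om : ℝ} (ho : 0 < om) {n : ℕ} (hn : 1 ≤ n) (g : ℤ) (Z : ℝ) :
    pgT G R om n g Z = KK G om ((g : ℝ) * Z / n) *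
      (pga R n g + pgb R n g * Real.log (|1 - (g : ℝ) * Z / n|)) := by
  have hn0 : (0 : ℝ) < n := by exact_mod_cast hn
  by_cases h1 : (g : ℝ) * Z / n = 1
  · have : KK G om ((g : ℝ) * Z / n) = 0 := by
      unfold KK
      rw [pg_cl_zero ho (by rw [h1, sub_self, abs_zero]; exact ho.le), mul_zero]
    unfold pgT
    rw [this, zero_mul, zero_mul]
  · unfold pgT pga pgb
    congr 1
    rw [Finset.sum_mul, ← Finset.sum_add_distrib]
    refine Finset.sum_congr rfl fun c _ => ?_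
    have e1 : (n : ℝ) - g * Z = n * (1 - (g : ℝ) * Z / n) := by field_simp
    have e2 : |1 - (g : ℝ) * Z / n| ≠ 0 := by
      rw [abs_ne_zero]
      exact sub_ne_zero.mpr (Ne.symm h1)
    rw [e1, abs_mul, abs_of_pos hn0, Real.log_mul hn0.ne' e2]
    ring

theorem pg_ab {R n : ℕ} {g : ℤ} (hn : 1 ≤ n) (hg : g ≠ 0) :
    |pga R n g| + |pgb R n g| ≤
      16 * (1 + Real.log R) * (1 + Real.log n + Real.log R) * (tau n * tau g.natAbs) := by
  have hg1 : 1 ≤ g.natAbs := Int.natAbs_pos.mpr hg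
  have hs := gcs_all (m := R) hn hg1
  have hlR : 0 ≤ Real.log R := Real.log_natCast_nonneg R
  have hln : 0 ≤ Real.log n := Real.log_natCast_nonneg n
  have hτ : 0 ≤ tau n * tau g.natAbs := by unfold tau; positivity
  set Sg := ∑ c ∈ Finset.Icc 1 R, |cc c n * cc c g.natAbs| / (c * phi c) with hSg
  have hSg0 : 0 ≤ Sg := Finset.sum_nonneg fun c _ => by positivity
  have hga : |ga| ≤ 1 := by
    have h1 := Real.one_half_lt_eulerMascheroniConstant
    have h2 := Real.eulerMascheroniConstant_lt_two_thirds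
    rw [abs_le]; constructor <;> linarith
  have hb : |pgb R n g| ≤ Sg / 2 := by
    unfold pgb
    refine (Finset.abs_sum_le_sum_abs _ _).trans ?_
    rw [hSg, Finset.sum_div]
    refine Finset.sum_le_sum fun c _ => ?_
    rw [abs_div, abs_div, abs_two, abs_of_nonneg (show 0 ≤ (c : ℝ) * phi c by positivity)]
  have ha : |pga R n g| ≤ Sg * (1 + Real.log n + Real.log R) := by
    unfold pga
    refine (Finset.abs_sum_le_sum_abs _ _).trans ?_
    rw [hSg, Finset.sum_mul]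
    refine Finset.sum_le_sum fun c hc => ?_
    rw [Finset.mem_Icc] at hc
    rw [abs_mul, abs_div, abs_of_nonneg (show 0 ≤ (c : ℝ) * phi c by positivity)]
    apply mul_le_mul_of_nonneg_left _ (by positivity)
    have hlc : Real.log c ≤ Real.log R := by
      apply Real.log_le_log
      · exact_mod_cast hc.1
      · exact_mod_cast hc.2
    have hlc0 : 0 ≤ Real.log c := Real.log_natCast_nonneg c
    rw [abs_le] at hga ⊢
    constructor <;> linarith
  have h1 : |pga R n g| + |pgb R n g| ≤ 2 * (Sg * (1 + Real.log n + Real.log R)) := by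
    have : Sg / 2 ≤ Sg * (1 + Real.log n + Real.log R) := by nlinarith
    linarith
  refine h1.trans ?_
  have h2 : Sg * (1 + Real.log n + Real.log R) ≤
      (8 * (1 + Real.log R) * tau n * tau g.natAbs) * (1 + Real.log n + Real.log R) :=
    mul_le_mul_of_nonneg_right hs (by linarith)
  linarith

theorem pg_term_lip {G : ℝ → ℝ} {U c₀ : ℝ} (hG : GOK G U c₀) {u₀ om X : ℝ} (hu₀ : 0 < u₀)
    (ho : 0 < om) (hX : 0 < X) {R n : ℕ} {g : ℤ} (hn : 1 ≤ n) (hg : g ≠ 0)
    (hu : u₀ ≤ |(g : ℝ)| * X / n) {s t : ℝ} (hs : 1 ≤ s) (ht : 1 ≤ t) :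
    |pgT G R om n g (t * X) - pgT G R om n g (s * X)| ≤
      if |(g : ℝ)| ≤ U * n / X then
        ((pgP U c₀ u₀ om * (2 + U + 1 / om) + pgB U c₀ u₀ om / om) *
          (|pga R n g| + |pgb R n g|)) * U * |t - s| else 0 := by
  have hU := hG.one_le
  have hc := hG.one_le'
  have hn0 : (0 : ℝ) < n := by exact_mod_cast hn
  have hB : 0 ≤ pgB U c₀ u₀ om := by unfold pgB; positivity
  have hP : 0 ≤ pgP U c₀ u₀ om := by unfold pgP; positivity
  have habs : ∀ r : ℝ, 1 ≤ r → |(g : ℝ) * (r * X) / n| = r * (|(g : ℝ)| * X / n) := by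
    intro r hr
    rw [abs_div, abs_mul, abs_of_pos hn0, abs_of_pos (show 0 < r * X by positivity)]
    ring
  have hbig : ∀ r : ℝ, 1 ≤ r → |(g : ℝ)| * X / n ≤ |(g : ℝ) * (r * X) / n| := by
    intro r hr
    rw [habs r hr]
    have : 0 ≤ |(g : ℝ)| * X / n := by positivity
    nlinarith
  split_ifs with h
  · rw [pgT_eq G R ho hn, pgT_eq G R ho hn]
    refine (pg_h_lip hG (pga R n g) (pgb R n g) hu₀ ho (hu.trans (hbig t ht))
      (hu.trans (hbig s hs))).trans ?_
    have e1 : |(g : ℝ) * (t * X) / n - (g : ℝ) * (s * X) / n| ≤ U * |t - s| := by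
      have e2 : (g : ℝ) * (t * X) / n - (g : ℝ) * (s * X) / n = ((g : ℝ) * X / n) * (t - s) := by
        ring
      rw [e2, abs_mul]
      apply mul_le_mul_of_nonneg_right _ (abs_nonneg _)
      rw [abs_div, abs_mul, abs_of_pos hn0, abs_of_pos hX, div_le_iff₀ hn0]
      rwa [le_div_iff₀ hX] at h
    have e3 : pgL U c₀ u₀ om (pga R n g) (pgb R n g) ≤
        (pgP U c₀ u₀ om * (2 + U + 1 / om) + pgB U c₀ u₀ om / om) *
          (|pga R n g| + |pgb R n g|) := by
      unfold pgL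
      have a0 : 0 ≤ |pga R n g| := abs_nonneg _
      have b0 : 0 ≤ |pgb R n g| := abs_nonneg _
      have o0 : 0 ≤ 1 / om := by positivity
      have f1 : |pga R n g| + |pgb R n g| * (1 + U + 1 / om) ≤
          (2 + U + 1 / om) * (|pga R n g| + |pgb R n g|) := by nlinarith
      have f2 : pgB U c₀ u₀ om * |pgb R n g| / om ≤
          pgB U c₀ u₀ om / om * (|pga R n g| + |pgb R n g|) := by
        have : pgB U c₀ u₀ om * |pgb R n g| / om = pgB U c₀ u₀ om / om * |pgb R n g| := by ring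
        rw [this]
        apply mul_le_mul_of_nonneg_left _ (by positivity)
        linarith
      have f3 := mul_le_mul_of_nonneg_left f1 hP
      linarith
    calc pgL U c₀ u₀ om (pga R n g) (pgb R n g) * |(g : ℝ) * (t * X) / n - (g : ℝ) * (s * X) / n|
        ≤ ((pgP U c₀ u₀ om * (2 + U + 1 / om) + pgB U c₀ u₀ om / om) *
          (|pga R n g| + |pgb R n g|)) * (U * |t - s|) := by
          apply mul_le_mul e3 e1 (abs_nonneg _)
          positivity
      _ = _ := by ring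
  · have h2 : U < |(g : ℝ)| * X / n := by
      rw [not_le, div_lt_iff₀ hX] at h
      rw [lt_div_iff₀ hn0]; exact h
    have hz : ∀ r : ℝ, 1 ≤ r → pgT G R om n g (r * X) = 0 := by
      intro r hr
      unfold pgT KK
      rw [hG.supp _ (h2.trans_le (hbig r hr)), zero_mul, zero_mul]
    rw [hz t ht, hz s hs, sub_zero, abs_zero]

end Pool.Agent.LSPP
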